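import Pool.Agent.EStab.EqInv

/-!
# Smoothness and linearisation of the Einstein equations at `ε = 0`
-/

namespace Pool.Agent.EStab

open Matrix Filter Topology
open scoped Matrix.Norms.Operator

attribute [-instance] instTopologicalSpaceMatrix Matrix.instUniformSpace

variable {d : ℕ}

/-- `Θ` as a continuous bilinear map. -/
noncomputable def ThL (S : SC d) : Mt d →L[ℝ] Mt d →L[ℝ] Mt d :=
  LinearMap.toContinuousLinearMap
    { toFun := fun U => LinearMap.toContinuousLinearMap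
        { toFun := fun V => S.Th U V
          map_add' := S.Th_add_right U
          map_smul' := fun t V => S.Th_smul_right t U V }
      map_add' := fun U U' => by
        ext V : 1
        exact S.Th_add_left U U' V
      map_smul' := fun t U => by
        ext V : 1
        exact S.Th_smul_left t U V }

theorem ThL_apply (S : SC d) (U V : Mt d) : ThL S U V = S.Th U V := rfl

theorem contDiffAt_Th {E : Type*} [NormedAddCommGroup E] [NormedSpace ℝ E] (S : SC d)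
    {f g : E → Mt d} {x : E} (hf : ContDiffAt ℝ 1 f x) (hg : ContDiffAt ℝ 1 g x) :
    ContDiffAt ℝ 1 (fun w => S.Th (f w) (g w)) x := by
  have h1 : ContDiffAt ℝ 1 (fun w => ThL S (f w)) x := (ThL S).contDiff.contDiffAt.comp x hf
  exact h1.clm_apply hg

theorem contDiffAt_inv_one : ContDiffAt ℝ 1 (fun A : Mt d => A⁻¹) 1 := by
  have h1 : (fun A : Mt d => A⁻¹) = Ring.inverse := by
    funext A
    exact Matrix.nonsing_inv_eq_ringInverse A
  rw [h1]
  exact contDiffAt_ringInverse ℝ (1 : (Mt d)ˣ)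

section Smooth

variable {E : Type*} [NormedAddCommGroup E] [NormedSpace ℝ E]

theorem contDiffAt_inv {A : E → Mt d} {x : E} (hA : ContDiffAt ℝ 1 A x) (hA1 : A x = 1) :
    ContDiffAt ℝ 1 (fun w => (A w)⁻¹) x := by
  have h1 : ContDiffAt ℝ 1 (fun A : Mt d => A⁻¹) (A x) := by
    rw [hA1]
    exact contDiffAt_inv_one
  exact h1.comp x hA

theorem contDiffAt_RV (S : SC d) {ε : E → ℝ} {P A Y : E → Mt d} {x : E}
    (hε : ContDiffAt ℝ 1 ε x) (hP : ContDiffAt ℝ 1 P x) (hA : ContDiffAt ℝ 1 A x)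
    (hY : ContDiffAt ℝ 1 Y x) (hA1 : A x = 1) (hY1 : Y x = 1) :
    ContDiffAt ℝ 1 (fun w => RV S (ε w) (P w) (A w) (Y w)) x := by
  have hW := contDiffAt_inv hA hA1
  have hZ := contDiffAt_inv hY hY1
  have h2 := (hP.mul hY).mul hP
  have h3 := (hP.mul hZ).mul hP
  have hc : ContDiffAt ℝ 1 (fun w => 1 - 2 * ε w) x := contDiffAt_const.sub
    (contDiffAt_const.mul hε)
  have hc2 : ContDiffAt ℝ 1 (fun w => 2 * ε w) x := contDiffAt_const.mul hε
  have e1 := ((hc.smul (contDiffAt_Th S hW hA)).add (hε.smul (contDiffAt_Th S hW h2))).add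
    (hε.smul (contDiffAt_Th S h3 hA))
  have e2 := (hA.mul ((hc.smul (contDiffAt_Th S hW hW)).add (hc2.smul
    (contDiffAt_Th S hW h3)))).mul hA
  have e3 : ContDiffAt ℝ 1 (fun _ : E => (1 / 2 : ℝ) • (1 : Mt d)) x := contDiffAt_const
  exact ((e1.const_smul (-(1 / 2 : ℝ))).add e3).add (e2.const_smul (1 / 4 : ℝ))

theorem contDiffAt_R0 (S : SC d) {ε : E → ℝ} {P A Y : E → Mt d} {x : E}
    (hε : ContDiffAt ℝ 1 ε x) (hP : ContDiffAt ℝ 1 P x) (hA : ContDiffAt ℝ 1 A x)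
    (hY : ContDiffAt ℝ 1 Y x) (hA1 : A x = 1) (hY1 : Y x = 1) :
    ContDiffAt ℝ 1 (fun w => R0 S (ε w) (P w) (A w) (Y w)) x := by
  have hW := contDiffAt_inv hA hA1
  have hZ := contDiffAt_inv hY hY1
  have h2 := (hP.mul hY).mul hP
  have h3 := (hP.mul hZ).mul hP
  have hc : ContDiffAt ℝ 1 (fun w => 1 - ε w) x := contDiffAt_const.sub hε
  have e1 := (hc.smul (contDiffAt_Th S hW hA)).add (hε.smul (contDiffAt_Th S h3 h2))
  have e2 := (h2.mul ((hc.smul (contDiffAt_Th S hW hW)).add (hε.smul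
    (contDiffAt_Th S h3 h3)))).mul h2
  have e3 : ContDiffAt ℝ 1 (fun _ : E => (1 / 2 : ℝ) • (1 : Mt d)) x := contDiffAt_const
  exact ((e1.const_smul (-(1 / 2 : ℝ))).add e3).add (e2.const_smul (1 / 4 : ℝ))

end Smooth

/-! ### The equation as a map -/

/-- The two Einstein equations. -/
noncomputable def FF (S : SC d) (q : ℝ × Mt d) (z : Mt d × Mt d) : Mt d × Mt d :=
  (RV S q.1 q.2 z.1 z.2 - (1 / 4 : ℝ) • z.1,
    q.2 * R0 S q.1 q.2 z.1 z.2 * q.2 - (1 / 4 : ℝ) • z.2 + (1 / 4 : ℝ) • (1 - q.2))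

theorem contDiffAt_FF (S : SC d) {E : Type*} [NormedAddCommGroup E] [NormedSpace ℝ E]
    {q : E → ℝ × Mt d} {z : E → Mt d × Mt d} {x : E} (hq : ContDiffAt ℝ 1 q x)
    (hz : ContDiffAt ℝ 1 z x) (hz1 : z x = (1, 1)) :
    ContDiffAt ℝ 1 (fun w => FF S (q w) (z w)) x := by
  have h1 := hq.fst
  have h2 := hq.snd
  have h3 := hz.fst
  have h4 := hz.snd
  have h5 : (z x).1 = 1 := by rw [hz1]
  have h6 : (z x).2 = 1 := by rw [hz1]
  refine ContDiffAt.prodMk ?_ ?_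
  · exact (contDiffAt_RV S h1 h2 h3 h4 h5 h6).sub (h3.const_smul (1 / 4 : ℝ))
  · exact (((h2.mul (contDiffAt_R0 S h1 h2 h3 h4 h5 h6)).mul h2).sub
      (h4.const_smul (1 / 4 : ℝ))).add ((contDiffAt_const.sub h2).const_smul (1 / 4 : ℝ))

/-! ### The linearisation -/

theorem hasDerivAt_Th (S : SC d) {f g : ℝ → Mt d} {f' g' : Mt d} (hf : HasDerivAt f f' 0)
    (hg : HasDerivAt g g' 0) :
    HasDerivAt (fun t => S.Th (f t) (g t)) (S.Th f' (g 0) + S.Th (f 0) g') 0 := by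
  have h1 : HasDerivAt (fun t => ThL S (f t)) (ThL S f') 0 :=
    (ThL S).hasFDerivAt.comp_hasDerivAt 0 hf
  exact h1.clm_apply hg

theorem hasDerivAt_inv (α : Mt d) : HasDerivAt (fun t : ℝ => (1 + t • α)⁻¹) (-α) 0 := by
  have h1 : (fun t : ℝ => (1 + t • α)⁻¹) = fun t : ℝ => Ring.inverse (1 + t • α) := by
    funext t
    exact Matrix.nonsing_inv_eq_ringInverse _
  rw [h1]
  have h2 : HasDerivAt (fun t : ℝ => 1 + t • α) α 0 := by
    have h3 := ((hasDerivAt_id (0 : ℝ)).smul_const α).const_add (1 : Mt d)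
    simpa using h3
  have h4 := hasFDerivAt_ringInverse (𝕜 := ℝ) (1 : (Mt d)ˣ)
  have h5 : ((1 : (Mt d)ˣ) : Mt d) = 1 + (0 : ℝ) • α := by simp
  rw [h5] at h4
  have h6 := h4.comp_hasDerivAt (0 : ℝ) h2
  refine h6.congr_deriv ?_
  simp

theorem hasDerivAt_line (α : Mt d) : HasDerivAt (fun t : ℝ => 1 + t • α) α 0 := by
  have h3 := ((hasDerivAt_id (0 : ℝ)).smul_const α).const_add (1 : Mt d)
  simpa using h3

theorem hasDerivAt_FF (S : SC d) {P : Mt d} (hPP : P * P = P) (α η : Mt d) :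
    HasDerivAt (fun t : ℝ => FF S (0, P) (1 + t • α, 1 + t • η))
      ((1 / 4 : ℝ) • α - (1 / 2 : ℝ) • S.Th 1 α,
        (1 / 2 : ℝ) • (P * η * P) - (1 / 2 : ℝ) • (P * S.Th 1 α * P) - (1 / 4 : ℝ) • η) 0 := by
  have hA := hasDerivAt_line α
  have hY := hasDerivAt_line η
  have hW := hasDerivAt_inv α
  have z0 : (1 : Mt d) + (0 : ℝ) • α = 1 := by simp
  have z1 : (1 : Mt d) + (0 : ℝ) • η = 1 := by simp
  have z2 : ((1 : Mt d) + (0 : ℝ) • α)⁻¹ = 1 := by rw [z0, inv_one]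
  have hneg : S.Th (-α) 1 = -S.Th 1 α := by
    have := S.Th_smul_left (-1) α 1
    rw [neg_one_smul, neg_one_smul] at this
    rw [this, S.Th_comm]
  have hneg' : S.Th 1 (-α) = -S.Th 1 α := by
    rw [S.Th_comm, hneg]
  have t1 := hasDerivAt_Th S hW hA
  have t2 := hasDerivAt_Th S hW hW
  have t3 := (hA.mul t2).mul hA
  have hPY : HasDerivAt (fun t : ℝ => P * (1 + t • η) * P) (P * η * P) 0 :=
    (hY.const_mul P).mul_const P
  have t4 := (hPY.mul t2).mul hPY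
  have hc : HasDerivAt (fun _ : ℝ => (1 / 2 : ℝ) • (1 : Mt d)) 0 0 := hasDerivAt_const _ _
  have hc2 : HasDerivAt (fun _ : ℝ => (1 / 4 : ℝ) • (1 - P)) 0 0 := hasDerivAt_const _ _
  refine HasDerivAt.prodMk ?_ ?_
  · have h1 := (((t1.const_smul (-(1 / 2 : ℝ))).add hc).add (t3.const_smul (1 / 4 : ℝ))).sub
      (hA.const_smul (1 / 4 : ℝ))
    have e1 : (fun t : ℝ => RV S 0 P (1 + t • α) (1 + t • η) - (1 / 4 : ℝ) • (1 + t • α))
        = fun t : ℝ => -(1 / 2 : ℝ) • S.Th (1 + t • α)⁻¹ (1 + t • α) + (1 / 2 : ℝ) • 1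
          + (1 / 4 : ℝ) • ((1 + t • α) * S.Th (1 + t • α)⁻¹ (1 + t • α)⁻¹ * (1 + t • α))
          - (1 / 4 : ℝ) • (1 + t • α) := by
      funext t
      rw [RV_zero]
    show HasDerivAt (fun t : ℝ => RV S 0 P (1 + t • α) (1 + t • η) - (1 / 4 : ℝ) • (1 + t • α)) _ 0
    rw [e1]
    refine h1.congr_deriv ?_
    simp only [Pi.mul_apply, z0, inv_one, hneg, hneg', S.Th_one_one, Matrix.mul_one,
      Matrix.one_mul, Matrix.mul_add, Matrix.add_mul, Matrix.mul_neg, Matrix.neg_mul]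
    module
  · have h1 := ((((((t1.const_smul (-(1 / 2 : ℝ))).add hc).add
      (t4.const_smul (1 / 4 : ℝ))).const_mul P).mul_const P).sub
      (hY.const_smul (1 / 4 : ℝ))).add hc2
    have e1 : (fun t : ℝ => P * R0 S 0 P (1 + t • α) (1 + t • η) * P - (1 / 4 : ℝ) • (1 + t • η)
          + (1 / 4 : ℝ) • (1 - P))
        = fun t : ℝ => P * (-(1 / 2 : ℝ) • S.Th (1 + t • α)⁻¹ (1 + t • α) + (1 / 2 : ℝ) • 1
          + (1 / 4 : ℝ) • ((P * (1 + t • η) * P) * S.Th (1 + t • α)⁻¹ (1 + t • α)⁻¹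
            * (P * (1 + t • η) * P))) * P
          - (1 / 4 : ℝ) • (1 + t • η) + (1 / 4 : ℝ) • (1 - P) := by
      funext t
      rw [R0_zero]
    show HasDerivAt (fun t : ℝ => P * R0 S 0 P (1 + t • α) (1 + t • η) * P
      - (1 / 4 : ℝ) • (1 + t • η) + (1 / 4 : ℝ) • (1 - P)) _ 0
    rw [e1]
    refine h1.congr_deriv ?_
    have p1 : ∀ M : Mt d, P * (P * M) = P * M := fun M => by rw [← Matrix.mul_assoc, hPP]
    simp only [Pi.mul_apply, z0, z1, inv_one, hneg, hneg', S.Th_one_one, Matrix.mul_one, Matrix.one_mul,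
      Matrix.mul_add, Matrix.add_mul, Matrix.mul_smul, Matrix.smul_mul, Matrix.mul_neg,
      Matrix.neg_mul, Matrix.mul_assoc, hPP, p1, Matrix.mul_zero, Matrix.zero_mul]
    module

end Pool.Agent.EStab
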