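import Pool.Agent.EStab.Bridge

/-!
# Frames

Throughout `ε = 1/n`, `P` is a symmetric idempotent matrix, `A` and `Y` are positive definite and
`P Y = Y P`.  Put `Y' = P Y P`, `Z' = P Y⁻¹ P` (so `Y' Z' = P = Z' Y'`).

* `bet_symm`, `bet_mean`: with `x'_i = x i - mean x`, `bet ε A A' x y = ∑ i, x'_i ⬝ (A y'_i) + n * (mean x) ⬝
  (A' (mean y))` (expand the blocks; `∑ i, x i = n • mean x`).
* `bet_prj`: `prj P` does not change `x'_i` and replaces `mean x` by `P (mean x)`; as `P Y' P = Y'`,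
  `bet ε A Y' (prj P x) (prj P y) = bet ε A Y' x y`.
* `exists_onb`: on the subspace `m = {x | P (mean x) = mean x}` the form `bet ε A Y'` is symmetric and
  positive definite by `bet_mean`; take an orthogonal basis
  (`LinearMap.BilinForm.exists_orthogonal_basis`) and normalise it.
* `frame_sum`: for `y : Fin n → Fin d → ℝ` put `w i = ∑ j, blk ε A⁻¹ Z' i j *ᵥ y j`.  Then `w ∈ m`
  (its mean is `Z' (mean y)`), and `bet ε A Y' x w = ∑ i, x i ⬝ (y i)` for `x ∈ m` (product of the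
  block matrices: `blk A Y' * blk A⁻¹ Z' = blk 1 P`, and `blk 1 P` acts as `prj P`).  Since `X` is an
  orthonormal basis of `m`, `w = ∑ s, bet (X s) w • X s = ∑ s, (∑ i, X s i ⬝ y i) • X s`.  Taking for
  `y` the standard basis vectors: `∑ s, X s i a * X s j b = (blk ε A⁻¹ Z' i j) a b`.
-/

namespace Pool.Agent.EStab

open Matrix

variable {d n : ℕ}

private theorem BrFrame_expand (ε : ℝ) (A A' : Mt d) (x y : Fin n → Fin d → ℝ) :
    bet ε A A' x y = ∑ i, x i ⬝ᵥ (A *ᵥ y i) - ε * ((∑ i, x i) ⬝ᵥ (A *ᵥ ∑ j, y j))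
      + ε * ((∑ i, x i) ⬝ᵥ (A' *ᵥ ∑ j, y j)) := by
  have h1 : ∀ i j, x i ⬝ᵥ (blk ε A A' i j *ᵥ y j) =
      (if i = j then x i ⬝ᵥ (A *ᵥ y j) else 0) - ε * (x i ⬝ᵥ (A *ᵥ y j))
        + ε * (x i ⬝ᵥ (A' *ᵥ y j)) := by
    intro i j
    unfold blk
    rw [Matrix.add_mulVec, Matrix.smul_mulVec, Matrix.smul_mulVec, dotProduct_add,
      dotProduct_smul, dotProduct_smul, smul_eq_mul, smul_eq_mul]
    split_ifs <;> ring
  have h2 : ∀ M : Mt d, (∑ i, x i) ⬝ᵥ (M *ᵥ ∑ j, y j) = ∑ i, ∑ j, x i ⬝ᵥ (M *ᵥ y j) := by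
    intro M
    rw [sum_dotProduct]
    refine Finset.sum_congr rfl fun i _ => ?_
    rw [Matrix.mulVec_sum, dotProduct_sum]
  unfold bet
  simp only [h1, h2, Finset.sum_add_distrib, Finset.sum_sub_distrib, Finset.sum_ite_eq,
    Finset.mem_univ, if_true, ← Finset.mul_sum]

private theorem BrFrame_sum (hn : 0 < n) (x : Fin n → Fin d → ℝ) :
    ∑ i, x i = (n : ℝ) • mean x := by
  have hn' : (n : ℝ) ≠ 0 := by exact_mod_cast hn.ne'
  unfold mean
  rw [smul_smul, mul_one_div_cancel hn', one_smul]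

theorem bet_mean (hn : 0 < n) (A A' : Mt d) (x y : Fin n → Fin d → ℝ) :
    bet (1 / (n : ℝ)) A A' x y = ∑ i, (x i - mean x) ⬝ᵥ (A *ᵥ (y i - mean y))
      + n * (mean x ⬝ᵥ (A' *ᵥ mean y)) := by
  have hn' : (n : ℝ) ≠ 0 := by exact_mod_cast hn.ne'
  rw [BrFrame_expand, BrFrame_sum hn x, BrFrame_sum hn y]
  have h2 : ∑ i, (x i - mean x) ⬝ᵥ (A *ᵥ (y i - mean y)) =
      ∑ i, x i ⬝ᵥ (A *ᵥ y i) - n * (mean x ⬝ᵥ (A *ᵥ mean y)) := by
    have h3 : ∀ i, (x i - mean x) ⬝ᵥ (A *ᵥ (y i - mean y)) = x i ⬝ᵥ (A *ᵥ y i)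
        - x i ⬝ᵥ (A *ᵥ mean y) - mean x ⬝ᵥ (A *ᵥ y i) + mean x ⬝ᵥ (A *ᵥ mean y) := by
      intro i
      rw [Matrix.mulVec_sub, dotProduct_sub, sub_dotProduct, sub_dotProduct]
      ring
    simp only [h3, Finset.sum_add_distrib, Finset.sum_sub_distrib]
    rw [← sum_dotProduct, ← dotProduct_sum, ← Matrix.mulVec_sum, BrFrame_sum hn x,
      BrFrame_sum hn y, Matrix.mulVec_smul, smul_dotProduct, dotProduct_smul, Finset.sum_const,
      Finset.card_univ, Fintype.card_fin, nsmul_eq_mul, smul_eq_mul]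
    ring
  rw [h2]
  simp only [Matrix.mulVec_smul, smul_dotProduct, dotProduct_smul, smul_eq_mul]
  field_simp

private theorem BrFrame_dot {A : Mt d} (hA : Aᵀ = A) (u v : Fin d → ℝ) :
    u ⬝ᵥ (A *ᵥ v) = v ⬝ᵥ (A *ᵥ u) := by
  rw [dotProduct_mulVec, ← Matrix.mulVec_transpose, hA, dotProduct_comm]

theorem bet_symm (ε : ℝ) {A A' : Mt d} (hA : Aᵀ = A) (hA' : A'ᵀ = A') (x y : Fin n → Fin d → ℝ) :
    bet ε A A' x y = bet ε A A' y x := by
  rw [BrFrame_expand, BrFrame_expand, BrFrame_dot hA (∑ i, x i), BrFrame_dot hA' (∑ i, x i)]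
  congr 2
  exact Finset.sum_congr rfl fun i _ => BrFrame_dot hA _ _

private theorem BrFrame_mean_prj (hn : 0 < n) (P : Mt d) (x : Fin n → Fin d → ℝ) :
    mean (prj P x) = P *ᵥ mean x := by
  have hn' : (n : ℝ) ≠ 0 := by exact_mod_cast hn.ne'
  have h1 : ∑ i, prj P x i = (n : ℝ) • (P *ᵥ mean x) := by
    unfold prj
    rw [Finset.sum_sub_distrib, Finset.sum_const, Finset.card_univ, Fintype.card_fin,
      BrFrame_sum hn x, ← Nat.cast_smul_eq_nsmul ℝ, smul_sub, sub_sub_cancel]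
  unfold mean at h1 ⊢
  rw [h1, smul_smul, one_div_mul_cancel hn', one_smul]

theorem bet_prj (hn : 0 < n) {P : Mt d} (hP : Pᵀ = P) (hPP : P * P = P) (A Y : Mt d)
    (x y : Fin n → Fin d → ℝ) :
    bet (1 / (n : ℝ)) A (P * Y * P) (prj P x) (prj P y) = bet (1 / (n : ℝ)) A (P * Y * P) x y := by
  rw [bet_mean hn, bet_mean hn, BrFrame_mean_prj hn, BrFrame_mean_prj hn]
  congr 1
  · refine Finset.sum_congr rfl fun i _ => ?_
    have h1 : ∀ z : Fin n → Fin d → ℝ, prj P z i - P *ᵥ mean z = z i - mean z := by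
      intro z
      unfold prj
      abel
    rw [h1, h1]
  · congr 1
    rw [dotProduct_comm, ← dotProduct_comm, dotProduct_mulVec]
    rw [← Matrix.vecMul_transpose P (mean x), hP]
    rw [Matrix.vecMul_vecMul, ← dotProduct_mulVec, Matrix.mulVec_mulVec]
    congr 2
    simp only [Matrix.mul_assoc, hPP]
    rw [← Matrix.mul_assoc P P, hPP]

private theorem BrFrame_pos (hn : 0 < n) {P A Y : Mt d} (hP : Pᵀ = P) (hA : A.PosDef)
    (hY : Y.PosDef) {x : Fin n → Fin d → ℝ} (hx : P *ᵥ mean x = mean x) (hx0 : x ≠ 0) :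
    0 < bet (1 / (n : ℝ)) A (P * Y * P) x x := by
  have hn' : (0 : ℝ) < n := by exact_mod_cast hn
  rw [bet_mean hn]
  have h1 : mean x ⬝ᵥ ((P * Y * P) *ᵥ mean x) = mean x ⬝ᵥ (Y *ᵥ mean x) := by
    rw [← Matrix.mulVec_mulVec, hx, ← Matrix.mulVec_mulVec, dotProduct_mulVec,
      ← Matrix.mulVec_transpose, hP, hx]
  rw [h1]
  have h2 : ∀ {M : Mt d}, M.PosDef → ∀ u, 0 ≤ u ⬝ᵥ (M *ᵥ u) := by
    intro M hM u
    have := hM.posSemidef.dotProduct_mulVec_nonneg u
    simpa using this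
  have h3 : ∀ {M : Mt d}, M.PosDef → ∀ {u : Fin d → ℝ}, u ≠ 0 → 0 < u ⬝ᵥ (M *ᵥ u) := by
    intro M hM u hu
    have := hM.dotProduct_mulVec_pos hu
    simpa using this
  by_cases hm : mean x = 0
  · have h4 : ∃ i, x i ≠ 0 := by
      by_contra hcon
      push Not at hcon
      exact hx0 (funext hcon)
    obtain ⟨i, hi⟩ := h4
    have h5 : 0 < ∑ i, (x i - mean x) ⬝ᵥ (A *ᵥ (x i - mean x)) := by
      refine Finset.sum_pos' (fun j _ => h2 hA _) ⟨i, Finset.mem_univ _, ?_⟩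
      rw [hm, sub_zero]
      exact h3 hA hi
    have h6 := mul_nonneg hn'.le (h2 hY (mean x))
    linarith
  · have h5 : 0 ≤ ∑ i, (x i - mean x) ⬝ᵥ (A *ᵥ (x i - mean x)) :=
      Finset.sum_nonneg fun j _ => h2 hA _
    have h6 := mul_pos hn' (h3 hY hm)
    linarith

private theorem BrFrame_add (ε : ℝ) (A A' : Mt d) (x x' y : Fin n → Fin d → ℝ) :
    bet ε A A' (x + x') y = bet ε A A' x y + bet ε A A' x' y := by
  unfold bet
  simp only [Pi.add_apply, add_dotProduct, Finset.sum_add_distrib]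

private theorem BrFrame_smul (ε : ℝ) (A A' : Mt d) (t : ℝ) (x y : Fin n → Fin d → ℝ) :
    bet ε A A' (t • x) y = t * bet ε A A' x y := by
  unfold bet
  simp only [Pi.smul_apply, smul_dotProduct, smul_eq_mul, Finset.mul_sum]

private theorem BrFrame_add' (ε : ℝ) (A A' : Mt d) (x y y' : Fin n → Fin d → ℝ) :
    bet ε A A' x (y + y') = bet ε A A' x y + bet ε A A' x y' := by
  unfold bet
  simp only [Pi.add_apply, Matrix.mulVec_add, dotProduct_add, Finset.sum_add_distrib]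

private theorem BrFrame_smul' (ε : ℝ) (A A' : Mt d) (t : ℝ) (x y : Fin n → Fin d → ℝ) :
    bet ε A A' x (t • y) = t * bet ε A A' x y := by
  unfold bet
  simp only [Pi.smul_apply, Matrix.mulVec_smul, dotProduct_smul, smul_eq_mul, Finset.mul_sum]

private noncomputable def BrFrame_B (ε : ℝ) (A A' : Mt d) :
    LinearMap.BilinForm ℝ (Fin n → Fin d → ℝ) :=
  LinearMap.mk₂ ℝ (bet ε A A') (BrFrame_add ε A A') (BrFrame_smul ε A A')
    (BrFrame_add' ε A A') (BrFrame_smul' ε A A')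

private theorem BrFrame_mean_add (x y : Fin n → Fin d → ℝ) : mean (x + y) = mean x + mean y := by
  unfold mean
  simp only [Pi.add_apply, Finset.sum_add_distrib, smul_add]

private theorem BrFrame_mean_smul (t : ℝ) (x : Fin n → Fin d → ℝ) :
    mean (t • x) = t • mean x := by
  unfold mean
  simp only [Pi.smul_apply, ← Finset.smul_sum]
  rw [smul_comm]

private noncomputable def BrFrame_m (n : ℕ) (P : Mt d) : Submodule ℝ (Fin n → Fin d → ℝ) where
  carrier := {x | P *ᵥ mean x = mean x}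
  add_mem' := by
    intro x y hx hy
    simp only [Set.mem_ofPred_eq] at hx hy ⊢
    rw [BrFrame_mean_add, Matrix.mulVec_add, hx, hy]
  zero_mem' := by
    simp [mean]
  smul_mem' := by
    intro t x hx
    simp only [Set.mem_ofPred_eq] at hx ⊢
    rw [BrFrame_mean_smul, Matrix.mulVec_smul, hx]

theorem exists_onb (hn : 0 < n) {P A Y : Mt d} (hP : Pᵀ = P) (hPP : P * P = P) (hA : A.PosDef)
    (hY : Y.PosDef) :
    ∃ (D : ℕ) (X : Fin D → Fin n → Fin d → ℝ),
      (∀ x, P *ᵥ mean x = mean x ↔ x ∈ Submodule.span ℝ (Set.range X)) ∧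
      ∀ i j, bet (1 / (n : ℝ)) A (P * Y * P) (X i) (X j) = if i = j then 1 else 0 := by
  set m := BrFrame_m n P with hm
  set B : LinearMap.BilinForm ℝ m := (BrFrame_B (1 / (n : ℝ)) A (P * Y * P)).restrict m with hB
  have hAt : Aᵀ = A := by
    have := hA.isHermitian
    simpa [Matrix.IsHermitian, Matrix.conjTranspose_eq_transpose_of_trivial] using this
  have hYt : Yᵀ = Y := by
    have := hY.isHermitian
    simpa [Matrix.IsHermitian, Matrix.conjTranspose_eq_transpose_of_trivial] using this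
  have hPYP : (P * Y * P)ᵀ = P * Y * P := by
    rw [Matrix.transpose_mul, Matrix.transpose_mul, hP, hYt, Matrix.mul_assoc]
  have hBapp : ∀ u v : m, B u v = bet (1 / (n : ℝ)) A (P * Y * P) (u : Fin n → Fin d → ℝ)
      (v : Fin n → Fin d → ℝ) := fun u v => rfl
  have hsymm : LinearMap.IsSymm B := ⟨fun u v => by
    rw [hBapp, RingHom.id_apply, hBapp]
    exact bet_symm _ hAt hPYP _ _⟩
  obtain ⟨v, hv⟩ := LinearMap.BilinForm.exists_orthogonal_basis hsymm
  have hpos : ∀ i, 0 < B (v i) (v i) := by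
    intro i
    rw [hBapp]
    refine BrFrame_pos hn hP hA hY (v i).2 ?_
    intro h0
    exact v.ne_zero i (Subtype.ext h0)
  refine ⟨Module.finrank ℝ m, fun i => (Real.sqrt (B (v i) (v i)))⁻¹ • (v i : Fin n → Fin d → ℝ),
    ?_, ?_⟩
  · intro x
    have hspan : Submodule.span ℝ (Set.range fun i => (Real.sqrt (B (v i) (v i)))⁻¹ •
        (v i : Fin n → Fin d → ℝ)) = m := by
      have h1 : Submodule.span ℝ (Set.range fun i => (v i : Fin n → Fin d → ℝ)) = m := by
        have h2 : (Set.range fun i => (v i : Fin n → Fin d → ℝ)) = m.subtype '' Set.range v := by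
          rw [← Set.range_comp]
          rfl
        rw [h2, Submodule.span_image, v.span_eq, Submodule.map_top, Submodule.range_subtype]
      refine Eq.trans ?_ h1
      apply le_antisymm
      · rw [Submodule.span_le]
        rintro _ ⟨i, rfl⟩
        exact Submodule.smul_mem _ _ (Submodule.subset_span ⟨i, rfl⟩)
      · rw [Submodule.span_le]
        rintro _ ⟨i, rfl⟩
        have h3 : (v i : Fin n → Fin d → ℝ) = Real.sqrt (B (v i) (v i)) •
            ((Real.sqrt (B (v i) (v i)))⁻¹ • (v i : Fin n → Fin d → ℝ)) := by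
          rw [smul_smul, mul_inv_cancel₀ (Real.sqrt_pos.2 (hpos i)).ne', one_smul]
        show (v i : Fin n → Fin d → ℝ) ∈ _
        rw [h3]
        exact Submodule.smul_mem _ _ (Submodule.subset_span ⟨i, rfl⟩)
    rw [hspan]
    exact Iff.rfl
  · intro i j
    rw [BrFrame_smul, BrFrame_smul', ← hBapp]
    split_ifs with hij
    · subst hij
      have h4 := Real.mul_self_sqrt (hpos i).le
      have h5 := (Real.sqrt_pos.2 (hpos i)).ne'
      generalize B (v i) (v i) = r at h4 h5 ⊢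
      generalize Real.sqrt r = q at h4 h5 ⊢
      rw [← h4]
      field_simp
    · have h6 : B (v i) (v j) = 0 := hv hij
      rw [h6, mul_zero, mul_zero]

/-- The sum over an orthonormal basis of a bilinear expression. -/
theorem frame_sum (hn : 0 < n) {P A Y : Mt d} (hP : Pᵀ = P) (hPP : P * P = P) (hA : A.PosDef)
    (hY : Y.PosDef) (hc : P * Y = Y * P) {D : ℕ} {X : Fin D → Fin n → Fin d → ℝ}
    (hspan : ∀ x, P *ᵥ mean x = mean x ↔ x ∈ Submodule.span ℝ (Set.range X))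
    (hort : ∀ i j, bet (1 / (n : ℝ)) A (P * Y * P) (X i) (X j) = if i = j then 1 else 0)
    (i j : Fin n) (a b : Fin d) :
    ∑ s, X s i a * X s j b = blk (1 / (n : ℝ)) A⁻¹ (P * Y⁻¹ * P) i j a b := by
  have hn' : (n : ℝ) ≠ 0 := by exact_mod_cast hn.ne'
  have hAu : A * A⁻¹ = 1 := by
    rw [Matrix.mul_nonsing_inv _ ((Matrix.isUnit_iff_isUnit_det _).1 hA.isUnit)]
  have hYu : Y * Y⁻¹ = 1 := by
    rw [Matrix.mul_nonsing_inv _ ((Matrix.isUnit_iff_isUnit_det _).1 hY.isUnit)]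
  set y : Fin n → Fin d → ℝ := Pi.single j (Pi.single b 1) with hy
  set w : Fin n → Fin d → ℝ := fun i => ∑ j, blk (1 / (n : ℝ)) A⁻¹ (P * Y⁻¹ * P) i j *ᵥ y j
    with hw
  have hwi : ∀ i, w i = A⁻¹ *ᵥ (y i - mean y) + (P * Y⁻¹ * P) *ᵥ mean y := by
    intro i
    have h1 : ∀ j, blk (1 / (n : ℝ)) A⁻¹ (P * Y⁻¹ * P) i j *ᵥ y j =
        (if i = j then A⁻¹ *ᵥ y j else 0) - (1 / (n : ℝ)) • (A⁻¹ *ᵥ y j)
          + (1 / (n : ℝ)) • ((P * Y⁻¹ * P) *ᵥ y j) := by
      intro j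
      unfold blk
      rw [Matrix.add_mulVec, Matrix.smul_mulVec, Matrix.smul_mulVec, sub_smul]
      split_ifs <;> simp
    rw [hw]
    simp only [h1, Finset.sum_add_distrib, Finset.sum_sub_distrib, Finset.sum_ite_eq,
      Finset.mem_univ, if_true, ← Finset.smul_sum, ← Matrix.mulVec_sum, ← Matrix.mulVec_smul]
    rw [Matrix.mulVec_sub]
    rfl
  have hmw : mean w = (P * Y⁻¹ * P) *ᵥ mean y := by
    have h1 : ∑ i, w i = (n : ℝ) • ((P * Y⁻¹ * P) *ᵥ mean y) := by
      simp only [hwi, Finset.sum_add_distrib, ← Matrix.mulVec_sum, Finset.sum_sub_distrib,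
        Finset.sum_const, Finset.card_univ, Fintype.card_fin]
      rw [BrFrame_sum hn y, ← Nat.cast_smul_eq_nsmul ℝ, sub_self, Matrix.mulVec_zero, zero_add,
        ← Nat.cast_smul_eq_nsmul ℝ]
    unfold mean at h1 ⊢
    rw [h1, smul_smul, one_div_mul_cancel hn', one_smul]
  have hwm : P *ᵥ mean w = mean w := by
    rw [hmw, Matrix.mulVec_mulVec, ← Matrix.mul_assoc, ← Matrix.mul_assoc, hPP]
  have hYZ : (P * Y * P) * (P * Y⁻¹ * P) = P := by
    calc (P * Y * P) * (P * Y⁻¹ * P) = (P * Y) * ((P * P) * Y⁻¹) * P := by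
          simp only [Matrix.mul_assoc]
      _ = (P * P) * (Y * Y⁻¹) * P := by
          rw [hPP, hc, Matrix.mul_assoc Y P, ← Matrix.mul_assoc P P, hPP, ← Matrix.mul_assoc Y P,
            ← hc]
          simp only [Matrix.mul_assoc]
      _ = P := by rw [hYu, Matrix.mul_one, hPP, hPP]
  have key : ∀ x, P *ᵥ mean x = mean x →
      bet (1 / (n : ℝ)) A (P * Y * P) x w = ∑ i, x i ⬝ᵥ y i := by
    intro x hx
    rw [bet_mean hn]
    have h1 : ∀ i, A *ᵥ (w i - mean w) = y i - mean y := by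
      intro i
      rw [hmw, hwi, add_sub_cancel_right, Matrix.mulVec_mulVec, hAu, Matrix.one_mulVec]
    simp only [h1]
    rw [hmw, Matrix.mulVec_mulVec, hYZ]
    have h2 : mean x ⬝ᵥ (P *ᵥ mean y) = mean x ⬝ᵥ mean y := by
      rw [dotProduct_mulVec, ← Matrix.mulVec_transpose, hP, hx]
    rw [h2]
    have h3 : ∀ i, (x i - mean x) ⬝ᵥ (y i - mean y) = x i ⬝ᵥ y i - x i ⬝ᵥ mean y
        - mean x ⬝ᵥ y i + mean x ⬝ᵥ mean y := by
      intro i
      rw [dotProduct_sub, sub_dotProduct, sub_dotProduct]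
      ring
    simp only [h3, Finset.sum_add_distrib, Finset.sum_sub_distrib]
    rw [← sum_dotProduct, ← dotProduct_sum, BrFrame_sum hn x, BrFrame_sum hn y, smul_dotProduct,
      dotProduct_smul, Finset.sum_const, Finset.card_univ, Fintype.card_fin, nsmul_eq_mul,
      smul_eq_mul]
    ring
  have hXm : ∀ s, P *ᵥ mean (X s) = mean (X s) := fun s =>
    (hspan _).2 (Submodule.subset_span ⟨s, rfl⟩)
  obtain ⟨c, hcw⟩ := (Submodule.mem_span_range_iff_exists_fun ℝ).1 ((hspan w).1 hwm)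
  have hbs : ∀ s, bet (1 / (n : ℝ)) A (P * Y * P) (X s) w = c s := by
    intro s
    have h1 : bet (1 / (n : ℝ)) A (P * Y * P) (X s) w =
        BrFrame_B (1 / (n : ℝ)) A (P * Y * P) (X s) (∑ i, c i • X i) := by
      rw [hcw]
      rfl
    rw [h1, map_sum]
    simp only [map_smul, smul_eq_mul]
    have h2 : ∀ k, BrFrame_B (1 / (n : ℝ)) A (P * Y * P) (X s) (X k) = if s = k then 1 else 0 :=
      fun k => hort s k
    simp only [h2, mul_ite, mul_one, mul_zero, Finset.sum_ite_eq, Finset.mem_univ, if_true]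
  have hcs : ∀ s, c s = X s j b := by
    intro s
    rw [← hbs s, key _ (hXm s)]
    rw [Finset.sum_eq_single j]
    · rw [hy, Pi.single_eq_same, dotProduct_single_one]
    · intro k _ hk
      rw [hy, Pi.single_eq_of_ne hk, dotProduct_zero]
    · intro h
      exact absurd (Finset.mem_univ _) h
  have hwa : w i a = blk (1 / (n : ℝ)) A⁻¹ (P * Y⁻¹ * P) i j a b := by
    rw [hw]
    simp only [Finset.sum_apply]
    rw [Finset.sum_eq_single j]
    · rw [hy, Pi.single_eq_same, Matrix.mulVec_single_one]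
      rfl
    · intro k _ hk
      rw [hy, Pi.single_eq_of_ne hk, Matrix.mulVec_zero]
      rfl
    · intro h
      exact absurd (Finset.mem_univ _) h
  rw [← hwa, ← hcw]
  simp only [Finset.sum_apply, Pi.smul_apply, smul_eq_mul, hcs]
  exact Finset.sum_congr rfl fun s _ => mul_comm _ _

end Pool.Agent.EStab
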