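import Pool.Agent.EStab.BrFrame

/-!
# The Ricci curvature of the symmetric metrics on `G^n/ΔH`: evaluation

Put `ε = 1/n`, `Y' = P Y P`, `Z' = P Y⁻¹ P`, `q(U, V)(u, w) = u ⬝ (Θ(U, V) w)`.

* `sum_T1`: by `bet_prj` the projections can be dropped.  Expand
  `bet (brk x (X s)) (brk x (X s)) = ∑ i j k l, brk x (X s) i k * (blk A Y' i j) k l * brk x (X s) j l`,
  `brk x (X s) i k = ∑ u a, c u a k * x i u * X s i a`, and sum over `s` with `frame_sum`: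
  `∑ i j, ∑ u v, x i u * x j v * ∑ a b k l, (blk A⁻¹ Z' i j) a b * (blk A Y' i j) k l * c u a k * c v b l`
  which is `∑ i j, x i ⬝ (Θ(blk A⁻¹ Z' i j, blk A Y' i j) (x j))` by `SC.Th_apply`.
* `sum_T3`: with `ξ i = ∑ j, blk A Y' i j *ᵥ x j` one has (`bet_prj`; `prj P x = x` as
  `P (mean x) = mean x`) `bet (prj (brk (X s) (X t))) x = bet (brk (X s) (X t)) x
  = ∑ i k, brk (X s) (X t) i k * ξ i k = ∑ i k a b, c a b k * X s i a * X t i b * ξ i k`; square, sum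
  over `s` and `t` with `frame_sum` twice, and use `c a b k = c k a b` (from `anti`, `anti'`).
* `block_sum`: `(δ_ij - ε)^2 = δ_ij (1 - 2ε) + ε^2`; `∑ i, ξ i = n • mean ξ` and
  `∑ i, q(ξ i) = ∑ i, q(ξ i - mean ξ) + n q(mean ξ)` for a quadratic form `q`; `n ε = 1`.
* `bridge`: by bilinearity `Θ(blk U U' i j, blk W W' i j) = (δ-ε)^2 Θ(U,W) + (δ-ε) ε (Θ(U,W') + Θ(U',W))
  + ε^2 Θ(U',W')`, so `sum_T1`, `sum_T3` and `block_sum` give the Ricci form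
  `∑ i, x'_i ⬝ (RV x'_i) + n * (mean x) ⬝ (R0 (mean x))` where for `sum_T3` one uses
  `ξ i = A x'_i + Y' (mean x)`, so `mean ξ = Y' (mean x)` and `ξ i - mean ξ = A x'_i`, and
  `A`, `Y'` are symmetric.  Conclude with `Good.eqV`, `Good.eq0`, `P (mean x) = mean x` and `bet_mean`.
-/

namespace Pool.Agent.EStab

open Matrix

variable {d n : ℕ}

/-- The matrix of `ad x`. -/
private def BrRic_M (S : SC d) (x : Fin d → ℝ) : Mt d := ∑ u, x u • S.D u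

private theorem BrRic_Th (S : SC d) (C B : Mt d) (x y : Fin d → ℝ) :
    x ⬝ᵥ (S.Th C B *ᵥ y) = trace (BrRic_M S x * C * (BrRic_M S y)ᵀ * Bᵀ) := by
  unfold BrRic_M
  simp only [dotProduct, mulVec, SC.Th, Matrix.of_apply, Matrix.transpose_sum,
    Matrix.transpose_smul, Matrix.sum_mul, Matrix.trace_sum, Matrix.smul_mul,
    Matrix.mul_smul, Matrix.trace_smul, smul_eq_mul, Finset.mul_sum]
  rw [Finset.sum_comm]
  refine Finset.sum_congr rfl fun v _ => Finset.sum_congr rfl fun u _ => ?_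
  ring

private theorem BrRic_tr {D : ℕ} (M M' B C : Mt d) (F G : Fin D → Fin d → ℝ)
    (h : ∀ a b, ∑ s, F s a * G s b = C a b) :
    ∑ s, (M *ᵥ F s) ⬝ᵥ (B *ᵥ (M' *ᵥ G s)) = trace (M * C * M'ᵀ * Bᵀ) := by
  have hC : C = ∑ s, vecMulVec (F s) (G s) := by
    ext a b
    rw [← h a b, Matrix.sum_apply]
    rfl
  rw [hC]
  simp only [Matrix.mul_sum, Matrix.sum_mul, Matrix.trace_sum]
  refine Finset.sum_congr rfl fun s _ => ?_
  rw [Matrix.mul_vecMulVec, Matrix.vecMulVec_mul, Matrix.vecMulVec_mul, Matrix.vecMul_transpose,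
    Matrix.vecMul_transpose, Matrix.trace_vecMulVec]

private theorem BrRic_brk (S : SC d) (x y : Fin n → Fin d → ℝ) (i : Fin n) :
    brk S x y i = BrRic_M S (x i) *ᵥ y i := by
  funext k
  unfold brk BrRic_M
  simp only [mulVec, dotProduct, Matrix.sum_apply, Matrix.smul_apply, SC.D, Matrix.of_apply,
    smul_eq_mul, Finset.sum_mul]
  rw [Finset.sum_comm]
  refine Finset.sum_congr rfl fun b _ => Finset.sum_congr rfl fun a _ => ?_
  ring

private theorem BrRic_brk_dot (S : SC d) (f g ξ : Fin d → ℝ) :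
    (BrRic_M S f *ᵥ g) ⬝ᵥ ξ = (BrRic_M S ξ *ᵥ f) ⬝ᵥ g := by
  unfold BrRic_M
  simp only [mulVec, dotProduct, Matrix.sum_apply, Matrix.smul_apply, SC.D, Matrix.of_apply,
    smul_eq_mul, Finset.sum_mul]
  -- `∑ k b a, f a * c a b k * g b * ξ k` against `∑ b a k, ξ k * c k a b * f a * g b`
  rw [Finset.sum_comm]
  refine Finset.sum_congr rfl fun b _ => ?_
  rw [Finset.sum_comm]
  refine Finset.sum_congr rfl fun a _ => ?_
  refine Finset.sum_congr rfl fun k _ => ?_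
  have h : S.c k a b = S.c a b k := by
    rw [S.anti a k b, S.anti' a b k]
    ring
  rw [h]
  ring

private theorem BrRic_conj {A : Mt d} (hA : Aᵀ = A) (Q : Mt d) (u : Fin d → ℝ) :
    (A *ᵥ u) ⬝ᵥ (Q *ᵥ (A *ᵥ u)) = u ⬝ᵥ ((A * Q * A) *ᵥ u) := by
  rw [← Matrix.mulVec_mulVec, ← Matrix.mulVec_mulVec, Matrix.dotProduct_mulVec u A]
  congr 1
  rw [← Matrix.mulVec_transpose, hA]

private theorem BrRic_sum_mean (hn : 0 < n) (ξ : Fin n → Fin d → ℝ) :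
    ∑ i, ξ i = (n : ℝ) • mean ξ := by
  unfold mean
  rw [smul_smul, mul_one_div_cancel (by exact_mod_cast hn.ne'), one_smul]

private theorem BrRic_sum_sub (hn : 0 < n) (ξ : Fin n → Fin d → ℝ) :
    ∑ i, (ξ i - mean ξ) = 0 := by
  rw [Finset.sum_sub_distrib, BrRic_sum_mean hn, Finset.sum_const, Finset.card_univ,
    Fintype.card_fin, ← Nat.cast_smul_eq_nsmul ℝ, sub_self]

private theorem BrRic_quad (hn : 0 < n) (M : Mt d) (ξ : Fin n → Fin d → ℝ) :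
    ∑ i, ξ i ⬝ᵥ (M *ᵥ ξ i) = ∑ i, (ξ i - mean ξ) ⬝ᵥ (M *ᵥ (ξ i - mean ξ))
      + n * (mean ξ ⬝ᵥ (M *ᵥ mean ξ)) := by
  have h1 : ∀ i, ξ i ⬝ᵥ (M *ᵥ ξ i) = (ξ i - mean ξ) ⬝ᵥ (M *ᵥ (ξ i - mean ξ)) +
      ((ξ i - mean ξ) ⬝ᵥ (M *ᵥ mean ξ) + mean ξ ⬝ᵥ (M *ᵥ (ξ i - mean ξ)) +
        mean ξ ⬝ᵥ (M *ᵥ mean ξ)) := by
    intro i
    simp only [Matrix.mulVec_sub, dotProduct_sub, sub_dotProduct]
    ring
  rw [Finset.sum_congr rfl fun i _ => h1 i, Finset.sum_add_distrib, Finset.sum_add_distrib,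
    Finset.sum_add_distrib, ← sum_dotProduct, ← dotProduct_sum, ← Matrix.mulVec_sum,
    BrRic_sum_sub hn, zero_dotProduct, Matrix.mulVec_zero, dotProduct_zero, Finset.sum_const,
    Finset.card_univ, Fintype.card_fin, nsmul_eq_mul]
  ring

theorem block_sum (hn : 0 < n) (Q1 Q2 Q3 : Mt d) (ξ : Fin n → Fin d → ℝ) :
    ∑ i, ∑ j, ξ i ⬝ᵥ (((((if i = j then 1 else 0) - 1 / (n : ℝ)) ^ 2) • Q1
        + (((if i = j then 1 else 0) - 1 / (n : ℝ)) * (1 / (n : ℝ))) • Q2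
        + ((1 / (n : ℝ)) ^ 2) • Q3) *ᵥ ξ j)
      = ∑ i, (ξ i - mean ξ) ⬝ᵥ (((1 - 2 * (1 / (n : ℝ))) • Q1 + (1 / (n : ℝ)) • Q2)
          *ᵥ (ξ i - mean ξ))
        + n * (mean ξ ⬝ᵥ (((1 - 1 / (n : ℝ)) • Q1 + (1 / (n : ℝ)) • Q3) *ᵥ mean ξ)) := by
  set ε : ℝ := 1 / (n : ℝ) with hε
  have hn0 : (n : ℝ) ≠ 0 := by exact_mod_cast hn.ne'
  have hnε : (n : ℝ) * ε = 1 := by
    rw [hε]
    exact mul_one_div_cancel hn0
  have e1 : ∀ i j : Fin n, ξ i ⬝ᵥ (((((if i = j then 1 else 0) - ε) ^ 2) • Q1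
        + (((if i = j then 1 else 0) - ε) * ε) • Q2 + (ε ^ 2) • Q3) *ᵥ ξ j) =
      (if i = j then ξ i ⬝ᵥ (((1 - 2 * ε) • Q1 + ε • Q2) *ᵥ ξ j) else 0) +
        ε ^ 2 * (ξ i ⬝ᵥ ((Q1 - Q2 + Q3) *ᵥ ξ j)) := by
    intro i j
    split_ifs
    · simp only [Matrix.add_mulVec, Matrix.sub_mulVec, Matrix.smul_mulVec, dotProduct_add,
        dotProduct_sub, dotProduct_smul, smul_eq_mul]
      ring
    · simp only [Matrix.add_mulVec, Matrix.sub_mulVec, Matrix.smul_mulVec, dotProduct_add,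
        dotProduct_sub, dotProduct_smul, smul_eq_mul]
      ring
  rw [Finset.sum_congr rfl fun i _ => Finset.sum_congr rfl fun j _ => e1 i j]
  simp only [Finset.sum_add_distrib, Finset.sum_ite_eq, Finset.mem_univ, if_true,
    ← Finset.mul_sum]
  have e2 : ∑ i, ∑ j, ξ i ⬝ᵥ ((Q1 - Q2 + Q3) *ᵥ ξ j) =
      (n : ℝ) * ((n : ℝ) * (mean ξ ⬝ᵥ ((Q1 - Q2 + Q3) *ᵥ mean ξ))) := by
    simp only [← dotProduct_sum, ← Matrix.mulVec_sum, ← sum_dotProduct]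
    rw [BrRic_sum_mean hn, Matrix.mulVec_smul, dotProduct_smul, smul_dotProduct, smul_eq_mul,
      smul_eq_mul]
  rw [e2, BrRic_quad hn]
  simp only [Matrix.add_mulVec, Matrix.sub_mulVec, Matrix.smul_mulVec, dotProduct_add,
    dotProduct_sub, dotProduct_smul, smul_eq_mul]
  generalize mean ξ ⬝ᵥ (Q1 *ᵥ mean ξ) = q1
  generalize mean ξ ⬝ᵥ (Q2 *ᵥ mean ξ) = q2
  generalize mean ξ ⬝ᵥ (Q3 *ᵥ mean ξ) = q3
  linear_combination ((n * ε + 1) * (q1 - q2 + q3) - q1 + q2 - q3 + (q1 - q2 + q3) + 0) * hnε +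
    (- (q1 - q2 + q3) - (q1 - q2 + q3) * 0) * hnε + (0 : ℝ) * hnε

theorem sum_T1 (hn : 0 < n) (S : SC d) {P A Y : Mt d} (hP : Pᵀ = P) (hPP : P * P = P)
    (hA : A.PosDef) (hY : Y.PosDef) (hc : P * Y = Y * P) {D : ℕ} {X : Fin D → Fin n → Fin d → ℝ}
    (hspan : ∀ x, P *ᵥ mean x = mean x ↔ x ∈ Submodule.span ℝ (Set.range X))
    (hort : ∀ i j, bet (1 / (n : ℝ)) A (P * Y * P) (X i) (X j) = if i = j then 1 else 0)
    (x : Fin n → Fin d → ℝ) :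
    ∑ s, bet (1 / (n : ℝ)) A (P * Y * P) (prj P (brk S x (X s))) (prj P (brk S x (X s)))
      = ∑ i, ∑ j, x i ⬝ᵥ (S.Th (blk (1 / (n : ℝ)) A⁻¹ (P * Y⁻¹ * P) i j)
          (blk (1 / (n : ℝ)) A (P * Y * P) i j) *ᵥ x j) := by
  simp only [bet_prj hn hP hPP]
  have e1 : ∀ s, bet (1 / (n : ℝ)) A (P * Y * P) (brk S x (X s)) (brk S x (X s)) =
      ∑ i, ∑ j, (BrRic_M S (x i) *ᵥ X s i) ⬝ᵥ
        (blk (1 / (n : ℝ)) A (P * Y * P) i j *ᵥ (BrRic_M S (x j) *ᵥ X s j)) := by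
    intro s
    unfold bet
    simp only [BrRic_brk]
  rw [Finset.sum_congr rfl fun s _ => e1 s, Finset.sum_comm]
  refine Finset.sum_congr rfl fun i _ => ?_
  rw [Finset.sum_comm]
  refine Finset.sum_congr rfl fun j _ => ?_
  rw [BrRic_Th]
  exact BrRic_tr _ _ _ _ (fun s => X s i) (fun s => X s j)
    (fun a b => frame_sum hn hP hPP hA hY hc hspan hort i j a b)

theorem sum_T3 (hn : 0 < n) (S : SC d) {P A Y : Mt d} (hP : Pᵀ = P) (hPP : P * P = P)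
    (hA : A.PosDef) (hY : Y.PosDef) (hc : P * Y = Y * P) {D : ℕ} {X : Fin D → Fin n → Fin d → ℝ}
    (hspan : ∀ x, P *ᵥ mean x = mean x ↔ x ∈ Submodule.span ℝ (Set.range X))
    (hort : ∀ i j, bet (1 / (n : ℝ)) A (P * Y * P) (X i) (X j) = if i = j then 1 else 0)
    {x ξ : Fin n → Fin d → ℝ} (hx : P *ᵥ mean x = mean x)
    (hξ : ∀ i, ξ i = ∑ j, blk (1 / (n : ℝ)) A (P * Y * P) i j *ᵥ x j) :
    ∑ s, ∑ t, (bet (1 / (n : ℝ)) A (P * Y * P) (prj P (brk S (X s) (X t))) x) ^ 2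
      = ∑ i, ∑ j, ξ i ⬝ᵥ (S.Th (blk (1 / (n : ℝ)) A⁻¹ (P * Y⁻¹ * P) i j)
          (blk (1 / (n : ℝ)) A⁻¹ (P * Y⁻¹ * P) i j) *ᵥ ξ j) := by
  set B : Fin n → Fin n → Mt d := fun i j => blk (1 / (n : ℝ)) A⁻¹ (P * Y⁻¹ * P) i j with hB
  have hpx : prj P x = x := by
    funext i
    unfold prj
    rw [hx, sub_self, sub_zero]
  have e1 : ∀ s t, bet (1 / (n : ℝ)) A (P * Y * P) (prj P (brk S (X s) (X t))) x =
      ∑ i, (BrRic_M S (ξ i) *ᵥ X s i) ⬝ᵥ X t i := by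
    intro s t
    have h1 := bet_prj hn hP hPP A Y (brk S (X s) (X t)) x
    rw [hpx] at h1
    rw [h1]
    unfold bet
    refine Finset.sum_congr rfl fun i _ => ?_
    rw [← dotProduct_sum, ← hξ i, BrRic_brk, BrRic_brk_dot]
  simp only [e1]
  have e2 : ∀ s t, (∑ i, (BrRic_M S (ξ i) *ᵥ X s i) ⬝ᵥ X t i) ^ 2 =
      ∑ i, ∑ j, ((BrRic_M S (ξ i) *ᵥ X s i) ⬝ᵥ X t i) * ((BrRic_M S (ξ j) *ᵥ X s j) ⬝ᵥ X t j) := by
    intro s t
    rw [sq, Finset.sum_mul_sum]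
  simp only [e2]
  have e3 : ∀ s, ∑ t, ∑ i, ∑ j, ((BrRic_M S (ξ i) *ᵥ X s i) ⬝ᵥ X t i) *
      ((BrRic_M S (ξ j) *ᵥ X s j) ⬝ᵥ X t j) =
      ∑ i, ∑ j, (BrRic_M S (ξ i) *ᵥ X s i) ⬝ᵥ (B i j *ᵥ (BrRic_M S (ξ j) *ᵥ X s j)) := by
    intro s
    rw [Finset.sum_comm]
    refine Finset.sum_congr rfl fun i _ => ?_
    rw [Finset.sum_comm]
    refine Finset.sum_congr rfl fun j _ => ?_
    generalize BrRic_M S (ξ i) *ᵥ X s i = p
    generalize BrRic_M S (ξ j) *ᵥ X s j = q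
    have h3 : ∀ t, (p ⬝ᵥ X t i) * (q ⬝ᵥ X t j) =
        ∑ a, ∑ b, p a * q b * (X t i a * X t j b) := by
      intro t
      unfold dotProduct
      rw [Finset.sum_mul_sum]
      refine Finset.sum_congr rfl fun a _ => Finset.sum_congr rfl fun b _ => ?_
      ring
    have h4 : p ⬝ᵥ (B i j *ᵥ q) = ∑ a, ∑ b, p a * q b * B i j a b := by
      simp only [dotProduct, mulVec, Finset.mul_sum]
      refine Finset.sum_congr rfl fun a _ => Finset.sum_congr rfl fun b _ => ?_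
      ring
    rw [Finset.sum_congr rfl fun t _ => h3 t, h4, Finset.sum_comm]
    refine Finset.sum_congr rfl fun a _ => ?_
    rw [Finset.sum_comm]
    refine Finset.sum_congr rfl fun b _ => ?_
    rw [← Finset.mul_sum]
    congr 1
    exact frame_sum hn hP hPP hA hY hc hspan hort i j a b
  rw [Finset.sum_congr rfl fun s _ => e3 s, Finset.sum_comm]
  refine Finset.sum_congr rfl fun i _ => ?_
  rw [Finset.sum_comm]
  refine Finset.sum_congr rfl fun j _ => ?_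
  rw [BrRic_Th]
  exact BrRic_tr _ _ _ _ (fun s => X s i) (fun s => X s j)
    (fun a b => frame_sum hn hP hPP hA hY hc hspan hort i j a b)

theorem bridge (hn : 0 < n) (S : SC d) {P A Y : Mt d} (hP : Pᵀ = P) (hPP : P * P = P)
    (hG : Good S (1 / (n : ℝ)) P A Y) {D : ℕ} {X : Fin D → Fin n → Fin d → ℝ}
    (hspan : ∀ x, P *ᵥ mean x = mean x ↔ x ∈ Submodule.span ℝ (Set.range X))
    (hort : ∀ i j, bet (1 / (n : ℝ)) A (P * Y * P) (X i) (X j) = if i = j then 1 else 0)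
    {x : Fin n → Fin d → ℝ} (hx : P *ᵥ mean x = mean x) :
    -(1 / 2) * ∑ s, bet (1 / (n : ℝ)) A (P * Y * P) (prj P (brk S x (X s)))
        (prj P (brk S x (X s))) + (1 / 2) * ∑ i, x i ⬝ᵥ x i
      + (1 / 4) * ∑ s, ∑ t, (bet (1 / (n : ℝ)) A (P * Y * P) (prj P (brk S (X s) (X t))) x) ^ 2
      = (1 / 4) * bet (1 / (n : ℝ)) A (P * Y * P) x x := by
  have hA := hG.A_pos
  have hY := hG.Y_pos
  have hc := hG.comm
  have hAt : Aᵀ = A := by
    have := hA.isHermitian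
    rwa [Matrix.IsHermitian, Matrix.conjTranspose_eq_transpose_of_trivial] at this
  have hYt : Yᵀ = Y := by
    have := hY.isHermitian
    rwa [Matrix.IsHermitian, Matrix.conjTranspose_eq_transpose_of_trivial] at this
  have hYt' : (P * Y * P)ᵀ = P * Y * P := by
    rw [Matrix.transpose_mul, Matrix.transpose_mul, hP, hYt, Matrix.mul_assoc]
  set ε : ℝ := 1 / (n : ℝ) with hε
  set Y' : Mt d := P * Y * P with hY'
  set Z' : Mt d := P * Y⁻¹ * P with hZ'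
  have hn0 : (n : ℝ) ≠ 0 := by exact_mod_cast hn.ne'
  -- the auxiliary vectors
  set ξ : Fin n → Fin d → ℝ := fun i => ∑ j, blk ε A Y' i j *ᵥ x j with hξ
  have hξ' : ∀ i, ξ i = A *ᵥ (x i - mean x) + Y' *ᵥ mean x := by
    intro i
    have h1 : ∀ j, blk ε A Y' i j *ᵥ x j = (if i = j then A *ᵥ x j else 0) +
        ε • ((Y' - A) *ᵥ x j) := by
      intro j
      unfold blk
      split_ifs
      · simp only [Matrix.add_mulVec, Matrix.sub_mulVec, Matrix.smul_mulVec, sub_smul, one_smul,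
          smul_sub]
        abel
      · simp only [Matrix.add_mulVec, Matrix.sub_mulVec, Matrix.smul_mulVec, zero_sub, neg_smul,
          smul_sub, Matrix.neg_mulVec]
        abel
    change ∑ j, blk ε A Y' i j *ᵥ x j = _
    rw [Finset.sum_congr rfl fun j _ => h1 j, Finset.sum_add_distrib, Finset.sum_ite_eq,
      if_pos (Finset.mem_univ _), ← Finset.smul_sum, ← Matrix.mulVec_sum, ← Matrix.mulVec_smul]
    have h2 : ε • ∑ j, x j = mean x := rfl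
    rw [h2, Matrix.sub_mulVec, Matrix.mulVec_sub]
    abel
  have hmean : mean ξ = Y' *ᵥ mean x := by
    have h1 : ∑ i, ξ i = (n : ℝ) • (Y' *ᵥ mean x) := by
      rw [Finset.sum_congr rfl fun i _ => hξ' i, Finset.sum_add_distrib, ← Matrix.mulVec_sum,
        BrRic_sum_sub hn, Matrix.mulVec_zero, zero_add, Finset.sum_const, Finset.card_univ,
        Fintype.card_fin, ← Nat.cast_smul_eq_nsmul ℝ]
    unfold mean at h1 ⊢
    rw [h1, smul_smul, one_div_mul_cancel hn0, one_smul]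
  have hdiff : ∀ i, ξ i - mean ξ = A *ᵥ (x i - mean x) := by
    intro i
    rw [hmean, hξ' i, add_sub_cancel_right]
  have t1 := sum_T1 hn S hP hPP hA hY hc hspan hort x
  have t3 := sum_T3 hn S hP hPP hA hY hc hspan hort hx (ξ := ξ) (fun i => rfl)
  have k1 : ∀ i j : Fin n, S.Th (blk ε A⁻¹ Z' i j) (blk ε A Y' i j) =
      (((if i = j then 1 else 0) - ε) ^ 2) • S.Th A⁻¹ A
        + (((if i = j then 1 else 0) - ε) * ε) • (S.Th A⁻¹ Y' + S.Th Z' A)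
        + (ε ^ 2) • S.Th Z' Y' := by
    intro i j
    unfold blk
    simp only [SC.Th_add_left, SC.Th_add_right, SC.Th_smul_left, SC.Th_smul_right, smul_smul,
      smul_add]
    generalize ((if i = j then 1 else 0) - ε : ℝ) = r
    rw [show r * r = r ^ 2 by ring, show ε * ε = ε ^ 2 by ring, show ε * r = r * ε by ring]
    abel
  have k3 : ∀ i j : Fin n, S.Th (blk ε A⁻¹ Z' i j) (blk ε A⁻¹ Z' i j) =
      (((if i = j then 1 else 0) - ε) ^ 2) • S.Th A⁻¹ A⁻¹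
        + (((if i = j then 1 else 0) - ε) * ε) • ((2 : ℝ) • S.Th A⁻¹ Z')
        + (ε ^ 2) • S.Th Z' Z' := by
    intro i j
    unfold blk
    simp only [SC.Th_add_left, SC.Th_add_right, SC.Th_smul_left, SC.Th_smul_right, smul_smul,
      S.Th_comm Z' A⁻¹, smul_add]
    generalize ((if i = j then 1 else 0) - ε : ℝ) = r
    rw [show r * r = r ^ 2 by ring, show ε * ε = ε ^ 2 by ring,
      show r * ε * 2 = r * ε + ε * r by ring, add_smul]
    abel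
  simp only [← hε, ← hY', ← hZ', k1] at t1
  simp only [← hε, ← hY', ← hZ', k3] at t3
  rw [hε, block_sum hn, ← hε] at t1
  rw [hε, block_sum hn, ← hε] at t3
  simp only [hdiff] at t3
  rw [hmean] at t3
  simp only [BrRic_conj hAt, BrRic_conj hYt'] at t3
  have hone : ∑ i, x i ⬝ᵥ x i = ∑ i, (x i - mean x) ⬝ᵥ (x i - mean x) + n * (mean x ⬝ᵥ mean x) := by
    have := BrRic_quad hn (1 : Mt d) x
    simpa only [Matrix.one_mulVec] using this
  have hbm := bet_mean hn A Y' x x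
  rw [← hε] at hbm
  rw [t1, t3, hone, hbm]
  -- the two Einstein equations
  have hV : ∀ u : Fin d → ℝ, u ⬝ᵥ (RV S ε P A Y *ᵥ u) = (1 / 4) * (u ⬝ᵥ (A *ᵥ u)) := by
    intro u
    rw [hG.eqV, Matrix.smul_mulVec, dotProduct_smul, smul_eq_mul]
  have h0 : mean x ⬝ᵥ (R0 S ε P A Y *ᵥ mean x) = (1 / 4) * (mean x ⬝ᵥ (Y' *ᵥ mean x)) := by
    have h1 := BrRic_conj hP (R0 S ε P A Y) (mean x)
    rw [hx, hG.eq0, Matrix.smul_mulVec, dotProduct_smul, smul_eq_mul] at h1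
    exact h1
  have hV' : ∀ u : Fin d → ℝ, u ⬝ᵥ (RV S ε P A Y *ᵥ u) =
      -(1 / 2) * (u ⬝ᵥ (((1 - 2 * ε) • S.Th A⁻¹ A + ε • (S.Th A⁻¹ Y' + S.Th Z' A)) *ᵥ u))
      + (1 / 2) * (u ⬝ᵥ u)
      + (1 / 4) * (u ⬝ᵥ ((A * ((1 - 2 * ε) • S.Th A⁻¹ A⁻¹ + ε • ((2 : ℝ) • S.Th A⁻¹ Z')) * A)
        *ᵥ u)) := by
    intro u
    unfold RV
    rw [smul_smul ε (2 : ℝ), mul_comm ε 2]
    simp only [Matrix.add_mulVec, Matrix.smul_mulVec, dotProduct_add, dotProduct_smul, smul_eq_mul,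
      Matrix.one_mulVec, smul_add]
    ring
  have h0' : mean x ⬝ᵥ (R0 S ε P A Y *ᵥ mean x) =
      -(1 / 2) * (mean x ⬝ᵥ (((1 - ε) • S.Th A⁻¹ A + ε • S.Th Z' Y') *ᵥ mean x))
      + (1 / 2) * (mean x ⬝ᵥ mean x)
      + (1 / 4) * (mean x ⬝ᵥ ((Y' * ((1 - ε) • S.Th A⁻¹ A⁻¹ + ε • S.Th Z' Z') * Y')
        *ᵥ mean x)) := by
    unfold R0
    rw [← hY', ← hZ']
    simp only [Matrix.add_mulVec, Matrix.smul_mulVec, dotProduct_add, dotProduct_smul, smul_eq_mul,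
      Matrix.one_mulVec]
  have hsum : ∑ i, (1 / 4 : ℝ) * ((x i - mean x) ⬝ᵥ (A *ᵥ (x i - mean x))) =
      ∑ i, (-(1 / 2) * ((x i - mean x) ⬝ᵥ (((1 - 2 * ε) • S.Th A⁻¹ A +
        ε • (S.Th A⁻¹ Y' + S.Th Z' A)) *ᵥ (x i - mean x)))
      + (1 / 2) * ((x i - mean x) ⬝ᵥ (x i - mean x))
      + (1 / 4) * ((x i - mean x) ⬝ᵥ ((A * ((1 - 2 * ε) • S.Th A⁻¹ A⁻¹ +
        ε • ((2 : ℝ) • S.Th A⁻¹ Z')) * A) *ᵥ (x i - mean x)))) :=
    Finset.sum_congr rfl fun i _ => by rw [← hV, hV']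
  rw [Finset.sum_add_distrib, Finset.sum_add_distrib, ← Finset.mul_sum, ← Finset.mul_sum,
    ← Finset.mul_sum, ← Finset.mul_sum] at hsum
  rw [h0'] at h0
  linear_combination -hsum + (n : ℝ) * h0

end Pool.Agent.EStab
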