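import Pool.Agent.EStab.Eqs

/-!
# The Ricci curvature of the symmetric metrics on `G^n/ΔH`

Coordinates: an element of `g^n` is `x : Fin n → Fin d → ℝ`, `x i` being the coordinates of the `i`-th
component in an orthonormal basis of `g` (for minus the Killing form).
-/

namespace Pool.Agent.EStab

open Matrix

variable {d n : ℕ}

/-- The bracket of `g^n` in coordinates. -/
def brk (S : SC d) (x y : Fin n → Fin d → ℝ) : Fin n → Fin d → ℝ :=
  fun i k => ∑ a, ∑ b, S.c a b k * (x i a * y i b)

/-- The mean of the components. -/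
noncomputable def mean (x : Fin n → Fin d → ℝ) : Fin d → ℝ := (1 / (n : ℝ)) • ∑ i, x i

/-- The blocks of the matrices of operators on `g^n` which commute with the permutations. -/
def blk (ε : ℝ) (U U' : Mt d) (i j : Fin n) : Mt d := ((if i = j then 1 else 0) - ε) • U + ε • U'

/-- The inner product on `g^n` with blocks `blk ε A A'`. -/
def bet (ε : ℝ) (A A' : Mt d) (x y : Fin n → Fin d → ℝ) : ℝ :=
  ∑ i, ∑ j, x i ⬝ᵥ (blk ε A A' i j *ᵥ y j)

/-- The projection onto the elements whose mean is in the range of `P`. -/
noncomputable def prj (P : Mt d) (x : Fin n → Fin d → ℝ) : Fin n → Fin d → ℝ :=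
  fun i => x i - (mean x - P *ᵥ mean x)

end Pool.Agent.EStab
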