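import Mathlib

/-!
# Homogeneous Einstein metrics: definitions

Finite-dimensional real Lie algebras with negative definite Killing form are the Lie algebras of the
compact semisimple Lie groups.  A `G`-invariant Riemannian metric on `G/K` is an `Ad(K)`-invariant
inner product on an `Ad(K)`-invariant complement of the isotropy algebra.
-/

namespace Pool.Agent.EStab

open Matrix

/-! ### Products of Lie algebras -/

section Pi

variable {ι : Type*} (L : ι → Type*)

/-- The product of Lie algebras, with the componentwise bracket. -/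
instance piLieRing [∀ i, LieRing (L i)] : LieRing (∀ i, L i) where
  bracket x y := fun i => ⁅x i, y i⁆
  add_lie x y z := by
    funext i
    exact add_lie (x i) (y i) (z i)
  lie_add x y z := by
    funext i
    exact lie_add (x i) (y i) (z i)
  lie_self x := by
    funext i
    exact lie_self (x i)
  leibniz_lie x y z := by
    funext i
    exact leibniz_lie (x i) (y i) (z i)

instance piLieAlgebra [∀ i, LieRing (L i)] [∀ i, LieAlgebra ℝ (L i)] :
    LieAlgebra ℝ (∀ i, L i) where
  lie_smul t x y := by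
    funext i
    exact lie_smul t (x i) (y i)

theorem pi_lie_apply [∀ i, LieRing (L i)] (x y : ∀ i, L i) (i : ι) : ⁅x, y⁆ i = ⁅x i, y i⁆ := rfl

end Pi

/-! ### Invariant Einstein metrics -/

section Einstein

variable {L : Type*} [LieRing L] [LieAlgebra ℝ L]

/-- The Ricci curvature (as a quadratic form on the complement `m` of the isotropy algebra) of the
invariant metric `β` on `G/K`, `G` compact with Lie algebra `L`: here `π` is the projection of `L`
onto `m` along the isotropy algebra and `X` is a `β`-orthonormal basis of `m`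
(A. Besse, Einstein manifolds, Corollary 7.38). -/
noncomputable def ricci (π : L →ₗ[ℝ] L) (β : LinearMap.BilinForm ℝ L) {D : ℕ} (X : Fin D → L)
    (x : L) : ℝ :=
  -(1 / 2) * ∑ i, β (π ⁅x, X i⁆) (π ⁅x, X i⁆) - (1 / 2) * killingForm ℝ L x x
    + (1 / 4) * ∑ i, ∑ j, (β (π ⁅X i, X j⁆) x) ^ 2

/-- Let `G` be a compact group with Lie algebra `L` and `K` a closed subgroup with Lie algebra `k`
whose adjoint action on `L` is contained in `Γ`.  There is a complement `m` of `k`, invariant under
`Γ`, and an inner product `β` on `m`, invariant under `Γ`, such that the corresponding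
`G`-invariant metric on `G/K` is Einstein, `Ric = c β`, with `c > 0`. -/
def HasEinsteinMetric (L : Type*) [LieRing L] [LieAlgebra ℝ L] (k : Submodule ℝ L)
    (Γ : Set (L →ₗ[ℝ] L)) : Prop :=
  ∃ (m : Submodule ℝ L) (π : L →ₗ[ℝ] L) (β : LinearMap.BilinForm ℝ L) (D : ℕ) (X : Fin D → L)
    (c : ℝ),
    IsCompl k m ∧ (∀ y ∈ k, π y = 0) ∧ (∀ x ∈ m, π x = x) ∧
    (∀ y ∈ k, ∀ x ∈ m, ⁅y, x⁆ ∈ m) ∧
    (∀ γ ∈ Γ, ∀ x ∈ m, γ x ∈ m) ∧ (∀ γ ∈ Γ, ∀ x ∈ m, ∀ y ∈ m, β (γ x) (γ y) = β x y) ∧
    (∀ x y, β x y = β y x) ∧ Submodule.span ℝ (Set.range X) = m ∧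
    (∀ i j, β (X i) (X j) = if i = j then 1 else 0) ∧
    0 < c ∧ ∀ x ∈ m, ricci π β X x = c * β x x

/-- Compact semisimple Lie algebras. -/
def CompactSemisimple (g : Type*) [LieRing g] [LieAlgebra ℝ g] : Prop :=
  ∀ x : g, x ≠ 0 → killingForm ℝ g x x < 0

/-- The diagonal copy of the subalgebra `h` of `g` in `g^n`. -/
def diagonal {g : Type*} [LieRing g] [LieAlgebra ℝ g] (n : ℕ) (h : LieSubalgebra ℝ g) :
    Submodule ℝ (Fin n → g) :=
  h.toSubmodule.map (LinearMap.pi fun _ : Fin n => (LinearMap.id : g →ₗ[ℝ] g))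

/-- The automorphisms of `g^n` given by the permutations of the factors and by the automorphisms of
`g` which preserve `h`, acting in the same way on all factors. -/
def diagonalAuts {g : Type*} [LieRing g] [LieAlgebra ℝ g] (n : ℕ) (h : LieSubalgebra ℝ g) :
    Set ((Fin n → g) →ₗ[ℝ] (Fin n → g)) :=
  {γ | (∃ s : Equiv.Perm (Fin n), ∀ x i, γ x i = x (s i)) ∨
    ∃ δ : g ≃ₗ⁅ℝ⁆ g, h.map (δ : g →ₗ⁅ℝ⁆ g) = h ∧ ∀ x i, γ x i = δ (x i)}

/-- `T` is symmetric for the Killing form and is an eigenvector with eigenvalue one of the Casimir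
operator (normalised to be one on `g`) on the symmetric endomorphisms. -/
def CasimirOne {g : Type*} [LieRing g] [LieAlgebra ℝ g] (T : g →ₗ[ℝ] g) : Prop :=
  (∀ x y, killingForm ℝ g (T x) y = killingForm ℝ g x (T y)) ∧
  ∀ x y : g, LinearMap.trace ℝ g ((LieAlgebra.ad ℝ g x : g →ₗ[ℝ] g) ∘ₗ T ∘ₗ
    (LieAlgebra.ad ℝ g y : g →ₗ[ℝ] g)) = (1 / 2) * killingForm ℝ g (T x) y

/-- The bi-invariant metric is rigid among all left-invariant metrics. -/
def Rigid (g : Type*) [LieRing g] [LieAlgebra ℝ g] : Prop :=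
  ∀ T : g →ₗ[ℝ] g, CasimirOne T → T = 0

/-- The bi-invariant metric is rigid among the left-invariant metrics which are invariant under all
automorphisms which preserve `h`. -/
def RigidAt {g : Type*} [LieRing g] [LieAlgebra ℝ g] (h : LieSubalgebra ℝ g) : Prop :=
  ∀ T : g →ₗ[ℝ] g, CasimirOne T →
    (∀ δ : g ≃ₗ⁅ℝ⁆ g, h.map (δ : g →ₗ⁅ℝ⁆ g) = h → ∀ x, T (δ x) = δ (T x)) → T = 0

end Einstein

end Pool.Agent.EStab
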