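import Pool.Agent.EStab.Eqs

/-!
# Invariance of the Einstein equations
-/

namespace Pool.Agent.EStab

open Matrix

variable {d : ℕ}

/-! ### Symmetric matrices commuting with a set of automorphisms -/

/-- Symmetric matrices which commute with the matrices in `Γ`. -/
def VG (Γ : Set (Mt d)) : Submodule ℝ (Mt d) where
  carrier := {M | Mᵀ = M ∧ ∀ k ∈ Γ, k * M = M * k}
  add_mem' := by
    rintro A B ⟨hA, hA'⟩ ⟨hB, hB'⟩
    refine ⟨by rw [Matrix.transpose_add, hA, hB], fun k hk => ?_⟩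
    rw [Matrix.mul_add, Matrix.add_mul, hA' k hk, hB' k hk]
  zero_mem' := ⟨by simp, fun k _ => by simp⟩
  smul_mem' := by
    rintro t A ⟨hA, hA'⟩
    refine ⟨by rw [Matrix.transpose_smul, hA], fun k hk => ?_⟩
    rw [Matrix.mul_smul, Matrix.smul_mul, hA' k hk]

theorem mem_VG {Γ : Set (Mt d)} {M : Mt d} : M ∈ VG Γ ↔ Mᵀ = M ∧ ∀ k ∈ Γ, k * M = M * k :=
  Iff.rfl

theorem one_mem_VG (Γ : Set (Mt d)) : (1 : Mt d) ∈ VG Γ :=
  ⟨Matrix.transpose_one, fun k _ => by rw [Matrix.mul_one, Matrix.one_mul]⟩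

theorem sandwich_mem_VG {Γ : Set (Mt d)} {A B : Mt d} (hA : A ∈ VG Γ) (hB : B ∈ VG Γ) :
    A * B * A ∈ VG Γ := by
  refine ⟨?_, fun k hk => ?_⟩
  · rw [Matrix.transpose_mul, Matrix.transpose_mul, hA.1, hB.1, Matrix.mul_assoc]
  · calc k * (A * B * A) = (k * A) * B * A := by simp only [Matrix.mul_assoc]
      _ = A * (k * B) * A := by rw [hA.2 k hk]; simp only [Matrix.mul_assoc]
      _ = A * B * (k * A) := by rw [hB.2 k hk]; simp only [Matrix.mul_assoc]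
      _ = A * B * A * k := by rw [hA.2 k hk]; simp only [Matrix.mul_assoc]

theorem inv_mem_VG {Γ : Set (Mt d)} {A : Mt d} (hA : A ∈ VG Γ) : A⁻¹ ∈ VG Γ := by
  refine ⟨by rw [Matrix.transpose_nonsing_inv, hA.1], fun k hk => ?_⟩
  by_cases h : IsUnit A.det
  · have h1 : A⁻¹ * A = 1 := Matrix.nonsing_inv_mul A h
    have h2 : A * A⁻¹ = 1 := Matrix.mul_nonsing_inv A h
    calc k * A⁻¹ = A⁻¹ * (A * k) * A⁻¹ := by
          rw [← Matrix.mul_assoc, h1, Matrix.one_mul]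
      _ = A⁻¹ * k * (A * A⁻¹) := by rw [← hA.2 k hk]; simp only [Matrix.mul_assoc]
      _ = A⁻¹ * k := by rw [h2, Matrix.mul_one]
  · rw [Matrix.nonsing_inv_apply_not_isUnit A h, Matrix.mul_zero, Matrix.zero_mul]

theorem Th_mem_VG {S : SC d} {Γ : Set (Mt d)} (hΓ : ∀ k ∈ Γ, S.Pres k) {A B : Mt d}
    (hA : A ∈ VG Γ) (hB : B ∈ VG Γ) : S.Th A B ∈ VG Γ :=
  ⟨by rw [S.Th_transpose, hA.1, hB.1],
    fun k hk => S.Th_commute (hΓ k hk) (hA.2 k hk) (hB.2 k hk)⟩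

theorem RV_mem_VG {S : SC d} {Γ : Set (Mt d)} (hΓ : ∀ k ∈ Γ, S.Pres k) {ε : ℝ} {P A Y : Mt d}
    (hP : P ∈ VG Γ) (hA : A ∈ VG Γ) (hY : Y ∈ VG Γ) : RV S ε P A Y ∈ VG Γ := by
  have h1 := inv_mem_VG hA
  have h2 := sandwich_mem_VG hP hY
  have h3 := sandwich_mem_VG hP (inv_mem_VG hY)
  unfold RV
  refine Submodule.add_mem _ (Submodule.add_mem _ (Submodule.smul_mem _ _ (Submodule.add_mem _
    (Submodule.add_mem _ (Submodule.smul_mem _ _ (Th_mem_VG hΓ h1 hA))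
    (Submodule.smul_mem _ _ (Th_mem_VG hΓ h1 h2))) (Submodule.smul_mem _ _ (Th_mem_VG hΓ h3 hA))))
    (Submodule.smul_mem _ _ (one_mem_VG Γ))) (Submodule.smul_mem _ _ (sandwich_mem_VG hA
    (Submodule.add_mem _ (Submodule.smul_mem _ _ (Th_mem_VG hΓ h1 h1))
    (Submodule.smul_mem _ _ (Th_mem_VG hΓ h1 h3)))))

theorem R0_mem_VG {S : SC d} {Γ : Set (Mt d)} (hΓ : ∀ k ∈ Γ, S.Pres k) {ε : ℝ} {P A Y : Mt d}
    (hP : P ∈ VG Γ) (hA : A ∈ VG Γ) (hY : Y ∈ VG Γ) : R0 S ε P A Y ∈ VG Γ := by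
  have h1 := inv_mem_VG hA
  have h2 := sandwich_mem_VG hP hY
  have h3 := sandwich_mem_VG hP (inv_mem_VG hY)
  unfold R0
  refine Submodule.add_mem _ (Submodule.add_mem _ (Submodule.smul_mem _ _ (Submodule.add_mem _
    (Submodule.smul_mem _ _ (Th_mem_VG hΓ h1 hA)) (Submodule.smul_mem _ _ (Th_mem_VG hΓ h3 h2))))
    (Submodule.smul_mem _ _ (one_mem_VG Γ))) (Submodule.smul_mem _ _ (sandwich_mem_VG h2
    (Submodule.add_mem _ (Submodule.smul_mem _ _ (Th_mem_VG hΓ h1 h1))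
    (Submodule.smul_mem _ _ (Th_mem_VG hΓ h3 h3)))))

/-! ### Equivariance -/

section Conj

variable {k : Mt d} (hk : k * kᵀ = 1)
include hk

private theorem EqInv_mul (A B : Mt d) : (k * A * kᵀ) * (k * B * kᵀ) = k * (A * B) * kᵀ := by
  have hk' : kᵀ * k = 1 := mul_eq_one_comm.1 hk
  calc (k * A * kᵀ) * (k * B * kᵀ) = k * A * (kᵀ * k) * B * kᵀ := by
        simp only [Matrix.mul_assoc]
    _ = k * (A * B) * kᵀ := by rw [hk', Matrix.mul_one]; simp only [Matrix.mul_assoc]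

private theorem EqInv_inv (A : Mt d) : (k * A * kᵀ)⁻¹ = k * A⁻¹ * kᵀ := by
  have hk' : kᵀ * k = 1 := mul_eq_one_comm.1 hk
  have h1 : k⁻¹ = kᵀ := Matrix.inv_eq_right_inv hk
  have h2 : (kᵀ)⁻¹ = k := Matrix.inv_eq_right_inv hk'
  rw [Matrix.mul_inv_rev, Matrix.mul_inv_rev, h1, h2, Matrix.mul_assoc]

private theorem EqInv_one : k * 1 * kᵀ = 1 := by rw [Matrix.mul_one, hk]

end Conj

private theorem EqInv_add (k A B : Mt d) : k * (A + B) * kᵀ = k * A * kᵀ + k * B * kᵀ := by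
  rw [Matrix.mul_add, Matrix.add_mul]

private theorem EqInv_smul (t : ℝ) (k A : Mt d) : k * (t • A) * kᵀ = t • (k * A * kᵀ) := by
  rw [Matrix.mul_smul, Matrix.smul_mul]

theorem RV_conj {S : SC d} {k : Mt d} (hk : S.Pres k) {ε : ℝ} {P A Y : Mt d}
    (hP : k * P * kᵀ = P) :
    RV S ε P (k * A * kᵀ) (k * Y * kᵀ) = k * RV S ε P A Y * kᵀ := by
  have e1 : P * (k * Y * kᵀ) * P = k * (P * Y * P) * kᵀ := by
    conv_lhs => rw [← hP]
    rw [EqInv_mul hk.1, EqInv_mul hk.1]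
  have e2 : P * (k * Y⁻¹ * kᵀ) * P = k * (P * Y⁻¹ * P) * kᵀ := by
    conv_lhs => rw [← hP]
    rw [EqInv_mul hk.1, EqInv_mul hk.1]
  have e3 : (1 : Mt d) = k * 1 * kᵀ := (EqInv_one hk.1).symm
  unfold RV
  rw [EqInv_inv hk.1, EqInv_inv hk.1, e1, e2]
  simp only [S.Th_conj hk]
  conv_lhs => rw [e3]
  simp only [← EqInv_smul, ← EqInv_add, EqInv_mul hk.1]

theorem R0_conj {S : SC d} {k : Mt d} (hk : S.Pres k) {ε : ℝ} {P A Y : Mt d}
    (hP : k * P * kᵀ = P) :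
    R0 S ε P (k * A * kᵀ) (k * Y * kᵀ) = k * R0 S ε P A Y * kᵀ := by
  have e1 : P * (k * Y * kᵀ) * P = k * (P * Y * P) * kᵀ := by
    conv_lhs => rw [← hP]
    rw [EqInv_mul hk.1, EqInv_mul hk.1]
  have e2 : P * (k * Y⁻¹ * kᵀ) * P = k * (P * Y⁻¹ * P) * kᵀ := by
    conv_lhs => rw [← hP]
    rw [EqInv_mul hk.1, EqInv_mul hk.1]
  have e3 : (1 : Mt d) = k * 1 * kᵀ := (EqInv_one hk.1).symm
  unfold R0
  rw [EqInv_inv hk.1, EqInv_inv hk.1, e1, e2]
  simp only [S.Th_conj hk]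
  conv_lhs => rw [e3]
  simp only [← EqInv_smul, ← EqInv_add, EqInv_mul hk.1]

/-! ### The equations at `ε = 0` -/

theorem RV_zero (S : SC d) (P A Y : Mt d) : RV S 0 P A Y
    = -(1 / 2 : ℝ) • S.Th A⁻¹ A + (1 / 2 : ℝ) • 1 + (1 / 4 : ℝ) • (A * S.Th A⁻¹ A⁻¹ * A) := by
  unfold RV
  simp only [mul_zero, sub_zero, one_smul, zero_smul, add_zero]

theorem R0_zero (S : SC d) (P A Y : Mt d) : R0 S 0 P A Y
    = -(1 / 2 : ℝ) • S.Th A⁻¹ A + (1 / 2 : ℝ) • 1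
      + (1 / 4 : ℝ) • ((P * Y * P) * S.Th A⁻¹ A⁻¹ * (P * Y * P)) := by
  unfold R0
  simp only [sub_zero, one_smul, zero_smul, add_zero]

/-- A symmetric matrix close to the identity is positive definite. -/
theorem posDef_of_near {A : Mt d} (hA : Aᵀ = A)
    (h : ∀ i j, |(A - 1) i j| < 1 / ((d : ℝ) + 1)) : A.PosDef := by
  refine Matrix.PosDef.of_dotProduct_mulVec_pos ?_ fun x hx => ?_
  · rw [Matrix.IsHermitian, Matrix.conjTranspose_eq_transpose_of_trivial]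
    exact hA
  · have hd : (0 : ℝ) < (d : ℝ) + 1 := by positivity
    have hpos : 0 < ∑ i, x i ^ 2 := by
      obtain ⟨i, hi⟩ : ∃ i, x i ≠ 0 := by
        by_contra hcon
        push Not at hcon
        exact hx (funext hcon)
      exact Finset.sum_pos' (fun i _ => sq_nonneg _) ⟨i, Finset.mem_univ i, by positivity⟩
    have h1 : star x ⬝ᵥ (A *ᵥ x) = ∑ i, x i ^ 2 + ∑ i, ∑ j, x i * ((A - 1) i j * x j) := by
      have h2 : A = 1 + (A - 1) := by abel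
      have h3 : star x = x := by
        funext i
        simp
      rw [h3]
      conv_lhs => rw [h2, Matrix.add_mulVec, Matrix.one_mulVec, dotProduct_add]
      congr 1
      · simp only [dotProduct, sq]
      · simp only [dotProduct, Matrix.mulVec, Finset.mul_sum]
    have h4 : |∑ i, ∑ j, x i * ((A - 1) i j * x j)|
        ≤ ∑ i : Fin d, ∑ j : Fin d, (1 / ((d : ℝ) + 1)) * ((x i ^ 2 + x j ^ 2) / 2) := by
      refine (Finset.abs_sum_le_sum_abs _ _).trans (Finset.sum_le_sum fun i _ => ?_)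
      refine (Finset.abs_sum_le_sum_abs _ _).trans (Finset.sum_le_sum fun j _ => ?_)
      rw [abs_mul, abs_mul]
      have h5 : |x i| * |x j| ≤ (x i ^ 2 + x j ^ 2) / 2 := by
        have := two_mul_le_add_sq |x i| |x j|
        rw [sq_abs, sq_abs] at this
        linarith
      have h6 := (h i j).le
      have h7 : 0 ≤ |x i| * |x j| := by positivity
      calc |x i| * (|(A - 1) i j| * |x j|) = |(A - 1) i j| * (|x i| * |x j|) := by ring
        _ ≤ (1 / ((d : ℝ) + 1)) * ((x i ^ 2 + x j ^ 2) / 2) :=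
            mul_le_mul h6 h5 h7 (by positivity)
    have h8 : ∑ i : Fin d, ∑ j : Fin d, (1 / ((d : ℝ) + 1)) * ((x i ^ 2 + x j ^ 2) / 2)
        = ((d : ℝ) / ((d : ℝ) + 1)) * ∑ i, x i ^ 2 := by
      simp only [← Finset.mul_sum, ← Finset.sum_div, Finset.sum_add_distrib, Finset.sum_const,
        Finset.card_univ, Fintype.card_fin, nsmul_eq_mul]
      field_simp
      ring
    rw [h1]
    rw [h8] at h4
    have h9 := (abs_le.1 h4).1
    have h10 : ((d : ℝ) / ((d : ℝ) + 1)) * ∑ i, x i ^ 2 < ∑ i, x i ^ 2 := by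
      have : (d : ℝ) / ((d : ℝ) + 1) < 1 := by
        rw [div_lt_one hd]
        linarith
      nlinarith
    linarith

theorem good_of_eq {S : SC d} {ε : ℝ} {P A Y : Mt d} (hPP : P * P = P) (hA : A.PosDef)
    (hY : Y.PosDef) (h1 : RV S ε P A Y - (1 / 4 : ℝ) • A = 0)
    (h2 : P * R0 S ε P A Y * P - (1 / 4 : ℝ) • Y + (1 / 4 : ℝ) • (1 - P) = 0) :
    Good S ε P A Y := by
  have e1 : (1 / 4 : ℝ) • Y = P * R0 S ε P A Y * P + (1 / 4 : ℝ) • (1 - P) := by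
    have h3 : P * R0 S ε P A Y * P + (1 / 4 : ℝ) • (1 - P) - (1 / 4 : ℝ) • Y = 0 := by
      rw [← h2]
      abel
    exact (sub_eq_zero.1 h3).symm
  have hP0 : P * (1 - P) = 0 := by rw [Matrix.mul_sub, Matrix.mul_one, hPP, sub_self]
  have hP0' : (1 - P) * P = 0 := by rw [Matrix.sub_mul, Matrix.one_mul, hPP, sub_self]
  have e2 : (1 / 4 : ℝ) • (P * Y) = P * R0 S ε P A Y * P := by
    rw [← Matrix.mul_smul, e1, Matrix.mul_add, Matrix.mul_smul, hP0, smul_zero, add_zero]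
    simp only [← Matrix.mul_assoc, hPP]
  have e3 : (1 / 4 : ℝ) • (Y * P) = P * R0 S ε P A Y * P := by
    rw [← Matrix.smul_mul, e1, Matrix.add_mul, Matrix.smul_mul, hP0', smul_zero, add_zero]
    simp only [Matrix.mul_assoc, hPP]
  have e4 : P * Y = Y * P := by
    have h4 : (1 / 4 : ℝ) • (P * Y) = (1 / 4 : ℝ) • (Y * P) := by rw [e2, e3]
    exact smul_right_injective _ (by norm_num : (1 / 4 : ℝ) ≠ 0) h4
  refine ⟨hA, hY, e4, sub_eq_zero.1 h1, ?_⟩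
  rw [← e2, e4, Matrix.mul_assoc, hPP]

end Pool.Agent.EStab
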