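import Pool.Agent.EStab.Theta

/-!
# The Einstein equations of the symmetric metrics

The metric on `G^n/ΔH` given by `A` on `g ⊗ V` (`V` the sum-zero part of `ℝ^n`) and by `P Y P` on
`m ⊗ 1` (`m` the orthogonal complement of `h`, `P` the projection onto `m`) has Ricci form `RV` on the
first and `P (R0) P` on the second summand, with `ε = 1/n`.
-/

namespace Pool.Agent.EStab

open Matrix

variable {d : ℕ}

/-- Ricci form on `g ⊗ V`. -/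
noncomputable def RV (S : SC d) (ε : ℝ) (P A Y : Mt d) : Mt d :=
  -(1 / 2 : ℝ) • ((1 - 2 * ε) • S.Th A⁻¹ A + ε • S.Th A⁻¹ (P * Y * P)
      + ε • S.Th (P * Y⁻¹ * P) A) + (1 / 2 : ℝ) • 1
    + (1 / 4 : ℝ) • (A * ((1 - 2 * ε) • S.Th A⁻¹ A⁻¹ + (2 * ε) • S.Th A⁻¹ (P * Y⁻¹ * P)) * A)

/-- Ricci form on `m ⊗ 1` (before projection to `m`). -/
noncomputable def R0 (S : SC d) (ε : ℝ) (P A Y : Mt d) : Mt d :=
  -(1 / 2 : ℝ) • ((1 - ε) • S.Th A⁻¹ A + ε • S.Th (P * Y⁻¹ * P) (P * Y * P)) + (1 / 2 : ℝ) • 1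
    + (1 / 4 : ℝ) • ((P * Y * P) * ((1 - ε) • S.Th A⁻¹ A⁻¹
      + ε • S.Th (P * Y⁻¹ * P) (P * Y⁻¹ * P)) * (P * Y * P))

/-- `A` and `Y` give an Einstein metric with Einstein constant `1/4`. -/
structure Good (S : SC d) (ε : ℝ) (P A Y : Mt d) : Prop where
  A_pos : A.PosDef
  Y_pos : Y.PosDef
  comm : P * Y = Y * P
  eqV : RV S ε P A Y = (1 / 4 : ℝ) • A
  eq0 : P * R0 S ε P A Y * P = (1 / 4 : ℝ) • (P * Y * P)

end Pool.Agent.EStab
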