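import Pool.Agent.EStab.Defs

/-!
# The Lie algebras `so(N)`

Let `F i j = E_ij - E_ji` and `⟨X, Y⟩ = -(1/2) tr (X Y)`, so `⟨X, F i j⟩ = X i j` for skew `X`, and
`(F i j)_{i<j}` is an orthonormal basis of `so(N)`.

* `so_trace`: for an endomorphism `M` of `so(N)`, `trace M = (1/2) ∑ i j, (M (F i j)) i j`.  For instance:
  let `ι : so(N) → Mat` be the inclusion and `p X = (X - Xᵀ)/2 : Mat → so(N)`, `p ∘ ι = id`; then
  `trace M = trace (ι ∘ M ∘ p)` (`LinearMap.trace_comp_comm'`), computed in the standard basis of `Mat`.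
* `so_killing`: for skew `x`, `y`:
  `∑ i j, (x y F - x F y - y F x + F y x) i j = 2 (N - 1) tr (x y) - 2 tr (x y)`.
* `so_compact`: `tr (x x) = - ∑ (x i j)^2`.
* `so_rigid`: let `T` satisfy `CasimirOne` and put `t a b c d = (T (F a b)) c d`, antisymmetric in `a, b` and in
  `c, d` and symmetric under exchange of the pairs (by symmetry of `T` and `so_killing`, `N > 2`).  By
  `[F a b, F i j] = δ_bi F a j - δ_ai F b j - δ_bj F a i + δ_aj F b i` and `so_trace`, the equation for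
  `x = F a b`, `y = F c d` reads (`ρ a c = ∑ j, t a j c j`)
  `(N-2) t a b c d = δ_bd ρ a c - δ_bc ρ a d - δ_ad ρ b c + δ_ac ρ b d - 2 t a d c b + 2 t a c d b`.
  (Indeed `trace (ad x T ad y) = -(1/2) ∑ i j, ⟨T [y, F i j], [x, F i j]⟩` and
  `(1/2) K(T x, y) = -(N-2) t a b c d`.)
  Put `b = d` and sum: `2 ρ a c = δ_ac ∑ b, ρ b b`; sum again: `2 τ = N τ`, so `τ = 0`, `ρ = 0`.  So with
  `t1 = t a b c d`, `t2 = t a c d b`, `t3 = t a d b c`: `(N-2) t1 = 2 t2 + 2 t3` and cyclically; adding,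
  `(N - 6)(t1 + t2 + t3) = 0`, so `t1 + t2 + t3 = 0`, `N t1 = 0`, `t1 = 0`.
-/

namespace Pool.Agent.EStab

open Matrix LieAlgebra.Orthogonal

variable {N : ℕ}

/-- the elementary skew-symmetric matrices -/
private def SoN_F (a b : Fin N) : so (Fin N) ℝ :=
  ⟨Matrix.single a b 1 - Matrix.single b a 1, by
    rw [mem_so, Matrix.transpose_sub, Matrix.transpose_single, Matrix.transpose_single]
    abel⟩

/-- the projection onto the skew-symmetric matrices -/
private noncomputable def SoN_p : Matrix (Fin N) (Fin N) ℝ →ₗ[ℝ] so (Fin N) ℝ where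
  toFun X := ⟨(1 / 2 : ℝ) • (X - Xᵀ), by
    rw [mem_so, Matrix.transpose_smul, Matrix.transpose_sub, Matrix.transpose_transpose,
      ← smul_neg, neg_sub]⟩
  map_add' X Y := by
    apply Subtype.ext
    show (1 / 2 : ℝ) • (X + Y - (X + Y)ᵀ) = (1 / 2 : ℝ) • (X - Xᵀ) + (1 / 2 : ℝ) • (Y - Yᵀ)
    rw [Matrix.transpose_add, ← smul_add]
    congr 1
    abel
  map_smul' c X := by
    apply Subtype.ext
    show (1 / 2 : ℝ) • (c • X - (c • X)ᵀ) = c • ((1 / 2 : ℝ) • (X - Xᵀ))
    rw [Matrix.transpose_smul, ← smul_sub, smul_comm]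

private theorem SoN_p_single (i j : Fin N) :
    SoN_p (Matrix.single i j (1 : ℝ)) = (1 / 2 : ℝ) • SoN_F i j := by
  apply Subtype.ext
  show (1 / 2 : ℝ) • (Matrix.single i j (1 : ℝ) - (Matrix.single i j (1 : ℝ))ᵀ) =
    (1 / 2 : ℝ) • (Matrix.single i j (1 : ℝ) - Matrix.single j i 1)
  rw [Matrix.transpose_single]

private theorem SoN_p_id (x : so (Fin N) ℝ) : SoN_p x.1 = x := by
  apply Subtype.ext
  show (1 / 2 : ℝ) • (x.1 - x.1ᵀ) = x.1
  have h := (mem_so (Fin N) ℝ x.1).1 x.2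
  rw [h, sub_neg_eq_add, ← two_smul ℝ x.1, smul_smul]
  norm_num

private theorem SoN_sum (x : so (Fin N) ℝ) :
    x = (1 / 2 : ℝ) • ∑ i, ∑ j, x.1 i j • SoN_F i j := by
  conv_lhs => rw [← SoN_p_id x, Matrix.matrix_eq_sum_single x.1]
  rw [map_sum, Finset.smul_sum]
  refine Finset.sum_congr rfl fun i _ => ?_
  rw [map_sum, Finset.smul_sum]
  refine Finset.sum_congr rfl fun j _ => ?_
  have h : Matrix.single i j (x.1 i j) = x.1 i j • Matrix.single i j (1 : ℝ) := by
    rw [Matrix.smul_single, smul_eq_mul, mul_one]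
  rw [h, map_smul, SoN_p_single, smul_comm]

private theorem SoN_trace (M : so (Fin N) ℝ →ₗ[ℝ] so (Fin N) ℝ) :
    LinearMap.trace ℝ _ M = (1 / 2) * ∑ i, ∑ j, (M (SoN_F i j)).1 i j := by
  let ι : so (Fin N) ℝ →ₗ[ℝ] Matrix (Fin N) (Fin N) ℝ :=
    { toFun := fun x => x.1
      map_add' := fun _ _ => rfl
      map_smul' := fun _ _ => rfl }
  have h1 : M = (M ∘ₗ SoN_p) ∘ₗ ι := by
    ext x : 1
    show M x = M (SoN_p x.1)
    rw [SoN_p_id]
  have h2 : LinearMap.trace ℝ _ M = LinearMap.trace ℝ _ (ι ∘ₗ (M ∘ₗ SoN_p)) := by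
    conv_lhs => rw [h1]
    exact LinearMap.trace_comp_comm' ι (M ∘ₗ SoN_p)
  rw [h2, LinearMap.trace_eq_matrix_trace ℝ (Matrix.stdBasis ℝ (Fin N) (Fin N))]
  unfold Matrix.trace
  rw [Fintype.sum_prod_type, Finset.mul_sum]
  refine Finset.sum_congr rfl fun i _ => ?_
  rw [Finset.mul_sum]
  refine Finset.sum_congr rfl fun j _ => ?_
  rw [Matrix.diag_apply, LinearMap.toMatrix_apply, Matrix.stdBasis_eq_single]
  have h3 : ∀ X : Matrix (Fin N) (Fin N) ℝ,
      (Matrix.stdBasis ℝ (Fin N) (Fin N)).repr X (i, j) = X i j := by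
    intro X
    simp [Matrix.stdBasis]
  rw [h3]
  show (M (SoN_p (Matrix.single i j (1 : ℝ)))).1 i j = _
  rw [SoN_p_single, map_smul]
  rfl

private theorem SoN_F_apply (a b i j : Fin N) : (SoN_F a b).1 i j =
    (if a = i ∧ b = j then 1 else 0) - (if b = i ∧ a = j then 1 else 0) := by
  show (Matrix.single a b (1 : ℝ) - Matrix.single b a 1 : Matrix (Fin N) (Fin N) ℝ) i j = _
  rw [Matrix.sub_apply, Matrix.single_apply, Matrix.single_apply]

private theorem SoN_bracket (x y : so (Fin N) ℝ) : (⁅x, y⁆ : so (Fin N) ℝ).1 =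
    x.1 * y.1 - y.1 * x.1 := rfl

private theorem SoN_skew (x : so (Fin N) ℝ) (i j : Fin N) : x.1 i j = - x.1 j i := by
  have h := (mem_so (Fin N) ℝ x.1).1 x.2
  have h2 := congrFun (congrFun h j) i
  rw [Matrix.transpose_apply, Matrix.neg_apply] at h2
  exact h2

private theorem SoN_diag (x : so (Fin N) ℝ) (i : Fin N) : x.1 i i = 0 := by
  have h := SoN_skew x i i
  linarith

private theorem SoN_lr (A B : Matrix (Fin N) (Fin N) ℝ) (a b i j : Fin N) :
    (A * (Matrix.single a b (1 : ℝ) * B)) i j = A i a * B b j := by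
  rw [Matrix.mul_apply, Finset.sum_eq_single a]
  · rw [Matrix.single_mul_apply_same, one_mul]
  · intro k _ hk
    rw [Matrix.single_mul_apply_of_ne _ _ _ _ _ hk, mul_zero]
  · intro h
    exact absurd (Finset.mem_univ a) h

private theorem SoN_entry (x y : so (Fin N) ℝ) (i j : Fin N) :
    (⁅x, ⁅y, SoN_F i j⁆⁆ : so (Fin N) ℝ).1 i j =
      (x.1 * y.1) i i - (x.1 * y.1) i j * (if i = j then 1 else 0) -
        (x.1 i i * y.1 j j - x.1 i j * y.1 i j) - (y.1 i i * x.1 j j - y.1 i j * x.1 i j) +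
        ((y.1 * x.1) j j - (if i = j then 1 else 0) * (y.1 * x.1) i j) := by
  have e : (⁅x, ⁅y, SoN_F i j⁆⁆ : so (Fin N) ℝ).1 =
      ((x.1 * y.1) * (Matrix.single i j (1 : ℝ) * 1) - (x.1 * y.1) * (Matrix.single j i (1 : ℝ) * 1))
      - (x.1 * (Matrix.single i j (1 : ℝ) * y.1) - x.1 * (Matrix.single j i (1 : ℝ) * y.1))
      - (y.1 * (Matrix.single i j (1 : ℝ) * x.1) - y.1 * (Matrix.single j i (1 : ℝ) * x.1))
      + (1 * (Matrix.single i j (1 : ℝ) * (y.1 * x.1)) -
        1 * (Matrix.single j i (1 : ℝ) * (y.1 * x.1))) := by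
    rw [SoN_bracket, SoN_bracket]
    show x.1 * (y.1 * (Matrix.single i j (1 : ℝ) - Matrix.single j i 1) -
      (Matrix.single i j (1 : ℝ) - Matrix.single j i 1) * y.1) -
      (y.1 * (Matrix.single i j (1 : ℝ) - Matrix.single j i 1) -
      (Matrix.single i j (1 : ℝ) - Matrix.single j i 1) * y.1) * x.1 = _
    noncomm_ring
  rw [e]
  simp only [Matrix.add_apply, Matrix.sub_apply, SoN_lr]
  simp only [Matrix.one_apply, if_true]
  ring_nf

private theorem SoN_tr (x y : so (Fin N) ℝ) :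
    (x.1 * y.1).trace = - ∑ i, ∑ j, x.1 i j * y.1 i j := by
  unfold Matrix.trace
  rw [← Finset.sum_neg_distrib]
  refine Finset.sum_congr rfl fun i _ => ?_
  rw [Matrix.diag_apply, Matrix.mul_apply, ← Finset.sum_neg_distrib]
  refine Finset.sum_congr rfl fun j _ => ?_
  rw [SoN_skew y j i]
  ring

private theorem SoN_killing (x y : so (Fin N) ℝ) :
    killingForm ℝ (so (Fin N) ℝ) x y = ((N : ℝ) - 2) * (x.1 * y.1).trace := by
  rw [killingForm_apply_apply, SoN_trace]
  have h1 : ∀ i j, (((LieAlgebra.ad ℝ (so (Fin N) ℝ)) x ∘ₗ (LieAlgebra.ad ℝ (so (Fin N) ℝ)) y)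
      (SoN_F i j)).1 i j = (⁅x, ⁅y, SoN_F i j⁆⁆ : so (Fin N) ℝ).1 i j := fun i j => rfl
  have h2 : ∑ i, ∑ j, x.1 i j * y.1 i j = - (x.1 * y.1).trace := by
    rw [SoN_tr, neg_neg]
  have h3 : ∀ A : Matrix (Fin N) (Fin N) ℝ, ∑ i, ∑ _j : Fin N, A i i = N * A.trace := by
    intro A
    simp only [Finset.sum_const, Finset.card_univ, Fintype.card_fin, nsmul_eq_mul]
    rw [← Finset.mul_sum]
    rfl
  have h4 : ∀ A : Matrix (Fin N) (Fin N) ℝ, ∑ _i : Fin N, ∑ j, A j j = N * A.trace := by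
    intro A
    rw [Finset.sum_const, Finset.card_univ, Fintype.card_fin, nsmul_eq_mul]
    rfl
  have h5 : ∀ A : Matrix (Fin N) (Fin N) ℝ,
      ∑ i, ∑ j, A i j * (if i = j then (1 : ℝ) else 0) = A.trace := by
    intro A
    simp only [mul_ite, mul_one, mul_zero, Finset.sum_ite_eq, Finset.mem_univ, if_true]
    rfl
  have h6 : (y.1 * x.1).trace = (x.1 * y.1).trace := Matrix.trace_mul_comm _ _
  have h7 : ∀ i j, (⁅x, ⁅y, SoN_F i j⁆⁆ : so (Fin N) ℝ).1 i j =
      (x.1 * y.1) i i + (y.1 * x.1) j j - (x.1 * y.1) i j * (if i = j then 1 else 0) -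
        (y.1 * x.1) i j * (if i = j then 1 else 0) + 2 * (x.1 i j * y.1 i j) := by
    intro i j
    rw [SoN_entry, SoN_diag, SoN_diag, SoN_diag y]
    ring
  simp only [h1, h7, Finset.sum_add_distrib, Finset.sum_sub_distrib, ← Finset.mul_sum]
  rw [h2, h3, h4, h5, h5, h6]
  ring

theorem so_compact {N : ℕ} (hN : 3 ≤ N) : CompactSemisimple (so (Fin N) ℝ) := by
  intro x hx
  rw [SoN_killing]
  have h1 : (x.1 * x.1).trace = - ∑ i, ∑ j, x.1 i j ^ 2 := by
    rw [SoN_tr]
    simp only [sq]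
  have h2 : ∃ i j, x.1 i j ≠ 0 := by
    by_contra hcon
    push Not at hcon
    apply hx
    apply Subtype.ext
    ext i j
    exact hcon i j
  obtain ⟨i, j, hij⟩ := h2
  have h3 : 0 < ∑ i, ∑ j, x.1 i j ^ 2 := by
    refine Finset.sum_pos' (fun i _ => Finset.sum_nonneg fun j _ => sq_nonneg _)
      ⟨i, Finset.mem_univ i, ?_⟩
    refine Finset.sum_pos' (fun j _ => sq_nonneg _) ⟨j, Finset.mem_univ j, ?_⟩
    positivity
  have h4 : (3 : ℝ) ≤ N := by exact_mod_cast hN
  rw [h1]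
  nlinarith

private theorem SoN_F_swap (a b : Fin N) : SoN_F b a = - SoN_F a b := by
  apply Subtype.ext
  show Matrix.single b a (1 : ℝ) - Matrix.single a b 1 =
    - (Matrix.single a b (1 : ℝ) - Matrix.single b a 1)
  abel

private theorem SoN_FF (c d i j : Fin N) : ⁅SoN_F c d, SoN_F i j⁆ =
    (if d = i then (1 : ℝ) else 0) • SoN_F c j - (if c = i then (1 : ℝ) else 0) • SoN_F d j
    - (if d = j then (1 : ℝ) else 0) • SoN_F c i + (if c = j then (1 : ℝ) else 0) • SoN_F d i := by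
  apply Subtype.ext
  rw [SoN_bracket]
  show (Matrix.single c d (1 : ℝ) - Matrix.single d c 1) *
      (Matrix.single i j (1 : ℝ) - Matrix.single j i 1) -
      (Matrix.single i j (1 : ℝ) - Matrix.single j i 1) *
      (Matrix.single c d (1 : ℝ) - Matrix.single d c 1) =
      (if d = i then (1 : ℝ) else 0) • (Matrix.single c j (1 : ℝ) - Matrix.single j c 1)
      - (if c = i then (1 : ℝ) else 0) • (Matrix.single d j (1 : ℝ) - Matrix.single j d 1)
      - (if d = j then (1 : ℝ) else 0) • (Matrix.single c i (1 : ℝ) - Matrix.single i c 1)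
      + (if c = j then (1 : ℝ) else 0) • (Matrix.single d i (1 : ℝ) - Matrix.single i d 1)
  have hs : ∀ p q r s : Fin N, Matrix.single p q (1 : ℝ) * Matrix.single r s 1 =
      (if q = r then (1 : ℝ) else 0) • Matrix.single p s 1 := by
    intro p q r s
    by_cases h : q = r
    · subst h
      rw [Matrix.single_mul_single_same, if_pos rfl, one_smul, mul_one]
    · rw [Matrix.single_mul_single_of_ne _ _ _ _ h, if_neg h, zero_smul]
  simp only [sub_mul, mul_sub, hs]
  simp only [eq_comm (a := i) (b := d), eq_comm (a := j) (b := d), eq_comm (a := i) (b := c),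
    eq_comm (a := j) (b := c), smul_sub]
  abel

private theorem SoN_Fbr (a b : Fin N) (Z : so (Fin N) ℝ) (i j : Fin N) :
    (⁅SoN_F a b, Z⁆ : so (Fin N) ℝ).1 i j =
      (if a = i then 1 else 0) * Z.1 b j - (if b = i then 1 else 0) * Z.1 a j
      - (if b = j then 1 else 0) * Z.1 i a + (if a = j then 1 else 0) * Z.1 i b := by
  rw [SoN_bracket]
  show ((Matrix.single a b (1 : ℝ) - Matrix.single b a 1) * Z.1 -
    Z.1 * (Matrix.single a b (1 : ℝ) - Matrix.single b a 1) : Matrix (Fin N) (Fin N) ℝ) i j = _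
  have e : (Matrix.single a b (1 : ℝ) - Matrix.single b a 1) * Z.1 -
    Z.1 * (Matrix.single a b (1 : ℝ) - Matrix.single b a 1) =
    (1 * (Matrix.single a b (1 : ℝ) * Z.1) - 1 * (Matrix.single b a (1 : ℝ) * Z.1)) -
    (Z.1 * (Matrix.single a b (1 : ℝ) * 1) - Z.1 * (Matrix.single b a (1 : ℝ) * 1)) := by
    noncomm_ring
  rw [e]
  simp only [Matrix.sub_apply, SoN_lr, Matrix.one_apply]
  simp only [eq_comm (a := i) (b := a), eq_comm (a := i) (b := b)]
  ring

theorem so_rigid {N : ℕ} (hN : 3 ≤ N) (h6 : N ≠ 6) : Rigid (so (Fin N) ℝ) := by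
  rintro T ⟨hsym, heq⟩
  have hN3 : (3 : ℝ) ≤ N := by exact_mod_cast hN
  have hN2 : (N : ℝ) - 2 ≠ 0 := by
    intro h
    linarith
  obtain ⟨t, ht⟩ : ∃ t : Fin N → Fin N → Fin N → Fin N → ℝ,
      ∀ a b c d, t a b c d = (T (SoN_F a b)).1 c d := ⟨_, fun _ _ _ _ => rfl⟩
  -- symmetries
  have s1 : ∀ a b c d, t b a c d = - t a b c d := by
    intro a b c d
    rw [ht, ht, SoN_F_swap, map_neg]
    rfl
  have s2 : ∀ a b c d, t a b d c = - t a b c d := by
    intro a b c d
    rw [ht, ht, SoN_skew]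
  have hkill : ∀ (Z : so (Fin N) ℝ) c d, killingForm ℝ (so (Fin N) ℝ) Z (SoN_F c d) =
      - (2 * ((N : ℝ) - 2)) * Z.1 c d := by
    intro Z c d
    rw [SoN_killing]
    have h1 : (Z.1 * (SoN_F c d).1).trace = - 2 * Z.1 c d := by
      rw [SoN_tr]
      simp only [SoN_F_apply, mul_sub, Finset.sum_sub_distrib, mul_ite, mul_one, mul_zero,
        ite_and]
      have h2 : ∀ (p q : Fin N), ∑ i, ∑ j, (if p = i then (if q = j then Z.1 i j else 0) else 0) =
          Z.1 p q := by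
        intro p q
        rw [Finset.sum_eq_single p]
        · simp
        · intro i _ hi
          simp [Ne.symm hi]
        · intro h
          exact absurd (Finset.mem_univ p) h
      rw [h2, h2, SoN_skew Z d c]
      ring
    rw [h1]
    ring
  have s3 : ∀ a b c d, t c d a b = t a b c d := by
    intro a b c d
    have h1 := hsym (SoN_F a b) (SoN_F c d)
    have h2 : killingForm ℝ (so (Fin N) ℝ) (SoN_F a b) (T (SoN_F c d)) =
        killingForm ℝ (so (Fin N) ℝ) (T (SoN_F c d)) (SoN_F a b) := by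
      rw [SoN_killing, SoN_killing, Matrix.trace_mul_comm]
    rw [h2, hkill, hkill, ← ht, ← ht] at h1
    have h3 : - (2 * ((N : ℝ) - 2)) ≠ 0 := by
      intro h
      apply hN2
      linarith
    exact (mul_left_cancel₀ h3 h1).symm
  -- the image of the brackets
  have hZ : ∀ c d i j k l, (T ⁅SoN_F c d, SoN_F i j⁆).1 k l =
      (if d = i then (1 : ℝ) else 0) * t c j k l - (if c = i then (1 : ℝ) else 0) * t d j k l
      - (if d = j then (1 : ℝ) else 0) * t c i k l + (if c = j then (1 : ℝ) else 0) * t d i k l := by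
    intro c d i j k l
    rw [SoN_FF, map_add, map_sub, map_sub, map_smul, map_smul, map_smul, map_smul, ht, ht, ht, ht]
    rfl
  obtain ⟨ρ, hρ⟩ : ∃ ρ : Fin N → Fin N → ℝ, ∀ a c, ρ a c = ∑ j, t a j c j := ⟨_, fun _ _ => rfl⟩
  have hρs : ∀ a c, ρ c a = ρ a c := by
    intro a c
    rw [hρ, hρ]
    refine Finset.sum_congr rfl fun j _ => ?_
    rw [s3]
  have hA : ∀ a b c d, ∑ j, (T ⁅SoN_F c d, SoN_F a j⁆).1 b j =
      (if d = a then (1 : ℝ) else 0) * ρ c b - (if c = a then (1 : ℝ) else 0) * ρ d b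
        - t c a b d + t d a b c := by
    intro a b c d
    simp only [hZ, Finset.sum_add_distrib, Finset.sum_sub_distrib,
      ite_mul, one_mul, zero_mul, Finset.sum_ite_eq, Finset.mem_univ, if_true]
    rw [hρ, hρ]
    split_ifs <;> simp
  have hmain : ∀ a b c d, ((N : ℝ) - 2) * t a b c d =
      (if b = d then (1 : ℝ) else 0) * ρ a c - (if b = c then (1 : ℝ) else 0) * ρ a d
      - (if a = d then (1 : ℝ) else 0) * ρ b c + (if a = c then (1 : ℝ) else 0) * ρ b d
      - 2 * t a d c b + 2 * t a c d b := by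
    intro a b c d
    have h1 := heq (SoN_F a b) (SoN_F c d)
    rw [hkill, ← ht, SoN_trace] at h1
    have h2 : ∀ i j, (((LieAlgebra.ad ℝ (so (Fin N) ℝ)) (SoN_F a b) ∘ₗ T ∘ₗ
        (LieAlgebra.ad ℝ (so (Fin N) ℝ)) (SoN_F c d)) (SoN_F i j)).1 i j =
        (⁅SoN_F a b, T ⁅SoN_F c d, SoN_F i j⁆⁆ : so (Fin N) ℝ).1 i j := fun i j => rfl
    have h3 : ∑ i, ∑ j, (⁅SoN_F a b, T ⁅SoN_F c d, SoN_F i j⁆⁆ : so (Fin N) ℝ).1 i j =
        2 * ∑ j, (T ⁅SoN_F c d, SoN_F a j⁆).1 b j - 2 * ∑ j, (T ⁅SoN_F c d, SoN_F b j⁆).1 a j := by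
      have h4 : ∀ p q i, (T ⁅SoN_F c d, SoN_F i p⁆).1 i q = (T ⁅SoN_F c d, SoN_F p i⁆).1 q i := by
        intro p q i
        rw [SoN_F_swap p i, lie_neg, map_neg, SoN_skew _ i q]
        show - - _ = _
        rw [neg_neg]
      simp only [SoN_Fbr, Finset.sum_add_distrib, Finset.sum_sub_distrib, ite_mul, one_mul,
        zero_mul, Finset.sum_ite_eq, Finset.mem_univ, if_true, h4]
      have h5 : ∀ (p q : Fin N), ∑ i, ∑ j, (if p = i then (T ⁅SoN_F c d, SoN_F i j⁆).1 q j else 0)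
          = ∑ j, (T ⁅SoN_F c d, SoN_F p j⁆).1 q j := by
        intro p q
        rw [Finset.sum_eq_single p]
        · simp
        · intro i _ hi
          simp [Ne.symm hi]
        · intro h
          exact absurd (Finset.mem_univ p) h
      rw [h5, h5]
      ring
    simp only [h2] at h1
    rw [h3, hA, hA] at h1
    have e1 : t c a b d = t a c d b := by rw [s1 a c b d, s2 a c b d]
    have e2 : t d a b c = t a d c b := by rw [s1 a d b c, s2 a d b c]
    have e3 : t c b a d = t a d c b := s3 a d c b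
    have e4 : t d b a c = t a c d b := s3 a c d b
    rw [e1, e2, e3, e4, hρs b c, hρs b d, hρs a c, hρs a d] at h1
    simp only [eq_comm (a := d) (b := a), eq_comm (a := c) (b := a), eq_comm (a := d) (b := b),
      eq_comm (a := c) (b := b)] at h1
    linarith
  -- the Ricci contraction vanishes
  obtain ⟨τ, hτ⟩ : ∃ τ : ℝ, τ = ∑ b, ρ b b := ⟨_, rfl⟩
  have hρ1 : ∀ a c, 2 * ρ a c = (if a = c then (1 : ℝ) else 0) * τ := by
    intro a c
    have h1 : ∑ b, ((N : ℝ) - 2) * t a b c b = ∑ b, (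
      (if b = b then (1 : ℝ) else 0) * ρ a c - (if b = c then (1 : ℝ) else 0) * ρ a b
      - (if a = b then (1 : ℝ) else 0) * ρ b c + (if a = c then (1 : ℝ) else 0) * ρ b b
      - 2 * t a b c b + 2 * t a c b b) := Finset.sum_congr rfl fun b _ => hmain a b c b
    have h2 : ∀ b, t a c b b = 0 := by
      intro b
      have := s2 a c b b
      linarith
    simp only [h2, mul_zero, add_zero, if_true, one_mul, Finset.sum_add_distrib,
      Finset.sum_sub_distrib, ← Finset.mul_sum, ← hρ, ite_mul, zero_mul,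
      Finset.sum_ite_eq, Finset.sum_ite_eq', Finset.mem_univ, Finset.sum_const, Finset.card_univ,
      Fintype.card_fin, nsmul_eq_mul] at h1
    split_ifs at h1 ⊢ with h3
    · rw [← hτ] at h1
      linarith
    · rw [Finset.sum_const_zero] at h1
      linarith
  have hτ0 : τ = 0 := by
    have h1 : ∑ a, 2 * ρ a a = ∑ _a : Fin N, τ := by
      refine Finset.sum_congr rfl fun a _ => ?_
      rw [hρ1 a a, if_pos rfl, one_mul]
    rw [← Finset.mul_sum, ← hτ, Finset.sum_const, Finset.card_univ, Fintype.card_fin,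
      nsmul_eq_mul] at h1
    have h2 : ((N : ℝ) - 2) * τ = 0 := by linarith
    exact (mul_eq_zero.1 h2).resolve_left hN2
  have hρ0 : ∀ a c, ρ a c = 0 := by
    intro a c
    have h1 := hρ1 a c
    rw [hτ0, mul_zero] at h1
    linarith
  have ht0 : ∀ a b c d, t a b c d = 0 := by
    intro a b c d
    have h1 := hmain a b c d
    have h2 := hmain a c d b
    have h3 := hmain a d b c
    simp only [hρ0, mul_zero, sub_zero, add_zero, zero_sub] at h1 h2 h3
    have e1 : t a d c b = - t a d b c := s2 a d b c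
    have e2 : t a b d c = - t a b c d := s2 a b c d
    have e3 : t a c b d = - t a c d b := s2 a c d b
    rw [e1] at h1
    rw [e2] at h2
    rw [e3] at h3
    have h4 : ((N : ℝ) - 6) * (t a b c d + t a c d b + t a d b c) = 0 := by linarith
    have h5 : (N : ℝ) - 6 ≠ 0 := by
      intro h
      apply h6
      have h7 : (N : ℝ) = ((6 : ℕ) : ℝ) := by
        push_cast
        linarith
      exact_mod_cast h7
    have h8 := (mul_eq_zero.1 h4).resolve_left h5
    have h9 : (N : ℝ) * t a b c d = 0 := by linarith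
    refine (mul_eq_zero.1 h9).resolve_left ?_
    intro h
    linarith
  have hTF : ∀ a b, T (SoN_F a b) = 0 := by
    intro a b
    apply Subtype.ext
    ext c d
    rw [← ht, ht0]
    rfl
  ext x : 1
  rw [SoN_sum x, map_smul, map_sum]
  have h1 : ∑ i, T (∑ j, x.1 i j • SoN_F i j) = 0 := by
    refine Finset.sum_eq_zero fun i _ => ?_
    rw [map_sum]
    refine Finset.sum_eq_zero fun j _ => ?_
    rw [map_smul, hTF, smul_zero]
  rw [h1, smul_zero]
  rfl

end Pool.Agent.EStab
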