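import Pool.Agent.EStab.Defs

/-!
# Killing form and rigidity of products

* `killing_pi`: use `killingForm_apply_apply` and compute the trace in a basis of the product
  (`Pi.basis` of bases of the factors), or first show `trace (T) = ∑ i, trace (pr_i ∘ T ∘ single_i)` for
  every endomorphism `T` of a finite product.
* `compact_pi`: immediate from `killing_pi`.
* `rigid_pi`: let `T` satisfy `CasimirOne`.  Put `T_ij = pr_i ∘ T ∘ single_j`.  For `x = single_i u`,
  `y = single_j v`, `i ≠ j`: `ad x ∘ T ∘ ad y` has trace `trace (pr_i ∘ ad x ∘ T ∘ ad y ∘ single_i) = 0`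
  because `ad y ∘ single_i = 0`; so `K(T x, y) = K_j(T_ji u, v) = 0` for all `v`, and `T_ji = 0` because
  `K_j` is negative definite.  For `i = j` the equations say that `T_ii` satisfies `CasimirOne`, so
  `T_ii = 0`.
-/

set_option linter.all false

namespace Pool.Agent.EStab

variable {r : ℕ} {L : Fin r → Type} [∀ i, LieRing (L i)] [∀ i, LieAlgebra ℝ (L i)]
  [∀ i, Module.Finite ℝ (L i)]

theorem piLie_trace {V : Fin r → Type} [∀ i, AddCommGroup (V i)] [∀ i, Module ℝ (V i)]
    [∀ i, Module.Finite ℝ (V i)] (T : (∀ i, V i) →ₗ[ℝ] (∀ i, V i)) :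
    LinearMap.trace ℝ (∀ i, V i) T =
      ∑ i, LinearMap.trace ℝ (V i) (LinearMap.proj i ∘ₗ T ∘ₗ LinearMap.single ℝ V i) := by
  have h1 : T = ∑ i, (T ∘ₗ LinearMap.single ℝ V i) ∘ₗ LinearMap.proj i := by
    refine LinearMap.ext fun x => ?_
    rw [LinearMap.sum_apply]
    simp only [LinearMap.comp_apply, LinearMap.proj_apply]
    rw [← map_sum]
    congr 1
    exact (Finset.univ_sum_single x).symm
  conv_lhs => rw [h1]
  rw [map_sum]
  refine Finset.sum_congr rfl fun i _ => ?_
  exact LinearMap.trace_comp_comm' (LinearMap.proj i) (T ∘ₗ LinearMap.single ℝ V i)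

theorem killing_pi (x y : ∀ i, L i) :
    killingForm ℝ (∀ i, L i) x y = ∑ i, killingForm ℝ (L i) (x i) (y i) := by
  rw [killingForm_apply_apply, piLie_trace]
  refine Finset.sum_congr rfl fun i _ => ?_
  rw [killingForm_apply_apply]
  congr 1
  refine LinearMap.ext fun u => ?_
  show ⁅x i, ⁅y i, (LinearMap.single ℝ L i u) i⁆⁆ = ⁅x i, ⁅y i, u⁆⁆
  rw [LinearMap.single_apply, Pi.single_eq_same]

theorem compact_pi (h : ∀ i, CompactSemisimple (L i)) : CompactSemisimple (∀ i, L i) := by
  intro x hx
  rw [killing_pi]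
  obtain ⟨i, hi⟩ := Function.ne_iff.mp hx
  have hle : ∀ j, killingForm ℝ (L j) (x j) (x j) ≤ 0 := by
    intro j
    by_cases hj : x j = 0
    · rw [hj, map_zero]
    · exact (h j _ hj).le
  exact Finset.sum_neg' (fun j _ => hle j) ⟨i, Finset.mem_univ i, h i _ hi⟩

theorem rigid_pi (hc : ∀ i, CompactSemisimple (L i)) (h : ∀ i, Rigid (L i)) :
    Rigid (∀ i, L i) := by
  intro T hT
  obtain ⟨hT1, hT2⟩ := hT
  have hK : ∀ (i : Fin r) (a : ∀ i, L i) (v : L i),
      killingForm ℝ (∀ i, L i) a (LinearMap.single ℝ L i v) = killingForm ℝ (L i) (a i) v := by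
    intro i a v
    rw [killing_pi, Finset.sum_eq_single i]
    · rw [LinearMap.single_apply, Pi.single_eq_same]
    · intro j _ hj
      rw [LinearMap.single_apply, Pi.single_eq_of_ne hj, map_zero]
    · intro hi
      exact absurd (Finset.mem_univ i) hi
  have hK' : ∀ (i : Fin r) (a : ∀ i, L i) (v : L i),
      killingForm ℝ (∀ i, L i) (LinearMap.single ℝ L i v) a = killingForm ℝ (L i) v (a i) := by
    intro i a v
    rw [killing_pi, Finset.sum_eq_single i]
    · rw [LinearMap.single_apply, Pi.single_eq_same]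
    · intro j _ hj
      rw [LinearMap.single_apply, Pi.single_eq_of_ne hj, map_zero, LinearMap.zero_apply]
    · intro hi
      exact absurd (Finset.mem_univ i) hi
  -- off diagonal
  have hoff : ∀ (i j : Fin r), i ≠ j → ∀ u : L i, T (LinearMap.single ℝ L i u) j = 0 := by
    intro i j hij u
    by_contra hne
    set w : L j := T (LinearMap.single ℝ L i u) j with hw
    have h1 := hT2 (LinearMap.single ℝ L i u) (LinearMap.single ℝ L j w)
    rw [hK, piLie_trace] at h1
    have h2 : ∀ k : Fin r, LinearMap.proj k ∘ₗ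
        ((LieAlgebra.ad ℝ (∀ i, L i) (LinearMap.single ℝ L i u) : (∀ i, L i) →ₗ[ℝ] (∀ i, L i)) ∘ₗ
          T ∘ₗ (LieAlgebra.ad ℝ (∀ i, L i) (LinearMap.single ℝ L j w) :
            (∀ i, L i) →ₗ[ℝ] (∀ i, L i))) ∘ₗ LinearMap.single ℝ L k =
          (0 : L k →ₗ[ℝ] L k) := by
      intro k
      refine LinearMap.ext fun v => ?_
      show ⁅(LinearMap.single ℝ L i u) k,
        T ⁅LinearMap.single ℝ L j w, LinearMap.single ℝ L k v⁆ k⁆ = 0
      by_cases hk : k = i
      · subst hk
        have h3 : ⁅LinearMap.single ℝ L j w, LinearMap.single ℝ L k v⁆ = 0 := by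
          funext l
          show ⁅(LinearMap.single ℝ L j w) l, (LinearMap.single ℝ L k v) l⁆ = 0
          by_cases hl : l = k
          · subst hl
            simp only [LinearMap.single_apply, Pi.single_eq_of_ne hij, zero_lie]
          · simp only [LinearMap.single_apply, Pi.single_eq_of_ne hl, lie_zero]
        rw [h3, map_zero, Pi.zero_apply, lie_zero]
      · rw [LinearMap.single_apply, Pi.single_eq_of_ne hk, zero_lie]
    rw [Finset.sum_congr rfl fun k _ => by rw [h2 k, map_zero], Finset.sum_const_zero] at h1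
    have h3 := hc j w hne
    linarith
  -- diagonal
  have hdiag : ∀ i : Fin r, LinearMap.proj i ∘ₗ T ∘ₗ LinearMap.single ℝ L i =
      (0 : L i →ₗ[ℝ] L i) := by
    intro i
    refine h i _ ⟨fun u v => ?_, fun u v => ?_⟩
    · have h1 := hT1 (LinearMap.single ℝ L i u) (LinearMap.single ℝ L i v)
      rw [hK, hK'] at h1
      exact h1
    · have h1 := hT2 (LinearMap.single ℝ L i u) (LinearMap.single ℝ L i v)
      rw [hK, piLie_trace, Finset.sum_eq_single i] at h1
      · rw [show (LinearMap.proj i ∘ₗ T ∘ₗ LinearMap.single ℝ L i : L i →ₗ[ℝ] L i) u =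
          T (LinearMap.single ℝ L i u) i from rfl, ← h1]
        congr 1
        refine LinearMap.ext fun x => ?_
        show ⁅u, T (LinearMap.single ℝ L i ⁅v, x⁆) i⁆ = ⁅(LinearMap.single ℝ L i u) i,
          T ⁅LinearMap.single ℝ L i v, LinearMap.single ℝ L i x⁆ i⁆
        have h3 : ⁅LinearMap.single ℝ L i v, LinearMap.single ℝ L i x⁆ =
            LinearMap.single ℝ L i ⁅v, x⁆ := by
          funext l
          show ⁅(LinearMap.single ℝ L i v) l, (LinearMap.single ℝ L i x) l⁆ = _
          by_cases hl : l = i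
          · subst hl
            simp only [LinearMap.single_apply, Pi.single_eq_same]
          · simp only [LinearMap.single_apply, Pi.single_eq_of_ne hl, lie_zero]
        rw [h3]
        simp only [LinearMap.single_apply, Pi.single_eq_same]
      · intro k _ hk
        have h2 : LinearMap.proj k ∘ₗ
          ((LieAlgebra.ad ℝ (∀ i, L i) (LinearMap.single ℝ L i u) :
            (∀ i, L i) →ₗ[ℝ] (∀ i, L i)) ∘ₗ
            T ∘ₗ (LieAlgebra.ad ℝ (∀ i, L i) (LinearMap.single ℝ L i v) :
              (∀ i, L i) →ₗ[ℝ] (∀ i, L i))) ∘ₗ LinearMap.single ℝ L k =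
            (0 : L k →ₗ[ℝ] L k) := by
          refine LinearMap.ext fun x => ?_
          show ⁅(LinearMap.single ℝ L i u) k,
            T ⁅LinearMap.single ℝ L i v, LinearMap.single ℝ L k x⁆ k⁆ = 0
          rw [LinearMap.single_apply, Pi.single_eq_of_ne hk, zero_lie]
        rw [h2, map_zero]
      · intro hi
        exact absurd (Finset.mem_univ i) hi
  refine LinearMap.pi_ext' fun i => ?_
  refine LinearMap.ext fun u => ?_
  funext j
  show T (LinearMap.single ℝ L i u) j = 0
  by_cases hij : i = j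
  · subst hij
    exact LinearMap.congr_fun (hdiag i) u
  · exact hoff i j hij u

end Pool.Agent.EStab
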