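import Pool.Agent.EStab.Theta

/-!
# Orthonormal bases of compact semisimple Lie algebras

* `exists_SC`: minus the Killing form is an inner product: take an orthogonal basis
  (`LinearMap.BilinForm.exists_orthogonal_basis`) and normalise it.  Put
  `S.c a b k = e.equivFun ⁅e a, e b⁆ k = - K(⁅e a, e b⁆, e k)`.  `anti` is clear; `anti'` is the
  invariance of the Killing form (`LieModule.traceForm_apply_lie_apply`); `norm`:
  `K(e i, e j) = trace (ad (e i) ∘ ad (e j)) = ∑ a b, S.c j a b * S.c i b a = - ∑ a b, S.c i a b * S.c j a b`.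
* `Adapted.trace_eq`: the matrix of `ad x` is `∑ a, x_a • S.D a`, and
  `trace (D_x T D_y) = - trace (D_x T (D_y)ᵀ)` is minus the value of `Θ(T, 1) = Θ(1, T)`.
* `Adapted.casimir`: by `trace_eq` and `killing`.
* `Adapted.pres`: an automorphism `δ` preserves the Killing form
  (`LieAlgebra.killingForm_of_equiv_apply`), so its matrix `k` is orthogonal, and it preserves the
  trilinear form `K([x, y], z)`; `k x x' ` is the coordinate `x` of `δ (e x')`, so for orthogonal `k` the
  vector `∑ x', k x x' • e x'` is `δ⁻¹ (e x)`: apply the invariance to `δ⁻¹`.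
-/

namespace Pool.Agent.EStab

open Matrix

variable {d : ℕ} {g : Type*} [LieRing g] [LieAlgebra ℝ g]

/-- The basis `e` is orthonormal for minus the Killing form, with structure constants `S`. -/
structure Adapted (e : Module.Basis (Fin d) ℝ g) (S : SC d) : Prop where
  killing : ∀ x y, killingForm ℝ g x y = -(e.equivFun x ⬝ᵥ e.equivFun y)
  bracket : ∀ x y k, e.equivFun ⁅x, y⁆ k =
    ∑ a, ∑ b, S.c a b k * (e.equivFun x a * e.equivFun y b)

private theorem TrBasis_bilin (e : Module.Basis (Fin d) ℝ g) (B : LinearMap.BilinForm ℝ g)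
    (x y : g) : B x y = ∑ i, ∑ j, e.equivFun x i * e.equivFun y j * B (e i) (e j) := by
  have h1 : B x y = B (∑ i, e.equivFun x i • e i) (∑ j, e.equivFun y j • e j) := by
    rw [e.sum_equivFun x, e.sum_equivFun y]
  rw [h1, map_sum B, LinearMap.sum_apply]
  refine Finset.sum_congr rfl fun i _ => ?_
  rw [map_sum]
  refine Finset.sum_congr rfl fun j _ => ?_
  rw [map_smul, map_smul, LinearMap.smul_apply, smul_eq_mul, smul_eq_mul]
  ring

private theorem TrBasis_bracket (e : Module.Basis (Fin d) ℝ g) (x y : g) (k : Fin d) :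
    e.equivFun ⁅x, y⁆ k =
      ∑ a, ∑ b, e.equivFun ⁅e a, e b⁆ k * (e.equivFun x a * e.equivFun y b) := by
  have h1 : ⁅x, y⁆ = ∑ a, ∑ b, (e.equivFun x a * e.equivFun y b) • ⁅e a, e b⁆ := by
    have h2 : ⁅x, y⁆ = ⁅∑ i, e.equivFun x i • e i, ∑ j, e.equivFun y j • e j⁆ := by
      rw [e.sum_equivFun x, e.sum_equivFun y]
    rw [h2, sum_lie]
    refine Finset.sum_congr rfl fun i _ => ?_
    rw [lie_sum]
    refine Finset.sum_congr rfl fun j _ => ?_
    rw [smul_lie, lie_smul, smul_smul]
  rw [h1, map_sum, Finset.sum_apply]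
  refine Finset.sum_congr rfl fun a _ => ?_
  rw [map_sum, Finset.sum_apply]
  refine Finset.sum_congr rfl fun b _ => ?_
  rw [map_smul, Pi.smul_apply, smul_eq_mul, mul_comm]

private theorem TrBasis_self (e : Module.Basis (Fin d) ℝ g) (i j : Fin d) :
    e.equivFun (e i) j = if i = j then 1 else 0 := e.equivFun_self i j

theorem exists_SC [Module.Finite ℝ g] (hg : CompactSemisimple g) :
    ∃ (d : ℕ) (e : Module.Basis (Fin d) ℝ g) (S : SC d), Adapted e S := by
  classical
  obtain ⟨v, hv⟩ := LinearMap.BilinForm.exists_orthogonal_basis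
    (LieModule.traceForm_isSymm ℝ g g)
  have hneg : ∀ i, 0 < -(killingForm ℝ g (v i) (v i)) := by
    intro i
    have := hg (v i) (v.ne_zero i)
    linarith
  set w : Fin (Module.finrank ℝ g) → ℝ := fun i => (Real.sqrt (-(killingForm ℝ g (v i) (v i))))⁻¹
    with hw
  have hwu : ∀ i, IsUnit (w i) := by
    intro i
    rw [isUnit_iff_ne_zero]
    exact inv_ne_zero (Real.sqrt_ne_zero'.2 (hneg i))
  set e : Module.Basis (Fin (Module.finrank ℝ g)) ℝ g := v.isUnitSMul hwu with he
  have hK : ∀ i j, killingForm ℝ g (e i) (e j) = if i = j then -1 else 0 := by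
    intro i j
    rw [he, Module.Basis.isUnitSMul_apply, Module.Basis.isUnitSMul_apply, map_smul, map_smul,
      LinearMap.smul_apply, smul_eq_mul, smul_eq_mul]
    split_ifs with hij
    · subst hij
      have h1 := Real.mul_self_sqrt (hneg i).le
      have h2 := Real.sqrt_ne_zero'.2 (hneg i)
      have h3 : killingForm ℝ g (v i) (v i) =
          -(Real.sqrt (-(killingForm ℝ g (v i) (v i))) *
            Real.sqrt (-(killingForm ℝ g (v i) (v i)))) := by rw [h1]; ring
      rw [hw]
      simp only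
      generalize Real.sqrt (-(killingForm ℝ g (v i) (v i))) = s at h2 h3
      rw [h3]
      field_simp
    · have h1 : killingForm ℝ g (v i) (v j) = 0 := (LinearMap.isOrthoᵢ_def.1 hv) i j hij
      rw [h1, mul_zero, mul_zero]
  have hkill : ∀ x y, killingForm ℝ g x y = -(e.equivFun x ⬝ᵥ e.equivFun y) := by
    intro x y
    rw [TrBasis_bilin e (killingForm ℝ g) x y, dotProduct, ← Finset.sum_neg_distrib]
    refine Finset.sum_congr rfl fun i _ => ?_
    rw [Finset.sum_eq_single i]
    · rw [hK, if_pos rfl]; ring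
    · intro j _ hj
      rw [hK, if_neg (Ne.symm hj), mul_zero]
    · intro h
      exact absurd (Finset.mem_univ i) h
  have hcoord : ∀ z k, e.equivFun z k = -(killingForm ℝ g z (e k)) := by
    intro z k
    rw [hkill, dotProduct, Finset.sum_eq_single k]
    · rw [TrBasis_self, if_pos rfl]; ring
    · intro j _ hj
      rw [TrBasis_self, if_neg (Ne.symm hj), mul_zero]
    · intro h
      exact absurd (Finset.mem_univ k) h
  have hanti : ∀ a b k, e.equivFun ⁅e b, e a⁆ k = -(e.equivFun ⁅e a, e b⁆ k) := by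
    intro a b k
    rw [← lie_skew (e b) (e a), map_neg, Pi.neg_apply]
  have hanti' : ∀ a b k, e.equivFun ⁅e a, e k⁆ b = -(e.equivFun ⁅e a, e b⁆ k) := by
    intro a b k
    rw [hcoord, hcoord, ← lie_skew (e a) (e k), map_neg, LinearMap.neg_apply,
      LieModule.traceForm_apply_lie_apply, LieModule.traceForm_comm]
  refine ⟨_, e, ⟨fun a b k => e.equivFun ⁅e a, e b⁆ k, hanti, hanti', ?_⟩, hkill,
    TrBasis_bracket e⟩
  intro i j
  have h1 : killingForm ℝ g (e j) (e i) =
      ∑ a, ∑ b, e.equivFun ⁅e i, e a⁆ b * e.equivFun ⁅e j, e b⁆ a := by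
    rw [LieModule.traceForm_apply_apply, LinearMap.trace_eq_matrix_trace ℝ e, Matrix.trace]
    refine Finset.sum_congr rfl fun a _ => ?_
    rw [Matrix.diag_apply, LinearMap.toMatrix_apply, ← Module.Basis.equivFun_apply]
    show e.equivFun ⁅e j, ⁅e i, e a⁆⁆ a = _
    rw [TrBasis_bracket e (e j) ⁅e i, e a⁆ a, Finset.sum_eq_single j]
    · refine Finset.sum_congr rfl fun b _ => ?_
      rw [TrBasis_self, if_pos rfl]; ring
    · intro c _ hc
      refine Finset.sum_eq_zero fun b _ => ?_
      rw [TrBasis_self, if_neg (Ne.symm hc)]; ring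
    · intro h
      exact absurd (Finset.mem_univ j) h
  have h2 : ∑ a, ∑ b, e.equivFun ⁅e i, e a⁆ b * e.equivFun ⁅e j, e a⁆ b =
      -(killingForm ℝ g (e j) (e i)) := by
    rw [h1, ← Finset.sum_neg_distrib]
    refine Finset.sum_congr rfl fun a _ => ?_
    rw [← Finset.sum_neg_distrib]
    refine Finset.sum_congr rfl fun b _ => ?_
    rw [hanti' j a b]
    ring
  show ∑ a, ∑ b, e.equivFun ⁅e i, e a⁆ b * e.equivFun ⁅e j, e a⁆ b = _
  rw [h2, hK]
  by_cases hij : i = j
  · subst hij
    simp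
  · rw [if_neg (Ne.symm hij), if_neg hij, neg_zero]

namespace Adapted

variable {e : Module.Basis (Fin d) ℝ g} {S : SC d}

private theorem TrBasis_c (hA : Adapted e S) (a b k : Fin d) :
    e.equivFun ⁅e a, e b⁆ k = S.c a b k := by
  rw [hA.bracket, Finset.sum_eq_single a, Finset.sum_eq_single b]
  · rw [TrBasis_self, TrBasis_self, if_pos rfl, if_pos rfl]; ring
  · intro j _ hj
    rw [TrBasis_self e b j, if_neg (Ne.symm hj)]; ring
  · intro h
    exact absurd (Finset.mem_univ b) h
  · intro j _ hj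
    refine Finset.sum_eq_zero fun l _ => ?_
    rw [TrBasis_self e a j, if_neg (Ne.symm hj)]; ring
  · intro h
    exact absurd (Finset.mem_univ a) h

private theorem TrBasis_ad (hA : Adapted e S) (x : g) :
    LinearMap.toMatrix e e (LieAlgebra.ad ℝ g x : g →ₗ[ℝ] g) = ∑ a, e.equivFun x a • S.D a := by
  ext k b
  rw [LinearMap.toMatrix_apply, ← Module.Basis.equivFun_apply]
  show e.equivFun ⁅x, e b⁆ k = _
  rw [hA.bracket, Matrix.sum_apply]
  refine Finset.sum_congr rfl fun a _ => ?_
  rw [Finset.sum_eq_single b]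
  · rw [TrBasis_self, if_pos rfl, Matrix.smul_apply, smul_eq_mul]
    show _ = _ * S.c a b k
    ring
  · intro j _ hj
    rw [TrBasis_self e b j, if_neg (Ne.symm hj)]; ring
  · intro h
    exact absurd (Finset.mem_univ b) h

theorem trace_eq (hA : Adapted e S) (T : g →ₗ[ℝ] g) (x y : g) :
    LinearMap.trace ℝ g ((LieAlgebra.ad ℝ g x : g →ₗ[ℝ] g) ∘ₗ T ∘ₗ
      (LieAlgebra.ad ℝ g y : g →ₗ[ℝ] g))
      = -(e.equivFun x ⬝ᵥ (S.Th 1 (LinearMap.toMatrix e e T) *ᵥ e.equivFun y)) := by
  rw [LinearMap.trace_eq_matrix_trace ℝ e, LinearMap.toMatrix_comp e e e,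
    LinearMap.toMatrix_comp e e e, TrBasis_ad hA, TrBasis_ad hA, S.Th_comm]
  set M := LinearMap.toMatrix e e T with hM
  rw [Matrix.sum_mul, Matrix.trace_sum, dotProduct, ← Finset.sum_neg_distrib]
  refine Finset.sum_congr rfl fun a _ => ?_
  rw [Matrix.mul_sum, Matrix.mul_sum, Matrix.trace_sum, mulVec, dotProduct, Finset.mul_sum,
    ← Finset.sum_neg_distrib]
  refine Finset.sum_congr rfl fun b _ => ?_
  have h1 : S.Th M 1 a b = -(Matrix.trace (S.D a * M * S.D b)) := by
    show Matrix.trace (S.D a * M * (S.D b)ᵀ * 1ᵀ) = _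
    rw [Matrix.transpose_one, Matrix.mul_one, S.D_transpose, Matrix.mul_neg, Matrix.trace_neg]
  rw [h1, Matrix.mul_smul, Matrix.mul_smul, Matrix.smul_mul, Matrix.trace_smul, Matrix.trace_smul,
    smul_eq_mul, smul_eq_mul, Matrix.mul_assoc]
  ring

private theorem TrBasis_toLin (M : Mt d) (x : g) :
    e.equivFun (Matrix.toLin e e M x) = M *ᵥ e.equivFun x := by
  rw [Module.Basis.equivFun_apply, Module.Basis.equivFun_apply, ← LinearMap.toMatrix_mulVec_repr e e,
    LinearMap.toMatrix_toLin]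

theorem casimir (hA : Adapted e S) {T : Mt d} (hT : Tᵀ = T) (h1 : S.Th 1 T = (1 / 2 : ℝ) • T) :
    CasimirOne (Matrix.toLin e e T) := by
  have hsym : ∀ u v : Fin d → ℝ, (T *ᵥ u) ⬝ᵥ v = u ⬝ᵥ (T *ᵥ v) := by
    intro u v
    rw [dotProduct_comm, Matrix.dotProduct_mulVec, ← Matrix.mulVec_transpose, hT, dotProduct_comm]
  refine ⟨?_, ?_⟩
  · intro x y
    rw [hA.killing, hA.killing, TrBasis_toLin, TrBasis_toLin, hsym]
  · intro x y
    rw [hA.trace_eq, LinearMap.toMatrix_toLin, h1, hA.killing, TrBasis_toLin, hsym,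
      Matrix.smul_mulVec, dotProduct_smul, smul_eq_mul]
    ring

theorem pres (hA : Adapted e S) (δ : g ≃ₗ⁅ℝ⁆ g) :
    S.Pres (LinearMap.toMatrix e e ((δ : g →ₗ⁅ℝ⁆ g) : g →ₗ[ℝ] g)) := by
  set k := LinearMap.toMatrix e e ((δ : g →ₗ⁅ℝ⁆ g) : g →ₗ[ℝ] g) with hk
  have hk' : ∀ l i, k l i = e.equivFun (δ (e i)) l := by
    intro l i
    rw [hk, LinearMap.toMatrix_apply, ← Module.Basis.equivFun_apply]
    rfl
  have hcol : kᵀ * k = 1 := by
    ext i j
    rw [Matrix.mul_apply, Matrix.one_apply]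
    have h1 : ∑ l, kᵀ i l * k l j = e.equivFun (δ (e i)) ⬝ᵥ e.equivFun (δ (e j)) := by
      refine Finset.sum_congr rfl fun l _ => ?_
      rw [Matrix.transpose_apply, hk', hk']
    have h2 := hA.killing (δ (e i)) (δ (e j))
    rw [LieAlgebra.killingForm_of_equiv_apply, hA.killing] at h2
    have h3 : e.equivFun (e i) ⬝ᵥ e.equivFun (e j) = if i = j then 1 else 0 := by
      rw [dotProduct, Finset.sum_eq_single i]
      · rw [TrBasis_self, TrBasis_self, if_pos rfl, one_mul]
        by_cases hij : i = j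
        · rw [if_pos hij, if_pos hij.symm]
        · rw [if_neg hij, if_neg (Ne.symm hij)]
      · intro l _ hl
        rw [TrBasis_self e i l, if_neg (Ne.symm hl), zero_mul]
      · intro h
        exact absurd (Finset.mem_univ i) h
    rw [h1, ← h3]
    linarith
  have hrow : k * kᵀ = 1 := mul_eq_one_comm.1 hcol
  refine ⟨hrow, ?_⟩
  have hrow' : ∀ x p, ∑ x', k x x' * k p x' = if x = p then 1 else 0 := by
    intro x p
    have := congrFun (congrFun hrow x) p
    rw [Matrix.mul_apply, Matrix.one_apply] at this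
    simpa only [Matrix.transpose_apply] using this
  have hbr : ∀ x' a' l, ∑ l', k l l' * S.c x' a' l' =
      ∑ p, ∑ q, S.c p q l * (k p x' * k q a') := by
    intro x' a' l
    have h1 : δ ⁅e x', e a'⁆ = ⁅δ (e x'), δ (e a')⁆ := LieEquiv.map_lie δ _ _
    have h2 : e.equivFun (δ ⁅e x', e a'⁆) l = ∑ l', k l l' * S.c x' a' l' := by
      have h3 : ⁅e x', e a'⁆ = ∑ l', e.equivFun ⁅e x', e a'⁆ l' • e l' :=
        (e.sum_equivFun _).symm
      rw [h3, map_sum, map_sum, Finset.sum_apply]
      refine Finset.sum_congr rfl fun l' _ => ?_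
      rw [map_smul, map_smul, Pi.smul_apply, smul_eq_mul, hk', TrBasis_c hA, mul_comm]
    rw [← h2, h1, hA.bracket]
    refine Finset.sum_congr rfl fun p _ => Finset.sum_congr rfl fun q _ => ?_
    rw [hk', hk']
  intro x a l
  have step1 : ∑ x', ∑ a', ∑ l', k x x' * k a a' * k l l' * S.c x' a' l' =
      ∑ x', ∑ a', k x x' * k a a' * ∑ p, ∑ q, S.c p q l * (k p x' * k q a') := by
    refine Finset.sum_congr rfl fun x' _ => Finset.sum_congr rfl fun a' _ => ?_
    rw [← hbr, Finset.mul_sum]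
    refine Finset.sum_congr rfl fun l' _ => ?_
    ring
  have step2 : ∑ x', ∑ a', k x x' * k a a' * ∑ p, ∑ q, S.c p q l * (k p x' * k q a') =
      ∑ p, ∑ q, S.c p q l * ((∑ x', k x x' * k p x') * (∑ a', k a a' * k q a')) := by
    simp only [Finset.mul_sum, Finset.sum_mul]
    rw [Finset.sum_congr rfl (fun x' _ => Finset.sum_comm)]
    rw [Finset.sum_comm]
    refine Finset.sum_congr rfl fun p _ => ?_
    rw [Finset.sum_congr rfl (fun x' _ => Finset.sum_comm)]
    rw [Finset.sum_comm]
    refine Finset.sum_congr rfl fun q _ => ?_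
    rw [Finset.sum_comm]
    refine Finset.sum_congr rfl fun x' _ => Finset.sum_congr rfl fun a' _ => ?_
    ring
  rw [step1, step2, Finset.sum_eq_single x, Finset.sum_eq_single a]
  · rw [hrow', hrow', if_pos rfl, if_pos rfl]; ring
  · intro q _ hq
    rw [hrow' a q, if_neg (Ne.symm hq)]; ring
  · intro h
    exact absurd (Finset.mem_univ a) h
  · intro p _ hp
    refine Finset.sum_eq_zero fun q _ => ?_
    rw [hrow' x p, if_neg (Ne.symm hp)]; ring
  · intro h
    exact absurd (Finset.mem_univ x) h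

end Adapted

end Pool.Agent.EStab
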