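import Pool.Agent.EStab.BrRic
import Pool.Agent.EStab.TrBasis
import Pool.Agent.EStab.PiLie

/-!
# From matrices to invariant Einstein metrics

For `x : Fin n → g` let `co x i = e.equivFun (x i)`, a linear equivalence onto `Fin n → Fin d → ℝ`.  It sends
the bracket to `brk S` (`Adapted.bracket`), and `killingForm x x = - ∑ i, co x i ⬝ᵥ co x i` (`killing_pi`,
`Adapted.killing`).  Take `X_c` from `exists_onb` and put `X s = co⁻¹ (X_c s)`, `m = span (range X)`
(so `x ∈ m ↔ P (mean (co x)) = mean (co x)`), `π = co⁻¹ ∘ prj P ∘ co`, `β x y = bet (1/n) A (P Y P) (co x) (co y)`,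
`c = 1/4`.

* `IsCompl (diagonal n h) m`: `x ∈ diagonal n h` iff all `co x i` are equal and `P (co x i) = 0`; then
  `mean (co x) = co x i`; if also `P (mean) = mean` then `x = 0`.  Every `x` is
  `(x - π x) + π x`, `co (x - π x) i = mean (co x) - P (mean (co x))`, which is killed by `P`.
* `[y, x] ∈ m` for `y = (v, ..., v)`, `v ∈ h`, `x ∈ m`: for `w ∈ h`,
  `K(∑ i, [v, x i], w) = - K(∑ i, x i, [v, w]) = 0` because `[v, w] ∈ h` and the mean of `co x` is in the
  range of `P`, orthogonal to the kernel of `P`.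
* permutations do not change the mean, and `blk` does not depend on the order.
* for an automorphism `δ` with matrix `k` (`k kᵀ = 1` by `Adapted.pres`):
  `co (γ x) i = k *ᵥ co x i`, and `k` commutes with `P`, `A`, `Y`.
* the Ricci formula is `bridge`.
-/

namespace Pool.Agent.EStab

open Matrix

section Aux

variable {d n : ℕ}

private theorem TrMain_mean_add (x y : Fin n → Fin d → ℝ) : mean (x + y) = mean x + mean y := by
  unfold mean
  rw [← smul_add, ← Finset.sum_add_distrib]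
  rfl

private theorem TrMain_mean_smul (t : ℝ) (x : Fin n → Fin d → ℝ) : mean (t • x) = t • mean x := by
  show (1 / (n : ℝ)) • ∑ i, t • x i = t • ((1 / (n : ℝ)) • ∑ i, x i)
  rw [← Finset.smul_sum, smul_comm]

private theorem TrMain_mean_const (hn : 0 < n) (v : Fin d → ℝ) :
    mean (fun _ : Fin n => v) = v := by
  unfold mean
  have h : (n : ℝ) ≠ 0 := by positivity
  rw [Finset.sum_const, Finset.card_univ, Fintype.card_fin, ← Nat.cast_smul_eq_nsmul ℝ, smul_smul,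
    one_div, inv_mul_cancel₀ h, one_smul]

private theorem TrMain_mean_mulVec (k : Mt d) (x : Fin n → Fin d → ℝ) :
    mean (fun i => k *ᵥ x i) = k *ᵥ mean x := by
  unfold mean
  rw [Matrix.mulVec_smul, Matrix.mulVec_sum]

private theorem TrMain_mean_perm (s : Equiv.Perm (Fin n)) (x : Fin n → Fin d → ℝ) :
    mean (fun i => x (s i)) = mean x := by
  unfold mean
  rw [Equiv.sum_comp s x]

/-- the projection as a linear map -/
private noncomputable def TrMain_prj (P : Mt d) :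
    (Fin n → Fin d → ℝ) →ₗ[ℝ] (Fin n → Fin d → ℝ) where
  toFun := prj P
  map_add' x y := by
    funext i
    show (x + y) i - (mean (x + y) - P *ᵥ mean (x + y)) =
      (x i - (mean x - P *ᵥ mean x)) + (y i - (mean y - P *ᵥ mean y))
    rw [TrMain_mean_add, Matrix.mulVec_add, Pi.add_apply]
    abel
  map_smul' t x := by
    funext i
    show (t • x) i - (mean (t • x) - P *ᵥ mean (t • x)) =
      t • (x i - (mean x - P *ᵥ mean x))
    rw [TrMain_mean_smul, Matrix.mulVec_smul, Pi.smul_apply, smul_sub, smul_sub]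

/-- the inner product as a bilinear map -/
private noncomputable def TrMain_bet (ε : ℝ) (A A' : Mt d) :
    (Fin n → Fin d → ℝ) →ₗ[ℝ] (Fin n → Fin d → ℝ) →ₗ[ℝ] ℝ :=
  LinearMap.mk₂ ℝ (bet ε A A')
    (fun x x' y => by
      unfold bet
      simp only [Pi.add_apply, add_dotProduct, Finset.sum_add_distrib])
    (fun t x y => by
      unfold bet
      simp only [Pi.smul_apply, smul_dotProduct, Finset.smul_sum])
    (fun x y y' => by
      unfold bet
      simp only [Pi.add_apply, Matrix.mulVec_add, dotProduct_add, Finset.sum_add_distrib])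
    (fun t x y => by
      unfold bet
      simp only [Pi.smul_apply, Matrix.mulVec_smul, dotProduct_smul, Finset.smul_sum])

private theorem TrMain_bet_perm (ε : ℝ) (A A' : Mt d) (s : Equiv.Perm (Fin n))
    (x y : Fin n → Fin d → ℝ) :
    bet ε A A' (fun i => x (s i)) (fun i => y (s i)) = bet ε A A' x y := by
  unfold bet
  rw [← Equiv.sum_comp s (fun i => ∑ j, x i ⬝ᵥ (blk ε A A' i j *ᵥ y j))]
  refine Finset.sum_congr rfl fun i _ => ?_
  rw [← Equiv.sum_comp s (fun j => x (s i) ⬝ᵥ (blk ε A A' (s i) j *ᵥ y j))]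
  refine Finset.sum_congr rfl fun j _ => ?_
  have e : blk ε A A' (s i) (s j) = blk ε A A' i j := by
    unfold blk
    simp only [EmbeddingLike.apply_eq_iff_eq]
  rw [e]

private theorem TrMain_bet_mulVec (ε : ℝ) {A A' k : Mt d} (hk : k * kᵀ = 1) (hA : k * A = A * k)
    (hA' : k * A' = A' * k) (x y : Fin n → Fin d → ℝ) :
    bet ε A A' (fun i => k *ᵥ x i) (fun i => k *ᵥ y i) = bet ε A A' x y := by
  have hk' : kᵀ * k = 1 := mul_eq_one_comm.1 hk
  unfold bet
  refine Finset.sum_congr rfl fun i _ => Finset.sum_congr rfl fun j _ => ?_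
  have e : blk ε A A' i j * k = k * blk ε A A' i j := by
    unfold blk
    rw [Matrix.add_mul, Matrix.mul_add, Matrix.smul_mul, Matrix.smul_mul, Matrix.mul_smul,
      Matrix.mul_smul, hA, hA']
  rw [Matrix.mulVec_mulVec, e, ← Matrix.mulVec_mulVec]
  have e2 : ∀ u v : Fin d → ℝ, (k *ᵥ u) ⬝ᵥ (k *ᵥ v) = u ⬝ᵥ v := by
    intro u v
    rw [Matrix.dotProduct_mulVec, Matrix.vecMul_mulVec, ← Matrix.dotProduct_mulVec]
    rw [hk', Matrix.one_mulVec]
  exact e2 _ _

/-- a vector orthogonal to the kernel of an orthogonal projection is in its range -/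
private theorem TrMain_range {P : Mt d} (hP : Pᵀ = P) (hPP : P * P = P) {a : Fin d → ℝ}
    (h : ∀ w : Fin d → ℝ, P *ᵥ w = 0 → a ⬝ᵥ w = 0) : P *ᵥ a = a := by
  have h1 : P *ᵥ (a - P *ᵥ a) = 0 := by
    rw [Matrix.mulVec_sub, Matrix.mulVec_mulVec, hPP, sub_self]
  have h2 := h _ h1
  have h3 : (P *ᵥ a) ⬝ᵥ (a - P *ᵥ a) = 0 := by
    have e : (P *ᵥ a) ⬝ᵥ (a - P *ᵥ a) = a ⬝ᵥ (P *ᵥ (a - P *ᵥ a)) := by
      rw [Matrix.dotProduct_mulVec, ← Matrix.mulVec_transpose, hP]
    rw [e, h1, dotProduct_zero]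
  have h4 : (a - P *ᵥ a) ⬝ᵥ (a - P *ᵥ a) = 0 := by
    rw [sub_dotProduct, h2, h3, sub_zero]
  have h5 := dotProduct_self_eq_zero.1 h4
  exact (sub_eq_zero.1 h5).symm

end Aux

variable {d n : ℕ} {g : Type} [LieRing g] [LieAlgebra ℝ g] [Module.Finite ℝ g]

/-- coordinates on `g^n` -/
private noncomputable def TrMain_co (e : Module.Basis (Fin d) ℝ g) :
    (Fin n → g) ≃ₗ[ℝ] (Fin n → Fin d → ℝ) :=
  LinearEquiv.piCongrRight fun _ => e.equivFun

omit [Module.Finite ℝ g] in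
private theorem TrMain_co_apply (e : Module.Basis (Fin d) ℝ g) (x : Fin n → g) (i : Fin n) :
    TrMain_co e x i = e.equivFun (x i) := rfl

omit [Module.Finite ℝ g] in
private theorem TrMain_co_lie {e : Module.Basis (Fin d) ℝ g} {S : SC d} (hS : Adapted e S)
    (x y : Fin n → g) : TrMain_co e ⁅x, y⁆ = brk S (TrMain_co e x) (TrMain_co e y) := by
  funext i k
  exact hS.bracket (x i) (y i) k

omit [Module.Finite ℝ g] in
private theorem TrMain_mean_co (e : Module.Basis (Fin d) ℝ g) (x : Fin n → g) :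
    mean (TrMain_co e x) = e.equivFun ((1 / (n : ℝ)) • ∑ i, x i) := by
  unfold mean
  rw [map_smul, map_sum]
  rfl

omit [Module.Finite ℝ g] in
private theorem TrMain_ad {e : Module.Basis (Fin d) ℝ g} {S : SC d} (hS : Adapted e S)
    (h : LieSubalgebra ℝ g) {P : Mt d} (hP : Pᵀ = P) (hPP : P * P = P)
    (hker : ∀ x, P *ᵥ e.equivFun x = 0 ↔ x ∈ h) {v u : g} (hv : v ∈ h)
    (hu : P *ᵥ e.equivFun u = e.equivFun u) :
    P *ᵥ e.equivFun ⁅v, u⁆ = e.equivFun ⁅v, u⁆ := by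
  refine TrMain_range hP hPP fun w hw => ?_
  obtain ⟨z, rfl⟩ := e.equivFun.surjective w
  rw [hker] at hw
  have h1 := hS.killing ⁅v, u⁆ z
  have h2 : killingForm ℝ g ⁅v, u⁆ z = -killingForm ℝ g u ⁅v, z⁆ := by
    rw [← lie_skew v u, map_neg, LinearMap.neg_apply]
    congr 1
    exact LieModule.traceForm_apply_lie_apply ℝ g g u v z
  have h3 := hS.killing u ⁅v, z⁆
  have h4 : P *ᵥ e.equivFun ⁅v, z⁆ = 0 := (hker _).2 (h.lie_mem hv hw)
  have h5 : e.equivFun u ⬝ᵥ e.equivFun ⁅v, z⁆ = 0 := by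
    rw [← hu]
    have e1 : (P *ᵥ e.equivFun u) ⬝ᵥ e.equivFun ⁅v, z⁆ =
        e.equivFun u ⬝ᵥ (P *ᵥ e.equivFun ⁅v, z⁆) := by
      rw [Matrix.dotProduct_mulVec, ← Matrix.mulVec_transpose, hP]
    rw [e1, h4, dotProduct_zero]
  rw [h5, neg_zero] at h3
  rw [h2, h3, neg_zero] at h1
  linarith

theorem hasEinstein_of_good {e : Module.Basis (Fin d) ℝ g} {S : SC d} (hS : Adapted e S)
    (hn : 0 < n) (h : LieSubalgebra ℝ g) {P A Y : Mt d} (hP : Pᵀ = P) (hPP : P * P = P)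
    (hker : ∀ x, P *ᵥ e.equivFun x = 0 ↔ x ∈ h) (hG : Good S (1 / (n : ℝ)) P A Y)
    (hAut : ∀ δ : g ≃ₗ⁅ℝ⁆ g, h.map (δ : g →ₗ⁅ℝ⁆ g) = h →
      LinearMap.toMatrix e e ((δ : g →ₗ⁅ℝ⁆ g) : g →ₗ[ℝ] g) * P
        = P * LinearMap.toMatrix e e ((δ : g →ₗ⁅ℝ⁆ g) : g →ₗ[ℝ] g) ∧
      LinearMap.toMatrix e e ((δ : g →ₗ⁅ℝ⁆ g) : g →ₗ[ℝ] g) * A
        = A * LinearMap.toMatrix e e ((δ : g →ₗ⁅ℝ⁆ g) : g →ₗ[ℝ] g) ∧
      LinearMap.toMatrix e e ((δ : g →ₗ⁅ℝ⁆ g) : g →ₗ[ℝ] g) * Y
        = Y * LinearMap.toMatrix e e ((δ : g →ₗ⁅ℝ⁆ g) : g →ₗ[ℝ] g)) :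
    HasEinsteinMetric (Fin n → g) (diagonal n h) (diagonalAuts n h) := by
  classical
  have hA := hG.A_pos
  have hY := hG.Y_pos
  have hAt : Aᵀ = A := by
    have := hA.isHermitian
    rwa [Matrix.IsHermitian, Matrix.conjTranspose_eq_transpose_of_trivial] at this
  have hYt : Yᵀ = Y := by
    have := hY.isHermitian
    rwa [Matrix.IsHermitian, Matrix.conjTranspose_eq_transpose_of_trivial] at this
  have hPYPt : (P * Y * P)ᵀ = P * Y * P := by
    rw [Matrix.transpose_mul, Matrix.transpose_mul, hP, hYt, Matrix.mul_assoc]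
  obtain ⟨D, Xc, hspan, hort⟩ := exists_onb (n := n) hn hP hPP hA hY
  obtain ⟨co, hco⟩ : ∃ co : (Fin n → g) ≃ₗ[ℝ] (Fin n → Fin d → ℝ), co = TrMain_co e := ⟨_, rfl⟩
  have hcoa : ∀ x i, co x i = e.equivFun (x i) := fun x i => by rw [hco]; rfl
  have hcol : ∀ x y, co ⁅x, y⁆ = brk S (co x) (co y) := fun x y => by
    rw [hco]; exact TrMain_co_lie hS x y
  have hcom : ∀ x, mean (co x) = e.equivFun ((1 / (n : ℝ)) • ∑ i, x i) := fun x => by
    rw [hco]; exact TrMain_mean_co e x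
  obtain ⟨X, hX⟩ : ∃ X : Fin D → Fin n → g, X = fun s => co.symm (Xc s) := ⟨_, rfl⟩
  have hcoX : ∀ s, co (X s) = Xc s := fun s => by rw [hX]; exact co.apply_symm_apply _
  obtain ⟨m, hm⟩ : ∃ m : Submodule ℝ (Fin n → g), m = Submodule.span ℝ (Set.range X) := ⟨_, rfl⟩
  have hmem : ∀ x, x ∈ m ↔ P *ᵥ mean (co x) = mean (co x) := by
    intro x
    rw [hspan, hm]
    have e1 : Submodule.span ℝ (Set.range X) =
        (Submodule.span ℝ (Set.range Xc)).map (co.symm : (Fin n → Fin d → ℝ) →ₗ[ℝ] (Fin n → g)) := by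
      rw [Submodule.map_span, ← Set.range_comp, hX]
      rfl
    rw [e1, Submodule.mem_map_equiv]
    rfl
  obtain ⟨π, hπ⟩ : ∃ π : (Fin n → g) →ₗ[ℝ] (Fin n → g),
      π = (co.symm : (Fin n → Fin d → ℝ) →ₗ[ℝ] (Fin n → g)) ∘ₗ TrMain_prj P ∘ₗ
        (co : (Fin n → g) →ₗ[ℝ] (Fin n → Fin d → ℝ)) := ⟨_, rfl⟩
  have hcoπ : ∀ x, co (π x) = prj P (co x) := by
    intro x
    rw [hπ]
    exact co.apply_symm_apply _
  obtain ⟨β, hβ⟩ : ∃ β : LinearMap.BilinForm ℝ (Fin n → g),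
      ∀ x y, β x y = bet (1 / (n : ℝ)) A (P * Y * P) (co x) (co y) :=
    ⟨(TrMain_bet (1 / (n : ℝ)) A (P * Y * P)).compl₁₂
      (co : (Fin n → g) →ₗ[ℝ] (Fin n → Fin d → ℝ))
      (co : (Fin n → g) →ₗ[ℝ] (Fin n → Fin d → ℝ)), fun x y => rfl⟩
  have hdiag : ∀ y ∈ diagonal n h, ∃ v ∈ h, y = fun _ => v := by
    rintro y ⟨v, hv, rfl⟩
    exact ⟨v, hv, rfl⟩
  have hprjm : ∀ x, P *ᵥ mean (co x) = mean (co x) → π x = x := by
    intro x hx
    apply co.injective
    rw [hcoπ]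
    funext i
    show co x i - (mean (co x) - P *ᵥ mean (co x)) = co x i
    rw [hx, sub_self, sub_zero]
  have hconst : ∀ v : g, co (fun _ => v) = fun _ => e.equivFun v := by
    intro v
    funext i
    exact hcoa _ i
  have hmeanP : ∀ x, mean (co (π x)) = P *ᵥ mean (co x) := by
    intro x
    rw [hcoπ]
    have e1 : prj P (co x) = co x + (-1 : ℝ) • (fun _ : Fin n => mean (co x) - P *ᵥ mean (co x)) := by
      funext i
      show co x i - (mean (co x) - P *ᵥ mean (co x)) =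
        co x i + (-1 : ℝ) • (mean (co x) - P *ᵥ mean (co x))
      rw [neg_one_smul, sub_eq_add_neg]
    rw [e1, TrMain_mean_add, TrMain_mean_smul, TrMain_mean_const hn, neg_one_smul]
    abel
  refine ⟨m, π, β, D, X, 1 / 4, ⟨?_, ?_⟩, ?_, ?_, ?_, ?_, ?_, ?_, hm.symm, ?_, by norm_num, ?_⟩
  · -- disjoint
    rw [Submodule.disjoint_def]
    intro y hy hym
    obtain ⟨v, hv, rfl⟩ := hdiag y hy
    rw [hmem, hconst, TrMain_mean_const hn, (hker v).2 hv] at hym
    have hv0 : v = 0 := by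
      apply e.equivFun.injective
      rw [map_zero, ← hym]
    rw [hv0]
    rfl
  · -- codisjoint
    rw [codisjoint_iff, eq_top_iff]
    intro x _
    have e1 : x = (x - π x) + π x := by abel
    rw [e1]
    refine Submodule.add_mem_sup ?_ ?_
    · refine ⟨e.equivFun.symm (mean (co x) - P *ᵥ mean (co x)), ?_, ?_⟩
      · rw [SetLike.mem_coe, LieSubalgebra.mem_toSubmodule, ← hker, LinearEquiv.apply_symm_apply,
          Matrix.mulVec_sub, Matrix.mulVec_mulVec, hPP, sub_self]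
      · apply co.injective
        funext i
        have e3 : co (x - π x) i = co x i - co (π x) i := by
          rw [map_sub]
          rfl
        rw [e3, hcoπ, hcoa]
        show e.equivFun (e.equivFun.symm _) = co x i - (co x i - (mean (co x) - P *ᵥ mean (co x)))
        rw [sub_sub_cancel, LinearEquiv.apply_symm_apply]
    · rw [hmem, hmeanP, Matrix.mulVec_mulVec, hPP]
  · intro y hy
    obtain ⟨v, hv, rfl⟩ := hdiag y hy
    apply co.injective
    rw [hcoπ, map_zero, hconst]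
    funext i
    show e.equivFun v - (mean (fun _ : Fin n => e.equivFun v) -
      P *ᵥ mean (fun _ : Fin n => e.equivFun v)) = 0
    rw [TrMain_mean_const hn, (hker v).2 hv, sub_zero, sub_self]
  · intro x hx
    exact hprjm x ((hmem x).1 hx)
  · intro y hy x hx
    obtain ⟨v, hv, rfl⟩ := hdiag y hy
    rw [hmem] at hx ⊢
    have e1 : (1 / (n : ℝ)) • ∑ i, ⁅(fun _ : Fin n => v), x⁆ i = ⁅v, (1 / (n : ℝ)) • ∑ i, x i⁆ := by
      rw [lie_smul, lie_sum]
      rfl
    rw [hcom, e1]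
    rw [hcom] at hx
    exact TrMain_ad hS h hP hPP hker hv hx
  · rintro γ (⟨s, hs⟩ | ⟨δ, hδ, hs⟩) x hx
    · rw [hmem] at hx ⊢
      have e1 : co (γ x) = fun i => co x (s i) := by
        funext i
        rw [hcoa, hs, hcoa]
      rw [e1, TrMain_mean_perm]
      exact hx
    · obtain ⟨h1, -, -⟩ := hAut δ hδ
      rw [hmem] at hx ⊢
      have e1 : co (γ x) = fun i =>
          LinearMap.toMatrix e e ((δ : g →ₗ⁅ℝ⁆ g) : g →ₗ[ℝ] g) *ᵥ co x i := by
        funext i
        rw [hcoa, hs, hcoa]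
        exact (LinearMap.toMatrix_mulVec_repr e e ((δ : g →ₗ⁅ℝ⁆ g) : g →ₗ[ℝ] g) (x i)).symm
      rw [e1, TrMain_mean_mulVec, Matrix.mulVec_mulVec, ← h1, ← Matrix.mulVec_mulVec, hx]
  · rintro γ (⟨s, hs⟩ | ⟨δ, hδ, hs⟩) x _ y _
    · have e1 : ∀ x, co (γ x) = fun i => co x (s i) := by
        intro x
        funext i
        rw [hcoa, hs, hcoa]
      rw [hβ, hβ, e1, e1, TrMain_bet_perm]
    · obtain ⟨h1, h2, h3⟩ := hAut δ hδ
      have e1 : ∀ x, co (γ x) = fun i =>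
          LinearMap.toMatrix e e ((δ : g →ₗ⁅ℝ⁆ g) : g →ₗ[ℝ] g) *ᵥ co x i := by
        intro x
        funext i
        rw [hcoa, hs, hcoa]
        exact (LinearMap.toMatrix_mulVec_repr e e ((δ : g →ₗ⁅ℝ⁆ g) : g →ₗ[ℝ] g) (x i)).symm
      rw [hβ, hβ, e1, e1]
      refine TrMain_bet_mulVec _ (hS.pres δ).1 h2 ?_ _ _
      rw [← Matrix.mul_assoc, ← Matrix.mul_assoc, h1, Matrix.mul_assoc P, h3, ← Matrix.mul_assoc,
        Matrix.mul_assoc (P * Y), h1, ← Matrix.mul_assoc]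
  · intro x y
    rw [hβ, hβ]
    exact bet_symm _ hAt hPYPt _ _
  · intro i j
    rw [hβ, hcoX, hcoX]
    exact hort i j
  · intro x hx
    rw [hmem] at hx
    have hbr := bridge hn S hP hPP hG hspan hort hx
    rw [hβ, ← hbr]
    unfold ricci
    have e1 : ∑ i, β (π ⁅x, X i⁆) (π ⁅x, X i⁆) = ∑ s, bet (1 / (n : ℝ)) A (P * Y * P)
        (prj P (brk S (co x) (Xc s))) (prj P (brk S (co x) (Xc s))) := by
      refine Finset.sum_congr rfl fun s _ => ?_
      rw [hβ, hcoπ, hcol, hcoX]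
    have e2 : ∑ i, ∑ j, (β (π ⁅X i, X j⁆) x) ^ 2 = ∑ s, ∑ t, (bet (1 / (n : ℝ)) A (P * Y * P)
        (prj P (brk S (Xc s) (Xc t))) (co x)) ^ 2 := by
      refine Finset.sum_congr rfl fun s _ => Finset.sum_congr rfl fun t _ => ?_
      rw [hβ, hcoπ, hcol, hcoX, hcoX]
    have e3 : killingForm ℝ (Fin n → g) x x = -∑ i, co x i ⬝ᵥ co x i := by
      rw [killing_pi (L := fun _ : Fin n => g) x x, ← Finset.sum_neg_distrib]
      refine Finset.sum_congr rfl fun i _ => ?_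
      rw [hS.killing, hcoa]
    rw [e1, e2, e3]
    ring

end Pool.Agent.EStab
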