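import Pool.Agent.EStab.Sol
import Pool.Agent.EStab.TrMain
import Pool.Agent.EStab.TrProj
import Pool.Agent.EStab.SoN

/-!
# Main theorems
-/

namespace Pool.Agent.EStab

open Matrix

section

variable {g : Type} [LieRing g] [LieAlgebra ℝ g] [Module.Finite ℝ g]

private theorem Fin_proj {d : ℕ} {e : Module.Basis (Fin d) ℝ g} (h : LieSubalgebra ℝ g) :
    ∃ P : Mt d, Pᵀ = P ∧ P * P = P ∧ ∀ x, P *ᵥ e.equivFun x = 0 ↔ x ∈ h := by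
  obtain ⟨P, h1, h2, h3⟩ := exists_proj (h.toSubmodule.map (e.equivFun : g →ₗ[ℝ] (Fin d → ℝ)))
  refine ⟨P, h1, h2, fun x => ?_⟩
  rw [h3, Submodule.mem_map]
  constructor
  · rintro ⟨y, hy, hxy⟩
    have : y = x := e.equivFun.injective hxy
    rw [← this]
    exact hy
  · intro hx
    exact ⟨x, hx, rfl⟩

private theorem Fin_comm {d : ℕ} {e : Module.Basis (Fin d) ℝ g} {S : SC d} (hS : Adapted e S)
    (h : LieSubalgebra ℝ g) {P : Mt d} (hP : Pᵀ = P) (hPP : P * P = P)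
    (hker : ∀ x, P *ᵥ e.equivFun x = 0 ↔ x ∈ h) (δ : g ≃ₗ⁅ℝ⁆ g)
    (hδ : h.map (δ : g →ₗ⁅ℝ⁆ g) = h) :
    LinearMap.toMatrix e e ((δ : g →ₗ⁅ℝ⁆ g) : g →ₗ[ℝ] g) * P
      = P * LinearMap.toMatrix e e ((δ : g →ₗ⁅ℝ⁆ g) : g →ₗ[ℝ] g) := by
  refine proj_comm hP hPP (hS.pres δ).1 fun v hv => ?_
  have h1 : v = e.equivFun (e.equivFun.symm v) := (e.equivFun.apply_symm_apply v).symm
  have h2 : e.equivFun.symm v ∈ h := by
    rw [← hker, ← h1]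
    exact hv
  have h3 : δ (e.equivFun.symm v) ∈ h := by
    rw [← hδ]
    exact ⟨_, h2, rfl⟩
  have h4 : LinearMap.toMatrix e e ((δ : g →ₗ⁅ℝ⁆ g) : g →ₗ[ℝ] g) *ᵥ v
      = e.equivFun (δ (e.equivFun.symm v)) := by
    calc LinearMap.toMatrix e e ((δ : g →ₗ⁅ℝ⁆ g) : g →ₗ[ℝ] g) *ᵥ v
        = LinearMap.toMatrix e e ((δ : g →ₗ⁅ℝ⁆ g) : g →ₗ[ℝ] g) *ᵥ
            ⇑(e.repr (e.equivFun.symm v)) := by
          rw [← Module.Basis.equivFun_apply, LinearEquiv.apply_symm_apply]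
      _ = ⇑(e.repr (δ (e.equivFun.symm v))) :=
          LinearMap.toMatrix_mulVec_repr e e ((δ : g →ₗ⁅ℝ⁆ g) : g →ₗ[ℝ] g) (e.equivFun.symm v)
      _ = _ := (Module.Basis.equivFun_apply e _).symm
  rw [h4, hker]
  exact h3

theorem einstein_at (hg : CompactSemisimple g) (h : LieSubalgebra ℝ g) (hr : RigidAt h) :
    ∃ n₀ : ℕ, ∀ n ≥ n₀, HasEinsteinMetric (Fin n → g) (diagonal n h) (diagonalAuts n h) := by
  obtain ⟨d, e, S, hS⟩ := exists_SC hg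
  obtain ⟨P, hP, hPP, hker⟩ := Fin_proj (e := e) h
  have hrig : ∀ T : Mt d, Tᵀ = T → (∀ k ∈ {k : Mt d | ∃ δ : g ≃ₗ⁅ℝ⁆ g,
      h.map (δ : g →ₗ⁅ℝ⁆ g) = h ∧ k = LinearMap.toMatrix e e ((δ : g →ₗ⁅ℝ⁆ g) : g →ₗ[ℝ] g)},
      k * T = T * k) → S.Th 1 T = (1 / 2 : ℝ) • T → T = 0 := by
    intro T hT hk h1
    have h2 := hr (Matrix.toLin e e T) (hS.casimir hT h1) ?_
    · exact (Matrix.toLin e e).map_eq_zero_iff.1 h2
    · intro δ hδ x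
      have h3 := hk _ ⟨δ, hδ, rfl⟩
      have h4 : (Matrix.toLin e e T) ∘ₗ ((δ : g →ₗ⁅ℝ⁆ g) : g →ₗ[ℝ] g)
          = ((δ : g →ₗ⁅ℝ⁆ g) : g →ₗ[ℝ] g) ∘ₗ (Matrix.toLin e e T) := by
        apply (LinearMap.toMatrix e e).injective
        rw [LinearMap.toMatrix_comp e e e, LinearMap.toMatrix_comp e e e, LinearMap.toMatrix_toLin]
        exact h3.symm
      exact LinearMap.congr_fun h4 x
  obtain ⟨ε₀, h0, hsol⟩ := sol_rel S _
    (by rintro k ⟨δ, _, rfl⟩; exact hS.pres δ) hP hPP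
    (by rintro k ⟨δ, hδ, rfl⟩; exact Fin_comm hS h hP hPP hker δ hδ) hrig
  obtain ⟨n₀, hn₀⟩ := exists_nat_gt (1 / ε₀)
  refine ⟨n₀ + 1, fun n hn => ?_⟩
  have hn' : (0 : ℝ) < n := by
    have : (0 : ℕ) < n := by omega
    exact_mod_cast this
  have hlt : 1 / (n : ℝ) < ε₀ := by
    rw [div_lt_iff₀ hn']
    rw [div_lt_iff₀ h0] at hn₀
    have h5 : (n₀ : ℝ) ≤ n := by
      have : n₀ ≤ n := by omega
      exact_mod_cast this
    nlinarith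
  obtain ⟨A, Y, hG, hA, hY⟩ := hsol (1 / (n : ℝ)) (by positivity) hlt
  refine hasEinstein_of_good hS (by omega) h hP hPP hker hG fun δ hδ => ?_
  exact ⟨Fin_comm hS h hP hPP hker δ hδ, hA _ ⟨δ, hδ, rfl⟩, hY _ ⟨δ, hδ, rfl⟩⟩

theorem einstein_unif (hg : CompactSemisimple g) (hr : Rigid g) :
    ∃ n₀ : ℕ, ∀ n ≥ n₀, ∀ h : LieSubalgebra ℝ g,
      HasEinsteinMetric (Fin n → g) (diagonal n h) (diagonalAuts n h) := by
  obtain ⟨d, e, S, hS⟩ := exists_SC hg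
  obtain ⟨ε₀, h0, hsol⟩ := sol_unif S (fun T hT h1 =>
    (Matrix.toLin e e).map_eq_zero_iff.1 (hr (Matrix.toLin e e T) (hS.casimir hT h1)))
  obtain ⟨n₀, hn₀⟩ := exists_nat_gt (1 / ε₀)
  refine ⟨n₀ + 1, fun n hn h => ?_⟩
  obtain ⟨P, hP, hPP, hker⟩ := Fin_proj (e := e) h
  have hn' : (0 : ℝ) < n := by
    have : (0 : ℕ) < n := by omega
    exact_mod_cast this
  have hlt : 1 / (n : ℝ) < ε₀ := by
    rw [div_lt_iff₀ hn']
    rw [div_lt_iff₀ h0] at hn₀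
    have h5 : (n₀ : ℝ) ≤ n := by
      have : n₀ ≤ n := by omega
      exact_mod_cast this
    nlinarith
  obtain ⟨A, Y, hG, hk⟩ := hsol (1 / (n : ℝ)) (by positivity) hlt P hP hPP
  refine hasEinstein_of_good hS (by omega) h hP hPP hker hG fun δ hδ => ?_
  have h6 := Fin_comm hS h hP hPP hker δ hδ
  exact ⟨h6, (hk _ (hS.pres δ) h6).1, (hk _ (hS.pres δ) h6).2⟩

end

theorem so_prod {r : ℕ} {N : Fin r → ℕ} (hN : ∀ i, 3 ≤ N i ∧ N i ≠ 6) :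
    CompactSemisimple (∀ i, LieAlgebra.Orthogonal.so (Fin (N i)) ℝ) ∧
      Rigid (∀ i, LieAlgebra.Orthogonal.so (Fin (N i)) ℝ) :=
  ⟨compact_pi fun i => so_compact (hN i).1,
    rigid_pi (fun i => so_compact (hN i).1) fun i => so_rigid (hN i).1 (hN i).2⟩

end Pool.Agent.EStab
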