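import Pool.Agent.EStab.Ana

/-!
# The implicit function theorem for the Einstein equations
-/

namespace Pool.Agent.EStab

open Matrix Filter Topology
open scoped Matrix.Norms.Operator

attribute [-instance] instTopologicalSpaceMatrix Matrix.instUniformSpace

variable {d : ℕ}

theorem FF_base (S : SC d) {P : Mt d} (hPP : P * P = P) : FF S (0, P) (1, 1) = 0 := by
  unfold FF
  simp only [RV_zero, R0_zero, inv_one, S.Th_one_one, Matrix.mul_one, hPP]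
  refine Prod.ext ?_ ?_
  · show -(1 / 2 : ℝ) • (1 : Mt d) + (1 / 2 : ℝ) • 1 + (1 / 4 : ℝ) • 1 - (1 / 4 : ℝ) • 1 = 0
    module
  · show P * (-(1 / 2 : ℝ) • (1 : Mt d) + (1 / 2 : ℝ) • 1 + (1 / 4 : ℝ) • P) * P
      - (1 / 4 : ℝ) • 1 + (1 / 4 : ℝ) • (1 - P) = 0
    simp only [Matrix.mul_add, Matrix.add_mul, Matrix.mul_smul, Matrix.smul_mul, Matrix.mul_one,
      hPP]
    module

theorem ift_main (S : SC d) (V : Submodule ℝ (Mt d)) (h1V : (1 : Mt d) ∈ V) {P0 : Mt d}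
    (hPP : P0 * P0 = P0) (hTh : ∀ α ∈ V, S.Th 1 α ∈ V) (hPV : ∀ η ∈ V, P0 * η * P0 ∈ V)
    (hrig : ∀ α ∈ V, S.Th 1 α = (1 / 2 : ℝ) • α → α = 0) :
    ∃ ψ : ℝ × Mt d → Mt d × Mt d, (∀ q, (ψ q).1 ∈ V ∧ (ψ q).2 ∈ V) ∧
      Tendsto ψ (𝓝 (0, P0)) (𝓝 (1, 1)) ∧
      (∀ᶠ q in 𝓝 ((0 : ℝ), P0), (FF S q (ψ q)).1 ∈ V → (FF S q (ψ q)).2 ∈ V →
        FF S q (ψ q) = 0) ∧
      ∃ r : ℝ, 0 < r ∧ ∀ᶠ q in 𝓝 ((0 : ℝ), P0), ∀ A ∈ V, ∀ Y ∈ V, ‖A - 1‖ < r → ‖Y - 1‖ < r →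
        FF S q (A, Y) = 0 → ψ q = (A, Y) := by
  classical
  haveI : CompleteSpace V := FiniteDimensional.complete ℝ V
  haveI : CompleteSpace (Mt d) := FiniteDimensional.complete ℝ (Mt d)
  obtain ⟨ρ, hρ⟩ := V.subtype.exists_leftInverse_of_injective (Submodule.ker_subtype V)
  have hρ' : ∀ v : V, ρ v = v := fun v => LinearMap.congr_fun hρ v
  obtain ⟨ρc, hρc⟩ : ∃ ρc : Mt d →L[ℝ] V, ∀ x, ρc x = ρ x :=
    ⟨LinearMap.toContinuousLinearMap ρ, fun x => rfl⟩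
  have hρc' : ∀ x (hx : x ∈ V), ρc x = ⟨x, hx⟩ := fun x hx => by
    rw [hρc]
    exact hρ' ⟨x, hx⟩
  obtain ⟨f, hf⟩ : ∃ f : (ℝ × Mt d) × (V × V) → V × V, f = fun w =>
    (ρc (FF S w.1 ((w.2.1 : Mt d), (w.2.2 : Mt d))).1,
      ρc (FF S w.1 ((w.2.1 : Mt d), (w.2.2 : Mt d))).2) := ⟨_, rfl⟩
  obtain ⟨z0, hz0⟩ : ∃ z0 : V × V, z0 = (⟨1, h1V⟩, ⟨1, h1V⟩) := ⟨_, rfl⟩
  obtain ⟨u, hu⟩ : ∃ u : (ℝ × Mt d) × (V × V), u = ((0, P0), z0) := ⟨_, rfl⟩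
  have hu1 : u.1 = (0, P0) := by rw [hu]
  have hu2 : u.2 = z0 := by rw [hu]
  have hsm : ContDiffAt ℝ 1 f u := by
    have hq : ContDiffAt ℝ 1 (fun w : (ℝ × Mt d) × (V × V) => w.1) u := contDiffAt_fst
    have hz : ContDiffAt ℝ 1 (fun w : (ℝ × Mt d) × (V × V) =>
        ((w.2.1 : Mt d), (w.2.2 : Mt d))) u := by
      have e1 : ContDiffAt ℝ 1 (fun w : (ℝ × Mt d) × (V × V) => w.2.1) u :=
        contDiffAt_snd.fst
      have e2 : ContDiffAt ℝ 1 (fun w : (ℝ × Mt d) × (V × V) => w.2.2) u :=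
        contDiffAt_snd.snd
      exact ContDiffAt.prodMk (V.subtypeL.contDiff.contDiffAt.comp u e1)
        (V.subtypeL.contDiff.contDiffAt.comp u e2)
    have hz1 : (fun w : (ℝ × Mt d) × (V × V) => ((w.2.1 : Mt d), (w.2.2 : Mt d))) u
        = (1, 1) := by
      show ((u.2.1 : Mt d), (u.2.2 : Mt d)) = (1, 1)
      rw [hu2, hz0]
    have hF := contDiffAt_FF S hq hz hz1
    rw [hf]
    exact ContDiffAt.prodMk (ρc.contDiff.contDiffAt.comp u hF.fst)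
      (ρc.contDiff.contDiffAt.comp u hF.snd)
  have hfu : f u = 0 := by
    rw [hf]
    show (ρc (FF S u.1 ((u.2.1 : Mt d), (u.2.2 : Mt d))).1,
      ρc (FF S u.1 ((u.2.1 : Mt d), (u.2.2 : Mt d))).2) = 0
    rw [hu1, hu2, hz0]
    show (ρc (FF S (0, P0) (1, 1)).1, ρc (FF S (0, P0) (1, 1)).2) = 0
    rw [FF_base S hPP]
    simp
  -- the derivative in the directions of `V × V`
  have hder : ∀ ζ : V × V, fderiv ℝ f u (0, ζ) =
      (ρc ((1 / 4 : ℝ) • (ζ.1 : Mt d) - (1 / 2 : ℝ) • S.Th 1 ζ.1),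
        ρc ((1 / 2 : ℝ) • (P0 * (ζ.2 : Mt d) * P0) - (1 / 2 : ℝ) • (P0 * S.Th 1 ζ.1 * P0)
          - (1 / 4 : ℝ) • (ζ.2 : Mt d))) := by
    intro ζ
    have h1 : HasFDerivAt f (fderiv ℝ f u) u :=
      (hsm.differentiableAt (by norm_num)).hasFDerivAt
    have h2 : HasDerivAt (fun t : ℝ => (((0 : ℝ), P0), z0 + t • ζ)) ((0 : ℝ × Mt d), ζ) 0 := by
      have h3 := ((hasDerivAt_id (0 : ℝ)).smul_const ζ).const_add z0
      have h4 : HasDerivAt (fun _ : ℝ => ((0 : ℝ), P0)) (0 : ℝ × Mt d) 0 :=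
        hasDerivAt_const _ _
      refine HasDerivAt.prodMk h4 ?_
      simpa using h3
    have h5 : (((0 : ℝ), P0), z0 + (0 : ℝ) • ζ) = u := by rw [zero_smul, add_zero, hu]
    have h6 : HasDerivAt (fun t : ℝ => f (((0 : ℝ), P0), z0 + t • ζ)) (fderiv ℝ f u (0, ζ)) 0 := by
      have h7 : HasFDerivAt f (fderiv ℝ f u) (((0 : ℝ), P0), z0 + (0 : ℝ) • ζ) := by
        rw [h5]
        exact h1
      exact h7.comp_hasDerivAt (0 : ℝ) h2
    have h8 := hasDerivAt_FF S hPP (ζ.1 : Mt d) (ζ.2 : Mt d)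
    have h9 : HasDerivAt (fun t : ℝ => f (((0 : ℝ), P0), z0 + t • ζ))
        (ρc ((1 / 4 : ℝ) • (ζ.1 : Mt d) - (1 / 2 : ℝ) • S.Th 1 ζ.1),
        ρc ((1 / 2 : ℝ) • (P0 * (ζ.2 : Mt d) * P0) - (1 / 2 : ℝ) • (P0 * S.Th 1 ζ.1 * P0)
          - (1 / 4 : ℝ) • (ζ.2 : Mt d))) 0 := by
      have e1 : (fun t : ℝ => f (((0 : ℝ), P0), z0 + t • ζ)) = fun t : ℝ =>
          (ρc (FF S (0, P0) (1 + t • (ζ.1 : Mt d), 1 + t • (ζ.2 : Mt d))).1,
            ρc (FF S (0, P0) (1 + t • (ζ.1 : Mt d), 1 + t • (ζ.2 : Mt d))).2) := by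
        funext t
        rw [hf, hz0]
        rfl
      rw [e1]
      exact HasDerivAt.prodMk (ρc.hasFDerivAt.comp_hasDerivAt (0 : ℝ) h8.fst)
        (ρc.hasFDerivAt.comp_hasDerivAt (0 : ℝ) h8.snd)
    exact h6.unique h9
  have hinv : (fderiv ℝ f u ∘L .inr ℝ (ℝ × Mt d) (V × V)).IsInvertible := by
    have hinj : Function.Injective (fderiv ℝ f u ∘L .inr ℝ (ℝ × Mt d) (V × V)) := by
      rw [injective_iff_map_eq_zero]
      intro ζ hζ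
      have h1 : fderiv ℝ f u (0, ζ) = 0 := hζ
      rw [hder ζ] at h1
      have h2 := congrArg Prod.fst h1
      have h3 := congrArg Prod.snd h1
      simp only [Prod.fst_zero, Prod.snd_zero] at h2 h3
      have m1 : (1 / 4 : ℝ) • (ζ.1 : Mt d) - (1 / 2 : ℝ) • S.Th 1 ζ.1 ∈ V :=
        V.sub_mem (V.smul_mem _ ζ.1.2) (V.smul_mem _ (hTh _ ζ.1.2))
      rw [hρc' _ m1] at h2
      have h4 : (1 / 4 : ℝ) • (ζ.1 : Mt d) - (1 / 2 : ℝ) • S.Th 1 ζ.1 = 0 :=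
        congrArg Subtype.val h2
      have h5 : S.Th 1 (ζ.1 : Mt d) = (1 / 2 : ℝ) • (ζ.1 : Mt d) := by
        have h6 : S.Th 1 (ζ.1 : Mt d) = (1 / 2 : ℝ) • (ζ.1 : Mt d)
            - (2 : ℝ) • ((1 / 4 : ℝ) • (ζ.1 : Mt d) - (1 / 2 : ℝ) • S.Th 1 ζ.1) := by module
        rw [h6, h4, smul_zero, sub_zero]
      have h7 : (ζ.1 : Mt d) = 0 := hrig _ ζ.1.2 h5
      have h8 : S.Th 1 (0 : Mt d) = 0 := by
        have := S.Th_smul_right 0 1 0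
        simpa using this
      rw [h7, h8] at h3
      simp only [Matrix.mul_zero, Matrix.zero_mul, smul_zero, sub_zero] at h3
      have m2 : (1 / 2 : ℝ) • (P0 * (ζ.2 : Mt d) * P0) - (1 / 4 : ℝ) • (ζ.2 : Mt d) ∈ V :=
        V.sub_mem (V.smul_mem _ (hPV _ ζ.2.2)) (V.smul_mem _ ζ.2.2)
      rw [hρc' _ m2] at h3
      have h9 : (1 / 2 : ℝ) • (P0 * (ζ.2 : Mt d) * P0) - (1 / 4 : ℝ) • (ζ.2 : Mt d) = 0 :=
        congrArg Subtype.val h3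
      have h10 : (ζ.2 : Mt d) = (2 : ℝ) • (P0 * (ζ.2 : Mt d) * P0) := by
        have h11 : (ζ.2 : Mt d) = (2 : ℝ) • (P0 * (ζ.2 : Mt d) * P0)
            - (4 : ℝ) • ((1 / 2 : ℝ) • (P0 * (ζ.2 : Mt d) * P0) - (1 / 4 : ℝ) • (ζ.2 : Mt d)) := by
          module
        rw [h9, smul_zero, sub_zero] at h11
        exact h11
      have h12 : P0 * (ζ.2 : Mt d) * P0 = (2 : ℝ) • (P0 * (ζ.2 : Mt d) * P0) := by
        conv_lhs => rw [h10]
        simp only [Matrix.mul_smul, Matrix.smul_mul, ← Matrix.mul_assoc, hPP]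
        simp only [Matrix.mul_assoc, hPP]
      have h13 : P0 * (ζ.2 : Mt d) * P0 = 0 := by
        have h14 : P0 * (ζ.2 : Mt d) * P0
            = (2 : ℝ) • (P0 * (ζ.2 : Mt d) * P0) - P0 * (ζ.2 : Mt d) * P0 := by module
        rw [← h12, sub_self] at h14
        exact h14
      rw [h13, smul_zero] at h10
      exact Prod.ext (Subtype.ext h7) (Subtype.ext h10)
    refine ⟨(LinearEquiv.ofInjectiveEndo
      ((fderiv ℝ f u ∘L .inr ℝ (ℝ × Mt d) (V × V) : (V × V) →L[ℝ] (V × V)) :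
        (V × V) →ₗ[ℝ] (V × V)) hinj).toContinuousLinearEquiv, ContinuousLinearMap.ext fun x => rfl⟩
  have hn : (1 : WithTop ℕ∞) ≠ 0 := one_ne_zero
  obtain ⟨φ, hφ1, hφ2, hφ3⟩ : ∃ φ : ℝ × Mt d → V × V, Tendsto φ (𝓝 u.1) (𝓝 u.2) ∧
      (∀ᶠ x in 𝓝 u.1, f (x, φ x) = f u) ∧ ∀ᶠ v in 𝓝 u, f v = f u ↔ φ v.1 = v.2 := by
    refine ⟨hsm.implicitFunction hn hinv, ?_, hsm.eventually_apply_implicitFunction hn hinv,
      hsm.eventually_apply_eq_iff_implicitFunction hn hinv⟩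
    have h1 := (hsm.hasStrictFDerivAt_implicitFunction hn hinv).continuousAt
    have h2 := hsm.implicitFunction_apply_self hn hinv
    rw [ContinuousAt, h2] at h1
    exact h1
  rw [hu1] at hφ1 hφ2
  refine ⟨fun q => (((φ q).1 : Mt d), ((φ q).2 : Mt d)), fun q => ⟨(φ q).1.2, (φ q).2.2⟩,
    ?_, ?_, ?_⟩
  · rw [hu2, hz0] at hφ1
    have h1 : Continuous (fun z : V × V => ((z.1 : Mt d), (z.2 : Mt d))) :=
      (continuous_subtype_val.comp continuous_fst).prodMk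
        (continuous_subtype_val.comp continuous_snd)
    have h2 := (h1.tendsto ((⟨1, h1V⟩, ⟨1, h1V⟩) : V × V)).comp hφ1
    exact h2
  · filter_upwards [hφ2] with q hq m1 m2
    rw [hfu, hf] at hq
    have h1 := congrArg Prod.fst hq
    have h2 := congrArg Prod.snd hq
    simp only [Prod.fst_zero, Prod.snd_zero] at h1 h2
    have h3 : ρc (FF S q (((φ q).1 : Mt d), ((φ q).2 : Mt d))).1 = 0 := h1
    have h4 : ρc (FF S q (((φ q).1 : Mt d), ((φ q).2 : Mt d))).2 = 0 := h2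
    rw [hρc' _ m1] at h3
    rw [hρc' _ m2] at h4
    exact Prod.ext (congrArg Subtype.val h3) (congrArg Subtype.val h4)
  · rw [Metric.eventually_nhds_iff] at hφ3
    obtain ⟨r, hr, h1⟩ := hφ3
    refine ⟨r, hr, ?_⟩
    have h2 : ∀ᶠ q in 𝓝 ((0 : ℝ), P0), dist q (0, P0) < r := Metric.ball_mem_nhds _ hr
    filter_upwards [h2] with q hq A hA Y hY hA1 hY1 hFF
    have h3 : dist ((q, ((⟨A, hA⟩, ⟨Y, hY⟩) : V × V)) : (ℝ × Mt d) × (V × V)) u < r := by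
      rw [hu, hz0, Prod.dist_eq, Prod.dist_eq]
      refine max_lt hq (max_lt ?_ ?_)
      · show dist A 1 < r
        rw [dist_eq_norm]
        exact hA1
      · show dist Y 1 < r
        rw [dist_eq_norm]
        exact hY1
    have h4 := (h1 h3).1 (by
      rw [hfu, hf]
      show (ρc (FF S q (A, Y)).1, ρc (FF S q (A, Y)).2) = 0
      rw [hFF]
      simp)
    have h5 : φ q = (⟨A, hA⟩, ⟨Y, hY⟩) := h4
    show (((φ q).1 : Mt d), ((φ q).2 : Mt d)) = (A, Y)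
    rw [h5]

end Pool.Agent.EStab
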