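import Pool.Agent.EStab.Theta

/-!
# Orthogonal projection matrices, general index type

* `exists_projI`: the matrix of the orthogonal projection onto `Uᗮ` in `EuclideanSpace ℝ (Fin d)`
  (or: take an orthonormal basis `u_1, ..., u_r` of `U` and `P = 1 - ∑ u_i u_iᵀ`).
* `proj_commI`: `P (1 - P) v = 0`, so `P k (1 - P) = 0`, i.e. `P k = P k P`.  The injective map `k` sends the
  finite-dimensional space `ker P` into itself, hence onto itself, so `k⁻¹ = kᵀ` also sends `ker P` to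
  itself: `P kᵀ (1 - P) = 0`; transpose: `(1 - P) k P = 0`, i.e. `k P = P k P`.
-/

namespace Pool.Agent.EStab

open Matrix

variable {ι : Type*} [Fintype ι] [DecidableEq ι]

private theorem PrGen_gram {r : ℕ} (B : Matrix ι (Fin r) ℝ)
    (hB : ∀ x, B *ᵥ x = 0 → x = 0) : IsUnit (Bᵀ * B).det := by
  rw [← Matrix.isUnit_iff_isUnit_det, ← Matrix.mulVec_injective_iff_isUnit]
  have h1 : LinearMap.ker (Bᵀ * B).mulVecLin = ⊥ := by
    rw [Matrix.ker_mulVecLin_transpose_mul_self, LinearMap.ker_eq_bot']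
    exact hB
  exact LinearMap.ker_eq_bot.1 h1

theorem exists_projI (U : Submodule ℝ (ι → ℝ)) :
    ∃ P : Matrix ι ι ℝ, Pᵀ = P ∧ P * P = P ∧ ∀ v, P *ᵥ v = 0 ↔ v ∈ U := by
  classical
  obtain ⟨r, b⟩ : ∃ r : ℕ, Nonempty (Module.Basis (Fin r) ℝ U) := ⟨_, ⟨Module.finBasis ℝ U⟩⟩
  obtain ⟨b⟩ := b
  obtain ⟨B, hBdef⟩ : ∃ B : Matrix ι (Fin r) ℝ, ∀ i j, B i j = (b j : ι → ℝ) i :=
    ⟨fun i j => (b j : ι → ℝ) i, fun _ _ => rfl⟩
  have hBx : ∀ x : Fin r → ℝ, B *ᵥ x = ((∑ j, x j • b j : U) : ι → ℝ) := by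
    intro x
    funext i
    rw [Submodule.coe_sum, Finset.sum_apply]
    simp only [Matrix.mulVec, dotProduct, hBdef, Submodule.coe_smul, Pi.smul_apply, smul_eq_mul]
    exact Finset.sum_congr rfl fun j _ => mul_comm _ _
  have hinj : ∀ x, B *ᵥ x = 0 → x = 0 := by
    intro x hx
    rw [hBx] at hx
    have h1 : (∑ j, x j • b j : U) = 0 := Subtype.ext hx
    funext j
    exact (Fintype.linearIndependent_iff.1 b.linearIndependent) x h1 j
  have hG := PrGen_gram B hinj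
  have hG1 : (Bᵀ * B)⁻¹ * (Bᵀ * B) = 1 := Matrix.nonsing_inv_mul _ hG
  have hGt : ((Bᵀ * B)⁻¹)ᵀ = (Bᵀ * B)⁻¹ := by
    rw [Matrix.transpose_nonsing_inv, Matrix.transpose_mul, Matrix.transpose_transpose]
  generalize (Bᵀ * B)⁻¹ = G at hG1 hGt
  have hQB : B * G * Bᵀ * B = B := by
    rw [Matrix.mul_assoc, Matrix.mul_assoc, hG1, Matrix.mul_one]
  refine ⟨1 - B * G * Bᵀ, ?_, ?_, ?_⟩
  · rw [Matrix.transpose_sub, Matrix.transpose_one, Matrix.transpose_mul, Matrix.transpose_mul,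
      Matrix.transpose_transpose, hGt, Matrix.mul_assoc]
  · have h2 : B * G * Bᵀ * (B * G * Bᵀ) = B * G * Bᵀ := by
      rw [← Matrix.mul_assoc, ← Matrix.mul_assoc, hQB]
    rw [Matrix.sub_mul, Matrix.mul_sub, Matrix.mul_sub, h2, Matrix.one_mul, Matrix.one_mul,
      Matrix.mul_one, sub_self, sub_zero]
  · intro v
    rw [Matrix.sub_mulVec, Matrix.one_mulVec, sub_eq_zero]
    constructor
    · intro hv
      rw [hv, Matrix.mul_assoc, ← Matrix.mulVec_mulVec, hBx]
      exact Subtype.property _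
    · intro hv
      have h3 : v = B *ᵥ (b.repr ⟨v, hv⟩) := by
        rw [hBx, b.sum_repr]
      conv_rhs => rw [h3]
      rw [Matrix.mulVec_mulVec, hQB, ← h3]

theorem proj_commI {P k : Matrix ι ι ℝ} (hP : Pᵀ = P) (hPP : P * P = P) (hk : k * kᵀ = 1)
    (h : ∀ v, P *ᵥ v = 0 → P *ᵥ (k *ᵥ v) = 0) : k * P = P * k := by
  classical
  have hk' : kᵀ * k = 1 := mul_eq_one_comm.1 hk
  obtain ⟨Q, hQ⟩ : ∃ Q : Matrix ι ι ℝ, Q = 1 - P := ⟨_, rfl⟩
  have hPQ : P * Q = 0 := by rw [hQ, Matrix.mul_sub, Matrix.mul_one, hPP, sub_self]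
  have hQt : Qᵀ = Q := by rw [hQ, Matrix.transpose_sub, Matrix.transpose_one, hP]
  have hQQ : Q * Q = Q := by
    have h0 : (1 - P) * Q = Q := by rw [Matrix.sub_mul, Matrix.one_mul, hPQ, sub_zero]
    rwa [← hQ] at h0
  have h1 : P * k * Q = 0 := by
    apply Matrix.toLin'.injective
    refine LinearMap.ext fun v => ?_
    rw [Matrix.toLin'_apply, map_zero, LinearMap.zero_apply, ← Matrix.mulVec_mulVec,
      ← Matrix.mulVec_mulVec]
    refine h _ ?_
    rw [Matrix.mulVec_mulVec, hPQ, Matrix.zero_mulVec]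
  have hP1 : P = 1 - Q := by rw [hQ, sub_sub_cancel]
  have h2 : k * Q = Q * k * Q := by
    have h3 := h1
    rw [hP1, Matrix.sub_mul, Matrix.sub_mul, Matrix.one_mul, sub_eq_zero] at h3
    exact h3
  have h4 : Q * k * P = 0 := by
    have h5 : (Q * k * P) * (Q * k * P)ᵀ = Q - k * Q * kᵀ * Q := by
      calc (Q * k * P) * (Q * k * P)ᵀ = Q * k * (P * P) * kᵀ * Q := by
            rw [Matrix.transpose_mul, Matrix.transpose_mul, hP, hQt]
            simp only [Matrix.mul_assoc]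
        _ = Q * k * (1 - Q) * kᵀ * Q := by rw [hPP, hP1]
        _ = Q * (k * kᵀ) * Q - Q * k * Q * kᵀ * Q := by
            rw [Matrix.mul_sub, Matrix.mul_one, Matrix.sub_mul, Matrix.sub_mul]
            simp only [Matrix.mul_assoc]
        _ = Q - k * Q * kᵀ * Q := by rw [hk, Matrix.mul_one, hQQ, ← h2]
    have h6 : Matrix.trace ((Q * k * P) * (Q * k * P)ᴴ) = 0 := by
      rw [Matrix.conjTranspose_eq_transpose_of_trivial, h5, Matrix.trace_sub]
      have h7 : Matrix.trace (k * Q * kᵀ * Q) = Matrix.trace Q := by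
        rw [Matrix.trace_mul_comm, ← Matrix.mul_assoc, ← Matrix.mul_assoc, ← h2,
          Matrix.trace_mul_comm, ← Matrix.mul_assoc, hk', Matrix.one_mul]
      rw [h7, sub_self]
    exact Matrix.trace_mul_conjTranspose_self_eq_zero_iff.1 h6
  have h8 : k * P = P * k * P := by
    have h9 := h4
    rw [hQ, Matrix.sub_mul, Matrix.sub_mul, Matrix.one_mul, sub_eq_zero] at h9
    exact h9
  have h10 : P * k = P * k * P := by
    have h11 := h1
    rw [hQ, Matrix.mul_sub, Matrix.mul_one, sub_eq_zero] at h11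
    exact h11
  rw [h8, ← h10]

end Pool.Agent.EStab
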