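import Pool.Agent.EStab.Defs

/-!
# The Killing form of `so(ι)`, `ι` an arbitrary finite index type

`K(x, y) = (card ι - 2) tr (x y)`.  Let `F i j = E_ij - E_ji`.  For an endomorphism `M` of `so(ι)`,
`trace M = (1/2) ∑ i j, (M (F i j)) i j` (write `trace M = trace (incl ∘ M ∘ p)`, `p X = (X - Xᵀ)/2`, and compute
in the standard basis of matrices).  For skew `x`, `y`:
`∑ i j, (x y F - x F y - y F x + F y x) i j = 2 (card ι - 1) tr (x y) - 2 tr (x y)`.
(The case `ι = Fin N` is part of `SoN.lean`; its proof can be reused if it is finished.)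
-/

namespace Pool.Agent.EStab

open Matrix LieAlgebra.Orthogonal

variable {ι : Type} [Fintype ι] [DecidableEq ι]

/-- the elementary skew-symmetric matrices -/
private def SoGen_F (a b : ι) : so ι ℝ :=
  ⟨Matrix.single a b 1 - Matrix.single b a 1, by
    rw [mem_so, Matrix.transpose_sub, Matrix.transpose_single, Matrix.transpose_single]
    abel⟩

/-- the projection onto the skew-symmetric matrices -/
private noncomputable def SoGen_p : Matrix ι ι ℝ →ₗ[ℝ] so ι ℝ where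
  toFun X := ⟨(1 / 2 : ℝ) • (X - Xᵀ), by
    rw [mem_so, Matrix.transpose_smul, Matrix.transpose_sub, Matrix.transpose_transpose,
      ← smul_neg, neg_sub]⟩
  map_add' X Y := by
    apply Subtype.ext
    show (1 / 2 : ℝ) • (X + Y - (X + Y)ᵀ) = (1 / 2 : ℝ) • (X - Xᵀ) + (1 / 2 : ℝ) • (Y - Yᵀ)
    rw [Matrix.transpose_add, ← smul_add]
    congr 1
    abel
  map_smul' c X := by
    apply Subtype.ext
    show (1 / 2 : ℝ) • (c • X - (c • X)ᵀ) = c • ((1 / 2 : ℝ) • (X - Xᵀ))
    rw [Matrix.transpose_smul, ← smul_sub, smul_comm]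

private theorem SoGen_p_single (i j : ι) :
    SoGen_p (Matrix.single i j (1 : ℝ)) = (1 / 2 : ℝ) • SoGen_F i j := by
  apply Subtype.ext
  show (1 / 2 : ℝ) • (Matrix.single i j (1 : ℝ) - (Matrix.single i j (1 : ℝ))ᵀ) =
    (1 / 2 : ℝ) • (Matrix.single i j (1 : ℝ) - Matrix.single j i 1)
  rw [Matrix.transpose_single]

private theorem SoGen_p_id (x : so ι ℝ) : SoGen_p x.1 = x := by
  apply Subtype.ext
  show (1 / 2 : ℝ) • (x.1 - x.1ᵀ) = x.1
  have h := (mem_so ι ℝ x.1).1 x.2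
  rw [h, sub_neg_eq_add, ← two_smul ℝ x.1, smul_smul]
  norm_num

private theorem SoGen_sum (x : so ι ℝ) :
    x = (1 / 2 : ℝ) • ∑ i, ∑ j, x.1 i j • SoGen_F i j := by
  conv_lhs => rw [← SoGen_p_id x, Matrix.matrix_eq_sum_single x.1]
  rw [map_sum, Finset.smul_sum]
  refine Finset.sum_congr rfl fun i _ => ?_
  rw [map_sum, Finset.smul_sum]
  refine Finset.sum_congr rfl fun j _ => ?_
  have h : Matrix.single i j (x.1 i j) = x.1 i j • Matrix.single i j (1 : ℝ) := by
    rw [Matrix.smul_single, smul_eq_mul, mul_one]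
  rw [h, map_smul, SoGen_p_single, smul_comm]

private theorem SoGen_trace (M : so ι ℝ →ₗ[ℝ] so ι ℝ) :
    LinearMap.trace ℝ _ M = (1 / 2) * ∑ i, ∑ j, (M (SoGen_F i j)).1 i j := by
  let inc : so ι ℝ →ₗ[ℝ] Matrix ι ι ℝ :=
    { toFun := fun x => x.1
      map_add' := fun _ _ => rfl
      map_smul' := fun _ _ => rfl }
  have h1 : M = (M ∘ₗ SoGen_p) ∘ₗ inc := by
    ext x : 1
    show M x = M (SoGen_p x.1)
    rw [SoGen_p_id]
  have h2 : LinearMap.trace ℝ _ M = LinearMap.trace ℝ _ (inc ∘ₗ (M ∘ₗ SoGen_p)) := by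
    conv_lhs => rw [h1]
    exact LinearMap.trace_comp_comm' inc (M ∘ₗ SoGen_p)
  rw [h2, LinearMap.trace_eq_matrix_trace ℝ (Matrix.stdBasis ℝ ι ι)]
  unfold Matrix.trace
  rw [Fintype.sum_prod_type, Finset.mul_sum]
  refine Finset.sum_congr rfl fun i _ => ?_
  rw [Finset.mul_sum]
  refine Finset.sum_congr rfl fun j _ => ?_
  rw [Matrix.diag_apply, LinearMap.toMatrix_apply, Matrix.stdBasis_eq_single]
  have h3 : ∀ X : Matrix ι ι ℝ,
      (Matrix.stdBasis ℝ ι ι).repr X (i, j) = X i j := by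
    intro X
    simp [Matrix.stdBasis]
  rw [h3]
  show (M (SoGen_p (Matrix.single i j (1 : ℝ)))).1 i j = _
  rw [SoGen_p_single, map_smul]
  rfl

private theorem SoGen_F_apply (a b i j : ι) : (SoGen_F a b).1 i j =
    (if a = i ∧ b = j then 1 else 0) - (if b = i ∧ a = j then 1 else 0) := by
  show (Matrix.single a b (1 : ℝ) - Matrix.single b a 1 : Matrix ι ι ℝ) i j = _
  rw [Matrix.sub_apply, Matrix.single_apply, Matrix.single_apply]

private theorem SoGen_bracket (x y : so ι ℝ) : (⁅x, y⁆ : so ι ℝ).1 =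
    x.1 * y.1 - y.1 * x.1 := rfl

private theorem SoGen_skew (x : so ι ℝ) (i j : ι) : x.1 i j = - x.1 j i := by
  have h := (mem_so ι ℝ x.1).1 x.2
  have h2 := congrFun (congrFun h j) i
  rw [Matrix.transpose_apply, Matrix.neg_apply] at h2
  exact h2

private theorem SoGen_diag (x : so ι ℝ) (i : ι) : x.1 i i = 0 := by
  have h := SoGen_skew x i i
  linarith

private theorem SoGen_lr (A B : Matrix ι ι ℝ) (a b i j : ι) :
    (A * (Matrix.single a b (1 : ℝ) * B)) i j = A i a * B b j := by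
  rw [Matrix.mul_apply, Finset.sum_eq_single a]
  · rw [Matrix.single_mul_apply_same, one_mul]
  · intro k _ hk
    rw [Matrix.single_mul_apply_of_ne _ _ _ _ _ hk, mul_zero]
  · intro h
    exact absurd (Finset.mem_univ a) h

private theorem SoGen_entry (x y : so ι ℝ) (i j : ι) :
    (⁅x, ⁅y, SoGen_F i j⁆⁆ : so ι ℝ).1 i j =
      (x.1 * y.1) i i - (x.1 * y.1) i j * (if i = j then 1 else 0) -
        (x.1 i i * y.1 j j - x.1 i j * y.1 i j) - (y.1 i i * x.1 j j - y.1 i j * x.1 i j) +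
        ((y.1 * x.1) j j - (if i = j then 1 else 0) * (y.1 * x.1) i j) := by
  have e : (⁅x, ⁅y, SoGen_F i j⁆⁆ : so ι ℝ).1 =
      ((x.1 * y.1) * (Matrix.single i j (1 : ℝ) * 1) - (x.1 * y.1) * (Matrix.single j i (1 : ℝ) * 1))
      - (x.1 * (Matrix.single i j (1 : ℝ) * y.1) - x.1 * (Matrix.single j i (1 : ℝ) * y.1))
      - (y.1 * (Matrix.single i j (1 : ℝ) * x.1) - y.1 * (Matrix.single j i (1 : ℝ) * x.1))
      + (1 * (Matrix.single i j (1 : ℝ) * (y.1 * x.1)) -
        1 * (Matrix.single j i (1 : ℝ) * (y.1 * x.1))) := by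
    rw [SoGen_bracket, SoGen_bracket]
    show x.1 * (y.1 * (Matrix.single i j (1 : ℝ) - Matrix.single j i 1) -
      (Matrix.single i j (1 : ℝ) - Matrix.single j i 1) * y.1) -
      (y.1 * (Matrix.single i j (1 : ℝ) - Matrix.single j i 1) -
      (Matrix.single i j (1 : ℝ) - Matrix.single j i 1) * y.1) * x.1 = _
    noncomm_ring
  rw [e]
  simp only [Matrix.add_apply, Matrix.sub_apply, SoGen_lr]
  simp only [Matrix.one_apply, if_true]
  ring_nf

private theorem SoGen_tr (x y : so ι ℝ) :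
    (x.1 * y.1).trace = - ∑ i, ∑ j, x.1 i j * y.1 i j := by
  unfold Matrix.trace
  rw [← Finset.sum_neg_distrib]
  refine Finset.sum_congr rfl fun i _ => ?_
  rw [Matrix.diag_apply, Matrix.mul_apply, ← Finset.sum_neg_distrib]
  refine Finset.sum_congr rfl fun j _ => ?_
  rw [SoGen_skew y j i]
  ring

private theorem SoGen_killing (x y : so ι ℝ) :
    killingForm ℝ (so ι ℝ) x y = ((Fintype.card ι : ℝ) - 2) * (x.1 * y.1).trace := by
  rw [killingForm_apply_apply, SoGen_trace]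
  have h1 : ∀ i j, (((LieAlgebra.ad ℝ (so ι ℝ)) x ∘ₗ (LieAlgebra.ad ℝ (so ι ℝ)) y)
      (SoGen_F i j)).1 i j = (⁅x, ⁅y, SoGen_F i j⁆⁆ : so ι ℝ).1 i j := fun i j => rfl
  have h2 : ∑ i, ∑ j, x.1 i j * y.1 i j = - (x.1 * y.1).trace := by
    rw [SoGen_tr, neg_neg]
  have h3 : ∀ A : Matrix ι ι ℝ, ∑ i, ∑ _j : ι, A i i = Fintype.card ι * A.trace := by
    intro A
    simp only [Finset.sum_const, Finset.card_univ, nsmul_eq_mul]
    rw [← Finset.mul_sum]
    rfl
  have h4 : ∀ A : Matrix ι ι ℝ, ∑ _i : ι, ∑ j, A j j = Fintype.card ι * A.trace := by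
    intro A
    rw [Finset.sum_const, Finset.card_univ, nsmul_eq_mul]
    rfl
  have h5 : ∀ A : Matrix ι ι ℝ,
      ∑ i, ∑ j, A i j * (if i = j then (1 : ℝ) else 0) = A.trace := by
    intro A
    simp only [mul_ite, mul_one, mul_zero, Finset.sum_ite_eq, Finset.mem_univ, if_true]
    rfl
  have h6 : (y.1 * x.1).trace = (x.1 * y.1).trace := Matrix.trace_mul_comm _ _
  have h7 : ∀ i j, (⁅x, ⁅y, SoGen_F i j⁆⁆ : so ι ℝ).1 i j =
      (x.1 * y.1) i i + (y.1 * x.1) j j - (x.1 * y.1) i j * (if i = j then 1 else 0) -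
        (y.1 * x.1) i j * (if i = j then 1 else 0) + 2 * (x.1 i j * y.1 i j) := by
    intro i j
    rw [SoGen_entry, SoGen_diag, SoGen_diag, SoGen_diag y]
    ring
  simp only [h1, h7, Finset.sum_add_distrib, Finset.sum_sub_distrib, ← Finset.mul_sum]
  rw [h2, h3, h4, h5, h5, h6]
  ring

theorem so_killing_gen {ι : Type} [Fintype ι] [DecidableEq ι] (x y : so ι ℝ) :
    killingForm ℝ (so ι ℝ) x y =
      ((Fintype.card ι : ℝ) - 2) * Matrix.trace ((x : Matrix ι ι ℝ) * (y : Matrix ι ι ℝ)) := by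
  exact SoGen_killing x y

end Pool.Agent.EStab
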