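import Pool.Agent.EStab.Ift

/-!
# Solutions of the Einstein equations for small `ε`
-/

namespace Pool.Agent.EStab

open Matrix Filter Topology
open scoped Matrix.Norms.Operator

attribute [-instance] instTopologicalSpaceMatrix Matrix.instUniformSpace

variable {d : ℕ}

private theorem Sol_entry (i j : Fin d) : Continuous (fun A : Mt d => A i j) := by
  let l : Mt d →ₗ[ℝ] ℝ :=
    { toFun := fun A => A i j
      map_add' := fun A B => rfl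
      map_smul' := fun t A => rfl }
  exact l.continuous_of_finiteDimensional

private theorem Sol_near : ∀ᶠ A in 𝓝 (1 : Mt d), ∀ i j, |(A - 1) i j| < 1 / ((d : ℝ) + 1) := by
  have h1 : ∀ i j : Fin d, ∀ᶠ A in 𝓝 (1 : Mt d), |(A - 1) i j| < 1 / ((d : ℝ) + 1) := by
    intro i j
    have h2 : Continuous (fun A : Mt d => |(A - 1) i j|) := by
      have h3 : (fun A : Mt d => |(A - 1) i j|) = fun A : Mt d => |A i j - (1 : Mt d) i j| := by
        funext A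
        rw [Matrix.sub_apply]
      rw [h3]
      exact ((Sol_entry i j).sub continuous_const).abs
    have h4 := h2.tendsto (1 : Mt d)
    have h5 : |((1 : Mt d) - 1) i j| < 1 / ((d : ℝ) + 1) := by
      rw [sub_self, Matrix.zero_apply, abs_zero]
      positivity
    exact h4.eventually (gt_mem_nhds h5)
  rw [eventually_all]
  intro i
  rw [eventually_all]
  intro j
  exact h1 i j

private theorem Sol_FF_mem {S : SC d} {Γ : Set (Mt d)} (hΓ : ∀ k ∈ Γ, S.Pres k) {ε : ℝ}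
    {P A Y : Mt d} (hP : P ∈ VG Γ) (hA : A ∈ VG Γ) (hY : Y ∈ VG Γ) :
    (FF S (ε, P) (A, Y)).1 ∈ VG Γ ∧ (FF S (ε, P) (A, Y)).2 ∈ VG Γ := by
  refine ⟨?_, ?_⟩
  · show RV S ε P A Y - (1 / 4 : ℝ) • A ∈ VG Γ
    exact Submodule.sub_mem _ (RV_mem_VG hΓ hP hA hY) (Submodule.smul_mem _ _ hA)
  · show P * R0 S ε P A Y * P - (1 / 4 : ℝ) • Y + (1 / 4 : ℝ) • (1 - P) ∈ VG Γ
    exact Submodule.add_mem _ (Submodule.sub_mem _ (sandwich_mem_VG hP (R0_mem_VG hΓ hP hA hY))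
      (Submodule.smul_mem _ _ hY)) (Submodule.smul_mem _ _ (Submodule.sub_mem _ (one_mem_VG Γ) hP))

/-- The basic existence statement near a given projection. -/
private theorem Sol_main (S : SC d) (Γ : Set (Mt d)) (hΓ : ∀ k ∈ Γ, S.Pres k) {P0 : Mt d}
    (hP0 : P0 ∈ VG Γ) (hPP : P0 * P0 = P0)
    (hrig : ∀ T ∈ VG Γ, S.Th 1 T = (1 / 2 : ℝ) • T → T = 0) :
    ∃ ψ : ℝ × Mt d → Mt d × Mt d, (∀ q, (ψ q).1 ∈ VG Γ ∧ (ψ q).2 ∈ VG Γ) ∧
      Tendsto ψ (𝓝 (0, P0)) (𝓝 (1, 1)) ∧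
      (∀ᶠ q in 𝓝 ((0 : ℝ), P0), q.2 ∈ VG Γ → q.2 * q.2 = q.2 →
        FF S q (ψ q) = 0 ∧ Good S q.1 q.2 (ψ q).1 (ψ q).2) ∧
      ∃ r : ℝ, 0 < r ∧ ∀ᶠ q in 𝓝 ((0 : ℝ), P0), ∀ A ∈ VG Γ, ∀ Y ∈ VG Γ, ‖A - 1‖ < r →
        ‖Y - 1‖ < r → FF S q (A, Y) = 0 → ψ q = (A, Y) := by
  obtain ⟨ψ, h1, h2, h3, h4⟩ := ift_main S (VG Γ) (one_mem_VG Γ) hPP
    (fun α hα => Th_mem_VG hΓ (one_mem_VG Γ) hα) (fun η hη => sandwich_mem_VG hP0 hη) hrig
  refine ⟨ψ, h1, h2, ?_, h4⟩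
  have h5 : ∀ᶠ q in 𝓝 ((0 : ℝ), P0), ∀ i j, |((ψ q).1 - 1) i j| < 1 / ((d : ℝ) + 1) :=
    (continuous_fst.tendsto ((1 : Mt d), (1 : Mt d))).comp h2 |>.eventually Sol_near
  have h6 : ∀ᶠ q in 𝓝 ((0 : ℝ), P0), ∀ i j, |((ψ q).2 - 1) i j| < 1 / ((d : ℝ) + 1) :=
    (continuous_snd.tendsto ((1 : Mt d), (1 : Mt d))).comp h2 |>.eventually Sol_near
  filter_upwards [h3, h5, h6] with q hq hq1 hq2 hqV hqq
  obtain ⟨ε, P⟩ := q
  have hm := Sol_FF_mem (ε := ε) hΓ hqV (h1 (ε, P)).1 (h1 (ε, P)).2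
  have h7 : FF S (ε, P) (ψ (ε, P)) = 0 := hq hm.1 hm.2
  refine ⟨h7, ?_⟩
  exact good_of_eq hqq (posDef_of_near (h1 (ε, P)).1.1 hq1) (posDef_of_near (h1 (ε, P)).2.1 hq2)
    (congrArg Prod.fst h7) (congrArg Prod.snd h7)

theorem sol_rel (S : SC d) (Γ : Set (Mt d)) (hΓ : ∀ k ∈ Γ, S.Pres k) {P : Mt d} (hP : Pᵀ = P)
    (hPP : P * P = P) (hc : ∀ k ∈ Γ, k * P = P * k)
    (hrig : ∀ T : Mt d, Tᵀ = T → (∀ k ∈ Γ, k * T = T * k) → S.Th 1 T = (1 / 2 : ℝ) • T → T = 0) :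
    ∃ ε₀ : ℝ, 0 < ε₀ ∧ ∀ ε : ℝ, 0 < ε → ε < ε₀ → ∃ A Y : Mt d, Good S ε P A Y ∧
      (∀ k ∈ Γ, k * A = A * k) ∧ ∀ k ∈ Γ, k * Y = Y * k := by
  obtain ⟨ψ, h1, -, h3, -⟩ := Sol_main S Γ hΓ (P0 := P) ⟨hP, hc⟩ hPP
    (fun T hT => hrig T hT.1 hT.2)
  have h4 : Tendsto (fun ε : ℝ => (ε, P)) (𝓝 0) (𝓝 ((0 : ℝ), P)) :=
    (Continuous.prodMk continuous_id continuous_const).tendsto 0
  have h5 := h4.eventually h3
  rw [Metric.eventually_nhds_iff] at h5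
  obtain ⟨ε₀, h6, h7⟩ := h5
  refine ⟨ε₀, h6, fun ε hε hε' => ?_⟩
  have h8 := h7 (y := ε) (by rw [Real.dist_eq, sub_zero, abs_of_pos hε]; exact hε') ⟨hP, hc⟩ hPP
  exact ⟨(ψ (ε, P)).1, (ψ (ε, P)).2, h8.2, (h1 (ε, P)).1.2, (h1 (ε, P)).2.2⟩

/-- Matrices with entries in `[-1, 1]` are uniformly bounded. -/
private theorem Sol_bdd : ∃ C : ℝ, 0 < C ∧ ∀ k : Mt d, (∀ i j, |k i j| ≤ 1) → ‖k‖ ≤ C := by
  obtain ⟨C, hC⟩ : ∃ C : ℝ, C = ∑ i : Fin d, ∑ j : Fin d, ‖(Matrix.single i j (1 : ℝ) : Mt d)‖ :=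
    ⟨_, rfl⟩
  have hC0 : 0 ≤ C := by
    rw [hC]
    exact Finset.sum_nonneg fun i _ => Finset.sum_nonneg fun j _ => norm_nonneg _
  refine ⟨C + 1, by linarith, fun k hent => ?_⟩
  have h3 : k = ∑ i, ∑ j, k i j • (Matrix.single i j (1 : ℝ) : Mt d) := by
    conv_lhs => rw [Matrix.matrix_eq_sum_single k]
    refine Finset.sum_congr rfl fun i _ => Finset.sum_congr rfl fun j _ => ?_
    rw [Matrix.smul_single, smul_eq_mul, mul_one]
  calc ‖k‖ = ‖∑ i, ∑ j, k i j • (Matrix.single i j (1 : ℝ) : Mt d)‖ := by rw [← h3]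
    _ ≤ ∑ i, ‖∑ j, k i j • (Matrix.single i j (1 : ℝ) : Mt d)‖ := norm_sum_le _ _
    _ ≤ ∑ i, ∑ j, ‖k i j • (Matrix.single i j (1 : ℝ) : Mt d)‖ :=
        Finset.sum_le_sum fun i _ => norm_sum_le _ _
    _ ≤ C := by
        rw [hC]
        refine Finset.sum_le_sum fun i _ => Finset.sum_le_sum fun j _ => ?_
        rw [norm_smul, Real.norm_eq_abs]
        exact mul_le_of_le_one_left (norm_nonneg _) (hent i j)
    _ ≤ C + 1 := by linarith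

private theorem Sol_orth {k : Mt d} (hk : k * kᵀ = 1) (i j : Fin d) : |k i j| ≤ 1 := by
  have h1 : ∑ l, k i l * k i l = 1 := by
    have := congrFun (congrFun hk i) i
    simpa [Matrix.mul_apply] using this
  have h2 : k i j * k i j ≤ 1 := by
    rw [← h1]
    exact Finset.single_le_sum (f := fun l => k i l * k i l)
      (fun l _ => mul_self_nonneg _) (Finset.mem_univ j)
  exact abs_le_one_iff_mul_self_le_one.2 h2

private theorem Sol_idem {P : Mt d} (hP : Pᵀ = P) (hPP : P * P = P) (i j : Fin d) :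
    |P i j| ≤ 1 := by
  have h1 : ∑ l, P i l * P i l = P i i := by
    have h := congrFun (congrFun hPP i) i
    rw [Matrix.mul_apply] at h
    rw [← h]
    refine Finset.sum_congr rfl fun l _ => ?_
    have h' : P i l = P l i := congrFun (congrFun hP l) i
    rw [h']
  have h2 : ∀ l, P i l * P i l ≤ P i i := by
    intro l
    rw [← h1]
    exact Finset.single_le_sum (f := fun l => P i l * P i l)
      (fun l _ => mul_self_nonneg _) (Finset.mem_univ l)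
  have h3 := h2 i
  have h4 : P i i ≤ 1 := by nlinarith [mul_self_nonneg (P i i)]
  exact abs_le_one_iff_mul_self_le_one.2 ((h2 j).trans h4)

private theorem Sol_compact : IsCompact {P : Mt d | Pᵀ = P ∧ P * P = P} := by
  haveI : ProperSpace (Mt d) := FiniteDimensional.proper ℝ (Mt d)
  obtain ⟨C, hC, hb⟩ := Sol_bdd (d := d)
  refine Metric.isCompact_of_isClosed_isBounded ?_ ?_
  · let l : Mt d →ₗ[ℝ] Mt d :=
      { toFun := fun A => Aᵀ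
        map_add' := fun A B => Matrix.transpose_add A B
        map_smul' := fun t A => Matrix.transpose_smul t A }
    have h1 : Continuous (fun A : Mt d => Aᵀ) := l.continuous_of_finiteDimensional
    have h2 : Continuous (fun A : Mt d => A * A) := continuous_id.mul continuous_id
    exact (isClosed_eq h1 continuous_id).inter (isClosed_eq h2 continuous_id)
  · rw [isBounded_iff_forall_norm_le]
    exact ⟨C, fun P hP => hb P (Sol_idem hP.1 hP.2)⟩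

private theorem Sol_FF_conj {S : SC d} {k : Mt d} (hk : S.Pres k) {ε : ℝ} {P A Y : Mt d}
    (hP : k * P * kᵀ = P) (h : FF S (ε, P) (A, Y) = 0) :
    FF S (ε, P) (k * A * kᵀ, k * Y * kᵀ) = 0 := by
  have hk' : kᵀ * k = 1 := mul_eq_one_comm.1 hk.1
  have h1 : RV S ε P A Y - (1 / 4 : ℝ) • A = 0 := congrArg Prod.fst h
  have h2 : P * R0 S ε P A Y * P - (1 / 4 : ℝ) • Y + (1 / 4 : ℝ) • (1 - P) = 0 :=
    congrArg Prod.snd h
  have hm : ∀ M : Mt d, P * (k * M * kᵀ) * P = k * (P * M * P) * kᵀ := by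
    intro M
    calc P * (k * M * kᵀ) * P = (k * P * kᵀ) * (k * M * kᵀ) * (k * P * kᵀ) := by rw [hP]
      _ = k * P * (kᵀ * k) * M * (kᵀ * k) * P * kᵀ := by simp only [Matrix.mul_assoc]
      _ = k * (P * M * P) * kᵀ := by
          rw [hk', Matrix.mul_one, Matrix.mul_one]
          simp only [Matrix.mul_assoc]
  refine Prod.ext ?_ ?_
  · show RV S ε P (k * A * kᵀ) (k * Y * kᵀ) - (1 / 4 : ℝ) • (k * A * kᵀ) = 0
    rw [RV_conj hk hP]
    have h3 : k * RV S ε P A Y * kᵀ - (1 / 4 : ℝ) • (k * A * kᵀ)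
        = k * (RV S ε P A Y - (1 / 4 : ℝ) • A) * kᵀ := by
      rw [Matrix.mul_sub, Matrix.sub_mul, Matrix.mul_smul, Matrix.smul_mul]
    rw [h3, h1, Matrix.mul_zero, Matrix.zero_mul]
  · show P * R0 S ε P (k * A * kᵀ) (k * Y * kᵀ) * P - (1 / 4 : ℝ) • (k * Y * kᵀ)
      + (1 / 4 : ℝ) • (1 - P) = 0
    rw [R0_conj hk hP, hm]
    have h4 : (1 : Mt d) - P = k * (1 - P) * kᵀ := by
      rw [Matrix.mul_sub, Matrix.sub_mul, Matrix.mul_one, hk.1, hP]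
    have h3 : k * (P * R0 S ε P A Y * P) * kᵀ - (1 / 4 : ℝ) • (k * Y * kᵀ)
        + (1 / 4 : ℝ) • (1 - P)
        = k * (P * R0 S ε P A Y * P - (1 / 4 : ℝ) • Y + (1 / 4 : ℝ) • (1 - P)) * kᵀ := by
      conv_lhs => rw [h4]
      simp only [Matrix.mul_add, Matrix.add_mul, Matrix.mul_sub, Matrix.sub_mul, Matrix.mul_smul,
        Matrix.smul_mul]
    rw [h3, h2, Matrix.mul_zero, Matrix.zero_mul]

private theorem Sol_local (S : SC d)
    (hrig : ∀ T : Mt d, Tᵀ = T → S.Th 1 T = (1 / 2 : ℝ) • T → T = 0) {P0 : Mt d}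
    (hP0 : P0ᵀ = P0) (hPP : P0 * P0 = P0) :
    ∀ᶠ q in 𝓝 ((0 : ℝ), P0), (q.2)ᵀ = q.2 → q.2 * q.2 = q.2 →
      ∃ A Y : Mt d, Good S q.1 q.2 A Y ∧
        ∀ k : Mt d, S.Pres k → k * q.2 = q.2 * k → k * A = A * k ∧ k * Y = Y * k := by
  obtain ⟨ψ, h1, h2, h3, r, hr, h4⟩ := Sol_main S ∅ (fun k hk => absurd hk (by simp)) (P0 := P0)
    ⟨hP0, fun k hk => absurd hk (by simp)⟩ hPP (fun T hT => hrig T hT.1)
  obtain ⟨C, hC, hb⟩ := Sol_bdd (d := d)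
  have hrC : 0 < r / (C * C) := by positivity
  have h5 : ∀ᶠ q in 𝓝 ((0 : ℝ), P0), ‖(ψ q).1 - 1‖ < r / (C * C) := by
    have h6 := (continuous_fst.tendsto ((1 : Mt d), (1 : Mt d))).comp h2
    have h7 := h6.eventually (Metric.ball_mem_nhds _ hrC)
    filter_upwards [h7] with q hq
    rw [← dist_eq_norm]
    exact hq
  have h5' : ∀ᶠ q in 𝓝 ((0 : ℝ), P0), ‖(ψ q).2 - 1‖ < r / (C * C) := by
    have h6 := (continuous_snd.tendsto ((1 : Mt d), (1 : Mt d))).comp h2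
    have h7 := h6.eventually (Metric.ball_mem_nhds _ hrC)
    filter_upwards [h7] with q hq
    rw [← dist_eq_norm]
    exact hq
  filter_upwards [h3, h4, h5, h5'] with q hq3 hq4 hq5 hq6 hqt hqq
  obtain ⟨ε, P⟩ := q
  obtain ⟨g1, g2⟩ := hq3 ⟨hqt, fun k hk => absurd hk (by simp)⟩ hqq
  refine ⟨(ψ (ε, P)).1, (ψ (ε, P)).2, g2, fun k hk hkP => ?_⟩
  have hkP' : k * P * kᵀ = P := by
    have : k * P = P * k := hkP
    rw [this, Matrix.mul_assoc, hk.1, Matrix.mul_one]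
  have hk' : kᵀ * k = 1 := mul_eq_one_comm.1 hk.1
  have b1 : ‖k‖ ≤ C := hb k (Sol_orth hk.1)
  have b2 : ‖kᵀ‖ ≤ C := hb kᵀ (Sol_orth (by rw [Matrix.transpose_transpose]; exact hk'))
  have b3 : ∀ M : Mt d, ‖M - 1‖ < r / (C * C) → ‖k * M * kᵀ - 1‖ < r := by
    intro M hM
    have e1 : k * M * kᵀ - 1 = k * (M - 1) * kᵀ := by
      rw [Matrix.mul_sub, Matrix.sub_mul, Matrix.mul_one, hk.1]
    rw [e1]
    calc ‖k * (M - 1) * kᵀ‖ ≤ ‖k * (M - 1)‖ * ‖kᵀ‖ := norm_mul_le _ _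
      _ ≤ (‖k‖ * ‖M - 1‖) * ‖kᵀ‖ := by gcongr; exact norm_mul_le _ _
      _ ≤ (C * ‖M - 1‖) * C := by gcongr
      _ = ‖M - 1‖ * (C * C) := by ring
      _ < r := by
          rw [lt_div_iff₀ (by positivity)] at hM
          exact hM
  have hsym : ∀ M : Mt d, Mᵀ = M → k * M * kᵀ ∈ VG (∅ : Set (Mt d)) := by
    intro M hM
    refine ⟨?_, fun k hk => absurd hk (by simp)⟩
    rw [Matrix.transpose_mul, Matrix.transpose_mul, Matrix.transpose_transpose, hM,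
      Matrix.mul_assoc]
  have h8 := hq4 (k * (ψ (ε, P)).1 * kᵀ) (hsym _ (h1 (ε, P)).1.1) (k * (ψ (ε, P)).2 * kᵀ)
    (hsym _ (h1 (ε, P)).2.1) (b3 _ hq5) (b3 _ hq6) (Sol_FF_conj hk hkP' g1)
  have h9 : (ψ (ε, P)).1 = k * (ψ (ε, P)).1 * kᵀ := congrArg Prod.fst h8
  have h10 : (ψ (ε, P)).2 = k * (ψ (ε, P)).2 * kᵀ := congrArg Prod.snd h8
  have h11 : ∀ M : Mt d, M = k * M * kᵀ → k * M = M * k := by
    intro M hM
    calc k * M = k * M * (kᵀ * k) := by rw [hk', Matrix.mul_one]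
      _ = (k * M * kᵀ) * k := by simp only [Matrix.mul_assoc]
      _ = M * k := by rw [← hM]
  exact ⟨h11 _ h9, h11 _ h10⟩

theorem sol_unif (S : SC d)
    (hrig : ∀ T : Mt d, Tᵀ = T → S.Th 1 T = (1 / 2 : ℝ) • T → T = 0) :
    ∃ ε₀ : ℝ, 0 < ε₀ ∧ ∀ ε : ℝ, 0 < ε → ε < ε₀ → ∀ P : Mt d, Pᵀ = P → P * P = P →
      ∃ A Y : Mt d, Good S ε P A Y ∧
        ∀ k : Mt d, S.Pres k → k * P = P * k → k * A = A * k ∧ k * Y = Y * k := by
  have h1 := (Sol_compact (d := d)).eventually_forall_of_forall_eventually (x₀ := (0 : ℝ))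
    (P := fun ε P => Pᵀ = P → P * P = P → ∃ A Y : Mt d, Good S ε P A Y ∧
        ∀ k : Mt d, S.Pres k → k * P = P * k → k * A = A * k ∧ k * Y = Y * k)
    (fun P hP => Sol_local S hrig hP.1 hP.2)
  rw [Metric.eventually_nhds_iff] at h1
  obtain ⟨ε₀, h2, h3⟩ := h1
  refine ⟨ε₀, h2, fun ε hε hε' P hP hPP => ?_⟩
  exact h3 (y := ε) (by rw [Real.dist_eq, sub_zero, abs_of_pos hε]; exact hε') P ⟨hP, hPP⟩ hP hPP

end Pool.Agent.EStab
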