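import Pool.Agent.EStab.StInv

/-!
# Smoothness and linearisation of the Einstein equations of `SO(n+k)/(SO(n) × H)` at `ε = 0`
-/

namespace Pool.Agent.EStab

open Matrix Filter Topology
open scoped Matrix.Norms.Operator

attribute [-instance] instTopologicalSpaceMatrix Matrix.instUniformSpace

section Bilin

variable {E₁ E₂ E₃ : Type*} [NormedAddCommGroup E₁] [NormedSpace ℝ E₁] [FiniteDimensional ℝ E₁]
  [NormedAddCommGroup E₂] [NormedSpace ℝ E₂] [FiniteDimensional ℝ E₂]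
  [NormedAddCommGroup E₃] [NormedSpace ℝ E₃]

/-- Bilinear maps are continuous bilinear maps. -/
theorem exists_bilin (B : E₁ → E₂ → E₃) (h1 : ∀ x x' y, B (x + x') y = B x y + B x' y)
    (h2 : ∀ (t : ℝ) x y, B (t • x) y = t • B x y) (h3 : ∀ x y y', B x (y + y') = B x y + B x y')
    (h4 : ∀ (t : ℝ) x y, B x (t • y) = t • B x y) :
    ∃ L : E₁ →L[ℝ] E₂ →L[ℝ] E₃, ∀ x y, L x y = B x y := by
  refine ⟨LinearMap.toContinuousLinearMap
    { toFun := fun x => LinearMap.toContinuousLinearMap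
        { toFun := fun y => B x y
          map_add' := h3 x
          map_smul' := fun t y => h4 t x y }
      map_add' := fun x x' => by
        ext y
        exact h1 x x' y
      map_smul' := fun t x => by
        ext y
        exact h2 t x y }, fun x y => rfl⟩

end Bilin

variable {k : ℕ}

theorem NN_bilin : ∃ L : Mi k →L[ℝ] Mt k →L[ℝ] Mt k, ∀ x y, L x y = NN x y :=
  exists_bilin NN NN_add_left NN_smul_left NN_add_right NN_smul_right

theorem Kr_bilin : ∃ L : Mt k →L[ℝ] Mt k →L[ℝ] Mi k, ∀ x y, L x y = Kr x y :=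
  exists_bilin Kr Kr_add_left Kr_smul_left Kr_add_right Kr_smul_right

theorem TT_bilin : ∃ L : Mi k →L[ℝ] Mi k →L[ℝ] Mi k, ∀ x y, L x y = TT x y :=
  exists_bilin TT TT_add_left TT_smul_left TT_add_right TT_smul_right

section Smooth

variable {E : Type*} [NormedAddCommGroup E] [NormedSpace ℝ E]

theorem contDiffAt_NN {f : E → Mi k} {g : E → Mt k} {x : E} (hf : ContDiffAt ℝ 1 f x)
    (hg : ContDiffAt ℝ 1 g x) : ContDiffAt ℝ 1 (fun w => NN (f w) (g w)) x := by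
  obtain ⟨L, hL⟩ := NN_bilin (k := k)
  have h1 : ContDiffAt ℝ 1 (fun w => L (f w)) x := L.contDiff.contDiffAt.comp x hf
  have h2 := h1.clm_apply hg
  simpa only [hL] using h2

theorem contDiffAt_Kr {f : E → Mt k} {g : E → Mt k} {x : E} (hf : ContDiffAt ℝ 1 f x)
    (hg : ContDiffAt ℝ 1 g x) : ContDiffAt ℝ 1 (fun w => Kr (f w) (g w)) x := by
  obtain ⟨L, hL⟩ := Kr_bilin (k := k)
  have h1 : ContDiffAt ℝ 1 (fun w => L (f w)) x := L.contDiff.contDiffAt.comp x hf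
  have h2 := h1.clm_apply hg
  simpa only [hL] using h2

theorem contDiffAt_TT {f : E → Mi k} {g : E → Mi k} {x : E} (hf : ContDiffAt ℝ 1 f x)
    (hg : ContDiffAt ℝ 1 g x) : ContDiffAt ℝ 1 (fun w => TT (f w) (g w)) x := by
  obtain ⟨L, hL⟩ := TT_bilin (k := k)
  have h1 : ContDiffAt ℝ 1 (fun w => L (f w)) x := L.contDiff.contDiffAt.comp x hf
  have h2 := h1.clm_apply hg
  simpa only [hL] using h2

theorem contDiffAt_invI {ι : Type*} [Fintype ι] [DecidableEq ι] {A : E → Matrix ι ι ℝ} {x : E}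
    (hA : ContDiffAt ℝ 1 A x) (hA1 : A x = 1) : ContDiffAt ℝ 1 (fun w => (A w)⁻¹) x := by
  haveI : CompleteSpace (Matrix ι ι ℝ) := FiniteDimensional.complete ℝ (Matrix ι ι ℝ)
  have h1 : (fun A : Matrix ι ι ℝ => A⁻¹) = Ring.inverse := by
    funext A
    exact Matrix.nonsing_inv_eq_ringInverse A
  have h2 : ContDiffAt ℝ 1 (fun A : Matrix ι ι ℝ => A⁻¹) (A x) := by
    rw [hA1, h1]
    exact contDiffAt_ringInverse ℝ (1 : (Matrix ι ι ℝ)ˣ)
  exact h2.comp x hA

theorem contDiffAt_RA {ε : E → ℝ} {P Y : E → Mi k} {A : E → Mt k} {x : E}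
    (hε : ContDiffAt ℝ 1 ε x) (hP : ContDiffAt ℝ 1 P x) (hA : ContDiffAt ℝ 1 A x)
    (hY : ContDiffAt ℝ 1 Y x) (hA1 : A x = 1) (hY1 : Y x = 1) :
    ContDiffAt ℝ 1 (fun w => RA (ε w) (P w) (A w) (Y w)) x := by
  have hW := contDiffAt_invI hA hA1
  have hZ := contDiffAt_invI hY hY1
  have h2 := (hP.mul hY).mul hP
  have h3 := (hP.mul hZ).mul hP
  have e0 : ContDiffAt ℝ 1 (fun w => (1 + ((k : ℝ) - 2) * ε w) • (1 : Mt k)) x :=
    (contDiffAt_const.add (contDiffAt_const.mul hε)).smul contDiffAt_const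
  have e1 := (contDiffAt_NN h2 hW).const_smul (-(2 : ℝ))
  have e2 := (contDiffAt_NN h3 hA).const_smul (1 / 2 : ℝ)
  have e3 := ((hA.mul (contDiffAt_NN h3 hW)).mul hA).const_smul (1 / 2 : ℝ)
  exact e0.add (hε.smul ((e1.sub e2).add e3))

theorem contDiffAt_RY {ε : E → ℝ} {P Y : E → Mi k} {A : E → Mt k} {x : E}
    (hε : ContDiffAt ℝ 1 ε x) (hP : ContDiffAt ℝ 1 P x) (hA : ContDiffAt ℝ 1 A x)
    (hY : ContDiffAt ℝ 1 Y x) (hA1 : A x = 1) (hY1 : Y x = 1) :
    ContDiffAt ℝ 1 (fun w => RY (ε w) (P w) (A w) (Y w)) x := by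
  have hW := contDiffAt_invI hA hA1
  have hZ := contDiffAt_invI hY hY1
  have h2 := (hP.mul hY).mul hP
  have h3 := (hP.mul hZ).mul hP
  have e0 : ContDiffAt ℝ 1 (fun w => ((1 / 2 : ℝ) * (1 + ((k : ℝ) - 2) * ε w)) • (1 : Mi k)) x :=
    (contDiffAt_const.mul (contDiffAt_const.add (contDiffAt_const.mul hε))).smul contDiffAt_const
  have e1 := (contDiffAt_Kr hW hA).const_smul (-(1 / 2 : ℝ))
  have e2 := (h2.mul (contDiffAt_Kr hW hW)).mul h2
  have e3 := (contDiffAt_TT h3 h2).const_smul (-(1 / 2 : ℝ))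
  have e4 := ((h2.mul (contDiffAt_TT h3 h3)).mul h2).const_smul (1 / 4 : ℝ)
  exact ((e1.add e0).add e2).add (hε.smul (e3.add e4))

end Smooth

/-! ### The equation as a map -/

/-- The two Einstein equations. -/
noncomputable def FB (q : ℝ × Mi k) (z : Mt k × Mi k) : Mt k × Mi k :=
  (RA q.1 q.2 z.1 z.2 - z.1, q.2 * RY q.1 q.2 z.1 z.2 * q.2 - z.2 + (1 - q.2))

theorem contDiffAt_FB {E : Type*} [NormedAddCommGroup E] [NormedSpace ℝ E]
    {q : E → ℝ × Mi k} {z : E → Mt k × Mi k} {x : E} (hq : ContDiffAt ℝ 1 q x)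
    (hz : ContDiffAt ℝ 1 z x) (hz1 : z x = (1, 1)) :
    ContDiffAt ℝ 1 (fun w => FB (q w) (z w)) x := by
  have h1 := hq.fst
  have h2 := hq.snd
  have h3 := hz.fst
  have h4 := hz.snd
  have h5 : (z x).1 = 1 := by rw [hz1]
  have h6 : (z x).2 = 1 := by rw [hz1]
  refine ContDiffAt.prodMk ?_ ?_
  · exact (contDiffAt_RA h1 h2 h3 h4 h5 h6).sub h3
  · exact (((h2.mul (contDiffAt_RY h1 h2 h3 h4 h5 h6)).mul h2).sub h4).add
      (contDiffAt_const.sub h2)

/-! ### The linearisation -/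

theorem hasDerivAt_Kr {f g : ℝ → Mt k} {f' g' : Mt k} (hf : HasDerivAt f f' 0)
    (hg : HasDerivAt g g' 0) :
    HasDerivAt (fun t => Kr (f t) (g t)) (Kr f' (g 0) + Kr (f 0) g') 0 := by
  obtain ⟨L, hL⟩ := Kr_bilin (k := k)
  have h1 : HasDerivAt (fun t => L (f t)) (L f') 0 := L.hasFDerivAt.comp_hasDerivAt 0 hf
  have h2 := h1.clm_apply hg
  simpa only [hL] using h2

theorem hasDerivAt_invK (α : Mt k) : HasDerivAt (fun t : ℝ => (1 + t • α)⁻¹) (-α) 0 := by
  have h1 : (fun t : ℝ => (1 + t • α)⁻¹) = fun t : ℝ => Ring.inverse (1 + t • α) := by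
    funext t
    exact Matrix.nonsing_inv_eq_ringInverse _
  rw [h1]
  have h2 : HasDerivAt (fun t : ℝ => 1 + t • α) α 0 := by
    have h3 := ((hasDerivAt_id (0 : ℝ)).smul_const α).const_add (1 : Mt k)
    simpa using h3
  have h4 := hasFDerivAt_ringInverse (𝕜 := ℝ) (1 : (Mt k)ˣ)
  have h5 : ((1 : (Mt k)ˣ) : Mt k) = 1 + (0 : ℝ) • α := by simp
  rw [h5] at h4
  have h6 := h4.comp_hasDerivAt (0 : ℝ) h2
  refine h6.congr_deriv ?_
  simp

/-- The part of the linearisation which depends on the first variable. -/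
noncomputable def CC (P : Mi k) (α : Mt k) : Mi k :=
  P * (-(1 / 2 : ℝ) • (Kr (-α) 1 + Kr 1 α) + (P * (Kr (-α) 1 + Kr 1 (-α)) * P)) * P

theorem CC_zero (P : Mi k) : CC P (0 : Mt k) = 0 := by
  have h1 : ∀ W : Mt k, Kr W (0 : Mt k) = 0 := fun W => by
    have := Kr_smul_right 0 W (0 : Mt k)
    simpa using this
  have h2 : ∀ W : Mt k, Kr (0 : Mt k) W = 0 := fun W => by
    have := Kr_smul_left 0 (0 : Mt k) W
    simpa using this
  unfold CC
  rw [neg_zero, h1, h2]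
  simp

theorem hasDerivAt_FB {P : Mi k} (hPP : P * P = P) (α : Mt k) (η : Mi k) :
    HasDerivAt (fun t : ℝ => FB (0, P) (1 + t • α, 1 + t • η))
      (-α, CC P α + (2 : ℝ) • (P * η * P) - η) 0 := by
  have hA : HasDerivAt (fun t : ℝ => (1 : Mt k) + t • α) α 0 := by
    have h3 := ((hasDerivAt_id (0 : ℝ)).smul_const α).const_add (1 : Mt k)
    simpa using h3
  have hY : HasDerivAt (fun t : ℝ => (1 : Mi k) + t • η) η 0 := by
    have h3 := ((hasDerivAt_id (0 : ℝ)).smul_const η).const_add (1 : Mi k)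
    simpa using h3
  have hW := hasDerivAt_invK α
  have z0 : (1 : Mt k) + (0 : ℝ) • α = 1 := by simp
  have z1 : (1 : Mi k) + (0 : ℝ) • η = 1 := by simp
  have t1 := hasDerivAt_Kr hW hA
  have t2 := hasDerivAt_Kr hW hW
  have hPY : HasDerivAt (fun t : ℝ => P * (1 + t • η) * P) (P * η * P) 0 :=
    (hY.const_mul P).mul_const P
  have t4 := (hPY.mul t2).mul hPY
  have hc : HasDerivAt (fun _ : ℝ => (1 / 2 : ℝ) • (1 : Mi k)) 0 0 := hasDerivAt_const _ _
  have hc2 : HasDerivAt (fun _ : ℝ => (1 - P)) 0 0 := hasDerivAt_const _ _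
  refine HasDerivAt.prodMk ?_ ?_
  · have hc1 : HasDerivAt (fun _ : ℝ => (1 : Mt k)) 0 0 := hasDerivAt_const _ _
    have h1 := hc1.sub hA
    have e1 : (fun t : ℝ => RA 0 P (1 + t • α) (1 + t • η) - (1 + t • α))
        = fun t : ℝ => 1 - (1 + t • α) := by
      funext t
      rw [RA_zero]
    show HasDerivAt (fun t : ℝ => RA 0 P (1 + t • α) (1 + t • η) - (1 + t • α)) _ 0
    rw [e1]
    refine h1.congr_deriv ?_
    rw [zero_sub]
  · have h1 := ((((((t1.const_smul (-(1 / 2 : ℝ))).add hc).add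
      t4).const_mul P).mul_const P).sub hY).add hc2
    have e1 : (fun t : ℝ => P * RY 0 P (1 + t • α) (1 + t • η) * P - (1 + t • η) + (1 - P))
        = fun t : ℝ => P * (-(1 / 2 : ℝ) • Kr (1 + t • α)⁻¹ (1 + t • α) + (1 / 2 : ℝ) • 1
          + ((P * (1 + t • η) * P) * Kr (1 + t • α)⁻¹ (1 + t • α)⁻¹
            * (P * (1 + t • η) * P))) * P - (1 + t • η) + (1 - P) := by
      funext t
      rw [RY_zero]
    show HasDerivAt (fun t : ℝ => P * RY 0 P (1 + t • α) (1 + t • η) * P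
      - (1 + t • η) + (1 - P)) _ 0
    rw [e1]
    refine h1.congr_deriv ?_
    have p1 : ∀ M : Mi k, P * (P * M) = P * M := fun M => by rw [← Matrix.mul_assoc, hPP]
    unfold CC
    simp only [Pi.mul_apply, z0, z1, inv_one, Kr_one_one, Matrix.mul_one, Matrix.one_mul,
      Matrix.mul_add, Matrix.add_mul, Matrix.mul_smul, Matrix.smul_mul, Matrix.mul_neg,
      Matrix.neg_mul, Matrix.mul_assoc, hPP, p1, Matrix.mul_zero, Matrix.zero_mul]
    module

theorem FB_base {P : Mi k} (hPP : P * P = P) : FB (0, P) (1, 1) = 0 := by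
  unfold FB
  simp only [RA_zero, RY_zero, inv_one, Kr_one_one, Matrix.mul_one, hPP]
  refine Prod.ext ?_ ?_
  · show (1 : Mt k) - 1 = 0
    rw [sub_self]
  · show P * (-(1 / 2 : ℝ) • (1 : Mi k) + (1 / 2 : ℝ) • 1 + P) * P - 1 + (1 - P) = 0
    simp only [Matrix.mul_add, Matrix.add_mul, Matrix.mul_smul, Matrix.smul_mul, Matrix.mul_one,
      hPP]
    module

end Pool.Agent.EStab
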