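import Pool.Agent.EStab.StDefs

/-!
# Coordinates for `SO(n+k)/(SO(n) × H)`
-/

namespace Pool.Agent.EStab

open Matrix

variable {n k : ℕ}

/-- Pairs `(X, U)`, `X` an `n × k` matrix (by rows), `U` a `k × k` matrix. -/
abbrev EE (n k : ℕ) := (Fin n → Fin k → ℝ) × (Fin k × Fin k → ℝ)

/-- The inner product `∑ X_i · A X'_i + U · Y' U'`. -/
def betB (A : Mt k) (Y' : Mi k) (x y : EE n k) : ℝ :=
  ∑ i, x.1 i ⬝ᵥ (A *ᵥ y.1 i) + x.2 ⬝ᵥ (Y' *ᵥ y.2)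

/-- The components of the bracket: `(X U' - X' U, -Xᵀ X' + X'ᵀ X + [U, U'])`. -/
def brB (x y : EE n k) : EE n k :=
  (fun i b => ∑ a, (x.1 i a * y.2 (a, b) - y.1 i a * x.2 (a, b)),
    fun p => (∑ i, (y.1 i p.1 * x.1 i p.2 - x.1 i p.1 * y.1 i p.2))
      + ∑ r, (x.2 (p.1, r) * y.2 (r, p.2) - y.2 (p.1, r) * x.2 (r, p.2)))

/-- The projection `(X, U) ↦ (X, P U)`. -/
def prB (P : Mi k) (x : EE n k) : EE n k := (x.1, P *ᵥ x.2)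

end Pool.Agent.EStab
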