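import Pool.Agent.EStab.Theta

/-!
# The homogeneous spaces `SO(n+k)/(SO(n) × H)`

Elements of `so(n+k)` are block matrices `[[Z, X], [-Xᵀ, U]]`; the isotropy algebra consists of the
`[[Z, 0], [0, U]]`, `U ∈ h`.  The complement is coded by the pairs `(X, U)`, `U ⟂ h`, where `U` is seen as a
function on `Fin k × Fin k`.
-/

namespace Pool.Agent.EStab

open Matrix LieAlgebra.Orthogonal

/-- The isotropy algebra of `SO(n+k)/(SO(n) × H)`. -/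
def isoSt (n : ℕ) {k : ℕ} (h : LieSubalgebra ℝ (so (Fin k) ℝ)) :
    Submodule ℝ (so (Fin n ⊕ Fin k) ℝ) where
  carrier := {x | (x : Matrix (Fin n ⊕ Fin k) (Fin n ⊕ Fin k) ℝ).toBlocks₁₂ = 0 ∧
    ∃ u ∈ h, (x : Matrix (Fin n ⊕ Fin k) (Fin n ⊕ Fin k) ℝ).toBlocks₂₂ =
      (u : Matrix (Fin k) (Fin k) ℝ)}
  add_mem' := by
    rintro x y ⟨hx, u, hu, hxu⟩ ⟨hy, v, hv, hyv⟩
    refine ⟨?_, u + v, h.add_mem hu hv, ?_⟩
    · ext i j
      have h1 := congrFun (congrFun hx i) j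
      have h2 := congrFun (congrFun hy i) j
      simp only [Matrix.toBlocks₁₂, Matrix.of_apply, Matrix.zero_apply] at h1 h2 ⊢
      simp [h1, h2]
    · ext i j
      have h1 := congrFun (congrFun hxu i) j
      have h2 := congrFun (congrFun hyv i) j
      simp only [Matrix.toBlocks₂₂, Matrix.of_apply] at h1 h2 ⊢
      simp [h1, h2]
  zero_mem' := by
    refine ⟨?_, 0, h.zero_mem, ?_⟩
    · ext i j
      simp [Matrix.toBlocks₁₂]
    · ext i j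
      simp [Matrix.toBlocks₂₂]
  smul_mem' := by
    rintro t x ⟨hx, u, hu, hxu⟩
    refine ⟨?_, t • u, h.smul_mem t hu, ?_⟩
    · ext i j
      have h1 := congrFun (congrFun hx i) j
      simp only [Matrix.toBlocks₁₂, Matrix.of_apply, Matrix.zero_apply] at h1 ⊢
      simp [h1]
    · ext i j
      have h1 := congrFun (congrFun hxu i) j
      simp only [Matrix.toBlocks₂₂, Matrix.of_apply] at h1 ⊢
      simp [h1]

/-- The automorphisms `x ↦ Q x Qᵀ` of `so(n+k)`, `Q` a block diagonal matrix with orthogonal blocks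
`Q₁`, `Q₂` such that conjugation by `Q₂` maps `h` to itself. -/
def autSt (n : ℕ) {k : ℕ} (h : LieSubalgebra ℝ (so (Fin k) ℝ)) :
    Set (so (Fin n ⊕ Fin k) ℝ →ₗ[ℝ] so (Fin n ⊕ Fin k) ℝ) :=
  {γ | ∃ (Q₁ : Matrix (Fin n) (Fin n) ℝ) (Q₂ : Matrix (Fin k) (Fin k) ℝ),
    Q₁ * Q₁ᵀ = 1 ∧ Q₂ * Q₂ᵀ = 1 ∧
    (∀ u ∈ h, ∃ u' ∈ h, Q₂ * (u : Matrix (Fin k) (Fin k) ℝ) * Q₂ᵀ =
      (u' : Matrix (Fin k) (Fin k) ℝ)) ∧
    ∀ x, (γ x : Matrix (Fin n ⊕ Fin k) (Fin n ⊕ Fin k) ℝ) =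
      Matrix.fromBlocks Q₁ 0 0 Q₂ * (x : Matrix (Fin n ⊕ Fin k) (Fin n ⊕ Fin k) ℝ) *
        (Matrix.fromBlocks Q₁ 0 0 Q₂)ᵀ}

variable {k : ℕ}

/-- Operators on `k × k` matrices. -/
abbrev Mi (k : ℕ) := Matrix (Fin k × Fin k) (Fin k × Fin k) ℝ

/-- `P` is the orthogonal projection onto a subspace of the skew symmetric matrices. -/
structure Pr (P : Mi k) : Prop where
  symm : Pᵀ = P
  idem : P * P = P
  skew : ∀ i j q, P (j, i) q = -P (i, j) q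

/-- Contraction of the second indices. -/
def NN (Y : Mi k) (W : Mt k) : Mt k := Matrix.of fun a c => ∑ b, ∑ d, Y (a, b) (c, d) * W b d

/-- The form `tr (W U A Uᵀ)` on `k × k` matrices `U`. -/
def Kr (W A : Mt k) : Mi k := Matrix.of fun p q => W p.1 q.1 * A p.2 q.2

/-- The commutator with the matrix unit `E_p`. -/
def adk (p : Fin k × Fin k) : Mi k := Matrix.of fun q r =>
  (if p.2 = r.1 ∧ q = (p.1, r.2) then 1 else 0) - (if r.2 = p.1 ∧ q = (r.1, p.2) then 1 else 0)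

/-- The form `∑ Z_{rr'} [U, E_r] · Y [U, E_r']`. -/
def TT (Z Y : Mi k) : Mi k :=
  Matrix.of fun p s => Matrix.trace (adk p * Z * (adk s)ᵀ * Yᵀ)

/-- The Einstein equation for the part `ℝ^n ⊗ ℝ^k`, divided by `n`, `ε = 1/n`. -/
noncomputable def RA (ε : ℝ) (P : Mi k) (A : Mt k) (Y : Mi k) : Mt k :=
  (1 + ((k : ℝ) - 2) * ε) • 1 + ε • (-(2 : ℝ) • NN (P * Y * P) A⁻¹
    - (1 / 2 : ℝ) • NN (P * Y⁻¹ * P) A + (1 / 2 : ℝ) • (A * NN (P * Y⁻¹ * P) A⁻¹ * A))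

/-- The Einstein equation for the complement of `h` in `so(k)`, divided by `n`, `ε = 1/n`. -/
noncomputable def RY (ε : ℝ) (P : Mi k) (A : Mt k) (Y : Mi k) : Mi k :=
  -(1 / 2 : ℝ) • Kr A⁻¹ A + ((1 / 2 : ℝ) * (1 + ((k : ℝ) - 2) * ε)) • 1
    + (P * Y * P) * Kr A⁻¹ A⁻¹ * (P * Y * P)
    + ε • (-(1 / 2 : ℝ) • TT (P * Y⁻¹ * P) (P * Y * P)
      + (1 / 4 : ℝ) • ((P * Y * P) * TT (P * Y⁻¹ * P) (P * Y⁻¹ * P) * (P * Y * P)))

/-- `A` and `Y` give an Einstein metric with Einstein constant `n = 1/ε`. -/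
structure GoodB (ε : ℝ) (P : Mi k) (A : Mt k) (Y : Mi k) : Prop where
  A_pos : A.PosDef
  Y_pos : Y.PosDef
  comm : P * Y = Y * P
  eqA : RA ε P A Y = A
  eqY : P * RY ε P A Y * P = P * Y * P

end Pool.Agent.EStab
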