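import Pool.Agent.EStab.StDefs

/-!
# Bilinearity and equivariance of `NN`, `Kr`, `TT`
-/

namespace Pool.Agent.EStab

open Matrix

variable {k : ℕ}

/-! ### Bilinearity -/

theorem NN_add_left (Y Y' : Mi k) (W : Mt k) : NN (Y + Y') W = NN Y W + NN Y' W := by
  ext a c
  simp only [NN, Matrix.of_apply, Matrix.add_apply, add_mul, Finset.sum_add_distrib]

theorem NN_add_right (Y : Mi k) (W W' : Mt k) : NN Y (W + W') = NN Y W + NN Y W' := by
  ext a c
  simp only [NN, Matrix.of_apply, Matrix.add_apply, mul_add, Finset.sum_add_distrib]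

theorem NN_smul_left (t : ℝ) (Y : Mi k) (W : Mt k) : NN (t • Y) W = t • NN Y W := by
  ext a c
  simp only [NN, Matrix.of_apply, Matrix.smul_apply, smul_eq_mul, mul_assoc, Finset.mul_sum]

theorem NN_smul_right (t : ℝ) (Y : Mi k) (W : Mt k) : NN Y (t • W) = t • NN Y W := by
  ext a c
  simp only [NN, Matrix.of_apply, Matrix.smul_apply, smul_eq_mul, Finset.mul_sum]
  refine Finset.sum_congr rfl fun b _ => Finset.sum_congr rfl fun d _ => ?_
  ring

theorem Kr_add_left (W W' A : Mt k) : Kr (W + W') A = Kr W A + Kr W' A := by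
  ext p q
  simp only [Kr, Matrix.of_apply, Matrix.add_apply, add_mul]

theorem Kr_add_right (W A A' : Mt k) : Kr W (A + A') = Kr W A + Kr W A' := by
  ext p q
  simp only [Kr, Matrix.of_apply, Matrix.add_apply, mul_add]

theorem Kr_smul_left (t : ℝ) (W A : Mt k) : Kr (t • W) A = t • Kr W A := by
  ext p q
  simp only [Kr, Matrix.of_apply, Matrix.smul_apply, smul_eq_mul, mul_assoc]

theorem Kr_smul_right (t : ℝ) (W A : Mt k) : Kr W (t • A) = t • Kr W A := by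
  ext p q
  simp only [Kr, Matrix.of_apply, Matrix.smul_apply, smul_eq_mul]
  ring

theorem TT_add_left (Z Z' Y : Mi k) : TT (Z + Z') Y = TT Z Y + TT Z' Y := by
  ext x y
  simp only [TT, Matrix.of_apply, Matrix.add_apply, Matrix.mul_add, Matrix.add_mul,
    Matrix.trace_add]

theorem TT_add_right (Z Y Y' : Mi k) : TT Z (Y + Y') = TT Z Y + TT Z Y' := by
  ext x y
  simp only [TT, Matrix.of_apply, Matrix.add_apply, Matrix.transpose_add, Matrix.mul_add,
    Matrix.trace_add]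

theorem TT_smul_left (t : ℝ) (Z Y : Mi k) : TT (t • Z) Y = t • TT Z Y := by
  ext x y
  simp only [TT, Matrix.of_apply, Matrix.smul_apply, Matrix.mul_smul, Matrix.smul_mul,
    Matrix.trace_smul]

theorem TT_smul_right (t : ℝ) (Z Y : Mi k) : TT Z (t • Y) = t • TT Z Y := by
  ext x y
  simp only [TT, Matrix.of_apply, Matrix.smul_apply, Matrix.transpose_smul, Matrix.mul_smul,
    Matrix.trace_smul]

theorem Kr_one_one : Kr (1 : Mt k) 1 = 1 := by
  ext p q
  simp only [Kr, Matrix.of_apply, Matrix.one_apply]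
  by_cases h1 : p.1 = q.1
  · by_cases h2 : p.2 = q.2
    · rw [if_pos h1, if_pos h2, if_pos (Prod.ext h1 h2), mul_one]
    · rw [if_pos h1, if_neg h2, if_neg (fun h => h2 (by rw [h])), mul_zero]
  · rw [if_neg h1, zero_mul, if_neg (fun h => h1 (by rw [h]))]

theorem Kr_mul (W W' A A' : Mt k) : Kr (W * W') (A * A') = Kr W A * Kr W' A' := by
  ext p q
  simp only [Kr, Matrix.of_apply, Matrix.mul_apply, Fintype.sum_prod_type, Finset.sum_mul,
    Finset.mul_sum]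
  rw [Finset.sum_comm]
  refine Finset.sum_congr rfl fun b _ => Finset.sum_congr rfl fun d _ => ?_
  ring

theorem Kr_transpose (W A : Mt k) : (Kr W A)ᵀ = Kr Wᵀ Aᵀ := rfl

/-! ### Transposition -/

theorem NN_transpose (Y : Mi k) (W : Mt k) : (NN Y W)ᵀ = NN Yᵀ Wᵀ := by
  ext a c
  simp only [NN, Matrix.of_apply, Matrix.transpose_apply]
  rw [Finset.sum_comm]

theorem TT_transpose (Z Y : Mi k) : (TT Z Y)ᵀ = TT Zᵀ Yᵀ := by
  ext x y
  simp only [TT, Matrix.of_apply, Matrix.transpose_apply, Matrix.transpose_transpose]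
  rw [← Matrix.trace_transpose]
  simp only [Matrix.transpose_mul, Matrix.transpose_transpose]
  rw [Matrix.trace_mul_comm]
  simp only [Matrix.mul_assoc]

theorem RA_transpose {ε : ℝ} {P : Mi k} (hP : Pᵀ = P) (A : Mt k) (Y : Mi k) :
    RA ε P Aᵀ Yᵀ = (RA ε P A Y)ᵀ := by
  unfold RA
  simp only [Matrix.transpose_add, Matrix.transpose_smul, Matrix.transpose_sub,
    Matrix.transpose_one, NN_transpose, hP, Matrix.transpose_mul, Matrix.transpose_nonsing_inv,
    Matrix.mul_assoc]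

theorem RY_transpose {ε : ℝ} {P : Mi k} (hP : Pᵀ = P) (A : Mt k) (Y : Mi k) :
    RY ε P Aᵀ Yᵀ = (RY ε P A Y)ᵀ := by
  have e1 : (P * Y * P)ᵀ = P * Yᵀ * P := by
    rw [Matrix.transpose_mul, Matrix.transpose_mul, hP, Matrix.mul_assoc]
  have e2 : (P * Y⁻¹ * P)ᵀ = P * (Yᵀ)⁻¹ * P := by
    rw [Matrix.transpose_mul, Matrix.transpose_mul, hP, Matrix.mul_assoc,
      Matrix.transpose_nonsing_inv]
  have e3 : ∀ M N : Mi k, (M * N * M)ᵀ = Mᵀ * Nᵀ * Mᵀ := by
    intro M N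
    rw [Matrix.transpose_mul, Matrix.transpose_mul, Matrix.mul_assoc]
  unfold RY
  simp only [Matrix.transpose_add, Matrix.transpose_smul, Matrix.transpose_one, Kr_transpose,
    TT_transpose, e1, e2, e3, Matrix.transpose_nonsing_inv]

/-! ### Equivariance -/

theorem trace_Kr (Y : Mi k) (E W : Mt k) :
    Matrix.trace (Y * Kr E Wᵀ) = Matrix.trace (NN Y W * E) := by
  simp only [Matrix.trace, Matrix.diag_apply, Matrix.mul_apply, NN, Kr, Matrix.of_apply,
    Matrix.transpose_apply, Fintype.sum_prod_type, Finset.sum_mul]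
  refine Finset.sum_congr rfl fun a _ => ?_
  rw [Finset.sum_comm]
  refine Finset.sum_congr rfl fun c _ => Finset.sum_congr rfl fun b _ =>
    Finset.sum_congr rfl fun d _ => ?_
  ring

private theorem StEq_ext {M N : Mt k} (h : ∀ E : Mt k, Matrix.trace (M * E) = Matrix.trace (N * E)) :
    M = N := by
  ext a c
  have h1 := h (Matrix.single c a 1)
  simpa [Matrix.trace_mul_single] using h1

private theorem StEq_ite (a b : Prop) [Decidable a] [Decidable b] :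
    (if a ∧ b then (1 : ℝ) else 0) = (if a then 1 else 0) * (if b then 1 else 0) := by
  by_cases h1 : a <;> by_cases h2 : b <;> simp [h1, h2]

theorem adk_eq (p : Fin k × Fin k) :
    adk p = Kr (Matrix.single p.1 p.2 (1 : ℝ)) 1 - Kr 1 (Matrix.single p.1 p.2 (1 : ℝ))ᵀ := by
  ext q r
  obtain ⟨p1, p2⟩ := p
  obtain ⟨q1, q2⟩ := q
  obtain ⟨r1, r2⟩ := r
  simp only [adk, Kr, Matrix.of_apply, Matrix.sub_apply, Matrix.transpose_apply,
    Matrix.single_apply, Matrix.one_apply, Prod.mk.injEq]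
  simp only [StEq_ite]
  have e : ∀ a b : Fin k, (if a = b then (1 : ℝ) else 0) = if b = a then 1 else 0 := by
    intro a b
    by_cases h : a = b
    · rw [if_pos h, if_pos h.symm]
    · rw [if_neg h, if_neg (fun h' => h h'.symm)]
  rw [e q1 p1, e q2 p2, e r2 p1]
  ring

section Conj

theorem Kr_conj (Q W A : Mt k) :
    Kr (Q * W * Qᵀ) (Q * A * Qᵀ) = Kr Q Q * Kr W A * (Kr Q Q)ᵀ := by
  rw [Kr_mul, Kr_mul, Kr_transpose]

variable {Q : Mt k} (hQ : Q * Qᵀ = 1)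
include hQ

theorem Kr_orth : Kr Q Q * (Kr Q Q)ᵀ = 1 := by
  rw [Kr_transpose, ← Kr_mul, hQ, Kr_one_one]

theorem NN_conj (Y : Mi k) (W : Mt k) :
    NN (Kr Q Q * Y * (Kr Q Q)ᵀ) (Q * W * Qᵀ) = Q * NN Y W * Qᵀ := by
  have hQ' : Qᵀ * Q = 1 := mul_eq_one_comm.1 hQ
  refine StEq_ext fun E => ?_
  rw [← trace_Kr]
  have h1 : (Q * W * Qᵀ)ᵀ = Q * Wᵀ * Qᵀ := by
    rw [Matrix.transpose_mul, Matrix.transpose_mul, Matrix.transpose_transpose, Matrix.mul_assoc]
  have h2 : (Kr Q Q)ᵀ * Kr E (Q * Wᵀ * Qᵀ) * Kr Q Q = Kr (Qᵀ * E * Q) Wᵀ := by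
    rw [Kr_transpose, ← Kr_mul, ← Kr_mul]
    congr 1
    calc Qᵀ * (Q * Wᵀ * Qᵀ) * Q = (Qᵀ * Q) * Wᵀ * (Qᵀ * Q) := by simp only [Matrix.mul_assoc]
      _ = Wᵀ := by rw [hQ', Matrix.one_mul, Matrix.mul_one]
  calc Matrix.trace (Kr Q Q * Y * (Kr Q Q)ᵀ * Kr E (Q * W * Qᵀ)ᵀ)
      = Matrix.trace (Kr Q Q * (Y * (Kr Q Q)ᵀ * Kr E (Q * Wᵀ * Qᵀ))) := by
        rw [h1]
        simp only [Matrix.mul_assoc]
    _ = Matrix.trace (Y * ((Kr Q Q)ᵀ * Kr E (Q * Wᵀ * Qᵀ) * Kr Q Q)) := by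
        rw [Matrix.trace_mul_comm]
        simp only [Matrix.mul_assoc]
    _ = Matrix.trace (NN Y W * (Qᵀ * E * Q)) := by rw [h2, trace_Kr]
    _ = Matrix.trace ((NN Y W * Qᵀ * E) * Q) := by simp only [Matrix.mul_assoc]
    _ = Matrix.trace (Q * NN Y W * Qᵀ * E) := by
        rw [Matrix.trace_mul_comm]
        simp only [Matrix.mul_assoc]

private theorem StEq_adk (p : Fin k × Fin k) :
    adk p = ∑ p', Kr Q Q p p' • (Kr Q Q * adk p' * (Kr Q Q)ᵀ) := by
  have h1 : ∀ p' : Fin k × Fin k, Kr Q Q * adk p' * (Kr Q Q)ᵀ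
      = Kr (Q * Matrix.single p'.1 p'.2 (1 : ℝ) * Qᵀ) 1
        - Kr 1 (Q * Matrix.single p'.1 p'.2 (1 : ℝ) * Qᵀ)ᵀ := by
    intro p'
    rw [adk_eq, Matrix.mul_sub, Matrix.sub_mul, ← Kr_conj, ← Kr_conj, Matrix.mul_one, hQ]
    congr 2
    rw [Matrix.transpose_mul, Matrix.transpose_mul, Matrix.transpose_transpose, Matrix.mul_assoc]
  have h2 : ∑ p' : Fin k × Fin k, Kr Q Q p p' • (Q * Matrix.single p'.1 p'.2 (1 : ℝ) * Qᵀ)
      = Matrix.single p.1 p.2 (1 : ℝ) := by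
    have h3 : ∑ p' : Fin k × Fin k, Kr Q Q p p' • Matrix.single p'.1 p'.2 (1 : ℝ)
        = Qᵀ * Matrix.single p.1 p.2 (1 : ℝ) * Q := by
      ext i j
      rw [Matrix.sum_apply, Fintype.sum_prod_type]
      simp only [Matrix.smul_apply, Matrix.single_apply, Kr, Matrix.of_apply, smul_eq_mul,
        mul_ite, mul_one, mul_zero]
      rw [Finset.sum_eq_single i, Finset.sum_eq_single j]
      · rw [if_pos ⟨rfl, rfl⟩, Matrix.mul_assoc, Matrix.mul_apply]
        rw [Finset.sum_eq_single p.1]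
        · rw [Matrix.single_mul_apply_same, one_mul, Matrix.transpose_apply]
        · intro b _ hb
          rw [Matrix.single_mul_apply_of_ne _ _ _ _ _ hb, mul_zero]
        · intro h
          exact absurd (Finset.mem_univ _) h
      · intro b _ hb
        rw [if_neg (fun h => hb h.2)]
      · intro h
        exact absurd (Finset.mem_univ _) h
      · intro b _ hb
        refine Finset.sum_eq_zero fun c _ => ?_
        rw [if_neg (fun h => hb h.1)]
      · intro h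
        exact absurd (Finset.mem_univ _) h
    have h4 : ∑ p' : Fin k × Fin k, Kr Q Q p p' • (Q * Matrix.single p'.1 p'.2 (1 : ℝ) * Qᵀ)
        = Q * (∑ p' : Fin k × Fin k, Kr Q Q p p' • Matrix.single p'.1 p'.2 (1 : ℝ)) * Qᵀ := by
      rw [Finset.mul_sum, Finset.sum_mul]
      refine Finset.sum_congr rfl fun p' _ => ?_
      rw [Matrix.mul_smul, Matrix.smul_mul]
    rw [h4, h3]
    calc Q * (Qᵀ * Matrix.single p.1 p.2 (1 : ℝ) * Q) * Qᵀ
        = (Q * Qᵀ) * Matrix.single p.1 p.2 (1 : ℝ) * (Q * Qᵀ) := by simp only [Matrix.mul_assoc]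
      _ = Matrix.single p.1 p.2 (1 : ℝ) := by rw [hQ, Matrix.one_mul, Matrix.mul_one]
  have h5 : ∀ (c : Fin k × Fin k → ℝ) (M : Fin k × Fin k → Mt k),
      ∑ p', c p' • (Kr (M p') 1 - Kr 1 (M p')ᵀ)
        = Kr (∑ p', c p' • M p') 1 - Kr 1 (∑ p', c p' • M p')ᵀ := by
    intro c M
    ext q r
    simp only [Matrix.sum_apply, Matrix.smul_apply, Matrix.sub_apply, Kr, Matrix.of_apply,
      Matrix.transpose_apply, smul_eq_mul, mul_sub, Finset.sum_sub_distrib, Finset.sum_mul,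
      Finset.mul_sum]
    congr 1
    · refine Finset.sum_congr rfl fun p' _ => ?_
      ring
    · refine Finset.sum_congr rfl fun p' _ => ?_
      ring
  calc adk p = Kr (Matrix.single p.1 p.2 (1 : ℝ)) 1 - Kr 1 (Matrix.single p.1 p.2 (1 : ℝ))ᵀ :=
        adk_eq p
    _ = ∑ p', Kr Q Q p p' • (Kr (Q * Matrix.single p'.1 p'.2 (1 : ℝ) * Qᵀ) 1
        - Kr 1 (Q * Matrix.single p'.1 p'.2 (1 : ℝ) * Qᵀ)ᵀ) := by rw [h5, h2]
    _ = _ := Finset.sum_congr rfl fun p' _ => by rw [h1]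

theorem TT_conj (Z Y : Mi k) :
    TT (Kr Q Q * Z * (Kr Q Q)ᵀ) (Kr Q Q * Y * (Kr Q Q)ᵀ) = Kr Q Q * TT Z Y * (Kr Q Q)ᵀ := by
  have hK := Kr_orth hQ
  have hK' : (Kr Q Q)ᵀ * Kr Q Q = 1 := mul_eq_one_comm.1 hK
  have had := StEq_adk hQ
  generalize Kr Q Q = κ at hK hK' had
  have key : ∀ x' y', Matrix.trace ((κ * adk x' * κᵀ) * (κ * Z * κᵀ) * (κ * adk y' * κᵀ)ᵀ
      * (κ * Y * κᵀ)ᵀ) = TT Z Y x' y' := by
    intro x' y'
    have h1 : (κ * adk x' * κᵀ) * (κ * Z * κᵀ) * (κ * adk y' * κᵀ)ᵀ * (κ * Y * κᵀ)ᵀ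
        = κ * (adk x' * (κᵀ * κ) * Z * (κᵀ * κ) * (adk y')ᵀ * (κᵀ * κ) * Yᵀ) * κᵀ := by
      simp only [Matrix.transpose_mul, Matrix.transpose_transpose, Matrix.mul_assoc]
    rw [h1, hK', Matrix.trace_mul_comm, ← Matrix.mul_assoc, hK']
    simp only [Matrix.mul_one, Matrix.one_mul, TT, Matrix.of_apply]
  ext x y
  have h2 : TT (κ * Z * κᵀ) (κ * Y * κᵀ) x y
      = Matrix.trace (adk x * (κ * Z * κᵀ) * (adk y)ᵀ * (κ * Y * κᵀ)ᵀ) := rfl
  rw [h2, had x, had y]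
  simp only [Matrix.transpose_sum, Matrix.transpose_smul, Finset.sum_mul, Finset.mul_sum,
    Matrix.smul_mul, Matrix.mul_smul, Matrix.trace_sum, Matrix.trace_smul, key, smul_eq_mul]
  simp only [Matrix.mul_apply, Matrix.transpose_apply, Finset.sum_mul]
  refine Finset.sum_congr rfl fun y' _ => Finset.sum_congr rfl fun x' _ => ?_
  ring

end Conj

end Pool.Agent.EStab
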