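import Pool.Agent.EStab.StDefs
import Pool.Agent.EStab.PrGen

/-!
# The projection onto the orthogonal complement of `h` in `so(k)`

* `exists_projSt`: apply `exists_projI` to the subspace of `Fin k × Fin k → ℝ` spanned by the symmetric
  matrices (`u (j, i) = u (i, j)`) and by the elements of `h`.  The range of the symmetric idempotent `P`
  is orthogonal to its kernel, in particular to the symmetric matrices, so `P u` is skew (`Pr.skew`).
  If `u` is skew and `P u = 0` then `u = s + w` with `s` symmetric and `w ∈ h` skew, so `s = u - w = 0`.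
* `projSt_comm`: `κ = Kr Q Q` is orthogonal (`κ *ᵥ U` is `Q U Qᵀ`), it maps symmetric matrices to symmetric
  matrices and `h` to `h`, so it maps `ker P` to itself; use `proj_commI`.  (A vector `v` with `P v = 0` is the
  sum of its symmetric part `s` (`P s = 0`) and its skew part, which is then also in `ker P`, so in `h`.)
-/

namespace Pool.Agent.EStab

open Matrix LieAlgebra.Orthogonal

variable {k : ℕ}

private def StProj_phi (k : ℕ) : so (Fin k) ℝ →ₗ[ℝ] (Fin k × Fin k → ℝ) where
  toFun u := fun p => (u : Matrix (Fin k) (Fin k) ℝ) p.1 p.2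
  map_add' u v := by funext p; simp
  map_smul' t u := by funext p; simp

private def StProj_sym (k : ℕ) : Submodule ℝ (Fin k × Fin k → ℝ) where
  carrier := {v | ∀ i j, v (j, i) = v (i, j)}
  add_mem' := by
    intro a b ha hb i j
    simp only [Pi.add_apply]
    rw [ha i j, hb i j]
  zero_mem' := by
    intro i j
    rfl
  smul_mem' := by
    intro t a ha i j
    simp only [Pi.smul_apply]
    rw [ha i j]

private theorem StProj_skew (u : so (Fin k) ℝ) (i j : Fin k) :
    (u : Matrix (Fin k) (Fin k) ℝ) j i = -(u : Matrix (Fin k) (Fin k) ℝ) i j := by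
  have h1 := (LieAlgebra.Orthogonal.mem_so (Fin k) ℝ (u : Matrix (Fin k) (Fin k) ℝ)).1 u.2
  have h2 := congrFun (congrFun h1 i) j
  simpa [Matrix.transpose_apply] using h2

theorem exists_projSt (h : LieSubalgebra ℝ (so (Fin k) ℝ)) :
    ∃ P : Mi k, Pr P ∧ ∀ u : so (Fin k) ℝ,
      P *ᵥ (fun p : Fin k × Fin k => (u : Matrix (Fin k) (Fin k) ℝ) p.1 p.2) = 0 ↔ u ∈ h := by
  obtain ⟨P, hs, hi, hk⟩ :=
    exists_projI (StProj_sym k ⊔ Submodule.map (StProj_phi k) h.toSubmodule)
  refine ⟨P, ⟨hs, hi, ?_⟩, ?_⟩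
  · intro i j q
    have hsy : ∀ p r, P p r = P r p := fun p r => by
      have := congrFun (congrFun hs r) p
      simpa [Matrix.transpose_apply] using this
    have h1 : P *ᵥ (Pi.single (i, j) (1 : ℝ) + Pi.single (j, i) (1 : ℝ)) = 0 := by
      rw [hk]
      refine Submodule.mem_sup_left ?_
      intro a b
      simp only [Pi.add_apply, Pi.single_apply, Prod.mk.injEq]
      by_cases h1 : b = i <;> by_cases h2 : a = j <;> by_cases h3 : b = j <;>
        by_cases h4 : a = i <;> simp_all
    have h2 := congrFun h1 q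
    rw [Matrix.mulVec_add, Matrix.mulVec_single_one, Matrix.mulVec_single_one] at h2
    simp only [Pi.add_apply, Matrix.col_apply, Pi.zero_apply] at h2
    rw [hsy (j, i) q, hsy (i, j) q]
    linarith
  · intro u
    rw [hk]
    constructor
    · intro hu
      obtain ⟨s, hs1, w, hw, hsw⟩ := Submodule.mem_sup.1 hu
      obtain ⟨w', hw', rfl⟩ := Submodule.mem_map.1 hw
      have h3 : ∀ i j, (u : Matrix (Fin k) (Fin k) ℝ) i j = (w' : Matrix (Fin k) (Fin k) ℝ) i j := by
        intro i j
        have e1 := congrFun hsw (i, j)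
        have e2 := congrFun hsw (j, i)
        have e3 : s (j, i) = s (i, j) := hs1 i j
        have e4 := StProj_skew u i j
        have e5 := StProj_skew w' i j
        simp only [StProj_phi, LinearMap.coe_mk, AddHom.coe_mk, Pi.add_apply] at e1 e2
        rw [e3, e4, e5] at e2
        linarith
      have h4 : u = w' := Subtype.ext (by ext i j; exact h3 i j)
      rw [h4]
      exact hw'
    · intro hu
      exact Submodule.mem_sup_right (Submodule.mem_map.2 ⟨u, hu, rfl⟩)

private theorem StProj_symm_zero {P : Mi k} (hP : Pr P) {s : Fin k × Fin k → ℝ}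
    (hs : ∀ i j, s (j, i) = s (i, j)) : P *ᵥ s = 0 := by
  funext p
  have hsy : ∀ p r, P p r = P r p := fun p r => by
    have := congrFun (congrFun hP.symm r) p
    simpa [Matrix.transpose_apply] using this
  have h1 : ∀ i j, P p (j, i) = -P p (i, j) := by
    intro i j
    rw [hsy p (j, i), hP.skew i j p, hsy (i, j) p]
  simp only [Matrix.mulVec, dotProduct, Pi.zero_apply]
  have h2 : ∑ q : Fin k × Fin k, P p q * s q = ∑ q : Fin k × Fin k, P p q.swap * s q.swap :=
    ((Equiv.prodComm (Fin k) (Fin k)).sum_comp (fun q => P p q * s q)).symm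
  have h3 : ∑ q : Fin k × Fin k, P p q.swap * s q.swap = -∑ q : Fin k × Fin k, P p q * s q := by
    rw [← Finset.sum_neg_distrib]
    refine Finset.sum_congr rfl fun q _ => ?_
    obtain ⟨i, j⟩ := q
    simp only [Prod.swap_prod_mk]
    rw [h1 i j, hs i j]
    ring
  rw [h3] at h2
  linarith

private theorem StProj_Kr_mulVec (Q : Mt k) (v : Fin k × Fin k → ℝ) (i j : Fin k) :
    (Kr Q Q *ᵥ v) (i, j) = (Q * (Matrix.of fun a b => v (a, b)) * Qᵀ) i j := by
  simp only [Kr, Matrix.mulVec, dotProduct, Matrix.of_apply, Matrix.mul_apply,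
    Matrix.transpose_apply, Fintype.sum_prod_type, Finset.sum_mul]
  rw [Finset.sum_comm]
  refine Finset.sum_congr rfl fun b _ => Finset.sum_congr rfl fun a _ => ?_
  ring

private theorem StProj_Kr_orth {Q : Mt k} (hQ : Q * Qᵀ = 1) : Kr Q Q * (Kr Q Q)ᵀ = 1 := by
  ext ⟨p1, p2⟩ ⟨q1, q2⟩
  have h1 : ∀ a b, ∑ r, Q a r * Q b r = (1 : Mt k) a b := by
    intro a b
    have := congrFun (congrFun hQ a) b
    simpa [Matrix.mul_apply, Matrix.transpose_apply] using this
  simp only [Kr, Matrix.mul_apply, Matrix.transpose_apply, Matrix.of_apply,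
    Fintype.sum_prod_type]
  have h2 : ∀ x y, Q p1 x * Q p2 y * (Q q1 x * Q q2 y) = (Q p1 x * Q q1 x) * (Q p2 y * Q q2 y) := by
    intro x y
    ring
  simp only [h2]
  rw [← Finset.sum_mul_sum, h1, h1]
  simp only [Matrix.one_apply, Prod.mk.injEq]
  by_cases h3 : p1 = q1 <;> by_cases h4 : p2 = q2 <;> simp [h3, h4]

theorem projSt_comm (h : LieSubalgebra ℝ (so (Fin k) ℝ)) {P : Mi k} (hP : Pr P)
    (hker : ∀ u : so (Fin k) ℝ,
      P *ᵥ (fun p : Fin k × Fin k => (u : Matrix (Fin k) (Fin k) ℝ) p.1 p.2) = 0 ↔ u ∈ h)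
    {Q : Mt k} (hQ : Q * Qᵀ = 1)
    (hh : ∀ u ∈ h, ∃ u' ∈ h, Q * (u : Matrix (Fin k) (Fin k) ℝ) * Qᵀ =
      (u' : Matrix (Fin k) (Fin k) ℝ)) :
    Kr Q Q * P = P * Kr Q Q := by
  refine proj_commI hP.symm hP.idem (StProj_Kr_orth hQ) ?_
  intro v hv
  obtain ⟨s, hsdef⟩ : ∃ s : Fin k × Fin k → ℝ, s = fun p => (v p + v p.swap) / 2 := ⟨_, rfl⟩
  obtain ⟨a, hadef⟩ : ∃ a : Fin k × Fin k → ℝ, a = fun p => (v p - v p.swap) / 2 := ⟨_, rfl⟩
  have hva : v = s + a := by
    funext p
    simp only [hsdef, hadef, Pi.add_apply]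
    ring
  have hs : ∀ i j, s (j, i) = s (i, j) := by
    intro i j
    simp only [hsdef, Prod.swap_prod_mk]
    ring
  have ha : ∀ i j, a (j, i) = -a (i, j) := by
    intro i j
    simp only [hadef, Prod.swap_prod_mk]
    ring
  have hPs : P *ᵥ s = 0 := StProj_symm_zero hP hs
  have hPa : P *ᵥ a = 0 := by
    have h1 := hv
    rw [hva, Matrix.mulVec_add, hPs, zero_add] at h1
    exact h1
  have hmem : (Matrix.of fun i j => a (i, j) : Mt k) ∈ so (Fin k) ℝ := by
    rw [LieAlgebra.Orthogonal.mem_so]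
    ext i j
    simp only [Matrix.transpose_apply, Matrix.of_apply, Matrix.neg_apply]
    exact ha i j
  have hu : (⟨_, hmem⟩ : so (Fin k) ℝ) ∈ h := by
    rw [← hker]
    exact hPa
  obtain ⟨u', hu', hu'e⟩ := hh _ hu
  have h5 : P *ᵥ (Kr Q Q *ᵥ a) = 0 := by
    have h6 := (hker u').2 hu'
    have h7 : Kr Q Q *ᵥ a = fun p : Fin k × Fin k => (u' : Matrix (Fin k) (Fin k) ℝ) p.1 p.2 := by
      funext ⟨i, j⟩
      rw [StProj_Kr_mulVec]
      exact congrFun (congrFun hu'e i) j
    rw [h7]
    exact h6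
  have h8 : P *ᵥ (Kr Q Q *ᵥ s) = 0 := by
    refine StProj_symm_zero hP ?_
    intro i j
    rw [StProj_Kr_mulVec, StProj_Kr_mulVec]
    have h9 : (Q * (Matrix.of fun a b => s (a, b)) * Qᵀ)ᵀ =
        Q * (Matrix.of fun a b => s (a, b)) * Qᵀ := by
      rw [Matrix.transpose_mul, Matrix.transpose_mul, Matrix.transpose_transpose,
        Matrix.mul_assoc]
      congr 2
      ext i j
      simp only [Matrix.transpose_apply, Matrix.of_apply]
      exact hs i j
    have h10 := congrFun (congrFun h9 i) j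
    rw [Matrix.transpose_apply] at h10
    exact h10
  rw [hva, Matrix.mulVec_add, Matrix.mulVec_add, h5, h8, add_zero]

end Pool.Agent.EStab
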