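import Pool.Agent.EStab.StIft

/-!
# Solutions of the Einstein equations for `SO(n+k)/(SO(n) × H)`, small `ε = 1/n`
-/

namespace Pool.Agent.EStab

open Matrix Filter Topology
open scoped Matrix.Norms.Operator

attribute [-instance] instTopologicalSpaceMatrix Matrix.instUniformSpace

section Gen

variable {ι : Type*} [Fintype ι] [DecidableEq ι]

private theorem StSol_entry (i j : ι) : Continuous (fun A : Matrix ι ι ℝ => A i j) := by
  let l : Matrix ι ι ℝ →ₗ[ℝ] ℝ :=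
    { toFun := fun A => A i j
      map_add' := fun A B => rfl
      map_smul' := fun t A => rfl }
  exact l.continuous_of_finiteDimensional

private theorem StSol_transp : Continuous (fun A : Matrix ι ι ℝ => Aᵀ) := by
  let l : Matrix ι ι ℝ →ₗ[ℝ] Matrix ι ι ℝ :=
    { toFun := fun A => Aᵀ
      map_add' := fun A B => Matrix.transpose_add A B
      map_smul' := fun t A => Matrix.transpose_smul t A }
  exact l.continuous_of_finiteDimensional

private theorem StSol_near : ∀ᶠ A in 𝓝 (1 : Matrix ι ι ℝ),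
    ∀ i j, |(A - 1) i j| < 1 / ((Fintype.card ι : ℝ) + 1) := by
  have h1 : ∀ i j : ι, ∀ᶠ A in 𝓝 (1 : Matrix ι ι ℝ),
      |(A - 1) i j| < 1 / ((Fintype.card ι : ℝ) + 1) := by
    intro i j
    have h2 : Continuous (fun A : Matrix ι ι ℝ => |(A - 1) i j|) := by
      have h3 : (fun A : Matrix ι ι ℝ => |(A - 1) i j|)
          = fun A : Matrix ι ι ℝ => |A i j - (1 : Matrix ι ι ℝ) i j| := by
        funext A
        rw [Matrix.sub_apply]
      rw [h3]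
      exact ((StSol_entry i j).sub continuous_const).abs
    have h4 := h2.tendsto (1 : Matrix ι ι ℝ)
    have h5 : |((1 : Matrix ι ι ℝ) - 1) i j| < 1 / ((Fintype.card ι : ℝ) + 1) := by
      rw [sub_self, Matrix.zero_apply, abs_zero]
      positivity
    exact h4.eventually (gt_mem_nhds h5)
  rw [eventually_all]
  intro i
  rw [eventually_all]
  intro j
  exact h1 i j

/-- Matrices with entries in `[-1, 1]` are uniformly bounded. -/
private theorem StSol_bdd :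
    ∃ C : ℝ, 0 < C ∧ ∀ κ : Matrix ι ι ℝ, (∀ i j, |κ i j| ≤ 1) → ‖κ‖ ≤ C := by
  obtain ⟨C, hC⟩ : ∃ C : ℝ, C = ∑ i : ι, ∑ j : ι, ‖(Matrix.single i j (1 : ℝ) : Matrix ι ι ℝ)‖ :=
    ⟨_, rfl⟩
  have hC0 : 0 ≤ C := by
    rw [hC]
    exact Finset.sum_nonneg fun i _ => Finset.sum_nonneg fun j _ => norm_nonneg _
  refine ⟨C + 1, by linarith, fun κ hent => ?_⟩
  have h3 : κ = ∑ i, ∑ j, κ i j • (Matrix.single i j (1 : ℝ) : Matrix ι ι ℝ) := by
    conv_lhs => rw [Matrix.matrix_eq_sum_single κ]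
    refine Finset.sum_congr rfl fun i _ => Finset.sum_congr rfl fun j _ => ?_
    rw [Matrix.smul_single, smul_eq_mul, mul_one]
  calc ‖κ‖ = ‖∑ i, ∑ j, κ i j • (Matrix.single i j (1 : ℝ) : Matrix ι ι ℝ)‖ := by rw [← h3]
    _ ≤ ∑ i, ‖∑ j, κ i j • (Matrix.single i j (1 : ℝ) : Matrix ι ι ℝ)‖ := norm_sum_le _ _
    _ ≤ ∑ i, ∑ j, ‖κ i j • (Matrix.single i j (1 : ℝ) : Matrix ι ι ℝ)‖ :=
        Finset.sum_le_sum fun i _ => norm_sum_le _ _
    _ ≤ C := by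
        rw [hC]
        refine Finset.sum_le_sum fun i _ => Finset.sum_le_sum fun j _ => ?_
        rw [norm_smul, Real.norm_eq_abs]
        exact mul_le_of_le_one_left (norm_nonneg _) (hent i j)
    _ ≤ C + 1 := by linarith

private theorem StSol_orth {κ : Matrix ι ι ℝ} (hκ : κ * κᵀ = 1) (i j : ι) : |κ i j| ≤ 1 := by
  have h1 : ∑ l, κ i l * κ i l = 1 := by
    have := congrFun (congrFun hκ i) i
    simpa [Matrix.mul_apply] using this
  have h2 : κ i j * κ i j ≤ 1 := by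
    rw [← h1]
    exact Finset.single_le_sum (f := fun l => κ i l * κ i l)
      (fun l _ => mul_self_nonneg _) (Finset.mem_univ j)
  exact abs_le_one_iff_mul_self_le_one.2 h2

private theorem StSol_idem {P : Matrix ι ι ℝ} (hP : Pᵀ = P) (hPP : P * P = P) (i j : ι) :
    |P i j| ≤ 1 := by
  have h1 : ∑ l, P i l * P i l = P i i := by
    have h := congrFun (congrFun hPP i) i
    rw [Matrix.mul_apply] at h
    rw [← h]
    refine Finset.sum_congr rfl fun l _ => ?_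
    have h' : P i l = P l i := congrFun (congrFun hP l) i
    rw [h']
  have h2 : ∀ l, P i l * P i l ≤ P i i := by
    intro l
    rw [← h1]
    exact Finset.single_le_sum (f := fun l => P i l * P i l)
      (fun l _ => mul_self_nonneg _) (Finset.mem_univ l)
  have h3 := h2 i
  have h4 : P i i ≤ 1 := by nlinarith [mul_self_nonneg (P i i)]
  exact abs_le_one_iff_mul_self_le_one.2 ((h2 j).trans h4)

private theorem StSol_compact : IsCompact {P : Matrix ι ι ℝ | Pᵀ = P ∧ P * P = P} := by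
  haveI : ProperSpace (Matrix ι ι ℝ) := FiniteDimensional.proper ℝ (Matrix ι ι ℝ)
  obtain ⟨C, hC, hb⟩ := StSol_bdd (ι := ι)
  refine Metric.isCompact_of_isClosed_isBounded ?_ ?_
  · have h2 : Continuous (fun A : Matrix ι ι ℝ => A * A) := continuous_id.mul continuous_id
    exact (isClosed_eq StSol_transp continuous_id).inter (isClosed_eq h2 continuous_id)
  · rw [isBounded_iff_forall_norm_le]
    exact ⟨C, fun P hP => hb P (StSol_idem hP.1 hP.2)⟩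

private theorem StSol_cj_norm {C r : ℝ} (hC : 0 < C)
    (hb : ∀ κ : Matrix ι ι ℝ, (∀ i j, |κ i j| ≤ 1) → ‖κ‖ ≤ C) {κ M : Matrix ι ι ℝ}
    (hκ : κ * κᵀ = 1) (hM : ‖M - 1‖ < r / (C * C)) : ‖κ * M * κᵀ - 1‖ < r := by
  have hκ' : κᵀ * κ = 1 := mul_eq_one_comm.1 hκ
  have b1 : ‖κ‖ ≤ C := hb κ (StSol_orth hκ)
  have b2 : ‖κᵀ‖ ≤ C := hb κᵀ (StSol_orth (by rw [Matrix.transpose_transpose]; exact hκ'))
  have e1 : κ * M * κᵀ - 1 = κ * (M - 1) * κᵀ := by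
    rw [Matrix.mul_sub, Matrix.sub_mul, Matrix.mul_one, hκ]
  rw [e1]
  calc ‖κ * (M - 1) * κᵀ‖ ≤ ‖κ * (M - 1)‖ * ‖κᵀ‖ := norm_mul_le _ _
    _ ≤ (‖κ‖ * ‖M - 1‖) * ‖κᵀ‖ := by gcongr; exact norm_mul_le _ _
    _ ≤ (C * ‖M - 1‖) * C := by gcongr
    _ = ‖M - 1‖ * (C * C) := by ring
    _ < r := by
        rw [lt_div_iff₀ (by positivity)] at hM
        exact hM

private theorem StSol_commute {κ M : Matrix ι ι ℝ} (hκ : κ * κᵀ = 1) (hM : M = κ * M * κᵀ) :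
    κ * M = M * κ := by
  have hκ' : κᵀ * κ = 1 := mul_eq_one_comm.1 hκ
  calc κ * M = κ * M * (κᵀ * κ) := by rw [hκ', Matrix.mul_one]
    _ = (κ * M * κᵀ) * κ := by simp only [Matrix.mul_assoc]
    _ = M * κ := by rw [← hM]

end Gen

variable {k : ℕ}

private theorem StSol_FB_transp {ε : ℝ} {P : Mi k} (hP : Pᵀ = P) {A : Mt k} {Y : Mi k}
    (h : FB (ε, P) (A, Y) = 0) : FB (ε, P) (Aᵀ, Yᵀ) = 0 := by
  have h1 : RA ε P A Y - A = 0 := congrArg Prod.fst h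
  have h2 : P * RY ε P A Y * P - Y + (1 - P) = 0 := congrArg Prod.snd h
  refine Prod.ext ?_ ?_
  · show RA ε P Aᵀ Yᵀ - Aᵀ = 0
    rw [RA_transpose hP, ← Matrix.transpose_sub, h1, Matrix.transpose_zero]
  · show P * RY ε P Aᵀ Yᵀ * P - Yᵀ + (1 - P) = 0
    have h3 : P * RY ε P Aᵀ Yᵀ * P - Yᵀ + (1 - P) = (P * RY ε P A Y * P - Y + (1 - P))ᵀ := by
      rw [Matrix.transpose_add, Matrix.transpose_sub, Matrix.transpose_sub, Matrix.transpose_one,
        Matrix.transpose_mul, Matrix.transpose_mul, hP, RY_transpose hP, Matrix.mul_assoc]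
    rw [h3, h2, Matrix.transpose_zero]

private theorem StSol_FB_conj {Q : Mt k} (hQ : Q * Qᵀ = 1) {ε : ℝ} {P : Mi k}
    (hP : Kr Q Q * P * (Kr Q Q)ᵀ = P) {A : Mt k} {Y : Mi k} (h : FB (ε, P) (A, Y) = 0) :
    FB (ε, P) (Q * A * Qᵀ, Kr Q Q * Y * (Kr Q Q)ᵀ) = 0 := by
  have hK := Kr_orth hQ
  have h1 : RA ε P A Y - A = 0 := congrArg Prod.fst h
  have h2 : P * RY ε P A Y * P - Y + (1 - P) = 0 := congrArg Prod.snd h
  refine Prod.ext ?_ ?_
  · show RA ε P (Q * A * Qᵀ) (Kr Q Q * Y * (Kr Q Q)ᵀ) - Q * A * Qᵀ = 0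
    rw [RA_conj hQ hP, ← cj_sub, h1, Matrix.mul_zero, Matrix.zero_mul]
  · show P * RY ε P (Q * A * Qᵀ) (Kr Q Q * Y * (Kr Q Q)ᵀ) * P - Kr Q Q * Y * (Kr Q Q)ᵀ
      + (1 - P) = 0
    have e1 : ∀ M : Mi k, P * (Kr Q Q * M * (Kr Q Q)ᵀ) * P
        = Kr Q Q * (P * M * P) * (Kr Q Q)ᵀ := by
      intro M
      conv_lhs => rw [← hP]
      rw [cj_mul hK, cj_mul hK]
    have e2 : (1 : Mi k) - P = Kr Q Q * (1 - P) * (Kr Q Q)ᵀ := by
      rw [cj_sub, cj_one hK, hP]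
    rw [RY_conj hQ hP, e1, e2, ← cj_sub, ← cj_add, h2, Matrix.mul_zero, Matrix.zero_mul]

private theorem StSol_local {P0 : Mi k} (hPP : P0 * P0 = P0) :
    ∀ᶠ q in 𝓝 ((0 : ℝ), P0), (q.2)ᵀ = q.2 → q.2 * q.2 = q.2 →
      ∃ (A : Mt k) (Y : Mi k), GoodB q.1 q.2 A Y ∧
        ∀ Q : Mt k, Q * Qᵀ = 1 → Kr Q Q * q.2 = q.2 * Kr Q Q →
          Q * A = A * Q ∧ Kr Q Q * Y = Y * Kr Q Q := by
  obtain ⟨ψ, h2, h3, r, hr, h4⟩ := iftB_main hPP
  obtain ⟨C, hC, hb⟩ := StSol_bdd (ι := Fin k)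
  obtain ⟨D, hD, hbD⟩ := StSol_bdd (ι := Fin k × Fin k)
  have hrC : 0 < r / (C * C) := by positivity
  have hrD : 0 < r / (D * D) := by positivity
  have t1 := (continuous_fst.tendsto ((1 : Mt k), (1 : Mi k))).comp h2
  have t2 := (continuous_snd.tendsto ((1 : Mt k), (1 : Mi k))).comp h2
  have s1 : ∀ᶠ q in 𝓝 ((0 : ℝ), P0), ‖(ψ q).1 - 1‖ < r / (C * C) := by
    filter_upwards [t1.eventually (Metric.ball_mem_nhds _ hrC)] with q hq
    rw [← dist_eq_norm]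
    exact hq
  have s2 : ∀ᶠ q in 𝓝 ((0 : ℝ), P0), ‖(ψ q).2 - 1‖ < r / (D * D) := by
    filter_upwards [t2.eventually (Metric.ball_mem_nhds _ hrD)] with q hq
    rw [← dist_eq_norm]
    exact hq
  have t3 : Tendsto (fun q => ((ψ q).1)ᵀ) (𝓝 ((0 : ℝ), P0)) (𝓝 1) := by
    have h := (StSol_transp.tendsto (1 : Mt k)).comp t1
    rw [Matrix.transpose_one] at h
    exact h
  have t4 : Tendsto (fun q => ((ψ q).2)ᵀ) (𝓝 ((0 : ℝ), P0)) (𝓝 1) := by
    have h := (StSol_transp.tendsto (1 : Mi k)).comp t2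
    rw [Matrix.transpose_one] at h
    exact h
  have s3 : ∀ᶠ q in 𝓝 ((0 : ℝ), P0), ‖((ψ q).1)ᵀ - 1‖ < r := by
    filter_upwards [t3.eventually (Metric.ball_mem_nhds _ hr)] with q hq
    rw [← dist_eq_norm]
    exact hq
  have s4 : ∀ᶠ q in 𝓝 ((0 : ℝ), P0), ‖((ψ q).2)ᵀ - 1‖ < r := by
    filter_upwards [t4.eventually (Metric.ball_mem_nhds _ hr)] with q hq
    rw [← dist_eq_norm]
    exact hq
  have n1 : ∀ᶠ q in 𝓝 ((0 : ℝ), P0), ∀ i j, |((ψ q).1 - 1) i j|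
      < 1 / ((Fintype.card (Fin k) : ℝ) + 1) := t1.eventually StSol_near
  have n2 : ∀ᶠ q in 𝓝 ((0 : ℝ), P0), ∀ i j, |((ψ q).2 - 1) i j|
      < 1 / ((Fintype.card (Fin k × Fin k) : ℝ) + 1) := t2.eventually StSol_near
  filter_upwards [h3, h4, s1, s2, s3, s4, n1, n2] with q hq hu q1 q2 q3 q4 q5 q6 hqt hqq
  obtain ⟨ε, P⟩ := q
  have hz : FB (ε, P) ((ψ (ε, P)).1, (ψ (ε, P)).2) = 0 := hq
  have hsym := hu _ _ q3 q4 (StSol_FB_transp hqt hz)
  have hA : ((ψ (ε, P)).1)ᵀ = (ψ (ε, P)).1 := (congrArg Prod.fst hsym).symm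
  have hY : ((ψ (ε, P)).2)ᵀ = (ψ (ε, P)).2 := (congrArg Prod.snd hsym).symm
  refine ⟨(ψ (ε, P)).1, (ψ (ε, P)).2, goodB_of_eq hqq (posDef_near hA q5) (posDef_near hY q6)
    (congrArg Prod.fst hz) (congrArg Prod.snd hz), fun Q hQ hQP => ?_⟩
  have hK := Kr_orth hQ
  have hP' : Kr Q Q * P * (Kr Q Q)ᵀ = P := by
    have : Kr Q Q * P = P * Kr Q Q := hQP
    rw [this, Matrix.mul_assoc, hK, Matrix.mul_one]
  have h8 := hu (Q * (ψ (ε, P)).1 * Qᵀ) (Kr Q Q * (ψ (ε, P)).2 * (Kr Q Q)ᵀ)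
    (StSol_cj_norm hC hb hQ q1) (StSol_cj_norm hD hbD hK q2) (StSol_FB_conj hQ hP' hz)
  exact ⟨StSol_commute hQ (congrArg Prod.fst h8), StSol_commute hK (congrArg Prod.snd h8)⟩

theorem solB (k : ℕ) :
    ∃ ε₀ : ℝ, 0 < ε₀ ∧ ∀ ε : ℝ, 0 < ε → ε < ε₀ → ∀ P : Mi k, Pr P →
      ∃ (A : Mt k) (Y : Mi k), GoodB ε P A Y ∧
        ∀ Q : Mt k, Q * Qᵀ = 1 → Kr Q Q * P = P * Kr Q Q →
          Q * A = A * Q ∧ Kr Q Q * Y = Y * Kr Q Q := by
  have h1 := (StSol_compact (ι := Fin k × Fin k)).eventually_forall_of_forall_eventually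
    (x₀ := (0 : ℝ))
    (P := fun ε P => Pᵀ = P → P * P = P → ∃ (A : Mt k) (Y : Mi k), GoodB ε P A Y ∧
        ∀ Q : Mt k, Q * Qᵀ = 1 → Kr Q Q * P = P * Kr Q Q →
          Q * A = A * Q ∧ Kr Q Q * Y = Y * Kr Q Q)
    (fun P hP => StSol_local hP.2)
  rw [Metric.eventually_nhds_iff] at h1
  obtain ⟨ε₀, h2, h3⟩ := h1
  refine ⟨ε₀, h2, fun ε hε hε' P hP => ?_⟩
  exact h3 (y := ε) (by rw [Real.dist_eq, sub_zero, abs_of_pos hε]; exact hε') P
    ⟨hP.symm, hP.idem⟩ hP.symm hP.idem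

end Pool.Agent.EStab
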