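import Pool.Agent.EStab.StTr
import Pool.Agent.EStab.StSol
import Pool.Agent.EStab.StProj

/-!
# Einstein metrics on `SO(n+k)/(SO(n) × H)`
-/

namespace Pool.Agent.EStab

open Matrix LieAlgebra.Orthogonal

theorem einstein_stiefel (k : ℕ) :
    ∃ n₀ : ℕ, ∀ n ≥ n₀, ∀ h : LieSubalgebra ℝ (so (Fin k) ℝ),
      HasEinsteinMetric (so (Fin n ⊕ Fin k) ℝ) (isoSt n h) (autSt n h) := by
  obtain ⟨ε₀, h0, hsol⟩ := solB k
  obtain ⟨n₀, hn₀⟩ := exists_nat_gt (1 / ε₀)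
  refine ⟨n₀ + 1, fun n hn h => ?_⟩
  obtain ⟨P, hP, hker⟩ := exists_projSt h
  have hn' : (0 : ℝ) < n := by
    have : (0 : ℕ) < n := by omega
    exact_mod_cast this
  have hlt : 1 / (n : ℝ) < ε₀ := by
    rw [div_lt_iff₀ hn']
    rw [div_lt_iff₀ h0] at hn₀
    have h5 : (n₀ : ℝ) ≤ n := by
      have : n₀ ≤ n := by omega
      exact_mod_cast this
    nlinarith
  obtain ⟨A, Y, hG, hk⟩ := hsol (1 / (n : ℝ)) (by positivity) hlt P hP
  refine hasEinsteinSt_of_good (by omega) h hP hker hG fun Q hQ hh => ?_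
  have h6 := projSt_comm h hP hker hQ hh
  exact ⟨h6, (hk Q hQ h6).1, (hk Q hQ h6).2⟩

end Pool.Agent.EStab
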