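import Pool.Agent.EStab.StCo

/-!
# Orthonormal bases for `betB`

Put `Y' = P Y P`, `Z' = P Y⁻¹ P`; `Y' Z' = P = Z' Y'` (as `P Y = Y P`).

* `exists_onbB`: on the subspace `{x | P *ᵥ x.2 = x.2}` the form `betB A Y'` is symmetric and positive
  definite (`x.2 ⬝ Y' x.2 = x.2 ⬝ Y x.2` there); take an orthogonal basis and normalise it.  (See
  `exists_onb` in `BrFrame.lean` for a similar proof.)
* `frameB`: for `y : EE n k` put `w = (fun i => A⁻¹ *ᵥ y.1 i, Z' *ᵥ y.2)`; it satisfies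
  `P *ᵥ w.2 = w.2`, and `betB A Y' x w = ∑ i, x.1 i ⬝ y.1 i + x.2 ⬝ y.2` for all `x` with
  `P *ᵥ x.2 = x.2`.  As `X` is an orthonormal basis,
  `w = ∑ s, betB (X s) w • X s = ∑ s, (∑ i, (X s).1 i ⬝ y.1 i + (X s).2 ⬝ y.2) • X s`.
  Take for `y` the standard basis vectors.
-/

set_option linter.all false

namespace Pool.Agent.EStab

open Matrix

variable {n k : ℕ}

private theorem StFrame_dot {ι : Type*} [Fintype ι] {A : Matrix ι ι ℝ} (hA : Aᵀ = A)
    (u v : ι → ℝ) : u ⬝ᵥ (A *ᵥ v) = v ⬝ᵥ (A *ᵥ u) := by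
  rw [dotProduct_mulVec, ← Matrix.mulVec_transpose, hA, dotProduct_comm]

private theorem StFrame_symm {A : Mt k} {Y' : Mi k} (hA : Aᵀ = A) (hY : Y'ᵀ = Y')
    (x y : EE n k) : betB A Y' x y = betB A Y' y x := by
  unfold betB
  rw [StFrame_dot hY x.2 y.2]
  congr 1
  exact Finset.sum_congr rfl fun i _ => StFrame_dot hA _ _

private theorem StFrame_pos {P : Mi k} (hP : Pr P) {A : Mt k} {Y : Mi k} (hA : A.PosDef)
    (hY : Y.PosDef) {x : EE n k} (hx : P *ᵥ x.2 = x.2) (hx0 : x ≠ 0) :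
    0 < betB A (P * Y * P) x x := by
  unfold betB
  have h1 : x.2 ⬝ᵥ ((P * Y * P) *ᵥ x.2) = x.2 ⬝ᵥ (Y *ᵥ x.2) := by
    rw [← Matrix.mulVec_mulVec, hx, ← Matrix.mulVec_mulVec, dotProduct_mulVec,
      ← Matrix.mulVec_transpose, hP.symm, hx]
  rw [h1]
  have h2 : ∀ {ι : Type} [Fintype ι] [DecidableEq ι] {M : Matrix ι ι ℝ}, M.PosDef →
      ∀ u : ι → ℝ, 0 ≤ u ⬝ᵥ (M *ᵥ u) := by
    intro ι _ _ M hM u
    have := hM.posSemidef.dotProduct_mulVec_nonneg u
    simpa using this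
  have h3 : ∀ {ι : Type} [Fintype ι] [DecidableEq ι] {M : Matrix ι ι ℝ}, M.PosDef →
      ∀ {u : ι → ℝ}, u ≠ 0 → 0 < u ⬝ᵥ (M *ᵥ u) := by
    intro ι _ _ M hM u hu
    have := hM.dotProduct_mulVec_pos hu
    simpa using this
  by_cases hm : x.2 = 0
  · have h4 : ∃ i, x.1 i ≠ 0 := by
      by_contra hcon
      push Not at hcon
      exact hx0 (Prod.ext (funext hcon) hm)
    obtain ⟨i, hi⟩ := h4
    have h5 : 0 < ∑ i, x.1 i ⬝ᵥ (A *ᵥ x.1 i) :=
      Finset.sum_pos' (fun j _ => h2 hA _) ⟨i, Finset.mem_univ _, h3 hA hi⟩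
    have h6 := h2 hY x.2
    linarith
  · have h5 : 0 ≤ ∑ i, x.1 i ⬝ᵥ (A *ᵥ x.1 i) :=
      Finset.sum_nonneg fun j _ => h2 hA _
    have h6 := h3 hY hm
    linarith

private theorem StFrame_add (A : Mt k) (Y' : Mi k) (x x' y : EE n k) :
    betB A Y' (x + x') y = betB A Y' x y + betB A Y' x' y := by
  unfold betB
  simp only [Prod.fst_add, Prod.snd_add, Pi.add_apply, add_dotProduct, Finset.sum_add_distrib]
  ring

private theorem StFrame_smul (A : Mt k) (Y' : Mi k) (t : ℝ) (x y : EE n k) :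
    betB A Y' (t • x) y = t * betB A Y' x y := by
  unfold betB
  simp only [Prod.smul_fst, Prod.smul_snd, Pi.smul_apply, smul_dotProduct, smul_eq_mul,
    ← Finset.mul_sum]
  ring

private theorem StFrame_add' (A : Mt k) (Y' : Mi k) (x y y' : EE n k) :
    betB A Y' x (y + y') = betB A Y' x y + betB A Y' x y' := by
  unfold betB
  simp only [Prod.fst_add, Prod.snd_add, Pi.add_apply, Matrix.mulVec_add, dotProduct_add,
    Finset.sum_add_distrib]
  ring

private theorem StFrame_smul' (A : Mt k) (Y' : Mi k) (t : ℝ) (x y : EE n k) :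
    betB A Y' x (t • y) = t * betB A Y' x y := by
  unfold betB
  simp only [Prod.smul_fst, Prod.smul_snd, Pi.smul_apply, Matrix.mulVec_smul, dotProduct_smul,
    smul_eq_mul, ← Finset.mul_sum]
  ring

private noncomputable def StFrame_B (n : ℕ) (A : Mt k) (Y' : Mi k) :
    LinearMap.BilinForm ℝ (EE n k) :=
  LinearMap.mk₂ ℝ (betB A Y') (StFrame_add A Y') (StFrame_smul A Y')
    (StFrame_add' A Y') (StFrame_smul' A Y')

private noncomputable def StFrame_m (n : ℕ) (P : Mi k) : Submodule ℝ (EE n k) where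
  carrier := {x | P *ᵥ x.2 = x.2}
  add_mem' := by
    intro x y hx hy
    simp only [Set.mem_ofPred_eq] at hx hy ⊢
    rw [Prod.snd_add, Matrix.mulVec_add, hx, hy]
  zero_mem' := by
    simp
  smul_mem' := by
    intro t x hx
    simp only [Set.mem_ofPred_eq] at hx ⊢
    rw [Prod.smul_snd, Matrix.mulVec_smul, hx]

theorem exists_onbB {P : Mi k} (hP : Pr P) {A : Mt k} {Y : Mi k} (hA : A.PosDef)
    (hY : Y.PosDef) :
    ∃ (D : ℕ) (X : Fin D → EE n k),
      (∀ x : EE n k, P *ᵥ x.2 = x.2 ↔ x ∈ Submodule.span ℝ (Set.range X)) ∧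
      ∀ i j, betB A (P * Y * P) (X i) (X j) = if i = j then 1 else 0 := by
  set m := StFrame_m n P with hm
  set B : LinearMap.BilinForm ℝ m := (StFrame_B n A (P * Y * P)).restrict m with hB
  have hAt : Aᵀ = A := by
    have := hA.isHermitian
    simpa [Matrix.IsHermitian, Matrix.conjTranspose_eq_transpose_of_trivial] using this
  have hYt : Yᵀ = Y := by
    have := hY.isHermitian
    simpa [Matrix.IsHermitian, Matrix.conjTranspose_eq_transpose_of_trivial] using this
  have hPYP : (P * Y * P)ᵀ = P * Y * P := by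
    rw [Matrix.transpose_mul, Matrix.transpose_mul, hP.symm, hYt, Matrix.mul_assoc]
  have hBapp : ∀ u v : m, B u v = betB A (P * Y * P) (u : EE n k) (v : EE n k) :=
    fun u v => rfl
  have hsymm : LinearMap.IsSymm B := ⟨fun u v => by
    rw [hBapp, RingHom.id_apply, hBapp]
    exact StFrame_symm hAt hPYP _ _⟩
  obtain ⟨v, hv⟩ := LinearMap.BilinForm.exists_orthogonal_basis hsymm
  have hpos : ∀ i, 0 < B (v i) (v i) := by
    intro i
    rw [hBapp]
    refine StFrame_pos hP hA hY (v i).2 ?_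
    intro h0
    exact v.ne_zero i (Subtype.ext h0)
  refine ⟨Module.finrank ℝ m, fun i => (Real.sqrt (B (v i) (v i)))⁻¹ • (v i : EE n k),
    ?_, ?_⟩
  · intro x
    have hspan : Submodule.span ℝ (Set.range fun i => (Real.sqrt (B (v i) (v i)))⁻¹ •
        (v i : EE n k)) = m := by
      have h1 : Submodule.span ℝ (Set.range fun i => (v i : EE n k)) = m := by
        have h2 : (Set.range fun i => (v i : EE n k)) = m.subtype '' Set.range v := by
          rw [← Set.range_comp]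
          rfl
        rw [h2, Submodule.span_image, v.span_eq, Submodule.map_top, Submodule.range_subtype]
      refine Eq.trans ?_ h1
      apply le_antisymm
      · rw [Submodule.span_le]
        rintro _ ⟨i, rfl⟩
        exact Submodule.smul_mem _ _ (Submodule.subset_span ⟨i, rfl⟩)
      · rw [Submodule.span_le]
        rintro _ ⟨i, rfl⟩
        have h3 : (v i : EE n k) = Real.sqrt (B (v i) (v i)) •
            ((Real.sqrt (B (v i) (v i)))⁻¹ • (v i : EE n k)) := by
          rw [smul_smul, mul_inv_cancel₀ (Real.sqrt_pos.2 (hpos i)).ne', one_smul]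
        show (v i : EE n k) ∈ _
        rw [h3]
        exact Submodule.smul_mem _ _ (Submodule.subset_span ⟨i, rfl⟩)
    rw [hspan]
    exact Iff.rfl
  · intro i j
    rw [StFrame_smul, StFrame_smul', ← hBapp]
    split_ifs with hij
    · subst hij
      have h4 := Real.mul_self_sqrt (hpos i).le
      have h5 := (Real.sqrt_pos.2 (hpos i)).ne'
      generalize B (v i) (v i) = r at h4 h5 ⊢
      generalize Real.sqrt r = q at h4 h5 ⊢
      rw [← h4]
      field_simp
    · have h6 : B (v i) (v j) = 0 := hv hij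
      rw [h6, mul_zero, mul_zero]

private theorem StFrame_key {P : Mi k} (hP : Pr P) {A : Mt k} {Y : Mi k} (hA : A.PosDef)
    (hY : Y.PosDef) (hc : P * Y = Y * P) {D : ℕ} {X : Fin D → EE n k}
    (hspan : ∀ x : EE n k, P *ᵥ x.2 = x.2 ↔ x ∈ Submodule.span ℝ (Set.range X))
    (hort : ∀ i j, betB A (P * Y * P) (X i) (X j) = if i = j then 1 else 0) (y : EE n k) :
    ∑ s, (∑ i, (X s).1 i ⬝ᵥ y.1 i + (X s).2 ⬝ᵥ y.2) • X s =
      ((fun i => A⁻¹ *ᵥ y.1 i, (P * Y⁻¹ * P) *ᵥ y.2) : EE n k) := by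
  have hAu : A * A⁻¹ = 1 := by
    rw [Matrix.mul_nonsing_inv _ ((Matrix.isUnit_iff_isUnit_det _).1 hA.isUnit)]
  have hYu : Y * Y⁻¹ = 1 := by
    rw [Matrix.mul_nonsing_inv _ ((Matrix.isUnit_iff_isUnit_det _).1 hY.isUnit)]
  have hPP := hP.idem
  set w : EE n k := (fun i => A⁻¹ *ᵥ y.1 i, (P * Y⁻¹ * P) *ᵥ y.2) with hw
  have hwm : P *ᵥ w.2 = w.2 := by
    show P *ᵥ ((P * Y⁻¹ * P) *ᵥ y.2) = (P * Y⁻¹ * P) *ᵥ y.2
    rw [Matrix.mulVec_mulVec, ← Matrix.mul_assoc, ← Matrix.mul_assoc, hPP]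
  have hYZ : (P * Y * P) * (P * Y⁻¹ * P) = P := by
    calc (P * Y * P) * (P * Y⁻¹ * P) = (P * Y) * ((P * P) * Y⁻¹) * P := by
          simp only [Matrix.mul_assoc]
      _ = (P * P) * (Y * Y⁻¹) * P := by
          rw [hPP, hc, Matrix.mul_assoc Y P, ← Matrix.mul_assoc P P, hPP, ← Matrix.mul_assoc Y P,
            ← hc]
          simp only [Matrix.mul_assoc]
      _ = P := by rw [hYu, Matrix.mul_one, hPP, hPP]
  have key : ∀ x : EE n k, P *ᵥ x.2 = x.2 →
      betB A (P * Y * P) x w = ∑ i, x.1 i ⬝ᵥ y.1 i + x.2 ⬝ᵥ y.2 := by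
    intro x hx
    show ∑ i, x.1 i ⬝ᵥ (A *ᵥ (A⁻¹ *ᵥ y.1 i)) + x.2 ⬝ᵥ ((P * Y * P) *ᵥ ((P * Y⁻¹ * P) *ᵥ y.2)) = _
    rw [Matrix.mulVec_mulVec, hYZ]
    simp only [Matrix.mulVec_mulVec, hAu, Matrix.one_mulVec]
    congr 1
    rw [dotProduct_mulVec, ← Matrix.mulVec_transpose, hP.symm, hx]
  have hXm : ∀ s, P *ᵥ (X s).2 = (X s).2 := fun s =>
    (hspan _).2 (Submodule.subset_span ⟨s, rfl⟩)
  obtain ⟨c, hcw⟩ := (Submodule.mem_span_range_iff_exists_fun ℝ).1 ((hspan w).1 hwm)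
  have hbs : ∀ s, betB A (P * Y * P) (X s) w = c s := by
    intro s
    have h1 : betB A (P * Y * P) (X s) w =
        StFrame_B n A (P * Y * P) (X s) (∑ i, c i • X i) := by
      rw [hcw]
      rfl
    rw [h1, map_sum]
    simp only [map_smul, smul_eq_mul]
    have h2 : ∀ k, StFrame_B n A (P * Y * P) (X s) (X k) = if s = k then 1 else 0 :=
      fun k => hort s k
    simp only [h2, mul_ite, mul_one, mul_zero, Finset.sum_ite_eq, Finset.mem_univ, if_true]
  rw [← hcw]
  refine Finset.sum_congr rfl fun s _ => ?_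
  rw [← key _ (hXm s), hbs s]

theorem frameB {P : Mi k} (hP : Pr P) {A : Mt k} {Y : Mi k} (hA : A.PosDef) (hY : Y.PosDef)
    (hc : P * Y = Y * P) {D : ℕ} {X : Fin D → EE n k}
    (hspan : ∀ x : EE n k, P *ᵥ x.2 = x.2 ↔ x ∈ Submodule.span ℝ (Set.range X))
    (hort : ∀ i j, betB A (P * Y * P) (X i) (X j) = if i = j then 1 else 0) :
    (∀ i j a b, ∑ s, (X s).1 i a * (X s).1 j b = if i = j then A⁻¹ a b else 0) ∧
    (∀ p q, ∑ s, (X s).2 p * (X s).2 q = (P * Y⁻¹ * P) p q) ∧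
    ∀ i a q, ∑ s, (X s).1 i a * (X s).2 q = 0 := by
  have h1 : ∀ j b, ∑ s, (X s).1 j b • X s =
      ((fun i => A⁻¹ *ᵥ (Pi.single j (Pi.single b 1) : Fin n → Fin k → ℝ) i, 0) : EE n k) := by
    intro j b
    have h := StFrame_key hP hA hY hc hspan hort
      ((Pi.single j (Pi.single b 1), 0) : EE n k)
    simp only [dotProduct_zero, add_zero, Matrix.mulVec_zero] at h
    rw [← h]
    refine Finset.sum_congr rfl fun s _ => ?_
    congr 1
    rw [Finset.sum_eq_single j]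
    · rw [Pi.single_eq_same, dotProduct_single_one]
    · intro k _ hk
      rw [Pi.single_eq_of_ne hk, dotProduct_zero]
    · intro h
      exact absurd (Finset.mem_univ _) h
  have h2 : ∀ q, ∑ s, (X s).2 q • X s =
      ((0, (P * Y⁻¹ * P) *ᵥ (Pi.single q 1)) : EE n k) := by
    intro q
    have h := StFrame_key hP hA hY hc hspan hort ((0, Pi.single q 1) : EE n k)
    simp only [Pi.zero_apply, dotProduct_zero, Finset.sum_const_zero, zero_add,
      Matrix.mulVec_zero, dotProduct_single_one] at h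
    rw [h]
    rfl
  refine ⟨?_, ?_, ?_⟩
  · intro i j a b
    have h := congrArg (fun z : EE n k => z.1 i a) (h1 j b)
    simp only [Prod.fst_sum, Finset.sum_apply, Prod.smul_fst, Pi.smul_apply, smul_eq_mul] at h
    rw [show ∑ s, (X s).1 i a * (X s).1 j b = ∑ s, (X s).1 j b * (X s).1 i a from
      Finset.sum_congr rfl fun s _ => mul_comm _ _, h]
    split_ifs with hij
    · subst hij
      rw [Pi.single_eq_same, Matrix.mulVec_single_one]
      rfl
    · rw [Pi.single_eq_of_ne hij, Matrix.mulVec_zero]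
      rfl
  · intro p q
    have h := congrArg (fun z : EE n k => z.2 p) (h2 q)
    simp only [Prod.snd_sum, Finset.sum_apply, Prod.smul_snd, Pi.smul_apply, smul_eq_mul] at h
    rw [show ∑ s, (X s).2 p * (X s).2 q = ∑ s, (X s).2 q * (X s).2 p from
      Finset.sum_congr rfl fun s _ => mul_comm _ _, h, Matrix.mulVec_single_one]
    rfl
  · intro i a q
    have h := congrArg (fun z : EE n k => z.2 q) (h1 i a)
    simp only [Prod.snd_sum, Finset.sum_apply, Prod.smul_snd, Pi.smul_apply, smul_eq_mul,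
      Pi.zero_apply] at h
    exact h

end Pool.Agent.EStab
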