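import Pool.Agent.EStab.StAna

/-!
# The implicit function theorem for the Einstein equations of `SO(n+k)/(SO(n) × H)`
-/

namespace Pool.Agent.EStab

open Matrix Filter Topology
open scoped Matrix.Norms.Operator

attribute [-instance] instTopologicalSpaceMatrix Matrix.instUniformSpace

variable {k : ℕ}

theorem iftB_main {P0 : Mi k} (hPP : P0 * P0 = P0) :
    ∃ ψ : ℝ × Mi k → Mt k × Mi k, Tendsto ψ (𝓝 (0, P0)) (𝓝 (1, 1)) ∧
      (∀ᶠ q in 𝓝 ((0 : ℝ), P0), FB q (ψ q) = 0) ∧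
      ∃ r : ℝ, 0 < r ∧ ∀ᶠ q in 𝓝 ((0 : ℝ), P0), ∀ (A : Mt k) (Y : Mi k), ‖A - 1‖ < r →
        ‖Y - 1‖ < r → FB q (A, Y) = 0 → ψ q = (A, Y) := by
  classical
  haveI : CompleteSpace (Mt k) := FiniteDimensional.complete ℝ (Mt k)
  haveI : CompleteSpace (Mi k) := FiniteDimensional.complete ℝ (Mi k)
  obtain ⟨f, hf⟩ : ∃ f : (ℝ × Mi k) × (Mt k × Mi k) → Mt k × Mi k,
    f = fun w => FB w.1 w.2 := ⟨_, rfl⟩
  obtain ⟨u, hu⟩ : ∃ u : (ℝ × Mi k) × (Mt k × Mi k), u = ((0, P0), (1, 1)) := ⟨_, rfl⟩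
  have hu1 : u.1 = (0, P0) := by rw [hu]
  have hu2 : u.2 = (1, 1) := by rw [hu]
  have hsm : ContDiffAt ℝ 1 f u := by
    rw [hf]
    exact contDiffAt_FB contDiffAt_fst contDiffAt_snd hu2
  have hfu : f u = 0 := by
    rw [hf, hu]
    exact FB_base hPP
  have hder : ∀ ζ : Mt k × Mi k, fderiv ℝ f u (0, ζ) =
      (-ζ.1, CC P0 ζ.1 + (2 : ℝ) • (P0 * ζ.2 * P0) - ζ.2) := by
    intro ζ
    have h1 : HasFDerivAt f (fderiv ℝ f u) u :=
      (hsm.differentiableAt (by norm_num)).hasFDerivAt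
    have h2 : HasDerivAt (fun t : ℝ => (((0 : ℝ), P0), ((1 : Mt k), (1 : Mi k)) + t • ζ))
        ((0 : ℝ × Mi k), ζ) 0 := by
      have h3 := ((hasDerivAt_id (0 : ℝ)).smul_const ζ).const_add ((1 : Mt k), (1 : Mi k))
      have h4 : HasDerivAt (fun _ : ℝ => ((0 : ℝ), P0)) (0 : ℝ × Mi k) 0 :=
        hasDerivAt_const _ _
      refine HasDerivAt.prodMk h4 ?_
      simpa using h3
    have h5 : (((0 : ℝ), P0), ((1 : Mt k), (1 : Mi k)) + (0 : ℝ) • ζ) = u := by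
      rw [zero_smul, add_zero, hu]
    have h6 : HasDerivAt (fun t : ℝ => f (((0 : ℝ), P0), ((1 : Mt k), (1 : Mi k)) + t • ζ))
        (fderiv ℝ f u (0, ζ)) 0 := by
      have h7 : HasFDerivAt f (fderiv ℝ f u)
          (((0 : ℝ), P0), ((1 : Mt k), (1 : Mi k)) + (0 : ℝ) • ζ) := by
        rw [h5]
        exact h1
      exact h7.comp_hasDerivAt (0 : ℝ) h2
    have h8 := hasDerivAt_FB hPP ζ.1 ζ.2
    have e1 : (fun t : ℝ => f (((0 : ℝ), P0), ((1 : Mt k), (1 : Mi k)) + t • ζ)) =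
        fun t : ℝ => FB (0, P0) (1 + t • ζ.1, 1 + t • ζ.2) := by
      funext t
      rw [hf]
      rfl
    rw [e1] at h6
    exact h6.unique h8
  have hinv : (fderiv ℝ f u ∘L .inr ℝ (ℝ × Mi k) (Mt k × Mi k)).IsInvertible := by
    have hinj : Function.Injective (fderiv ℝ f u ∘L .inr ℝ (ℝ × Mi k) (Mt k × Mi k)) := by
      rw [injective_iff_map_eq_zero]
      intro ζ hζ
      have h1 : fderiv ℝ f u (0, ζ) = 0 := hζ
      rw [hder ζ] at h1
      have h2 : -ζ.1 = 0 := congrArg Prod.fst h1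
      have h3 : CC P0 ζ.1 + (2 : ℝ) • (P0 * ζ.2 * P0) - ζ.2 = 0 := congrArg Prod.snd h1
      have h7 : ζ.1 = 0 := neg_eq_zero.1 h2
      rw [h7, CC_zero, zero_add] at h3
      have h10 : ζ.2 = (2 : ℝ) • (P0 * ζ.2 * P0) := (sub_eq_zero.1 h3).symm
      have h12 : P0 * ζ.2 * P0 = (2 : ℝ) • (P0 * ζ.2 * P0) := by
        conv_lhs => rw [h10]
        simp only [Matrix.mul_smul, Matrix.smul_mul, ← Matrix.mul_assoc, hPP]
        simp only [Matrix.mul_assoc, hPP]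
      have h13 : P0 * ζ.2 * P0 = 0 := by
        have h14 : P0 * ζ.2 * P0
            = (2 : ℝ) • (P0 * ζ.2 * P0) - P0 * ζ.2 * P0 := by module
        rw [← h12, sub_self] at h14
        exact h14
      rw [h13, smul_zero] at h10
      exact Prod.ext h7 h10
    refine ⟨(LinearEquiv.ofInjectiveEndo
      ((fderiv ℝ f u ∘L .inr ℝ (ℝ × Mi k) (Mt k × Mi k) :
        (Mt k × Mi k) →L[ℝ] (Mt k × Mi k)) :
        (Mt k × Mi k) →ₗ[ℝ] (Mt k × Mi k)) hinj).toContinuousLinearEquiv,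
        ContinuousLinearMap.ext fun x => rfl⟩
  have hn : (1 : WithTop ℕ∞) ≠ 0 := one_ne_zero
  obtain ⟨φ, hφ1, hφ2, hφ3⟩ : ∃ φ : ℝ × Mi k → Mt k × Mi k, Tendsto φ (𝓝 u.1) (𝓝 u.2) ∧
      (∀ᶠ x in 𝓝 u.1, f (x, φ x) = f u) ∧ ∀ᶠ v in 𝓝 u, f v = f u ↔ φ v.1 = v.2 := by
    refine ⟨hsm.implicitFunction hn hinv, ?_, hsm.eventually_apply_implicitFunction hn hinv,
      hsm.eventually_apply_eq_iff_implicitFunction hn hinv⟩
    have h1 := (hsm.hasStrictFDerivAt_implicitFunction hn hinv).continuousAt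
    have h2 := hsm.implicitFunction_apply_self hn hinv
    rw [ContinuousAt, h2] at h1
    exact h1
  rw [hu1] at hφ1 hφ2
  rw [hu2] at hφ1
  refine ⟨φ, hφ1, ?_, ?_⟩
  · filter_upwards [hφ2] with q hq
    rw [hfu, hf] at hq
    exact hq
  · rw [Metric.eventually_nhds_iff] at hφ3
    obtain ⟨r, hr, h1⟩ := hφ3
    refine ⟨r, hr, ?_⟩
    have h2 : ∀ᶠ q in 𝓝 ((0 : ℝ), P0), dist q (0, P0) < r := Metric.ball_mem_nhds _ hr
    filter_upwards [h2] with q hq A Y hA1 hY1 hFF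
    have h3 : dist ((q, (A, Y)) : (ℝ × Mi k) × (Mt k × Mi k)) u < r := by
      rw [hu, Prod.dist_eq, Prod.dist_eq]
      refine max_lt hq (max_lt ?_ ?_)
      · show dist A 1 < r
        rw [dist_eq_norm]
        exact hA1
      · show dist Y 1 < r
        rw [dist_eq_norm]
        exact hY1
    exact (h1 h3).1 (by
      rw [hfu, hf]
      exact hFF)

end Pool.Agent.EStab
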