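import Pool.Agent.EStab.StEq

/-!
# Invariance of the Einstein equations of `SO(n+k)/(SO(n) × H)`, and positive definiteness
-/

namespace Pool.Agent.EStab

open Matrix

variable {k : ℕ}

/-! ### General lemmas on orthogonal conjugation -/

section Gen

variable {ι : Type*} [Fintype ι] [DecidableEq ι]

theorem cj_mul {κ : Matrix ι ι ℝ} (hκ : κ * κᵀ = 1) (A B : Matrix ι ι ℝ) :
    (κ * A * κᵀ) * (κ * B * κᵀ) = κ * (A * B) * κᵀ := by
  have hκ' : κᵀ * κ = 1 := mul_eq_one_comm.1 hκ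
  calc (κ * A * κᵀ) * (κ * B * κᵀ) = κ * A * (κᵀ * κ) * B * κᵀ := by
        simp only [Matrix.mul_assoc]
    _ = κ * (A * B) * κᵀ := by rw [hκ', Matrix.mul_one]; simp only [Matrix.mul_assoc]

theorem cj_inv {κ : Matrix ι ι ℝ} (hκ : κ * κᵀ = 1) (A : Matrix ι ι ℝ) :
    (κ * A * κᵀ)⁻¹ = κ * A⁻¹ * κᵀ := by
  have hκ' : κᵀ * κ = 1 := mul_eq_one_comm.1 hκ
  have h1 : κ⁻¹ = κᵀ := Matrix.inv_eq_right_inv hκ
  have h2 : (κᵀ)⁻¹ = κ := Matrix.inv_eq_right_inv hκ'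
  rw [Matrix.mul_inv_rev, Matrix.mul_inv_rev, h1, h2, Matrix.mul_assoc]

theorem cj_one {κ : Matrix ι ι ℝ} (hκ : κ * κᵀ = 1) : κ * 1 * κᵀ = 1 := by
  rw [Matrix.mul_one, hκ]

theorem cj_add (κ A B : Matrix ι ι ℝ) : κ * (A + B) * κᵀ = κ * A * κᵀ + κ * B * κᵀ := by
  rw [Matrix.mul_add, Matrix.add_mul]

theorem cj_sub (κ A B : Matrix ι ι ℝ) : κ * (A - B) * κᵀ = κ * A * κᵀ - κ * B * κᵀ := by
  rw [Matrix.mul_sub, Matrix.sub_mul]

theorem cj_smul (t : ℝ) (κ A : Matrix ι ι ℝ) : κ * (t • A) * κᵀ = t • (κ * A * κᵀ) := by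
  rw [Matrix.mul_smul, Matrix.smul_mul]

/-- A symmetric matrix close to the identity is positive definite. -/
theorem posDef_near {A : Matrix ι ι ℝ} (hA : Aᵀ = A)
    (h : ∀ i j, |(A - 1) i j| < 1 / ((Fintype.card ι : ℝ) + 1)) : A.PosDef := by
  refine Matrix.PosDef.of_dotProduct_mulVec_pos ?_ fun x hx => ?_
  · rw [Matrix.IsHermitian, Matrix.conjTranspose_eq_transpose_of_trivial]
    exact hA
  · have hd : (0 : ℝ) < (Fintype.card ι : ℝ) + 1 := by positivity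
    have hpos : 0 < ∑ i, x i ^ 2 := by
      obtain ⟨i, hi⟩ : ∃ i, x i ≠ 0 := by
        by_contra hcon
        push Not at hcon
        exact hx (funext hcon)
      exact Finset.sum_pos' (fun i _ => sq_nonneg _) ⟨i, Finset.mem_univ i, by positivity⟩
    have h1 : star x ⬝ᵥ (A *ᵥ x) = ∑ i, x i ^ 2 + ∑ i, ∑ j, x i * ((A - 1) i j * x j) := by
      have h2 : A = 1 + (A - 1) := by abel
      have h3 : star x = x := by
        funext i
        simp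
      rw [h3]
      conv_lhs => rw [h2, Matrix.add_mulVec, Matrix.one_mulVec, dotProduct_add]
      congr 1
      · simp only [dotProduct, sq]
      · simp only [dotProduct, Matrix.mulVec, Finset.mul_sum]
    have h4 : |∑ i, ∑ j, x i * ((A - 1) i j * x j)|
        ≤ ∑ i : ι, ∑ j : ι, (1 / ((Fintype.card ι : ℝ) + 1)) * ((x i ^ 2 + x j ^ 2) / 2) := by
      refine (Finset.abs_sum_le_sum_abs _ _).trans (Finset.sum_le_sum fun i _ => ?_)
      refine (Finset.abs_sum_le_sum_abs _ _).trans (Finset.sum_le_sum fun j _ => ?_)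
      rw [abs_mul, abs_mul]
      have h5 : |x i| * |x j| ≤ (x i ^ 2 + x j ^ 2) / 2 := by
        have := two_mul_le_add_sq |x i| |x j|
        rw [sq_abs, sq_abs] at this
        linarith
      have h6 := (h i j).le
      have h7 : 0 ≤ |x i| * |x j| := by positivity
      calc |x i| * (|(A - 1) i j| * |x j|) = |(A - 1) i j| * (|x i| * |x j|) := by ring
        _ ≤ (1 / ((Fintype.card ι : ℝ) + 1)) * ((x i ^ 2 + x j ^ 2) / 2) :=
            mul_le_mul h6 h5 h7 (by positivity)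
    have h8 : ∑ i : ι, ∑ j : ι, (1 / ((Fintype.card ι : ℝ) + 1)) * ((x i ^ 2 + x j ^ 2) / 2)
        = ((Fintype.card ι : ℝ) / ((Fintype.card ι : ℝ) + 1)) * ∑ i, x i ^ 2 := by
      simp only [← Finset.mul_sum, ← Finset.sum_div, Finset.sum_add_distrib, Finset.sum_const,
        Finset.card_univ, nsmul_eq_mul]
      field_simp
      ring
    rw [h1]
    rw [h8] at h4
    have h9 := (abs_le.1 h4).1
    have h10 : ((Fintype.card ι : ℝ) / ((Fintype.card ι : ℝ) + 1)) * ∑ i, x i ^ 2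
        < ∑ i, x i ^ 2 := by
      have : (Fintype.card ι : ℝ) / ((Fintype.card ι : ℝ) + 1) < 1 := by
        rw [div_lt_one hd]
        linarith
      nlinarith
    linarith

end Gen

/-! ### Equivariance of the equations -/

theorem RA_conj {Q : Mt k} (hQ : Q * Qᵀ = 1) {ε : ℝ} {P : Mi k}
    (hP : Kr Q Q * P * (Kr Q Q)ᵀ = P) (A : Mt k) (Y : Mi k) :
    RA ε P (Q * A * Qᵀ) (Kr Q Q * Y * (Kr Q Q)ᵀ) = Q * RA ε P A Y * Qᵀ := by
  have hK := Kr_orth hQ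
  have e1 : P * (Kr Q Q * Y * (Kr Q Q)ᵀ) * P = Kr Q Q * (P * Y * P) * (Kr Q Q)ᵀ := by
    conv_lhs => rw [← hP]
    rw [cj_mul hK, cj_mul hK]
  have e2 : P * (Kr Q Q * Y⁻¹ * (Kr Q Q)ᵀ) * P = Kr Q Q * (P * Y⁻¹ * P) * (Kr Q Q)ᵀ := by
    conv_lhs => rw [← hP]
    rw [cj_mul hK, cj_mul hK]
  unfold RA
  rw [cj_inv hQ, cj_inv hK, e1, e2, NN_conj hQ, NN_conj hQ, NN_conj hQ, cj_mul hQ, cj_mul hQ,
    cj_add, cj_smul, cj_smul, cj_add, cj_sub, cj_smul, cj_smul, cj_smul, cj_one hQ]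

theorem RY_conj {Q : Mt k} (hQ : Q * Qᵀ = 1) {ε : ℝ} {P : Mi k}
    (hP : Kr Q Q * P * (Kr Q Q)ᵀ = P) (A : Mt k) (Y : Mi k) :
    RY ε P (Q * A * Qᵀ) (Kr Q Q * Y * (Kr Q Q)ᵀ) = Kr Q Q * RY ε P A Y * (Kr Q Q)ᵀ := by
  have hK := Kr_orth hQ
  have e1 : P * (Kr Q Q * Y * (Kr Q Q)ᵀ) * P = Kr Q Q * (P * Y * P) * (Kr Q Q)ᵀ := by
    conv_lhs => rw [← hP]
    rw [cj_mul hK, cj_mul hK]
  have e2 : P * (Kr Q Q * Y⁻¹ * (Kr Q Q)ᵀ) * P = Kr Q Q * (P * Y⁻¹ * P) * (Kr Q Q)ᵀ := by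
    conv_lhs => rw [← hP]
    rw [cj_mul hK, cj_mul hK]
  unfold RY
  rw [cj_inv hQ, cj_inv hK, e1, e2, Kr_conj, Kr_conj, TT_conj hQ, TT_conj hQ, cj_mul hK, cj_mul hK,
    cj_mul hK, cj_mul hK, cj_add, cj_add, cj_add, cj_smul, cj_smul, cj_smul, cj_add, cj_smul,
    cj_smul, cj_one hK]

theorem goodB_of_eq {ε : ℝ} {P : Mi k} {A : Mt k} {Y : Mi k} (hPP : P * P = P) (hA : A.PosDef)
    (hY : Y.PosDef) (h1 : RA ε P A Y - A = 0) (h2 : P * RY ε P A Y * P - Y + (1 - P) = 0) :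
    GoodB ε P A Y := by
  have e1 : Y = P * RY ε P A Y * P + (1 - P) := by
    have h3 : P * RY ε P A Y * P + (1 - P) - Y = 0 := by
      rw [← h2]
      abel
    exact (sub_eq_zero.1 h3).symm
  have hP0 : P * (1 - P) = 0 := by rw [Matrix.mul_sub, Matrix.mul_one, hPP, sub_self]
  have hP0' : (1 - P) * P = 0 := by rw [Matrix.sub_mul, Matrix.one_mul, hPP, sub_self]
  have e2 : P * Y = P * RY ε P A Y * P := by
    conv_lhs => rw [e1]
    rw [Matrix.mul_add, hP0, add_zero]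
    simp only [← Matrix.mul_assoc, hPP]
  have e3 : Y * P = P * RY ε P A Y * P := by
    conv_lhs => rw [e1]
    rw [Matrix.add_mul, hP0', add_zero]
    simp only [Matrix.mul_assoc, hPP]
  refine ⟨hA, hY, by rw [e2, e3], sub_eq_zero.1 h1, ?_⟩
  rw [e2]
  simp only [Matrix.mul_assoc, hPP]

/-! ### The equations at `ε = 0` -/

theorem RA_zero (P : Mi k) (A : Mt k) (Y : Mi k) : RA 0 P A Y = 1 := by
  unfold RA
  simp only [mul_zero, add_zero, one_smul, zero_smul]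

theorem RY_zero (P : Mi k) (A : Mt k) (Y : Mi k) : RY 0 P A Y
    = -(1 / 2 : ℝ) • Kr A⁻¹ A + (1 / 2 : ℝ) • 1 + (P * Y * P) * Kr A⁻¹ A⁻¹ * (P * Y * P) := by
  unfold RY
  simp only [mul_zero, add_zero, mul_one, zero_smul]

end Pool.Agent.EStab
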