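import Pool.Agent.EStab.StFrame

/-!
# The Ricci curvature of the invariant metrics on `SO(n+k)/(SO(n) × H)`

Notation: `W = A⁻¹`, `Y' = P Y P`, `Z' = P Y⁻¹ P`; `x = (X, U)` with `P U = U`, rows `X_i ∈ ℝ^k`; `X_s` an
orthonormal basis.  Facts: `Y'`, `Z'`, `U`, `Y' U` are skew in the pairs of indices (`Pr.skew`), `Y'` and `Z'`
are symmetric matrices, `Y' P = Y'`.  The projection `prB P` can be dropped inside `betB A Y'`.

`sumB_T1`: by `frameB` (the mixed sums vanish)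
`∑ s, betB (brB x X_s) (brB x X_s) = (1) + (2) + (3) + (4)` with
(1) `∑ s, |X_s U|²_A = n U · (Kr W A) U`;
(2) `∑ s, |X_sᵀ X - Xᵀ X_s|²_{Y'} = 4 ∑ i, X_i · NN(Y', W) X_i` (skewness of `Y'` in both pairs);
(3) `∑ s, |X U_s|²_A = ∑ i, X_i · NN(Z', A) X_i`;
(4) `∑ s, [U, U_s] · Y' [U, U_s] = U · TT(Z', Y') U`.
The cross terms between (1),(3) and between (2),(4) vanish because of the mixed sums.

`sumB_T3`: put `V = Y' U` (skew), so `betB y x = ∑ i, y_i · (A X_i) + y_2 · V`.  Then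
`∑ s t, (betB (brB X_s X_t) x)² = (1) + (2) + (3)` with
(1) both in the first part: `[X_s, X_t] · V = -2 ∑ i a b, X^s_ia X^t_ib V_ab`, sum of squares
`4 n V · (Kr W W) V`;
(2) one in each part, twice: `∑ i a b, X^s_ia U^t_ab (A X_i)_b`, sum of squares
`∑ i, (A X_i) · NN(Z', W) (A X_i)` (use `Z' (a,b) (c,d) = Z' (b,a) (d,c)`);
(3) both in the second part: `[U_s, U_t] · V = U_s · [U_t, V]` for skew matrices, so the sum of squares is
`∑ t, [U_t, V] · Z' [U_t, V] = V · TT(Z', Z') V`.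

`bridgeB`: `-(1/2) T1 + (n+k-2)(|X|² + (1/2)|U|²) + (1/4) T3` is
`n ∑ i, X_i · (RA X_i) + n U · (RY U)` with `ε = 1/n`, hence `n betB x x` by `GoodB` and `P U = U`.
-/

namespace Pool.Agent.EStab

open Matrix

variable {n k : ℕ}

private theorem StRic_sum {α β : Type*} [Fintype α] [Fintype β] {D : ℕ} (f : α → ℝ) (g : β → ℝ)
    (F : Fin D → α → ℝ) (G : Fin D → β → ℝ) (C : α → β → ℝ)
    (h : ∀ a c, ∑ s, F s a * G s c = C a c) :
    ∑ s, (∑ a, f a * F s a) * (∑ c, g c * G s c) = ∑ a, ∑ c, f a * g c * C a c := by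
  simp only [Finset.sum_mul_sum]
  rw [Finset.sum_comm]
  refine Finset.sum_congr rfl fun a _ => ?_
  rw [Finset.sum_comm]
  refine Finset.sum_congr rfl fun c _ => ?_
  rw [← h a c, Finset.mul_sum]
  refine Finset.sum_congr rfl fun s _ => ?_
  ring

private theorem StRic_quad {α : Type*} [Fintype α] {D : ℕ} (B : Matrix α α ℝ)
    (φ : Fin D → α → ℝ) :
    ∑ s, φ s ⬝ᵥ (B *ᵥ φ s) = ∑ b, ∑ d, B b d * ∑ s, φ s b * φ s d := by
  simp only [dotProduct, mulVec, Finset.mul_sum]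
  rw [Finset.sum_comm]
  refine Finset.sum_congr rfl fun b _ => ?_
  rw [Finset.sum_comm]
  refine Finset.sum_congr rfl fun d _ => Finset.sum_congr rfl fun s _ => ?_
  ring

/-- The matrix of the commutator with `U`. -/
private def StRic_ad (U : Fin k × Fin k → ℝ) : Mi k := ∑ p, U p • adk p

private theorem StRic_ad_apply (U : Fin k × Fin k → ℝ) (p r : Fin k × Fin k) :
    StRic_ad U p r = (if p.2 = r.2 then U (p.1, r.1) else 0)
      - (if p.1 = r.1 then U (r.2, p.2) else 0) := by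
  unfold StRic_ad
  rw [Matrix.sum_apply]
  simp only [Matrix.smul_apply, adk, Matrix.of_apply, smul_eq_mul, mul_sub, mul_ite, mul_one,
    mul_zero, Finset.sum_sub_distrib]
  congr 1
  · rw [Finset.sum_eq_single (p.1, r.1)]
    · by_cases h : p.2 = r.2
      · rw [if_pos h, if_pos]
        exact ⟨rfl, Prod.ext rfl h⟩
      · rw [if_neg h, if_neg]
        rintro ⟨-, h2⟩
        have h3 := congrArg Prod.snd h2
        exact h h3
    · intro q _ hq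
      rw [if_neg]
      rintro ⟨h1, h2⟩
      exact hq (Prod.ext (congrArg Prod.fst h2).symm h1)
    · intro h
      exact absurd (Finset.mem_univ _) h
  · rw [Finset.sum_eq_single (r.2, p.2)]
    · by_cases h : p.1 = r.1
      · rw [if_pos h, if_pos]
        exact ⟨rfl, Prod.ext h rfl⟩
      · rw [if_neg h, if_neg]
        rintro ⟨-, h2⟩
        have h3 := congrArg Prod.fst h2
        exact h h3
    · intro q _ hq
      rw [if_neg]
      rintro ⟨h1, h2⟩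
      exact hq (Prod.ext h1.symm (congrArg Prod.snd h2).symm)
    · intro h
      exact absurd (Finset.mem_univ _) h

private theorem StRic_ad_mulVec (U V : Fin k × Fin k → ℝ) (p : Fin k × Fin k) :
    (StRic_ad U *ᵥ V) p = ∑ r, (U (p.1, r) * V (r, p.2) - V (p.1, r) * U (r, p.2)) := by
  simp only [mulVec, dotProduct, StRic_ad_apply, Fintype.sum_prod_type, sub_mul, ite_mul, zero_mul,
    Finset.sum_sub_distrib]
  congr 1
  · refine Finset.sum_congr rfl fun r _ => ?_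
    rw [Finset.sum_ite_eq, if_pos (Finset.mem_univ _)]
  · rw [Finset.sum_comm]
    refine Finset.sum_congr rfl fun r _ => ?_
    rw [Finset.sum_ite_eq, if_pos (Finset.mem_univ _), mul_comm]

private theorem StRic_TT (Z Y : Mi k) (U : Fin k × Fin k → ℝ) :
    U ⬝ᵥ (TT Z Y *ᵥ U) =
      ∑ p, ∑ q, Y p q * ∑ r, ∑ r', StRic_ad U p r * StRic_ad U q r' * Z r r' := by
  have h1 : U ⬝ᵥ (TT Z Y *ᵥ U) = trace (StRic_ad U * Z * (StRic_ad U)ᵀ * Yᵀ) := by
    unfold StRic_ad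
    simp only [dotProduct, mulVec, TT, Matrix.of_apply, Matrix.transpose_sum,
      Matrix.transpose_smul, Matrix.sum_mul, Matrix.trace_sum, Matrix.smul_mul,
      Matrix.mul_smul, Matrix.trace_smul, smul_eq_mul, Finset.mul_sum]
    rw [Finset.sum_comm]
    refine Finset.sum_congr rfl fun v _ => Finset.sum_congr rfl fun u _ => ?_
    ring
  rw [h1, trace]
  refine Finset.sum_congr rfl fun p _ => ?_
  rw [Matrix.diag_apply, Matrix.mul_apply]
  refine Finset.sum_congr rfl fun q _ => ?_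
  rw [Matrix.transpose_apply, Matrix.mul_apply, mul_comm]
  congr 1
  simp only [Matrix.mul_apply, Matrix.transpose_apply, Finset.sum_mul]
  rw [Finset.sum_comm]
  refine Finset.sum_congr rfl fun r _ => Finset.sum_congr rfl fun r' _ => ?_
  ring

private theorem StRic_P {P : Mi k} (hP : Pr P) (u v : Fin k × Fin k → ℝ) :
    (P *ᵥ u) ⬝ᵥ v = u ⬝ᵥ (P *ᵥ v) := by
  rw [dotProduct_comm, Matrix.dotProduct_mulVec, ← Matrix.mulVec_transpose, hP.symm,
    dotProduct_comm]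

private theorem StRic_PYP {P : Mi k} (hP : Pr P) (Y : Mi k) :
    P * (P * Y * P) = P * Y * P ∧ (P * Y * P) * P = P * Y * P := by
  constructor
  · rw [← Matrix.mul_assoc, ← Matrix.mul_assoc, hP.idem]
  · rw [Matrix.mul_assoc, hP.idem]

private theorem StRic_skew {P : Mi k} (hP : Pr P) (Y : Mi k) (a b : Fin k) (q : Fin k × Fin k) :
    (P * Y * P) (b, a) q = -(P * Y * P) (a, b) q := by
  rw [Matrix.mul_assoc, Matrix.mul_apply, Matrix.mul_apply, ← Finset.sum_neg_distrib]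
  refine Finset.sum_congr rfl fun r _ => ?_
  rw [hP.skew, neg_mul]

private theorem StRic_skew' {P : Mi k} (hP : Pr P) (Y : Mi k) (a b : Fin k) (q : Fin k × Fin k) :
    (P * Y * P) q (b, a) = -(P * Y * P) q (a, b) := by
  have hsk : ∀ r, P r (b, a) = -P r (a, b) := by
    intro r
    have h1 := hP.skew a b r
    have h2 : ∀ u v, P u v = P v u := by
      intro u v
      conv_lhs => rw [← hP.symm]
      rfl
    rw [h2 r (b, a), h2 r (a, b), h1]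
  rw [Matrix.mul_apply, Matrix.mul_apply, ← Finset.sum_neg_distrib]
  refine Finset.sum_congr rfl fun r _ => ?_
  rw [hsk, mul_neg]

private theorem StRic_drop {P : Mi k} (hP : Pr P) (A : Mt k) (Y : Mi k) (u v : EE n k) :
    betB A (P * Y * P) (prB P u) (prB P v) = betB A (P * Y * P) u v := by
  have h1 : P *ᵥ ((P * Y * P) *ᵥ (P *ᵥ v.2)) = (P * Y * P) *ᵥ v.2 := by
    rw [Matrix.mulVec_mulVec, Matrix.mulVec_mulVec, (StRic_PYP hP Y).1, (StRic_PYP hP Y).2]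
  unfold betB prB
  simp only
  rw [StRic_P hP, h1]


private theorem StRic_NN (Y : Mi k) (W : Mt k) (u : Fin k → ℝ) :
    u ⬝ᵥ (NN Y W *ᵥ u) = ∑ p, ∑ q, Y p q * (u p.1 * u q.1 * W p.2 q.2) := by
  simp only [dotProduct, mulVec, NN, Matrix.of_apply, Finset.mul_sum, Finset.sum_mul,
    Fintype.sum_prod_type]
  refine Finset.sum_congr rfl fun a _ => ?_
  rw [Finset.sum_comm]
  refine Finset.sum_congr rfl fun b _ => Finset.sum_congr rfl fun c _ =>
    Finset.sum_congr rfl fun d _ => ?_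
  ring

private theorem StRic_Kr (W A : Mt k) (U : Fin k × Fin k → ℝ) :
    U ⬝ᵥ (Kr W A *ᵥ U) = ∑ p, ∑ q, U p * U q * (W p.1 q.1 * A p.2 q.2) := by
  simp only [dotProduct, mulVec, Kr, Matrix.of_apply, Finset.mul_sum]
  refine Finset.sum_congr rfl fun p _ => Finset.sum_congr rfl fun q _ => ?_
  ring

private theorem StRic_reord (A : Mt k) (F : Fin k × Fin k → Fin k × Fin k → ℝ) :
    ∑ b, ∑ d, A b d * ∑ a, ∑ c, F (a, b) (c, d) = ∑ p, ∑ q, F p q * A p.2 q.2 := by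
  simp only [Finset.mul_sum, Fintype.sum_prod_type]
  conv_rhs => rw [Finset.sum_comm]
  refine Finset.sum_congr rfl fun b _ => ?_
  rw [Finset.sum_comm]
  refine Finset.sum_congr rfl fun a _ => ?_
  rw [Finset.sum_comm]
  refine Finset.sum_congr rfl fun c _ => Finset.sum_congr rfl fun d _ => ?_
  ring

private theorem StRic_swap (f : Fin k × Fin k → ℝ) : ∑ p, f p = ∑ p : Fin k × Fin k, f (p.2, p.1) :=
  (Equiv.sum_comp (Equiv.prodComm (Fin k) (Fin k)) f).symm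

private theorem StRic_split3 {D : ℕ} (f1 f2 f3 g1 g2 g3 : Fin D → ℝ)
    (h13 : ∑ s, f1 s * g3 s = 0) (h23 : ∑ s, f2 s * g3 s = 0) (h31 : ∑ s, f3 s * g1 s = 0)
    (h32 : ∑ s, f3 s * g2 s = 0) :
    ∑ s, (f1 s + f2 s + f3 s) * (g1 s + g2 s + g3 s) =
      ∑ s, f1 s * g1 s + ∑ s, f1 s * g2 s + ∑ s, f2 s * g1 s + ∑ s, f2 s * g2 s
        + ∑ s, f3 s * g3 s := by
  have h : ∀ s, (f1 s + f2 s + f3 s) * (g1 s + g2 s + g3 s) =
      f1 s * g1 s + f1 s * g2 s + f2 s * g1 s + f2 s * g2 s + f3 s * g3 s + f1 s * g3 s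
        + f2 s * g3 s + f3 s * g1 s + f3 s * g2 s := by
    intro s
    ring
  simp only [h, Finset.sum_add_distrib, h13, h23, h31, h32, add_zero]

private theorem StRic_split2 {D : ℕ} (f1 f3 g1 g3 : Fin D → ℝ)
    (h13 : ∑ s, f1 s * g3 s = 0) (h31 : ∑ s, f3 s * g1 s = 0) :
    ∑ s, (f1 s + f3 s) * (g1 s + g3 s) = ∑ s, f1 s * g1 s + ∑ s, f3 s * g3 s := by
  have h : ∀ s, (f1 s + f3 s) * (g1 s + g3 s) =
      f1 s * g1 s + f3 s * g3 s + f1 s * g3 s + f3 s * g1 s := by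
    intro s
    ring
  simp only [h, Finset.sum_add_distrib, h13, h31, add_zero]

private theorem StRic_zero {α β : Type*} [Fintype α] [Fintype β] {D : ℕ} (f : α → ℝ) (g : β → ℝ)
    (F : Fin D → α → ℝ) (G : Fin D → β → ℝ) (h : ∀ a c, ∑ s, F s a * G s c = 0) :
    ∑ s, (∑ a, f a * F s a) * (∑ c, g c * G s c) = 0 := by
  rw [StRic_sum f g F G (fun _ _ => 0) h]
  simp

/-- skewness in both pairs of indices -/
private def StRic_Sk (Y : Mi k) : Prop :=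
  (∀ a b q, Y (b, a) q = -Y (a, b) q) ∧ ∀ a b q, Y q (b, a) = -Y q (a, b)

private theorem StRic_four {Y : Mi k} (hY : StRic_Sk Y) (W : Mt k) (u : Fin k → ℝ) :
    ∑ p, ∑ q, Y p q * (u p.2 * u q.2 * W p.1 q.1) =
      ∑ p, ∑ q, Y p q * (u p.1 * u q.1 * W p.2 q.2) ∧
    ∑ p, ∑ q, Y p q * (u p.2 * u q.1 * W p.1 q.2) =
      -∑ p, ∑ q, Y p q * (u p.1 * u q.1 * W p.2 q.2) ∧
    ∑ p, ∑ q, Y p q * (u p.1 * u q.2 * W p.2 q.1) =
      -∑ p, ∑ q, Y p q * (u p.1 * u q.1 * W p.2 q.2) := by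
  refine ⟨?_, ?_, ?_⟩
  · rw [StRic_swap]
    refine Finset.sum_congr rfl fun p _ => ?_
    rw [StRic_swap]
    refine Finset.sum_congr rfl fun q _ => ?_
    rw [hY.1 p.1 p.2, hY.2 q.1 q.2]
    simp only [neg_neg]
  · rw [StRic_swap, ← Finset.sum_neg_distrib]
    refine Finset.sum_congr rfl fun p _ => ?_
    rw [← Finset.sum_neg_distrib]
    refine Finset.sum_congr rfl fun q _ => ?_
    rw [hY.1 p.1 p.2]
    simp only [neg_mul]
  · rw [← Finset.sum_neg_distrib]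
    refine Finset.sum_congr rfl fun p _ => ?_
    rw [StRic_swap, ← Finset.sum_neg_distrib]
    refine Finset.sum_congr rfl fun q _ => ?_
    rw [hY.2 q.1 q.2]
    simp only [neg_mul]

/-- The frame relations. -/
private structure StRic_Fr {D : ℕ} (W : Mt k) (Z : Mi k) (X : Fin D → EE n k) : Prop where
  h1 : ∀ i j a b, ∑ s, (X s).1 i a * (X s).1 j b = if i = j then W a b else 0
  h2 : ∀ p q, ∑ s, (X s).2 p * (X s).2 q = Z p q
  h3 : ∀ i a q, ∑ s, (X s).1 i a * (X s).2 q = 0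

private theorem StRic_Fr.h3' {D : ℕ} {W : Mt k} {Z : Mi k} {X : Fin D → EE n k}
    (h : StRic_Fr W Z X) (i : Fin n) (a : Fin k) (q : Fin k × Fin k) :
    ∑ s, (X s).2 q * (X s).1 i a = 0 := by
  rw [← h.h3 i a q]
  exact Finset.sum_congr rfl fun s _ => mul_comm _ _

private theorem StRic_ite {W : ℝ} (f g : Fin n → ℝ) :
    ∑ i, ∑ j, f i * g j * (if i = j then W else 0) = ∑ i, f i * g i * W := by
  refine Finset.sum_congr rfl fun i _ => ?_
  simp only [mul_ite, mul_zero, Finset.sum_ite_eq, Finset.mem_univ, if_true]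

private theorem StRic_T1 {D : ℕ} {W A : Mt k} {Y Z : Mi k} {X : Fin D → EE n k}
    (hF : StRic_Fr W Z X) (hY : StRic_Sk Y) (x : EE n k) :
    ∑ s, betB A Y (brB x (X s)) (brB x (X s))
      = (n : ℝ) * (x.2 ⬝ᵥ (Kr W A *ᵥ x.2)) + 4 * ∑ i, x.1 i ⬝ᵥ (NN Y W *ᵥ x.1 i)
        + ∑ i, x.1 i ⬝ᵥ (NN Z A *ᵥ x.1 i) + x.2 ⬝ᵥ (TT Z Y *ᵥ x.2) := by
  have hb1 : ∀ s i b, (brB x (X s)).1 i b =
      ∑ a, x.1 i a * (X s).2 (a, b) + ∑ a, (-x.2 (a, b)) * (X s).1 i a := by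
    intro s i b
    show ∑ a, (x.1 i a * (X s).2 (a, b) - (X s).1 i a * x.2 (a, b)) = _
    rw [← Finset.sum_add_distrib]
    refine Finset.sum_congr rfl fun a _ => ?_
    ring
  have hb2 : ∀ s p, (brB x (X s)).2 p =
      ∑ i, x.1 i p.2 * (X s).1 i p.1 + ∑ i, (-x.1 i p.1) * (X s).1 i p.2
        + ∑ r, StRic_ad x.2 p r * (X s).2 r := by
    intro s p
    show (∑ i, ((X s).1 i p.1 * x.1 i p.2 - x.1 i p.1 * (X s).1 i p.2))
      + ∑ r, (x.2 (p.1, r) * (X s).2 (r, p.2) - (X s).2 (p.1, r) * x.2 (r, p.2)) = _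
    rw [← StRic_ad_mulVec, ← Finset.sum_add_distrib]
    congr 1
    refine Finset.sum_congr rfl fun i _ => ?_
    ring
  have e1 : ∀ i b d, ∑ s, (brB x (X s)).1 i b * (brB x (X s)).1 i d =
      ∑ a, ∑ c, (x.1 i a * x.1 i c * Z (a, b) (c, d) + x.2 (a, b) * x.2 (c, d) * W a c) := by
    intro i b d
    simp only [hb1]
    rw [StRic_split2 _ _ _ _ (StRic_zero _ _ _ _ fun a c => hF.h3' i c (a, b))
      (StRic_zero _ _ _ _ fun a c => hF.h3 i a (c, d)),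
      StRic_sum _ _ _ _ (fun a c => Z (a, b) (c, d)) (fun a c => hF.h2 (a, b) (c, d)),
      StRic_sum _ _ _ _ (fun a c => W a c) (fun a c => by
        rw [hF.h1 i i a c, if_pos rfl]), ← Finset.sum_add_distrib]
    refine Finset.sum_congr rfl fun a _ => ?_
    rw [← Finset.sum_add_distrib]
    refine Finset.sum_congr rfl fun c _ => ?_
    ring
  have e2 : ∀ p q, ∑ s, (brB x (X s)).2 p * (brB x (X s)).2 q =
      ∑ i, (x.1 i p.2 * x.1 i q.2 * W p.1 q.1 - x.1 i p.2 * x.1 i q.1 * W p.1 q.2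
        - x.1 i p.1 * x.1 i q.2 * W p.2 q.1 + x.1 i p.1 * x.1 i q.1 * W p.2 q.2)
      + ∑ r, ∑ r', StRic_ad x.2 p r * StRic_ad x.2 q r' * Z r r' := by
    intro p q
    simp only [hb2]
    rw [StRic_split3 _ _ _ _ _ _ (StRic_zero _ _ _ _ fun i r => hF.h3 i p.1 r)
      (StRic_zero _ _ _ _ fun i r => hF.h3 i p.2 r)
      (StRic_zero _ _ _ _ fun r i => hF.h3' i q.1 r)
      (StRic_zero _ _ _ _ fun r i => hF.h3' i q.2 r),
      StRic_sum _ _ _ _ (fun i j => if i = j then W p.1 q.1 else 0)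
        (fun i j => hF.h1 i j p.1 q.1),
      StRic_sum _ _ _ _ (fun i j => if i = j then W p.1 q.2 else 0)
        (fun i j => hF.h1 i j p.1 q.2),
      StRic_sum _ _ _ _ (fun i j => if i = j then W p.2 q.1 else 0)
        (fun i j => hF.h1 i j p.2 q.1),
      StRic_sum _ _ _ _ (fun i j => if i = j then W p.2 q.2 else 0)
        (fun i j => hF.h1 i j p.2 q.2),
      StRic_sum _ _ _ _ (fun r r' => Z r r') (fun r r' => hF.h2 r r'),
      StRic_ite, StRic_ite, StRic_ite, StRic_ite, ← Finset.sum_add_distrib,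
      ← Finset.sum_add_distrib, ← Finset.sum_add_distrib]
    congr 1
    refine Finset.sum_congr rfl fun i _ => ?_
    ring
  unfold betB
  rw [Finset.sum_add_distrib, Finset.sum_comm]
  have e3 : ∀ i, ∑ s, (brB x (X s)).1 i ⬝ᵥ (A *ᵥ (brB x (X s)).1 i) =
      x.1 i ⬝ᵥ (NN Z A *ᵥ x.1 i) + x.2 ⬝ᵥ (Kr W A *ᵥ x.2) := by
    intro i
    rw [StRic_quad A (fun s => (brB x (X s)).1 i)]
    simp only [e1]
    rw [StRic_reord A (fun p q => x.1 i p.1 * x.1 i q.1 * Z p q + x.2 p * x.2 q * W p.1 q.1),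
      StRic_NN, StRic_Kr, ← Finset.sum_add_distrib]
    refine Finset.sum_congr rfl fun p _ => ?_
    rw [← Finset.sum_add_distrib]
    refine Finset.sum_congr rfl fun q _ => ?_
    ring
  have e4 : ∑ s, (brB x (X s)).2 ⬝ᵥ (Y *ᵥ (brB x (X s)).2) =
      4 * ∑ i, x.1 i ⬝ᵥ (NN Y W *ᵥ x.1 i) + x.2 ⬝ᵥ (TT Z Y *ᵥ x.2) := by
    rw [StRic_quad Y (fun s => (brB x (X s)).2)]
    obtain ⟨G, hG⟩ : ∃ G : Fin n → Fin k × Fin k → Fin k × Fin k → ℝ, ∀ i p q, G i p q =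
        x.1 i p.2 * x.1 i q.2 * W p.1 q.1 - x.1 i p.2 * x.1 i q.1 * W p.1 q.2
        - x.1 i p.1 * x.1 i q.2 * W p.2 q.1 + x.1 i p.1 * x.1 i q.1 * W p.2 q.2 :=
      ⟨_, fun _ _ _ => rfl⟩
    have e5 : ∀ i, 4 * (x.1 i ⬝ᵥ (NN Y W *ᵥ x.1 i)) = ∑ p, ∑ q, Y p q * G i p q := by
      intro i
      obtain ⟨g1, g2, g3⟩ := StRic_four hY W (x.1 i)
      simp only [hG, mul_add, mul_sub, Finset.sum_add_distrib, Finset.sum_sub_distrib]
      rw [g1, g2, g3, StRic_NN]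
      ring
    have e6 : ∀ p q, Y p q * ∑ s, (brB x (X s)).2 p * (brB x (X s)).2 q =
        (∑ i, Y p q * G i p q)
          + Y p q * ∑ r, ∑ r', StRic_ad x.2 p r * StRic_ad x.2 q r' * Z r r' := by
      intro p q
      rw [e2 p q, mul_add, Finset.mul_sum]
      simp only [hG]
    have e7 : ∑ i, ∑ p, ∑ q, Y p q * G i p q = ∑ p, ∑ q, ∑ i, Y p q * G i p q := by
      rw [Finset.sum_comm]
      refine Finset.sum_congr rfl fun p _ => ?_
      rw [Finset.sum_comm]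
    rw [StRic_TT, Finset.mul_sum, Finset.sum_congr rfl fun i _ => e5 i,
      e7, ← Finset.sum_add_distrib]
    refine Finset.sum_congr rfl fun p _ => ?_
    rw [← Finset.sum_add_distrib]
    exact Finset.sum_congr rfl fun q _ => e6 p q
  rw [Finset.sum_congr rfl fun i _ => e3 i, e4, Finset.sum_add_distrib, Finset.sum_const,
    Finset.card_univ, Fintype.card_fin, nsmul_eq_mul]
  ring


private theorem StRic_r2 (f : Fin k → Fin k → Fin k → ℝ) :
    ∑ a, ∑ b, ∑ r, f a b r = ∑ a, ∑ b, ∑ r, f a r b :=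
  Finset.sum_congr rfl fun _ _ => Finset.sum_comm

private theorem StRic_r3 (f : Fin k → Fin k → Fin k → ℝ) :
    ∑ a, ∑ b, ∑ r, f a b r = ∑ a, ∑ b, ∑ r, f r b a := by
  rw [StRic_r2, Finset.sum_comm]
  exact Finset.sum_congr rfl fun _ _ => Finset.sum_comm

private theorem StRic_key {V : Fin k × Fin k → ℝ} (hV : ∀ a b, V (b, a) = -V (a, b))
    (α : Fin n → Fin k → ℝ) (y z : EE n k) (hy : ∀ a b, y.2 (b, a) = -y.2 (a, b)) :
    ∑ i, (brB y z).1 i ⬝ᵥ α i + (brB y z).2 ⬝ᵥ V =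
      ∑ q : Fin n × Fin k, (∑ b, (-α q.1 b) * y.2 (q.2, b) + ∑ b, (2 * V (q.2, b)) * y.1 q.1 b)
          * z.1 q.1 q.2
        + ∑ p, (∑ i, α i p.2 * y.1 i p.1 + ∑ r, StRic_ad V p r * y.2 r) * z.2 p := by
  have h1 : ∀ i, (brB y z).1 i ⬝ᵥ α i =
      ∑ p : Fin k × Fin k, α i p.2 * y.1 i p.1 * z.2 p
        + ∑ a, (∑ b, (-α i b) * y.2 (a, b)) * z.1 i a := by
    intro i
    have e : (brB y z).1 i ⬝ᵥ α i =
        ∑ b, ∑ a, (y.1 i a * z.2 (a, b) - z.1 i a * y.2 (a, b)) * α i b := by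
      show ∑ b, (∑ a, (y.1 i a * z.2 (a, b) - z.1 i a * y.2 (a, b))) * α i b = _
      exact Finset.sum_congr rfl fun b _ => Finset.sum_mul _ _ _
    rw [e, Fintype.sum_prod_type, Finset.sum_comm, ← Finset.sum_add_distrib]
    refine Finset.sum_congr rfl fun a _ => ?_
    rw [Finset.sum_mul, ← Finset.sum_add_distrib]
    refine Finset.sum_congr rfl fun b _ => ?_
    ring
  have h2 : (brB y z).2 ⬝ᵥ V =
      ∑ i, ∑ a, (∑ b, (2 * V (a, b)) * y.1 i b) * z.1 i a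
        + ∑ p, (∑ r, StRic_ad V p r * y.2 r) * z.2 p := by
    have e : (brB y z).2 ⬝ᵥ V =
        ∑ p : Fin k × Fin k, (∑ i, (z.1 i p.1 * y.1 i p.2 - y.1 i p.1 * z.1 i p.2)) * V p
        + ∑ p : Fin k × Fin k,
            (∑ r, (y.2 (p.1, r) * z.2 (r, p.2) - z.2 (p.1, r) * y.2 (r, p.2))) * V p := by
      rw [← Finset.sum_add_distrib]
      refine Finset.sum_congr rfl fun p _ => ?_
      rw [← add_mul]
      rfl
    rw [e]
    congr 1
    · have e1 : ∀ i, ∑ a, (∑ b, (2 * V (a, b)) * y.1 i b) * z.1 i a =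
          ∑ p : Fin k × Fin k, (z.1 i p.1 * y.1 i p.2 - y.1 i p.1 * z.1 i p.2) * V p := by
        intro i
        have e2 : ∑ p : Fin k × Fin k, y.1 i p.1 * z.1 i p.2 * V p =
            -∑ p : Fin k × Fin k, z.1 i p.1 * y.1 i p.2 * V p := by
          rw [StRic_swap, ← Finset.sum_neg_distrib]
          refine Finset.sum_congr rfl fun p _ => ?_
          rw [hV p.1 p.2]
          ring
        simp only [sub_mul, Finset.sum_sub_distrib]
        rw [e2, sub_neg_eq_add, ← two_mul, Finset.mul_sum, Fintype.sum_prod_type]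
        refine Finset.sum_congr rfl fun a _ => ?_
        rw [Finset.sum_mul]
        refine Finset.sum_congr rfl fun b _ => ?_
        ring
      rw [Finset.sum_congr rfl fun i _ => e1 i, Finset.sum_comm]
      refine Finset.sum_congr rfl fun p _ => ?_
      rw [Finset.sum_mul]
    · have e1 : ∀ p : Fin k × Fin k, (∑ r, StRic_ad V p r * y.2 r) =
          ∑ r, (V (p.1, r) * y.2 (r, p.2) - y.2 (p.1, r) * V (r, p.2)) :=
        fun p => StRic_ad_mulVec V y.2 p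
      simp only [e1]
      simp only [Finset.sum_mul, sub_mul, Finset.sum_sub_distrib, Fintype.sum_prod_type]
      rw [StRic_r3 (fun a b r => y.2 (a, r) * z.2 (r, b) * V (a, b)),
        StRic_r2 (fun a b r => z.2 (a, r) * y.2 (r, b) * V (a, b)),
        sub_eq_sub_iff_add_eq_add]
      simp only [← Finset.sum_add_distrib]
      refine Finset.sum_congr rfl fun a _ => Finset.sum_congr rfl fun b _ =>
        Finset.sum_congr rfl fun r _ => ?_
      rw [hy a r, hy r b]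
      ring
  rw [h2, Finset.sum_congr rfl fun i _ => h1 i, Finset.sum_add_distrib]
  have h3 : ∑ q : Fin n × Fin k, (∑ b, (-α q.1 b) * y.2 (q.2, b)
        + ∑ b, (2 * V (q.2, b)) * y.1 q.1 b) * z.1 q.1 q.2 =
      ∑ i, ∑ a, (∑ b, (-α i b) * y.2 (a, b)) * z.1 i a
        + ∑ i, ∑ a, (∑ b, (2 * V (a, b)) * y.1 i b) * z.1 i a := by
    rw [Fintype.sum_prod_type, ← Finset.sum_add_distrib]
    refine Finset.sum_congr rfl fun i _ => ?_
    rw [← Finset.sum_add_distrib]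
    refine Finset.sum_congr rfl fun a _ => ?_
    rw [add_mul]
  have h4 : ∑ p : Fin k × Fin k, (∑ i, α i p.2 * y.1 i p.1 + ∑ r, StRic_ad V p r * y.2 r) * z.2 p =
      ∑ i, ∑ p : Fin k × Fin k, α i p.2 * y.1 i p.1 * z.2 p
        + ∑ p, (∑ r, StRic_ad V p r * y.2 r) * z.2 p := by
    rw [Finset.sum_comm, ← Finset.sum_add_distrib]
    refine Finset.sum_congr rfl fun p _ => ?_
    rw [add_mul, Finset.sum_mul]
  rw [h3, h4]
  ring

private theorem StRic_reord' (A : Mt k) (F : Fin k × Fin k → Fin k × Fin k → ℝ) :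
    ∑ a, ∑ c, A a c * ∑ b, ∑ d, F (a, b) (c, d) = ∑ p, ∑ q, F p q * A p.1 q.1 := by
  simp only [Finset.mul_sum, Fintype.sum_prod_type]
  refine Finset.sum_congr rfl fun a _ => ?_
  rw [Finset.sum_comm]
  refine Finset.sum_congr rfl fun b _ => Finset.sum_congr rfl fun c _ =>
    Finset.sum_congr rfl fun d _ => ?_
  ring

private theorem StRic_T3 {D : ℕ} {W : Mt k} {Z : Mi k} {X : Fin D → EE n k}
    (hF : StRic_Fr W Z X) (hZ : StRic_Sk Z) (hX : ∀ s a b, (X s).2 (b, a) = -(X s).2 (a, b))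
    {V : Fin k × Fin k → ℝ} (hV : ∀ a b, V (b, a) = -V (a, b)) (α : Fin n → Fin k → ℝ) :
    ∑ s, ∑ t, (∑ i, (brB (X s) (X t)).1 i ⬝ᵥ α i + (brB (X s) (X t)).2 ⬝ᵥ V) ^ 2
      = 4 * (n : ℝ) * (V ⬝ᵥ (Kr W W *ᵥ V)) + 2 * ∑ i, α i ⬝ᵥ (NN Z W *ᵥ α i)
        + V ⬝ᵥ (TT Z Z *ᵥ V) := by
  obtain ⟨N1, hN1⟩ : ∃ N1 : Fin D → Fin n × Fin k → ℝ, ∀ s q, N1 s q =
      ∑ b, (-α q.1 b) * (X s).2 (q.2, b) + ∑ b, (2 * V (q.2, b)) * (X s).1 q.1 b :=
    ⟨_, fun _ _ => rfl⟩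
  obtain ⟨N2, hN2⟩ : ∃ N2 : Fin D → Fin k × Fin k → ℝ, ∀ s p, N2 s p =
      ∑ i, α i p.2 * (X s).1 i p.1 + ∑ r, StRic_ad V p r * (X s).2 r := ⟨_, fun _ _ => rfl⟩
  have hkey : ∀ s t, ∑ i, (brB (X s) (X t)).1 i ⬝ᵥ α i + (brB (X s) (X t)).2 ⬝ᵥ V =
      ∑ q : Fin n × Fin k, N1 s q * (X t).1 q.1 q.2 + ∑ p, N2 s p * (X t).2 p := by
    intro s t
    rw [StRic_key hV α (X s) (X t) (hX s)]
    simp only [hN1, hN2]
  have h1 : ∀ s, ∑ t, (∑ i, (brB (X s) (X t)).1 i ⬝ᵥ α i + (brB (X s) (X t)).2 ⬝ᵥ V) ^ 2 =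
      ∑ i, ∑ a, ∑ c, W a c * (N1 s (i, a) * N1 s (i, c))
        + ∑ p, ∑ q, Z p q * (N2 s p * N2 s q) := by
    intro s
    simp only [hkey, sq]
    rw [StRic_split2 _ _ _ _ (StRic_zero _ _ _ _ fun q p => hF.h3 q.1 q.2 p)
      (StRic_zero _ _ _ _ fun p q => hF.h3' q.1 q.2 p),
      StRic_sum _ _ _ _ (fun q r => if q.1 = r.1 then W q.2 r.2 else 0)
        (fun q r => hF.h1 q.1 r.1 q.2 r.2),
      StRic_sum _ _ _ _ (fun p q => Z p q) (fun p q => hF.h2 p q)]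
    congr 1
    · rw [Fintype.sum_prod_type]
      refine Finset.sum_congr rfl fun i _ => Finset.sum_congr rfl fun a _ => ?_
      rw [Fintype.sum_prod_type, Finset.sum_eq_single i]
      · refine Finset.sum_congr rfl fun c _ => ?_
        rw [if_pos rfl]
        ring
      · intro j _ hj
        refine Finset.sum_eq_zero fun c _ => ?_
        rw [if_neg (Ne.symm hj), mul_zero]
      · intro h
        exact absurd (Finset.mem_univ i) h
    · refine Finset.sum_congr rfl fun p _ => Finset.sum_congr rfl fun q _ => ?_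
      ring
  have e1 : ∀ i a c, ∑ s, N1 s (i, a) * N1 s (i, c) =
      ∑ b, ∑ d, (α i b * α i d * Z (a, b) (c, d) + 4 * (V (a, b) * V (c, d) * W b d)) := by
    intro i a c
    simp only [hN1]
    rw [StRic_split2 _ _ _ _ (StRic_zero _ _ _ _ fun b d => hF.h3' i d (a, b))
      (StRic_zero _ _ _ _ fun b d => hF.h3 i b (c, d)),
      StRic_sum _ _ _ _ (fun b d => Z (a, b) (c, d)) (fun b d => hF.h2 (a, b) (c, d)),
      StRic_sum _ _ _ _ (fun b d => W b d) (fun b d => by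
        rw [hF.h1 i i b d, if_pos rfl]), ← Finset.sum_add_distrib]
    refine Finset.sum_congr rfl fun b _ => ?_
    rw [← Finset.sum_add_distrib]
    refine Finset.sum_congr rfl fun d _ => ?_
    ring
  have e2 : ∀ p q, ∑ s, N2 s p * N2 s q =
      (∑ i, α i p.2 * α i q.2 * W p.1 q.1)
        + ∑ r, ∑ r', StRic_ad V p r * StRic_ad V q r' * Z r r' := by
    intro p q
    simp only [hN2]
    rw [StRic_split2 _ _ _ _ (StRic_zero _ _ _ _ fun i r => hF.h3 i p.1 r)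
      (StRic_zero _ _ _ _ fun r i => hF.h3' i q.1 r),
      StRic_sum _ _ _ _ (fun i j => if i = j then W p.1 q.1 else 0)
        (fun i j => hF.h1 i j p.1 q.1),
      StRic_sum _ _ _ _ (fun r r' => Z r r') (fun r r' => hF.h2 r r'), StRic_ite]
  have h2 : ∑ s, ∑ i, ∑ a, ∑ c, W a c * (N1 s (i, a) * N1 s (i, c)) =
      ∑ i, (α i ⬝ᵥ (NN Z W *ᵥ α i) + 4 * (V ⬝ᵥ (Kr W W *ᵥ V))) := by
    rw [Finset.sum_comm]
    refine Finset.sum_congr rfl fun i _ => ?_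
    have e3 : ∑ s, ∑ a, ∑ c, W a c * (N1 s (i, a) * N1 s (i, c)) =
        ∑ a, ∑ c, W a c * ∑ s, N1 s (i, a) * N1 s (i, c) := by
      rw [Finset.sum_comm]
      refine Finset.sum_congr rfl fun a _ => ?_
      rw [Finset.sum_comm]
      refine Finset.sum_congr rfl fun c _ => ?_
      rw [Finset.mul_sum]
    rw [e3]
    simp only [e1]
    rw [StRic_reord' W (fun p q => α i p.2 * α i q.2 * Z p q + 4 * (V p * V q * W p.2 q.2)),
      StRic_NN, StRic_Kr, ← (StRic_four hZ W (α i)).1, Finset.mul_sum, ← Finset.sum_add_distrib]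
    refine Finset.sum_congr rfl fun p _ => ?_
    rw [Finset.mul_sum, ← Finset.sum_add_distrib]
    refine Finset.sum_congr rfl fun q _ => ?_
    ring
  have h3 : ∑ s, ∑ p, ∑ q, Z p q * (N2 s p * N2 s q) =
      ∑ i, α i ⬝ᵥ (NN Z W *ᵥ α i) + V ⬝ᵥ (TT Z Z *ᵥ V) := by
    have e3 : ∑ s, ∑ p, ∑ q, Z p q * (N2 s p * N2 s q) =
        ∑ p, ∑ q, Z p q * ∑ s, N2 s p * N2 s q := by
      rw [Finset.sum_comm]
      refine Finset.sum_congr rfl fun p _ => ?_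
      rw [Finset.sum_comm]
      refine Finset.sum_congr rfl fun q _ => ?_
      rw [Finset.mul_sum]
    have e4 : ∑ i, α i ⬝ᵥ (NN Z W *ᵥ α i) =
        ∑ p, ∑ q, ∑ i, Z p q * (α i p.2 * α i q.2 * W p.1 q.1) := by
      have e5 : ∀ i, α i ⬝ᵥ (NN Z W *ᵥ α i) =
          ∑ p, ∑ q, Z p q * (α i p.2 * α i q.2 * W p.1 q.1) := by
        intro i
        rw [StRic_NN, ← (StRic_four hZ W (α i)).1]
      rw [Finset.sum_congr rfl fun i _ => e5 i, Finset.sum_comm]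
      refine Finset.sum_congr rfl fun p _ => ?_
      rw [Finset.sum_comm]
    rw [e3, e4, StRic_TT, ← Finset.sum_add_distrib]
    refine Finset.sum_congr rfl fun p _ => ?_
    rw [← Finset.sum_add_distrib]
    refine Finset.sum_congr rfl fun q _ => ?_
    rw [e2, mul_add, Finset.mul_sum]
  rw [Finset.sum_congr rfl fun s _ => h1 s, Finset.sum_add_distrib, h2, h3,
    Finset.sum_add_distrib, Finset.sum_const, Finset.card_univ, Fintype.card_fin, nsmul_eq_mul]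
  ring

private theorem StRic_sk {P : Mi k} (hP : Pr P) (Y : Mi k) : StRic_Sk (P * Y * P) :=
  ⟨fun a b q => StRic_skew hP Y a b q, fun a b q => StRic_skew' hP Y a b q⟩

private theorem StRic_Pskew {P : Mi k} (hP : Pr P) {u : Fin k × Fin k → ℝ} (hu : P *ᵥ u = u)
    (a b : Fin k) : u (b, a) = -u (a, b) := by
  rw [← hu]
  simp only [mulVec, dotProduct]
  rw [← Finset.sum_neg_distrib]
  refine Finset.sum_congr rfl fun q _ => ?_
  rw [hP.skew, neg_mul]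

theorem sumB_T1 {P : Mi k} (hP : Pr P) {A : Mt k} {Y : Mi k} (hA : A.PosDef) (hY : Y.PosDef)
    (hc : P * Y = Y * P) {D : ℕ} {X : Fin D → EE n k}
    (hspan : ∀ x : EE n k, P *ᵥ x.2 = x.2 ↔ x ∈ Submodule.span ℝ (Set.range X))
    (hort : ∀ i j, betB A (P * Y * P) (X i) (X j) = if i = j then 1 else 0)
    {x : EE n k} (hx : P *ᵥ x.2 = x.2) :
    ∑ s, betB A (P * Y * P) (prB P (brB x (X s))) (prB P (brB x (X s)))
      = (n : ℝ) * (x.2 ⬝ᵥ (Kr A⁻¹ A *ᵥ x.2)) + 4 * ∑ i, x.1 i ⬝ᵥ (NN (P * Y * P) A⁻¹ *ᵥ x.1 i)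
        + ∑ i, x.1 i ⬝ᵥ (NN (P * Y⁻¹ * P) A *ᵥ x.1 i)
        + x.2 ⬝ᵥ (TT (P * Y⁻¹ * P) (P * Y * P) *ᵥ x.2) := by
  obtain ⟨h1, h2, h3⟩ := frameB hP hA hY hc hspan hort
  simp only [StRic_drop hP]
  exact StRic_T1 ⟨h1, h2, h3⟩ (StRic_sk hP Y) x

theorem sumB_T3 {P : Mi k} (hP : Pr P) {A : Mt k} {Y : Mi k} (hA : A.PosDef) (hY : Y.PosDef)
    (hc : P * Y = Y * P) {D : ℕ} {X : Fin D → EE n k}
    (hspan : ∀ x : EE n k, P *ᵥ x.2 = x.2 ↔ x ∈ Submodule.span ℝ (Set.range X))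
    (hort : ∀ i j, betB A (P * Y * P) (X i) (X j) = if i = j then 1 else 0)
    {x : EE n k} (hx : P *ᵥ x.2 = x.2) {V : Fin k × Fin k → ℝ} (hV : V = (P * Y * P) *ᵥ x.2) :
    ∑ s, ∑ t, (betB A (P * Y * P) (prB P (brB (X s) (X t))) x) ^ 2
      = 4 * (n : ℝ) * (V ⬝ᵥ (Kr A⁻¹ A⁻¹ *ᵥ V))
        + 2 * ∑ i, (A *ᵥ x.1 i) ⬝ᵥ (NN (P * Y⁻¹ * P) A⁻¹ *ᵥ (A *ᵥ x.1 i))
        + V ⬝ᵥ (TT (P * Y⁻¹ * P) (P * Y⁻¹ * P) *ᵥ V) := by
  obtain ⟨h1, h2, h3⟩ := frameB hP hA hY hc hspan hort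
  have hpx : prB P x = x := Prod.ext rfl hx
  have hPV : P *ᵥ V = V := by
    rw [hV, Matrix.mulVec_mulVec, (StRic_PYP hP Y).1]
  have hX : ∀ s, P *ᵥ (X s).2 = (X s).2 := fun s =>
    (hspan (X s)).2 (Submodule.subset_span ⟨s, rfl⟩)
  have e : ∀ s t, betB A (P * Y * P) (prB P (brB (X s) (X t))) x =
      ∑ i, (brB (X s) (X t)).1 i ⬝ᵥ (A *ᵥ x.1 i) + (brB (X s) (X t)).2 ⬝ᵥ V := by
    intro s t
    have h4 := StRic_drop hP A Y (brB (X s) (X t)) x
    rw [hpx] at h4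
    rw [h4, hV]
    rfl
  simp only [e]
  exact StRic_T3 ⟨h1, h2, h3⟩ (StRic_sk hP Y⁻¹) (fun s a b => StRic_Pskew hP (hX s) a b)
    (fun a b => StRic_Pskew hP hPV a b) (fun i => A *ᵥ x.1 i)

private theorem StRic_symm {α : Type*} [Fintype α] {B : Matrix α α ℝ} (hB : Bᵀ = B)
    (u v : α → ℝ) : (B *ᵥ u) ⬝ᵥ v = u ⬝ᵥ (B *ᵥ v) := by
  rw [dotProduct_comm, Matrix.dotProduct_mulVec, ← Matrix.mulVec_transpose, hB,
    dotProduct_comm]

theorem bridgeB (hn : 0 < n) {P : Mi k} (hP : Pr P) {A : Mt k} {Y : Mi k}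
    (hG : GoodB (1 / (n : ℝ)) P A Y) {D : ℕ} {X : Fin D → EE n k}
    (hspan : ∀ x : EE n k, P *ᵥ x.2 = x.2 ↔ x ∈ Submodule.span ℝ (Set.range X))
    (hort : ∀ i j, betB A (P * Y * P) (X i) (X j) = if i = j then 1 else 0)
    {x : EE n k} (hx : P *ᵥ x.2 = x.2) :
    -(1 / 2) * ∑ s, betB A (P * Y * P) (prB P (brB x (X s))) (prB P (brB x (X s)))
      + ((n : ℝ) + k - 2) * (∑ i, x.1 i ⬝ᵥ x.1 i + (1 / 2) * (x.2 ⬝ᵥ x.2))
      + (1 / 4) * ∑ s, ∑ t, (betB A (P * Y * P) (prB P (brB (X s) (X t))) x) ^ 2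
      = (n : ℝ) * betB A (P * Y * P) x x := by
  have hn0 : (n : ℝ) ≠ 0 := by exact_mod_cast hn.ne'
  have hAs : Aᵀ = A := by
    have := hG.A_pos.isHermitian
    rwa [Matrix.IsHermitian, Matrix.conjTranspose_eq_transpose_of_trivial] at this
  have hYs : Yᵀ = Y := by
    have := hG.Y_pos.isHermitian
    rwa [Matrix.IsHermitian, Matrix.conjTranspose_eq_transpose_of_trivial] at this
  have hYs' : (P * Y * P)ᵀ = P * Y * P := by
    rw [Matrix.transpose_mul, Matrix.transpose_mul, hP.symm, hYs, Matrix.mul_assoc]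
  rw [sumB_T1 hP hG.A_pos hG.Y_pos hG.comm hspan hort hx,
    sumB_T3 hP hG.A_pos hG.Y_pos hG.comm hspan hort hx rfl]
  -- the two Einstein equations
  have eA : ∀ u : Fin k → ℝ, (n : ℝ) * (u ⬝ᵥ (A *ᵥ u)) =
      ((n : ℝ) + k - 2) * (u ⬝ᵥ u) - 2 * (u ⬝ᵥ (NN (P * Y * P) A⁻¹ *ᵥ u))
        - (1 / 2) * (u ⬝ᵥ (NN (P * Y⁻¹ * P) A *ᵥ u))
        + (1 / 2) * ((A *ᵥ u) ⬝ᵥ (NN (P * Y⁻¹ * P) A⁻¹ *ᵥ (A *ᵥ u))) := by
    intro u
    have h1 : u ⬝ᵥ (A *ᵥ u) = u ⬝ᵥ (RA (1 / (n : ℝ)) P A Y *ᵥ u) := by rw [hG.eqA]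
    rw [h1, StRic_symm hAs, Matrix.mulVec_mulVec, Matrix.mulVec_mulVec]
    unfold RA
    simp only [Matrix.add_mulVec, Matrix.sub_mulVec, Matrix.smul_mulVec, Matrix.one_mulVec,
      dotProduct_add, dotProduct_sub, dotProduct_smul, smul_eq_mul, neg_smul, Matrix.neg_mulVec,
      dotProduct_neg]
    field_simp
    ring
  have eY : (n : ℝ) * (x.2 ⬝ᵥ ((P * Y * P) *ᵥ x.2)) =
      -((n : ℝ) / 2) * (x.2 ⬝ᵥ (Kr A⁻¹ A *ᵥ x.2)) + ((n : ℝ) + k - 2) / 2 * (x.2 ⬝ᵥ x.2)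
        + n * (((P * Y * P) *ᵥ x.2) ⬝ᵥ (Kr A⁻¹ A⁻¹ *ᵥ ((P * Y * P) *ᵥ x.2)))
        - (1 / 2) * (x.2 ⬝ᵥ (TT (P * Y⁻¹ * P) (P * Y * P) *ᵥ x.2))
        + (1 / 4) * (((P * Y * P) *ᵥ x.2) ⬝ᵥ
            (TT (P * Y⁻¹ * P) (P * Y⁻¹ * P) *ᵥ ((P * Y * P) *ᵥ x.2))) := by
    have h1 : x.2 ⬝ᵥ ((P * Y * P) *ᵥ x.2) = x.2 ⬝ᵥ (RY (1 / (n : ℝ)) P A Y *ᵥ x.2) := by
      rw [← hG.eqY, ← Matrix.mulVec_mulVec, ← Matrix.mulVec_mulVec, hx, ← StRic_P hP, hx]
    rw [h1, StRic_symm hYs', StRic_symm hYs']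
    simp only [Matrix.mulVec_mulVec, ← Matrix.mul_assoc]
    unfold RY
    simp only [Matrix.add_mulVec, Matrix.smul_mulVec, Matrix.one_mulVec,
      dotProduct_add, dotProduct_smul, smul_eq_mul, neg_smul, Matrix.neg_mulVec,
      dotProduct_neg, ← Matrix.mul_assoc]
    field_simp
    ring
  have eS : (n : ℝ) * ∑ i, x.1 i ⬝ᵥ (A *ᵥ x.1 i) =
      ((n : ℝ) + k - 2) * ∑ i, x.1 i ⬝ᵥ x.1 i
        - 2 * ∑ i, x.1 i ⬝ᵥ (NN (P * Y * P) A⁻¹ *ᵥ x.1 i)
        - (1 / 2) * ∑ i, x.1 i ⬝ᵥ (NN (P * Y⁻¹ * P) A *ᵥ x.1 i)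
        + (1 / 2) * ∑ i, (A *ᵥ x.1 i) ⬝ᵥ (NN (P * Y⁻¹ * P) A⁻¹ *ᵥ (A *ᵥ x.1 i)) := by
    simp only [Finset.mul_sum]
    rw [← Finset.sum_sub_distrib, ← Finset.sum_sub_distrib, ← Finset.sum_add_distrib]
    exact Finset.sum_congr rfl fun i _ => eA (x.1 i)
  unfold betB
  linear_combination -eS - eY

end Pool.Agent.EStab
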