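import Pool.Agent.EStab.StRic
import Pool.Agent.EStab.SoGen

/-!
# From matrices to invariant Einstein metrics on `SO(n+k)/(SO(n) × H)`

For `x ∈ so(n+k)` let `co x = (X, U) : EE n k`, `X i a = x (inl i) (inr a)`, `U (a, b) = x (inr a) (inr b)` (linear).
The complement is `m = {x | toBlocks₁₁ x = 0, P *ᵥ (co x).2 = (co x).2}`; `co` is injective on `m` with image
`{e | P *ᵥ e.2 = e.2}` (the inverse sends `(X, U)` to `[[0, X], [-Xᵀ, U]]`, skew by `Pr.skew`).  Take `X_c` from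
`exists_onbB`, `X s = co⁻¹ (X_c s)`, `π x = [[0, X], [-Xᵀ, P U]]`, `β x y = betB A (P Y P) (co x) (co y)`, `c = n`.

* `IsCompl (isoSt n h) m`: `hker` says that for `u ∈ so(k)`, `P u = 0` iff `u ∈ h`.  If `x` is in both then
  `X = 0`, `U = P U = 0` and the first block is 0.  Every `x` is `(x - π x) + π x`, and `P (U - P U) = 0`
  (`U - P U` is skew).
* `[y, x] ∈ m` for `y = [[Z, 0], [0, u]]`, `u ∈ h`, `x ∈ m`: the bracket has blocks `0`, `Z X - X u`, `[u, U]`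
  (first block `[Z, 0] = 0`).  `P [u, U] = [u, U]`: for `w ∈ h`, `[u, U] · w = - U · [u, w] = 0` for the
  standard inner product (`[u, w] ∈ h`, and `U = P U` is orthogonal to `h`), so `[u, U]` is skew and orthogonal to
  `h`; and `z - P z` lies in `h` for skew `z`, so `|z - P z|² = z · (z - P z) = 0` for `z = [u, U]`.
* `γ ∈ autSt`: `γ x` has blocks `Q₁ Z Q₁ᵀ`, `Q₁ X Q₂ᵀ`, `Q₂ U Q₂ᵀ`; the last is `κ *ᵥ U`, `κ = Kr Q₂ Q₂`,
  which commutes with `P` and `Y`, and `Q₂` commutes with `A` (`hAut`); `κ κᵀ = 1`.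
* `co [x, y] = brB (co x) (co y)` if `toBlocks₁₁ x = toBlocks₁₁ y = 0` and both are skew.
* Killing form: `so_killing_gen`, `tr (x x) = -2 ∑ i, X_i ⬝ X_i - U ⬝ U` if `toBlocks₁₁ x = 0`,
  `card (Fin n ⊕ Fin k) = n + k`.
* the Ricci formula is `bridgeB`; `c = n > 0`.
-/

namespace Pool.Agent.EStab

open Matrix LieAlgebra.Orthogonal

variable {n k : ℕ}

private theorem StTr_skew {ι : Type} [Fintype ι] [DecidableEq ι] (x : so ι ℝ) (i j : ι) :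
    (x : Matrix ι ι ℝ) j i = -(x : Matrix ι ι ℝ) i j := by
  have h := (mem_so ι ℝ _).1 x.2
  have h1 := congrFun (congrFun h i) j
  simpa using h1

private theorem StTr_lie_coe {ι : Type} [Fintype ι] [DecidableEq ι] (x y : so ι ℝ) :
    ((⁅x, y⁆ : so ι ℝ) : Matrix ι ι ℝ) =
      (x : Matrix ι ι ℝ) * (y : Matrix ι ι ℝ) - (y : Matrix ι ι ℝ) * (x : Matrix ι ι ℝ) := rfl

/-- the coordinates -/
private def StTr_co : so (Fin n ⊕ Fin k) ℝ →ₗ[ℝ] EE n k where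
  toFun x := (fun i a => (x : Matrix (Fin n ⊕ Fin k) (Fin n ⊕ Fin k) ℝ) (Sum.inl i) (Sum.inr a),
    fun p => (x : Matrix (Fin n ⊕ Fin k) (Fin n ⊕ Fin k) ℝ) (Sum.inr p.1) (Sum.inr p.2))
  map_add' x y := rfl
  map_smul' t x := rfl

private theorem StTr_P_skew {P : Mi k} (hP : Pr P) (v : Fin k × Fin k → ℝ) (a b : Fin k) :
    (P *ᵥ v) (b, a) = -(P *ᵥ v) (a, b) := by
  simp only [Matrix.mulVec, dotProduct]
  rw [← Finset.sum_neg_distrib]
  refine Finset.sum_congr rfl fun q _ => ?_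
  rw [hP.skew a b q, neg_mul]

/-- the block matrix -/
private def StTr_mat (X : Fin n → Fin k → ℝ) (U : Fin k × Fin k → ℝ) :
    Matrix (Fin n ⊕ Fin k) (Fin n ⊕ Fin k) ℝ :=
  Matrix.fromBlocks 0 (Matrix.of X) (-(Matrix.of X)ᵀ) (Matrix.of fun a b => U (a, b))

private theorem StTr_mat_mem (X : Fin n → Fin k → ℝ) (U : Fin k × Fin k → ℝ)
    (hU : ∀ a b, U (b, a) = -U (a, b)) : StTr_mat X U ∈ so (Fin n ⊕ Fin k) ℝ := by
  rw [mem_so]
  ext p q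
  rcases p with i | a <;> rcases q with j | b
  · simp [StTr_mat]
  · simp [StTr_mat]
  · simp [StTr_mat]
  · show U (b, a) = -U (a, b)
    exact hU a b

/-- the inverse of the coordinates -/
private def StTr_lft {P : Mi k} (hP : Pr P) : EE n k →ₗ[ℝ] so (Fin n ⊕ Fin k) ℝ where
  toFun e := ⟨StTr_mat e.1 (P *ᵥ e.2), StTr_mat_mem _ _ (StTr_P_skew hP _)⟩
  map_add' e f := by
    apply Subtype.ext
    show StTr_mat (e + f).1 (P *ᵥ (e + f).2) =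
      StTr_mat e.1 (P *ᵥ e.2) + StTr_mat f.1 (P *ᵥ f.2)
    ext p q
    rcases p with i | a <;> rcases q with j | b
    · simp [StTr_mat]
    · simp [StTr_mat]
    · simp only [StTr_mat, Matrix.fromBlocks_apply₂₁, Matrix.neg_apply, Matrix.transpose_apply,
        Matrix.of_apply, Matrix.add_apply, Prod.fst_add, Pi.add_apply]
      ring
    · simp [StTr_mat, Matrix.mulVec_add]
  map_smul' t e := by
    apply Subtype.ext
    show StTr_mat (t • e).1 (P *ᵥ (t • e).2) = t • StTr_mat e.1 (P *ᵥ e.2)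
    ext p q
    rcases p with i | a <;> rcases q with j | b
    · simp [StTr_mat]
    · simp [StTr_mat]
    · simp [StTr_mat]
    · simp [StTr_mat, Matrix.mulVec_smul]

private theorem StTr_co_lft {P : Mi k} (hP : Pr P) (e : EE n k) :
    StTr_co (StTr_lft hP e) = prB P e := rfl

private theorem StTr_lft_11 {P : Mi k} (hP : Pr P) (e : EE n k) (i j : Fin n) :
    (StTr_lft hP e : Matrix (Fin n ⊕ Fin k) (Fin n ⊕ Fin k) ℝ) (Sum.inl i) (Sum.inl j) = 0 := rfl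

private theorem StTr_ext {x y : so (Fin n ⊕ Fin k) ℝ}
    (h11 : ∀ i j, (x : Matrix (Fin n ⊕ Fin k) (Fin n ⊕ Fin k) ℝ) (Sum.inl i) (Sum.inl j) =
      (y : Matrix (Fin n ⊕ Fin k) (Fin n ⊕ Fin k) ℝ) (Sum.inl i) (Sum.inl j))
    (hco : StTr_co x = StTr_co y) : x = y := by
  apply Subtype.ext
  have h1 := congrArg Prod.fst hco
  have h2 := congrArg Prod.snd hco
  ext p q
  rcases p with i | a <;> rcases q with j | b
  · exact h11 i j
  · exact congrFun (congrFun h1 i) b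
  · rw [StTr_skew x (Sum.inl j) (Sum.inr a), StTr_skew y (Sum.inl j) (Sum.inr a)]
    exact congrArg Neg.neg (congrFun (congrFun h1 j) a)
  · exact congrFun h2 (a, b)

private theorem StTr_bracket (x y : so (Fin n ⊕ Fin k) ℝ) (p q : Fin n ⊕ Fin k) :
    ((⁅x, y⁆ : so (Fin n ⊕ Fin k) ℝ) : Matrix (Fin n ⊕ Fin k) (Fin n ⊕ Fin k) ℝ) p q =
      (∑ i, ((x : Matrix (Fin n ⊕ Fin k) (Fin n ⊕ Fin k) ℝ) p (Sum.inl i) *
          (y : Matrix (Fin n ⊕ Fin k) (Fin n ⊕ Fin k) ℝ) (Sum.inl i) q -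
        (y : Matrix (Fin n ⊕ Fin k) (Fin n ⊕ Fin k) ℝ) p (Sum.inl i) *
          (x : Matrix (Fin n ⊕ Fin k) (Fin n ⊕ Fin k) ℝ) (Sum.inl i) q)) +
      ∑ r, ((x : Matrix (Fin n ⊕ Fin k) (Fin n ⊕ Fin k) ℝ) p (Sum.inr r) *
          (y : Matrix (Fin n ⊕ Fin k) (Fin n ⊕ Fin k) ℝ) (Sum.inr r) q -
        (y : Matrix (Fin n ⊕ Fin k) (Fin n ⊕ Fin k) ℝ) p (Sum.inr r) *
          (x : Matrix (Fin n ⊕ Fin k) (Fin n ⊕ Fin k) ℝ) (Sum.inr r) q) := by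
  rw [StTr_lie_coe, Matrix.sub_apply, Matrix.mul_apply,
    Matrix.mul_apply, Fintype.sum_sum_type, Fintype.sum_sum_type, Finset.sum_sub_distrib,
    Finset.sum_sub_distrib]
  ring

private theorem StTr_co_lie {x y : so (Fin n ⊕ Fin k) ℝ}
    (hx : ∀ i j, (x : Matrix (Fin n ⊕ Fin k) (Fin n ⊕ Fin k) ℝ) (Sum.inl i) (Sum.inl j) = 0)
    (hy : ∀ i j, (y : Matrix (Fin n ⊕ Fin k) (Fin n ⊕ Fin k) ℝ) (Sum.inl i) (Sum.inl j) = 0) :
    StTr_co ⁅x, y⁆ = brB (StTr_co x) (StTr_co y) := by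
  apply Prod.ext
  · funext i b
    show ((⁅x, y⁆ : so (Fin n ⊕ Fin k) ℝ) : Matrix (Fin n ⊕ Fin k) (Fin n ⊕ Fin k) ℝ)
      (Sum.inl i) (Sum.inr b) = _
    rw [StTr_bracket]
    simp only [hx, hy, zero_mul, sub_self, Finset.sum_const_zero, zero_add]
    rfl
  · funext p
    show ((⁅x, y⁆ : so (Fin n ⊕ Fin k) ℝ) : Matrix (Fin n ⊕ Fin k) (Fin n ⊕ Fin k) ℝ)
      (Sum.inr p.1) (Sum.inr p.2) = _
    rw [StTr_bracket]
    refine congrArg₂ (· + ·) (Finset.sum_congr rfl fun i _ => ?_) rfl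
    rw [StTr_skew x (Sum.inl i) (Sum.inr p.1), StTr_skew y (Sum.inl i) (Sum.inr p.1)]
    show _ = (StTr_co y).1 i p.1 * (StTr_co x).1 i p.2 - (StTr_co x).1 i p.1 * (StTr_co y).1 i p.2
    show -(StTr_co x).1 i p.1 * (StTr_co y).1 i p.2 - -(StTr_co y).1 i p.1 * (StTr_co x).1 i p.2 = _
    ring

private theorem StTr_trace {x : so (Fin n ⊕ Fin k) ℝ}
    (hx : ∀ i j, (x : Matrix (Fin n ⊕ Fin k) (Fin n ⊕ Fin k) ℝ) (Sum.inl i) (Sum.inl j) = 0) :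
    Matrix.trace ((x : Matrix (Fin n ⊕ Fin k) (Fin n ⊕ Fin k) ℝ) *
      (x : Matrix (Fin n ⊕ Fin k) (Fin n ⊕ Fin k) ℝ)) =
      -(2 * ∑ i, (StTr_co x).1 i ⬝ᵥ (StTr_co x).1 i + (StTr_co x).2 ⬝ᵥ (StTr_co x).2) := by
  simp only [Matrix.trace, Matrix.diag_apply, Matrix.mul_apply, Fintype.sum_sum_type, hx,
    zero_mul, Finset.sum_const_zero, zero_add]
  have e1 : ∑ i : Fin n, ∑ a : Fin k,
      (x : Matrix (Fin n ⊕ Fin k) (Fin n ⊕ Fin k) ℝ) (Sum.inl i) (Sum.inr a) *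
      (x : Matrix (Fin n ⊕ Fin k) (Fin n ⊕ Fin k) ℝ) (Sum.inr a) (Sum.inl i) =
      -∑ i, (StTr_co x).1 i ⬝ᵥ (StTr_co x).1 i := by
    rw [← Finset.sum_neg_distrib]
    refine Finset.sum_congr rfl fun i _ => ?_
    rw [dotProduct, ← Finset.sum_neg_distrib]
    refine Finset.sum_congr rfl fun a _ => ?_
    rw [StTr_skew x (Sum.inl i) (Sum.inr a), mul_neg]
    rfl
  have e2 : ∑ a : Fin k, ∑ i : Fin n,
      (x : Matrix (Fin n ⊕ Fin k) (Fin n ⊕ Fin k) ℝ) (Sum.inr a) (Sum.inl i) *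
      (x : Matrix (Fin n ⊕ Fin k) (Fin n ⊕ Fin k) ℝ) (Sum.inl i) (Sum.inr a) =
      -∑ i, (StTr_co x).1 i ⬝ᵥ (StTr_co x).1 i := by
    rw [Finset.sum_comm, ← e1]
    refine Finset.sum_congr rfl fun i _ => Finset.sum_congr rfl fun a _ => mul_comm _ _
  have e3 : ∑ a : Fin k, ∑ b : Fin k,
      (x : Matrix (Fin n ⊕ Fin k) (Fin n ⊕ Fin k) ℝ) (Sum.inr a) (Sum.inr b) *
      (x : Matrix (Fin n ⊕ Fin k) (Fin n ⊕ Fin k) ℝ) (Sum.inr b) (Sum.inr a) =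
      -((StTr_co x).2 ⬝ᵥ (StTr_co x).2) := by
    rw [dotProduct, Fintype.sum_prod_type, ← Finset.sum_neg_distrib]
    refine Finset.sum_congr rfl fun a _ => ?_
    rw [← Finset.sum_neg_distrib]
    refine Finset.sum_congr rfl fun b _ => ?_
    rw [StTr_skew x (Sum.inr a) (Sum.inr b), mul_neg]
    rfl
  rw [Finset.sum_add_distrib, e1, e2, e3]
  ring

/-- the inner product as a bilinear map -/
private noncomputable def StTr_bet (A : Mt k) (Y' : Mi k) :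
    EE n k →ₗ[ℝ] EE n k →ₗ[ℝ] ℝ :=
  LinearMap.mk₂ ℝ (betB A Y')
    (fun x x' y => by
      unfold betB
      simp only [Prod.fst_add, Prod.snd_add, Pi.add_apply, add_dotProduct,
        Finset.sum_add_distrib]
      ring)
    (fun t x y => by
      unfold betB
      simp only [Prod.smul_fst, Prod.smul_snd, Pi.smul_apply, smul_dotProduct, smul_eq_mul,
        mul_add, Finset.mul_sum])
    (fun x y y' => by
      unfold betB
      simp only [Prod.fst_add, Prod.snd_add, Pi.add_apply, Matrix.mulVec_add, dotProduct_add,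
        Finset.sum_add_distrib]
      ring)
    (fun t x y => by
      unfold betB
      simp only [Prod.smul_fst, Prod.smul_snd, Pi.smul_apply, Matrix.mulVec_smul,
        dotProduct_smul, smul_eq_mul, mul_add, Finset.mul_sum])

private theorem StTr_betB_symm {A : Mt k} {Y' : Mi k} (hA : Aᵀ = A) (hY : Y'ᵀ = Y')
    (x y : EE n k) : betB A Y' x y = betB A Y' y x := by
  have h1 : ∀ u v : Fin k → ℝ, u ⬝ᵥ (A *ᵥ v) = v ⬝ᵥ (A *ᵥ u) := by
    intro u v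
    rw [Matrix.dotProduct_mulVec, ← Matrix.mulVec_transpose, hA, dotProduct_comm]
  have h2 : ∀ u v : Fin k × Fin k → ℝ, u ⬝ᵥ (Y' *ᵥ v) = v ⬝ᵥ (Y' *ᵥ u) := by
    intro u v
    rw [Matrix.dotProduct_mulVec, ← Matrix.mulVec_transpose, hY, dotProduct_comm]
  unfold betB
  rw [h2]
  congr 1
  exact Finset.sum_congr rfl fun i _ => h1 _ _

private theorem StTr_betB_trace (A : Mt k) (Y' : Mi k) (x y : EE n k) :
    betB A Y' x y = Matrix.trace ((Matrix.of x.1 : Matrix (Fin n) (Fin k) ℝ) * A *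
      (Matrix.of y.1 : Matrix (Fin n) (Fin k) ℝ)ᵀ) + x.2 ⬝ᵥ (Y' *ᵥ y.2) := by
  unfold betB
  congr 1
  simp only [Matrix.trace, Matrix.diag_apply, Matrix.mul_apply, Matrix.transpose_apply,
    Matrix.of_apply, Matrix.mulVec, dotProduct]
  refine Finset.sum_congr rfl fun i _ => ?_
  simp only [Finset.sum_mul, Finset.mul_sum]
  rw [Finset.sum_comm]
  refine Finset.sum_congr rfl fun a _ => Finset.sum_congr rfl fun b _ => ?_
  ring

private theorem StTr_Kr_mulVec (Q : Mt k) (v : Fin k × Fin k → ℝ) (a b : Fin k) :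
    (Kr Q Q *ᵥ v) (a, b) = (Q * (Matrix.of fun c d => v (c, d)) * Qᵀ) a b := by
  simp only [Matrix.mulVec, dotProduct, Kr, Matrix.of_apply, Matrix.mul_apply,
    Matrix.transpose_apply, Fintype.sum_prod_type, Finset.sum_mul]
  rw [Finset.sum_comm]
  refine Finset.sum_congr rfl fun d _ => Finset.sum_congr rfl fun c _ => ?_
  ring

private theorem StTr_Kr_orth {Q : Mt k} (hQ : Q * Qᵀ = 1) : (Kr Q Q)ᵀ * Kr Q Q = 1 := by
  have hQ' : Qᵀ * Q = 1 := mul_eq_one_comm.1 hQ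
  have h : ∀ a b, ∑ c, Q c a * Q c b = (1 : Mt k) a b := by
    intro a b
    rw [← hQ', Matrix.mul_apply]
    rfl
  ext p q
  simp only [Matrix.mul_apply, Matrix.transpose_apply, Kr, Matrix.of_apply,
    Fintype.sum_prod_type]
  have e : ∀ c d : Fin k, Q c p.1 * Q d p.2 * (Q c q.1 * Q d q.2) =
      (Q c p.1 * Q c q.1) * (Q d p.2 * Q d q.2) := by
    intro c d
    ring
  simp only [e, ← Finset.mul_sum, ← Finset.sum_mul, h]
  rw [Matrix.one_apply, Matrix.one_apply, Matrix.one_apply]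
  by_cases h1 : p.1 = q.1 <;> by_cases h2 : p.2 = q.2 <;> simp [h1, h2, Prod.ext_iff]

/-- the bracket with an element of `h` preserves the range of `P` -/
private theorem StTr_range (h : LieSubalgebra ℝ (so (Fin k) ℝ)) {P : Mi k} (hP : Pr P)
    (hker : ∀ u : so (Fin k) ℝ,
      P *ᵥ (fun p : Fin k × Fin k => (u : Matrix (Fin k) (Fin k) ℝ) p.1 p.2) = 0 ↔ u ∈ h)
    {u U : so (Fin k) ℝ} (hu : u ∈ h)
    (hU : P *ᵥ (fun p : Fin k × Fin k => (U : Matrix (Fin k) (Fin k) ℝ) p.1 p.2) =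
      fun p : Fin k × Fin k => (U : Matrix (Fin k) (Fin k) ℝ) p.1 p.2) :
    P *ᵥ (fun p : Fin k × Fin k => ((⁅u, U⁆ : so (Fin k) ℝ) : Matrix (Fin k) (Fin k) ℝ) p.1 p.2) =
      fun p : Fin k × Fin k => ((⁅u, U⁆ : so (Fin k) ℝ) : Matrix (Fin k) (Fin k) ℝ) p.1 p.2 := by
  obtain ⟨z, hz⟩ : ∃ z : Fin k × Fin k → ℝ, z = fun p : Fin k × Fin k =>
    ((⁅u, U⁆ : so (Fin k) ℝ) : Matrix (Fin k) (Fin k) ℝ) p.1 p.2 := ⟨_, rfl⟩
  rw [← hz]
  have hwmem : (Matrix.of fun a b => (z - P *ᵥ z) (a, b) : Matrix (Fin k) (Fin k) ℝ) ∈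
      so (Fin k) ℝ := by
    rw [mem_so]
    ext a b
    show (z - P *ᵥ z) (b, a) = -(z - P *ᵥ z) (a, b)
    rw [Pi.sub_apply, Pi.sub_apply, StTr_P_skew hP z a b, hz]
    show ((⁅u, U⁆ : so (Fin k) ℝ) : Matrix (Fin k) (Fin k) ℝ) b a - _ =
      -(((⁅u, U⁆ : so (Fin k) ℝ) : Matrix (Fin k) (Fin k) ℝ) a b - _)
    rw [StTr_skew ⁅u, U⁆ a b]
    ring
  obtain ⟨w, hw⟩ : ∃ w : so (Fin k) ℝ, (w : Matrix (Fin k) (Fin k) ℝ) =
    Matrix.of fun a b => (z - P *ᵥ z) (a, b) := ⟨⟨_, hwmem⟩, rfl⟩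
  have hwv : (fun p : Fin k × Fin k => (w : Matrix (Fin k) (Fin k) ℝ) p.1 p.2) =
      z - P *ᵥ z := by
    funext p
    rw [hw]
    rfl
  have hPw : P *ᵥ (z - P *ᵥ z) = 0 := by
    rw [Matrix.mulVec_sub, Matrix.mulVec_mulVec, hP.idem, sub_self]
  have hwh : w ∈ h := by
    rw [← hker, hwv]
    exact hPw
  have hPsym : ∀ a b : Fin k × Fin k → ℝ, (P *ᵥ a) ⬝ᵥ b = a ⬝ᵥ (P *ᵥ b) := by
    intro a b
    rw [Matrix.dotProduct_mulVec, ← Matrix.mulVec_transpose, hP.symm]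
  -- `z ⬝ w = U ⬝ [w, u]`
  have hzw : z ⬝ᵥ (z - P *ᵥ z) = 0 := by
    have h1 : P *ᵥ (fun p : Fin k × Fin k =>
        ((⁅w, u⁆ : so (Fin k) ℝ) : Matrix (Fin k) (Fin k) ℝ) p.1 p.2) = 0 :=
      (hker _).2 (h.lie_mem hwh hu)
    have h2 : (fun p : Fin k × Fin k => (U : Matrix (Fin k) (Fin k) ℝ) p.1 p.2) ⬝ᵥ
        (fun p : Fin k × Fin k =>
          ((⁅w, u⁆ : so (Fin k) ℝ) : Matrix (Fin k) (Fin k) ℝ) p.1 p.2) = 0 := by
      rw [← hU, hPsym, h1, dotProduct_zero]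
    have hdot : ∀ a b : so (Fin k) ℝ,
        (fun p : Fin k × Fin k => (a : Matrix (Fin k) (Fin k) ℝ) p.1 p.2) ⬝ᵥ
        (fun p : Fin k × Fin k => (b : Matrix (Fin k) (Fin k) ℝ) p.1 p.2) =
        -Matrix.trace ((a : Matrix (Fin k) (Fin k) ℝ) * (b : Matrix (Fin k) (Fin k) ℝ)) := by
      intro a b
      simp only [dotProduct, Fintype.sum_prod_type, Matrix.trace, Matrix.diag_apply,
        Matrix.mul_apply]
      rw [← Finset.sum_neg_distrib]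
      refine Finset.sum_congr rfl fun i _ => ?_
      rw [← Finset.sum_neg_distrib]
      refine Finset.sum_congr rfl fun j _ => ?_
      rw [StTr_skew b i j, mul_neg, neg_neg]
    rw [← hwv, hz, hdot]
    rw [hdot] at h2
    rw [StTr_lie_coe] at h2 ⊢
    rw [← h2]
    congr 1
    rw [Matrix.sub_mul, Matrix.mul_sub, Matrix.trace_sub, Matrix.trace_sub]
    congr 1
    · rw [Matrix.mul_assoc, Matrix.trace_mul_comm, Matrix.mul_assoc]
    · rw [Matrix.mul_assoc]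
  have h3 : (z - P *ᵥ z) ⬝ᵥ (z - P *ᵥ z) = 0 := by
    rw [sub_dotProduct, hzw, hPsym, hPw, dotProduct_zero, sub_zero]
  have h4 := dotProduct_self_eq_zero.1 h3
  exact (sub_eq_zero.1 h4).symm

theorem hasEinsteinSt_of_good (hn : 0 < n) (h : LieSubalgebra ℝ (so (Fin k) ℝ)) {P : Mi k}
    (hP : Pr P)
    (hker : ∀ u : so (Fin k) ℝ,
      P *ᵥ (fun p : Fin k × Fin k => (u : Matrix (Fin k) (Fin k) ℝ) p.1 p.2) = 0 ↔ u ∈ h)
    {A : Mt k} {Y : Mi k} (hG : GoodB (1 / (n : ℝ)) P A Y)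
    (hAut : ∀ Q : Mt k, Q * Qᵀ = 1 →
      (∀ u ∈ h, ∃ u' ∈ h, Q * (u : Matrix (Fin k) (Fin k) ℝ) * Qᵀ =
        (u' : Matrix (Fin k) (Fin k) ℝ)) →
      Kr Q Q * P = P * Kr Q Q ∧ Q * A = A * Q ∧ Kr Q Q * Y = Y * Kr Q Q) :
    HasEinsteinMetric (so (Fin n ⊕ Fin k) ℝ) (isoSt n h) (autSt n h) := by
  classical
  have hA := hG.A_pos
  have hY := hG.Y_pos
  have hAt : Aᵀ = A := by
    have := hA.isHermitian
    rwa [Matrix.IsHermitian, Matrix.conjTranspose_eq_transpose_of_trivial] at this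
  have hYt : Yᵀ = Y := by
    have := hY.isHermitian
    rwa [Matrix.IsHermitian, Matrix.conjTranspose_eq_transpose_of_trivial] at this
  have hPYPt : (P * Y * P)ᵀ = P * Y * P := by
    rw [Matrix.transpose_mul, Matrix.transpose_mul, hP.symm, hYt, Matrix.mul_assoc]
  have hPP : ∀ v, P *ᵥ (P *ᵥ v) = P *ᵥ v := fun v => by
    rw [Matrix.mulVec_mulVec, hP.idem]
  obtain ⟨D, Xc, hspan, hort⟩ := exists_onbB (n := n) hP hA hY
  obtain ⟨X, hX⟩ : ∃ X : Fin D → so (Fin n ⊕ Fin k) ℝ, ∀ s, X s = StTr_lft hP (Xc s) :=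
    ⟨_, fun _ => rfl⟩
  have hXc : ∀ s, P *ᵥ (Xc s).2 = (Xc s).2 := fun s =>
    (hspan (Xc s)).2 (Submodule.subset_span (Set.mem_range_self s))
  have hcoX : ∀ s, StTr_co (X s) = Xc s := by
    intro s
    rw [hX, StTr_co_lft]
    exact Prod.ext rfl (hXc s)
  have hX11 : ∀ s i j, (X s : Matrix (Fin n ⊕ Fin k) (Fin n ⊕ Fin k) ℝ) (Sum.inl i) (Sum.inl j)
      = 0 := by
    intro s i j
    rw [hX]
    exact StTr_lft_11 hP _ i j
  obtain ⟨π, hπ⟩ : ∃ π : so (Fin n ⊕ Fin k) ℝ →ₗ[ℝ] so (Fin n ⊕ Fin k) ℝ,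
      ∀ x, π x = StTr_lft hP (StTr_co x) := ⟨StTr_lft hP ∘ₗ StTr_co, fun _ => rfl⟩
  have hcoπ : ∀ x, StTr_co (π x) = prB P (StTr_co x) := by
    intro x
    rw [hπ, StTr_co_lft]
  have hπ11 : ∀ x i j, (π x : Matrix (Fin n ⊕ Fin k) (Fin n ⊕ Fin k) ℝ) (Sum.inl i) (Sum.inl j)
      = 0 := by
    intro x i j
    rw [hπ]
    exact StTr_lft_11 hP _ i j
  have hπid : ∀ x : so (Fin n ⊕ Fin k) ℝ,
      (∀ i j, (x : Matrix (Fin n ⊕ Fin k) (Fin n ⊕ Fin k) ℝ) (Sum.inl i) (Sum.inl j) = 0) →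
      P *ᵥ (StTr_co x).2 = (StTr_co x).2 → π x = x := by
    intro x h1 h2
    refine StTr_ext (fun i j => ?_) ?_
    · rw [hπ11, h1]
    · rw [hcoπ]
      exact Prod.ext rfl h2
  obtain ⟨m, hm⟩ : ∃ m : Submodule ℝ (so (Fin n ⊕ Fin k) ℝ),
    m = Submodule.span ℝ (Set.range X) := ⟨_, rfl⟩
  have hmem : ∀ x, x ∈ m ↔
      (∀ i j, (x : Matrix (Fin n ⊕ Fin k) (Fin n ⊕ Fin k) ℝ) (Sum.inl i) (Sum.inl j) = 0) ∧
        P *ᵥ (StTr_co x).2 = (StTr_co x).2 := by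
    intro x
    have e1 : m = (Submodule.span ℝ (Set.range Xc)).map (StTr_lft hP) := by
      rw [hm, Submodule.map_span, ← Set.range_comp]
      congr 2
      funext s
      exact hX s
    rw [e1, Submodule.mem_map]
    constructor
    · rintro ⟨e, -, rfl⟩
      refine ⟨StTr_lft_11 hP e, ?_⟩
      rw [StTr_co_lft]
      exact hPP _
    · rintro ⟨h1, h2⟩
      refine ⟨StTr_co x, (hspan _).1 h2, ?_⟩
      rw [← hπ]
      exact hπid x h1 h2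
  obtain ⟨β, hβ⟩ : ∃ β : LinearMap.BilinForm ℝ (so (Fin n ⊕ Fin k) ℝ),
      ∀ x y, β x y = betB A (P * Y * P) (StTr_co x) (StTr_co y) :=
    ⟨(StTr_bet A (P * Y * P)).compl₁₂ StTr_co StTr_co, fun x y => rfl⟩
  -- elements of the isotropy algebra
  have hiso : ∀ y ∈ isoSt n h, (StTr_co y).1 = 0 ∧ ∃ u ∈ h,
      (StTr_co y).2 = fun p => (u : Matrix (Fin k) (Fin k) ℝ) p.1 p.2 := by
    rintro y ⟨hy, u, hu, hyu⟩
    refine ⟨?_, u, hu, ?_⟩
    · funext i a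
      exact congrFun (congrFun hy i) a
    · funext p
      exact congrFun (congrFun hyu p.1) p.2
  have hisoP : ∀ y ∈ isoSt n h, P *ᵥ (StTr_co y).2 = 0 := by
    intro y hy
    obtain ⟨-, u, hu, hyu⟩ := hiso y hy
    rw [hyu]
    exact (hker u).2 hu
  have haut : ∀ γ ∈ autSt n h, ∃ (Q₁ : Matrix (Fin n) (Fin n) ℝ) (Q₂ : Mt k), Q₁ * Q₁ᵀ = 1 ∧
      Q₂ * Q₂ᵀ = 1 ∧ (Kr Q₂ Q₂ * P = P * Kr Q₂ Q₂ ∧ Q₂ * A = A * Q₂ ∧
        Kr Q₂ Q₂ * Y = Y * Kr Q₂ Q₂) ∧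
      (∀ x : so (Fin n ⊕ Fin k) ℝ,
        (∀ i j, (x : Matrix (Fin n ⊕ Fin k) (Fin n ⊕ Fin k) ℝ) (Sum.inl i) (Sum.inl j) = 0) →
        ∀ i j, (γ x : Matrix (Fin n ⊕ Fin k) (Fin n ⊕ Fin k) ℝ) (Sum.inl i) (Sum.inl j) = 0) ∧
      (∀ x, (Matrix.of (StTr_co (γ x)).1 : Matrix (Fin n) (Fin k) ℝ) =
        Q₁ * (Matrix.of (StTr_co x).1 : Matrix (Fin n) (Fin k) ℝ) * Q₂ᵀ) ∧
      ∀ x, (StTr_co (γ x)).2 = Kr Q₂ Q₂ *ᵥ (StTr_co x).2 := by
    rintro γ ⟨Q₁, Q₂, h1, h2, h3, h4⟩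
    have hblk : ∀ x : so (Fin n ⊕ Fin k) ℝ,
        (γ x : Matrix (Fin n ⊕ Fin k) (Fin n ⊕ Fin k) ℝ) = Matrix.fromBlocks
          (Q₁ * (x : Matrix (Fin n ⊕ Fin k) (Fin n ⊕ Fin k) ℝ).toBlocks₁₁ * Q₁ᵀ)
          (Q₁ * (x : Matrix (Fin n ⊕ Fin k) (Fin n ⊕ Fin k) ℝ).toBlocks₁₂ * Q₂ᵀ)
          (Q₂ * (x : Matrix (Fin n ⊕ Fin k) (Fin n ⊕ Fin k) ℝ).toBlocks₂₁ * Q₁ᵀ)
          (Q₂ * (x : Matrix (Fin n ⊕ Fin k) (Fin n ⊕ Fin k) ℝ).toBlocks₂₂ * Q₂ᵀ) := by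
      intro x
      rw [h4]
      conv_lhs => rw [← Matrix.fromBlocks_toBlocks
        (x : Matrix (Fin n ⊕ Fin k) (Fin n ⊕ Fin k) ℝ)]
      rw [Matrix.fromBlocks_transpose, Matrix.fromBlocks_multiply, Matrix.fromBlocks_multiply]
      simp only [Matrix.zero_mul, Matrix.mul_zero, Matrix.transpose_zero, add_zero, zero_add]
    refine ⟨Q₁, Q₂, h1, h2, hAut Q₂ h2 h3, ?_, ?_, ?_⟩
    · intro x hx i j
      rw [hblk, Matrix.fromBlocks_apply₁₁]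
      have e1 : (x : Matrix (Fin n ⊕ Fin k) (Fin n ⊕ Fin k) ℝ).toBlocks₁₁ = 0 := by
        ext i j
        exact hx i j
      rw [e1, Matrix.mul_zero, Matrix.zero_mul, Matrix.zero_apply]
    · intro x
      ext i a
      show (γ x : Matrix (Fin n ⊕ Fin k) (Fin n ⊕ Fin k) ℝ) (Sum.inl i) (Sum.inr a) = _
      rw [hblk, Matrix.fromBlocks_apply₁₂]
      rfl
    · intro x
      funext p
      obtain ⟨a, b⟩ := p
      rw [StTr_Kr_mulVec]
      show (γ x : Matrix (Fin n ⊕ Fin k) (Fin n ⊕ Fin k) ℝ) (Sum.inr a) (Sum.inr b) = _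
      rw [hblk, Matrix.fromBlocks_apply₂₂]
      rfl
  refine ⟨m, π, β, D, X, n, ⟨?_, ?_⟩, ?_, ?_, ?_, ?_, ?_, ?_, hm.symm, ?_, by exact_mod_cast hn,
    ?_⟩
  · -- disjoint
    rw [Submodule.disjoint_def]
    intro y hy hym
    obtain ⟨h11, hyP⟩ := (hmem y).1 hym
    obtain ⟨hy1, -⟩ := hiso y hy
    rw [hisoP y hy] at hyP
    refine StTr_ext (fun i j => ?_) ?_
    · rw [h11]
      rfl
    · rw [map_zero]
      exact Prod.ext hy1 hyP.symm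
  · -- codisjoint
    rw [codisjoint_iff, eq_top_iff]
    intro x _
    have e1 : x = (x - π x) + π x := by abel
    rw [e1]
    have hcod : StTr_co (x - π x) = (0, (StTr_co x).2 - P *ᵥ (StTr_co x).2) := by
      rw [map_sub, hcoπ]
      exact Prod.ext (sub_self _) rfl
    refine Submodule.add_mem_sup ?_ ?_
    · have hvmem : (Matrix.of fun a b => ((StTr_co x).2 - P *ᵥ (StTr_co x).2) (a, b) :
          Matrix (Fin k) (Fin k) ℝ) ∈ so (Fin k) ℝ := by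
        rw [mem_so]
        ext a b
        show ((StTr_co x).2 - P *ᵥ (StTr_co x).2) (b, a) =
          -((StTr_co x).2 - P *ᵥ (StTr_co x).2) (a, b)
        rw [Pi.sub_apply, Pi.sub_apply, StTr_P_skew hP _ a b]
        have e2 : (StTr_co x).2 (b, a) = -(StTr_co x).2 (a, b) :=
          StTr_skew x (Sum.inr a) (Sum.inr b)
        rw [e2]
        ring
      refine ⟨?_, ⟨_, hvmem⟩, ?_, ?_⟩
      · ext i a
        exact congrFun (congrFun (congrArg Prod.fst hcod) i) a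
      · rw [← hker]
        show P *ᵥ ((StTr_co x).2 - P *ᵥ (StTr_co x).2) = 0
        rw [Matrix.mulVec_sub, hPP, sub_self]
      · ext a b
        exact congrFun (congrArg Prod.snd hcod) (a, b)
    · rw [hmem]
      refine ⟨hπ11 x, ?_⟩
      rw [hcoπ]
      exact hPP _
  · intro y hy
    refine StTr_ext (fun i j => ?_) ?_
    · rw [hπ11]
      rfl
    · rw [hcoπ, map_zero]
      exact Prod.ext (hiso y hy).1 (hisoP y hy)
  · intro x hx
    obtain ⟨h1, h2⟩ := (hmem x).1 hx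
    exact hπid x h1 h2
  · -- the bracket with the isotropy algebra
    intro y hy x hx
    obtain ⟨hx11, hxP⟩ := (hmem x).1 hx
    obtain ⟨hy1, u, hu, hyu⟩ := hiso y hy
    have hy12 : ∀ i a, (y : Matrix (Fin n ⊕ Fin k) (Fin n ⊕ Fin k) ℝ) (Sum.inl i) (Sum.inr a) = 0 :=
      fun i a => congrFun (congrFun hy1 i) a
    have hy21 : ∀ a i, (y : Matrix (Fin n ⊕ Fin k) (Fin n ⊕ Fin k) ℝ) (Sum.inr a) (Sum.inl i) = 0 :=
      fun a i => by rw [StTr_skew y (Sum.inl i) (Sum.inr a), hy12, neg_zero]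
    have hy22 : ∀ a b, (y : Matrix (Fin n ⊕ Fin k) (Fin n ⊕ Fin k) ℝ) (Sum.inr a) (Sum.inr b) =
        (u : Matrix (Fin k) (Fin k) ℝ) a b := fun a b => congrFun hyu (a, b)
    rw [hmem]
    refine ⟨fun i j => ?_, ?_⟩
    · rw [StTr_bracket]
      simp only [hx11, hy12, hy21, mul_zero, zero_mul, sub_self, Finset.sum_const_zero, add_zero]
    · have hUmem : (Matrix.of fun a b => (StTr_co x).2 (a, b) : Matrix (Fin k) (Fin k) ℝ) ∈
          so (Fin k) ℝ := by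
        rw [mem_so]
        ext a b
        exact StTr_skew x (Sum.inr a) (Sum.inr b)
      have hco2 : (StTr_co ⁅y, x⁆).2 = fun p : Fin k × Fin k =>
          ((⁅u, (⟨_, hUmem⟩ : so (Fin k) ℝ)⁆ : so (Fin k) ℝ) : Matrix (Fin k) (Fin k) ℝ)
            p.1 p.2 := by
        funext p
        show ((⁅y, x⁆ : so (Fin n ⊕ Fin k) ℝ) : Matrix (Fin n ⊕ Fin k) (Fin n ⊕ Fin k) ℝ)
          (Sum.inr p.1) (Sum.inr p.2) = _
        rw [StTr_bracket]
        simp only [hy12, hy21, hy22, mul_zero, zero_mul, sub_self, Finset.sum_const_zero,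
          zero_add]
        rw [StTr_lie_coe, Matrix.sub_apply, Matrix.mul_apply,
          Matrix.mul_apply, Finset.sum_sub_distrib]
        rfl
      rw [hco2]
      exact StTr_range h hP hker hu hxP
  · intro γ hγ x hx
    obtain ⟨Q₁, Q₂, h1, h2, ⟨h3, -, -⟩, h4, -, h6⟩ := haut γ hγ
    obtain ⟨hx11, hxP⟩ := (hmem x).1 hx
    rw [hmem]
    refine ⟨h4 x hx11, ?_⟩
    rw [h6, Matrix.mulVec_mulVec, ← h3, ← Matrix.mulVec_mulVec, hxP]
  · intro γ hγ x _ y _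
    obtain ⟨Q₁, Q₂, h1, h2, ⟨h3, h3A, h3Y⟩, -, h5, h6⟩ := haut γ hγ
    rw [hβ, hβ, StTr_betB_trace, StTr_betB_trace, h5, h5, h6, h6]
    have hQ₁ : Q₁ᵀ * Q₁ = 1 := mul_eq_one_comm.1 h1
    have hQ₂ : Q₂ᵀ * Q₂ = 1 := mul_eq_one_comm.1 h2
    congr 1
    · generalize (Matrix.of (StTr_co x).1 : Matrix (Fin n) (Fin k) ℝ) = X1
      generalize (Matrix.of (StTr_co y).1 : Matrix (Fin n) (Fin k) ℝ) = X2
      have e1 : Q₁ * X1 * Q₂ᵀ * A * (Q₁ * X2 * Q₂ᵀ)ᵀ = Q₁ * (X1 * A * X2ᵀ) * Q₁ᵀ := by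
        rw [Matrix.transpose_mul, Matrix.transpose_mul, Matrix.transpose_transpose]
        calc Q₁ * X1 * Q₂ᵀ * A * (Q₂ * (X2ᵀ * Q₁ᵀ))
            = Q₁ * X1 * (Q₂ᵀ * (A * Q₂)) * (X2ᵀ * Q₁ᵀ) := by
              simp only [Matrix.mul_assoc]
          _ = Q₁ * X1 * A * (X2ᵀ * Q₁ᵀ) := by
              rw [← h3A, ← Matrix.mul_assoc Q₂ᵀ, hQ₂, Matrix.one_mul]
          _ = Q₁ * (X1 * A * X2ᵀ) * Q₁ᵀ := by
              simp only [Matrix.mul_assoc]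
      rw [e1, Matrix.trace_mul_comm, ← Matrix.mul_assoc, hQ₁, Matrix.one_mul]
    · have hYc : (P * Y * P) * Kr Q₂ Q₂ = Kr Q₂ Q₂ * (P * Y * P) := by
        rw [← Matrix.mul_assoc, ← Matrix.mul_assoc, h3, Matrix.mul_assoc P (Kr Q₂ Q₂) Y, h3Y,
          ← Matrix.mul_assoc P Y, Matrix.mul_assoc (P * Y) (Kr Q₂ Q₂) P, h3, ← Matrix.mul_assoc]
      rw [Matrix.mulVec_mulVec, hYc, ← Matrix.mulVec_mulVec, Matrix.dotProduct_mulVec,
        Matrix.vecMul_mulVec, ← Matrix.dotProduct_mulVec, StTr_Kr_orth h2, Matrix.one_mulVec]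
  · intro x y
    rw [hβ, hβ]
    exact StTr_betB_symm hAt hPYPt _ _
  · intro i j
    rw [hβ, hcoX, hcoX]
    exact hort i j
  · intro x hx
    obtain ⟨hx11, hxP⟩ := (hmem x).1 hx
    have hbr := bridgeB hn hP hG hspan hort hxP
    rw [hβ, ← hbr]
    unfold ricci
    have e1 : ∑ i, β (π ⁅x, X i⁆) (π ⁅x, X i⁆) = ∑ s, betB A (P * Y * P)
        (prB P (brB (StTr_co x) (Xc s))) (prB P (brB (StTr_co x) (Xc s))) := by
      refine Finset.sum_congr rfl fun s _ => ?_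
      rw [hβ, hcoπ, StTr_co_lie hx11 (hX11 s), hcoX]
    have e2 : ∑ i, ∑ j, (β (π ⁅X i, X j⁆) x) ^ 2 = ∑ s, ∑ t, (betB A (P * Y * P)
        (prB P (brB (Xc s) (Xc t))) (StTr_co x)) ^ 2 := by
      refine Finset.sum_congr rfl fun s _ => Finset.sum_congr rfl fun t _ => ?_
      rw [hβ, hcoπ, StTr_co_lie (hX11 s) (hX11 t), hcoX, hcoX]
    have e3 : killingForm ℝ (so (Fin n ⊕ Fin k) ℝ) x x = -(((n : ℝ) + k - 2) *
        (2 * ∑ i, (StTr_co x).1 i ⬝ᵥ (StTr_co x).1 i + (StTr_co x).2 ⬝ᵥ (StTr_co x).2)) := by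
      rw [so_killing_gen, StTr_trace hx11, Fintype.card_sum, Fintype.card_fin, Fintype.card_fin]
      push_cast
      ring
    rw [e1, e2, e3]
    ring

end Pool.Agent.EStab
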