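import Pool.Agent.EStab.Defs

/-!
# Structure constants and the bilinear map `Θ`

`S.c a b k` is the `k`-th coordinate of `[e_a, e_b]` in a basis which is orthonormal for minus the
Killing form.  `S.D x` is the matrix of `ad e_x` and
`Θ(U, V)_{xy} = tr (ad_x U ad_yᵀ Vᵀ) = ∑ U_{ab} V_{kl} c_{xak} c_{ybl}`.
-/

namespace Pool.Agent.EStab

open Matrix

/-- Real square matrices. -/
abbrev Mt (d : ℕ) := Matrix (Fin d) (Fin d) ℝ

/-- Structure constants of a Lie algebra with negative definite Killing form, in a basis which is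
orthonormal for minus the Killing form. -/
structure SC (d : ℕ) where
  /-- the structure constants -/
  c : Fin d → Fin d → Fin d → ℝ
  anti : ∀ a b k, c b a k = -c a b k
  anti' : ∀ a b k, c a k b = -c a b k
  norm : ∀ i j, ∑ a, ∑ b, c i a b * c j a b = if i = j then 1 else 0

namespace SC

variable {d : ℕ} (S : SC d)

/-- The matrix of `ad e_x`. -/
def D (x : Fin d) : Mt d := Matrix.of fun k a => S.c x a k

/-- The bilinear map `Θ`. -/
def Th (U V : Mt d) : Mt d :=
  Matrix.of fun x y => Matrix.trace (S.D x * U * (S.D y)ᵀ * Vᵀ)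

/-- The orthogonal matrix `k` is an automorphism of the Lie algebra. -/
def Pres (k : Mt d) : Prop :=
  k * kᵀ = 1 ∧ ∀ x a l, ∑ x', ∑ a', ∑ l', k x x' * k a a' * k l l' * S.c x' a' l' = S.c x a l

theorem D_transpose (x : Fin d) : (S.D x)ᵀ = -S.D x := by
  ext a k
  exact S.anti' x k a

theorem Th_apply (U V : Mt d) (x y : Fin d) :
    S.Th U V x y = ∑ a, ∑ b, ∑ k, ∑ l, U a b * V k l * (S.c x a k * S.c y b l) := by
  have hsw : ∀ F : Fin d → Fin d → Fin d → Fin d → ℝ,
      ∑ a, ∑ b, ∑ k, ∑ l, F a b k l = ∑ k, ∑ l, ∑ b, ∑ a, F a b k l := by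
    intro F
    calc ∑ a, ∑ b, ∑ k, ∑ l, F a b k l = ∑ a, ∑ k, ∑ b, ∑ l, F a b k l :=
          Finset.sum_congr rfl fun a _ => Finset.sum_comm
      _ = ∑ k, ∑ a, ∑ b, ∑ l, F a b k l := Finset.sum_comm
      _ = ∑ k, ∑ a, ∑ l, ∑ b, F a b k l :=
          Finset.sum_congr rfl fun k _ => Finset.sum_congr rfl fun a _ => Finset.sum_comm
      _ = ∑ k, ∑ l, ∑ a, ∑ b, F a b k l :=
          Finset.sum_congr rfl fun k _ => Finset.sum_comm
      _ = ∑ k, ∑ l, ∑ b, ∑ a, F a b k l :=
          Finset.sum_congr rfl fun k _ => Finset.sum_congr rfl fun l _ => Finset.sum_comm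
  rw [hsw]
  simp only [Th, Matrix.of_apply, Matrix.trace, Matrix.diag_apply, Matrix.mul_apply,
    Matrix.transpose_apply, D, Finset.sum_mul]
  refine Finset.sum_congr rfl fun k _ => Finset.sum_congr rfl fun l _ =>
    Finset.sum_congr rfl fun b _ => Finset.sum_congr rfl fun a _ => ?_
  ring

theorem Th_add_left (U U' V : Mt d) : S.Th (U + U') V = S.Th U V + S.Th U' V := by
  ext x y
  simp only [Th, Matrix.of_apply, Matrix.add_apply, Matrix.mul_add, Matrix.add_mul,
    Matrix.trace_add]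

theorem Th_add_right (U V V' : Mt d) : S.Th U (V + V') = S.Th U V + S.Th U V' := by
  ext x y
  simp only [Th, Matrix.of_apply, Matrix.add_apply, Matrix.transpose_add, Matrix.mul_add,
    Matrix.trace_add]

theorem Th_smul_left (t : ℝ) (U V : Mt d) : S.Th (t • U) V = t • S.Th U V := by
  ext x y
  simp only [Th, Matrix.of_apply, Matrix.smul_apply, Matrix.mul_smul, Matrix.smul_mul,
    Matrix.trace_smul]

theorem Th_smul_right (t : ℝ) (U V : Mt d) : S.Th U (t • V) = t • S.Th U V := by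
  ext x y
  simp only [Th, Matrix.of_apply, Matrix.smul_apply, Matrix.transpose_smul, Matrix.mul_smul,
    Matrix.trace_smul]

theorem Th_comm (U V : Mt d) : S.Th U V = S.Th V U := by
  ext x y
  simp only [Th, Matrix.of_apply]
  rw [← Matrix.trace_transpose]
  simp only [Matrix.transpose_mul, Matrix.transpose_transpose]
  rw [← Matrix.mul_assoc, ← Matrix.mul_assoc, Matrix.trace_mul_comm, D_transpose, D_transpose]
  simp only [Matrix.neg_mul, Matrix.mul_neg, Matrix.mul_assoc]

theorem Th_transpose (U V : Mt d) : (S.Th U V)ᵀ = S.Th Uᵀ Vᵀ := by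
  ext x y
  simp only [Th, Matrix.of_apply, Matrix.transpose_apply, Matrix.transpose_transpose]
  rw [← Matrix.trace_transpose]
  simp only [Matrix.transpose_mul, Matrix.transpose_transpose]
  rw [Matrix.trace_mul_comm]
  simp only [Matrix.mul_assoc]

theorem Th_one_one : S.Th 1 1 = 1 := by
  ext x y
  simp only [Th, Matrix.of_apply, Matrix.mul_one, Matrix.transpose_one]
  rw [Matrix.one_apply, ← S.norm x y, Matrix.trace, Finset.sum_comm]
  refine Finset.sum_congr rfl fun k _ => ?_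
  simp only [Matrix.diag_apply, Matrix.mul_apply, Matrix.transpose_apply, D, Matrix.of_apply]

theorem D_pres {k : Mt d} (hk : S.Pres k) (x : Fin d) :
    S.D x = ∑ x', k x x' • (k * S.D x' * kᵀ) := by
  ext l a
  rw [Matrix.sum_apply]
  simp only [Matrix.smul_apply, Matrix.mul_apply, Matrix.transpose_apply, D, Matrix.of_apply,
    smul_eq_mul, Finset.sum_mul, Finset.mul_sum]
  rw [← hk.2 x a l]
  refine Finset.sum_congr rfl fun x' _ => Finset.sum_congr rfl fun a' _ =>
    Finset.sum_congr rfl fun l' _ => ?_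
  ring

theorem Th_conj {k : Mt d} (hk : S.Pres k) (U V : Mt d) :
    S.Th (k * U * kᵀ) (k * V * kᵀ) = k * S.Th U V * kᵀ := by
  have hk' : kᵀ * k = 1 := mul_eq_one_comm.1 hk.1
  have key : ∀ x' y', Matrix.trace ((k * S.D x' * kᵀ) * (k * U * kᵀ) * (k * S.D y' * kᵀ)ᵀ
      * (k * V * kᵀ)ᵀ) = S.Th U V x' y' := by
    intro x' y'
    have h1 : (k * S.D x' * kᵀ) * (k * U * kᵀ) * (k * S.D y' * kᵀ)ᵀ * (k * V * kᵀ)ᵀ
        = k * (S.D x' * (kᵀ * k) * U * (kᵀ * k) * (S.D y')ᵀ * (kᵀ * k) * Vᵀ) * kᵀ := by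
      simp only [Matrix.transpose_mul, Matrix.transpose_transpose, Matrix.mul_assoc]
    rw [h1, hk', Matrix.trace_mul_comm, ← Matrix.mul_assoc, hk']
    simp only [Matrix.mul_one, Matrix.one_mul, Th, Matrix.of_apply]
  ext x y
  have h2 : S.Th (k * U * kᵀ) (k * V * kᵀ) x y
      = Matrix.trace (S.D x * (k * U * kᵀ) * (S.D y)ᵀ * (k * V * kᵀ)ᵀ) := rfl
  rw [h2, S.D_pres hk x, S.D_pres hk y]
  simp only [Matrix.transpose_sum, Matrix.transpose_smul, Finset.sum_mul, Finset.mul_sum,
    Matrix.smul_mul, Matrix.mul_smul, Matrix.trace_sum, Matrix.trace_smul, key, smul_eq_mul]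
  simp only [Matrix.mul_apply, Matrix.transpose_apply, Finset.sum_mul]
  refine Finset.sum_congr rfl fun y' _ => Finset.sum_congr rfl fun x' _ => ?_
  ring

/-- If an automorphism commutes with `U` and `V`, then it commutes with `Θ(U, V)`. -/
theorem Th_commute {k : Mt d} (hk : S.Pres k) {U V : Mt d} (hU : k * U = U * k)
    (hV : k * V = V * k) : k * S.Th U V = S.Th U V * k := by
  have hk' : kᵀ * k = 1 := mul_eq_one_comm.1 hk.1
  have h1 : k * U * kᵀ = U := by rw [hU, Matrix.mul_assoc, hk.1, Matrix.mul_one]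
  have h2 : k * V * kᵀ = V := by rw [hV, Matrix.mul_assoc, hk.1, Matrix.mul_one]
  have h3 := S.Th_conj hk U V
  rw [h1, h2] at h3
  calc k * S.Th U V = k * S.Th U V * (kᵀ * k) := by rw [hk', Matrix.mul_one]
    _ = (k * S.Th U V * kᵀ) * k := by simp only [Matrix.mul_assoc]
    _ = S.Th U V * k := by rw [← h3]

end SC

end Pool.Agent.EStab
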